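import Pool.Agent.H.MP_e11395_an.A.Iface
import Pool.Agent.H.MP_e11395_an.B.Nuc

/-!
# What part A provides
-/

set_option autoImplicit false

namespace Pool.Agent.H.MP_e11395_an

/-- Composition of a functional with a *-homomorphism. -/
noncomputable def pull {A B : Type} [CStarAlgebra A] [CStarAlgebra B] (τ : A →ₗ[ℂ] ℂ)
    (q : B →⋆ₐ[ℂ] A) : B →ₗ[ℂ] ℂ :=
  τ ∘ₗ (q : B →ₐ[ℂ] A).toLinearMap

@[simp] theorem pull_apply {A B : Type} [CStarAlgebra A] [CStarAlgebra B] (τ : A →ₗ[ℂ] ℂ)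
    (q : B →⋆ₐ[ℂ] A) (b : B) : pull τ q b = τ (q b) := rfl

/-- The extreme traces of `B` come from `D` and from full matrix algebras. -/
def ExtTr {G : Type} [Group G] (W : TwG G) (B : Type) [CStarAlgebra B] : Prop :=
  ∀ σ : B →ₗ[ℂ] ℂ, IsExt σ →
    (∃ (k : ℕ) (q : B →⋆ₐ[ℂ] Mt (Fin (k + 1)) ℂ), Function.Surjective q ∧ σ = pull mtr q) ∨
      ∃ q : B →⋆ₐ[ℂ] W.DT, Function.Surjective q ∧ σ = pull W.tauD q

/-- The algebras `B` and `B'` of the construction, with all properties used later. -/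
structure AData {G : Type} [Group G] (W : TwG G) where
  d : ℕ → ℕ
  d_pos : ∀ k, 0 < d k
  B : Type
  B' : Type
  HH : Type
  [instB : CStarAlgebra B]
  [instB' : CStarAlgebra B']
  [instH : NormedAddCommGroup HH]
  [instH1 : InnerProductSpace ℂ HH]
  [instH2 : CompleteSpace HH]
  C : ConeAlg d B
  C' : ConeAlg d B'
  J : C.Hom C'
  π' : B' →⋆ₐ[ℂ] (HH →L[ℂ] HH)
  π'_inj : Function.Injective π'
  nuc : NucData J π'
  sep : C.Sep
  separable : TopologicalSpace.SeparableSpace B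
  extTr : ExtTr W B
  q₀ : B →⋆ₐ[ℂ] W.DT
  q₀_surj : Function.Surjective q₀
  q₀_ext : IsExt (pull W.tauD q₀)

attribute [instance] AData.instB AData.instB' AData.instH AData.instH1 AData.instH2

end Pool.Agent.H.MP_e11395_an
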