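import Pool.Agent.H.MP_e11395_an.A.BNucEst

/-!
# MP_e11395, part A2: nuclear data for the inclusion of `B` in `B'` (main theorem)
-/

set_option autoImplicit false
set_option linter.unusedSectionVars false

open Filter Topology
open scoped ENNReal InnerProductSpace BoundedContinuousFunction

namespace Pool.Agent.H.MP_e11395_an.PA

noncomputable section

variable {G : Type} [Group G] (W : TwG G) {K m : ℕ} {E : Finset G}
  (ψ : Matrix E E ℂ →ₗ[ℂ] LL G)

/-- The estimate. -/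
theorem nuc_est (F : BT W) {δ : ℝ} (hδ : 0 ≤ δ)
    (hm : ∀ (j : Fin (m + 2)) (t : unitInterval), |((m : ℝ) + 1) * t - (j : ℕ)| < 1 →
      ‖F.val.f (tt m j) - F.val.f t‖ ≤ δ)
    (hm' : ∀ (j : Fin (m + 2)) (t : unitInterval), |((m : ℝ) + 1) * t - (j : ℕ)| < 1 →
      ‖F.val.xs (tt m j) - F.val.xs t‖ ≤ δ)
    (hK : ∀ k, K ≤ k → ∀ s, ‖F.val.x s k - phi W k (sc s F.val.f)‖ ≤ δ)
    (hψ : ∀ i : Fin (m + 1), ‖ψ (Matrix.of fun e f : E =>
      inner ℂ (dl (e : G) : H2 G) (F.val.f (tt m i.succ) (dl (f : G)))) -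
        F.val.f (tt m i.succ)‖ ≤ δ) :
    ‖beta W ψ (coef W (incl F) : Matrix (NIx W K m E) (NIx W K m E) ℂ) - incl F‖ ≤ 3 * δ := by
  obtain ⟨c, hc⟩ : ∃ c : Matrix (NIx W K m E) (NIx W K m E) ℂ, c = coef W (incl F) := ⟨_, rfl⟩
  rw [← hc]
  have hA : ∀ j : Fin (m + 2), ‖fA W ψ j c - F.val.f (tt m j)‖ ≤ δ := by
    intro j
    refine Fin.cases ?_ (fun i => ?_) j
    · rw [fA_zero, hc, coef_none, tt_zero, incl_val, ← F.mem.ev0_f, sub_self, norm_zero]
      exact hδ
    · rw [fA_succ, hc, coef_blkE]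
      exact hψ i
  have hf : ∀ t, ‖fB W ψ c t - F.val.f t‖ ≤ 2 * δ := by
    refine pl_dist m _ _ fun j t h => ?_
    calc ‖fA W ψ j c - F.val.f t‖ = ‖(fA W ψ j c - F.val.f (tt m j)) +
          (F.val.f (tt m j) - F.val.f t)‖ := by rw [sub_add_sub_cancel]
      _ ≤ δ + δ := (norm_add_le _ _).trans (add_le_add (hA j) (hm j t h))
      _ = 2 * δ := by ring
  have hfn : ‖fB W ψ c - F.val.f‖ ≤ 2 * δ := by
    rw [ContinuousMap.norm_le _ (by linarith)]
    exact hf
  rw [← BP.norm_val, BP.val_sub, incl_val]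
  refine Amb.norm_le (by linarith) (fun s k => ?_) fun s => ?_
  · rw [Amb.sub_x]
    rcases lt_or_ge k K with hk | hk
    · have h1 : (beta W ψ c).val.x s k = xB W ⟨k, hk⟩ c s := beta_x_lt W ψ c s ⟨k, hk⟩
      rw [h1]
      have h2 : ‖xB W ⟨k, hk⟩ c s - F.val.x s k‖ ≤ δ := by
        refine pl_dist m _ (fun s => F.val.x s k) (fun j t h => ?_) s
        rw [hc, xA_coef W F ⟨k, hk⟩ j]
        exact ((F.val.xs (tt m j) - F.val.xs t).norm_coe_le_norm k).trans (hm' j t h)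
      linarith
    · rw [beta_x_ge W ψ c s hk]
      have h1 : phi W k (sc s (fB W ψ c)) - F.val.x s k =
          phi W k (sc s (fB W ψ c - F.val.f)) - (F.val.x s k - phi W k (sc s F.val.f)) := by
        rw [sc_sub', phi_sub]
        abel
      rw [h1]
      refine (norm_sub_le _ _).trans ?_
      have h2 := (norm_phi_le W k (sc s (fB W ψ c - F.val.f))).trans
        ((norm_sc_le s (fB W ψ c - F.val.f)).trans hfn)
      have h3 := hK k hk s
      linarith
  · rw [Amb.sub_f, ContinuousMap.sub_apply, beta_f]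
    have := hf s
    linarith

/-- The nuclear data for the inclusion of `B` in `B'`. -/
theorem nucData (hW : W.Ker) : NucData (coneHom W) (piPrime W) := by
  classical
  intro S ε hε
  obtain ⟨δ, hδ⟩ : ∃ δ : ℝ, δ = ε / 4 := ⟨_, rfl⟩
  have hδ0 : 0 < δ := by rw [hδ]; positivity
  obtain ⟨K, hK⟩ := InB.unif_finset S hδ0
  obtain ⟨m₁, hm₁⟩ := exists_mesh S (fun F : BT W => F.val.f) hδ0
  obtain ⟨m₂, hm₂⟩ := exists_mesh S (fun F : BT W => F.val.xs) hδ0
  obtain ⟨m, hm⟩ : ∃ m, m = max m₁ m₂ := ⟨_, rfl⟩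
  have hTf : ∃ Tf : BT W × Fin (m + 1) → W.DT, ∀ F i, (Tf (F, i)).val = F.val.f (tt m i.succ) :=
    ⟨fun p => TwG.DT.mk (p.1.val.f (tt m p.2.succ)) (p.1.mem.D _), fun F i => rfl⟩
  obtain ⟨Tf, hTf⟩ := hTf
  obtain ⟨E, ψ, hcp, hone, hψ⟩ :=
    hW ((S ×ˢ (Finset.univ : Finset (Fin (m + 1)))).image Tf) δ hδ0
  have hest : ∀ F ∈ S, ‖beta W ψ (coef W (incl F) :
      Matrix (NIx W K m E) (NIx W K m E) ℂ) - incl F‖ < ε := by
    intro F hF
    refine lt_of_le_of_lt (nuc_est W ψ F hδ0.le ?_ ?_ ?_ ?_) (by rw [hδ]; linarith : 3 * δ < ε)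
    · exact hm₁ m (by rw [hm]; exact le_max_left _ _) F hF
    · exact hm₂ m (by rw [hm]; exact le_max_right _ _) F hF
    · exact fun k hk s => hK F hF k hk s
    · intro i
      have h1 := hψ (Tf (F, i)) (Finset.mem_image.2 ⟨(F, i), by simp [hF], rfl⟩)
      rw [hTf] at h1
      exact h1.le
  obtain ⟨e⟩ : Nonempty (NIx W K m E ≃ Fin (Fintype.card (NIx W K m E))) :=
    ⟨Fintype.equivFin _⟩
  let R : Matrix (Fin (Fintype.card (NIx W K m E))) (Fin (Fintype.card (NIx W K m E))) ℂ →ₗ[ℂ]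
      Matrix (NIx W K m E) (NIx W K m E) ℂ :=
    { toFun := fun c => c.submatrix e e
      map_add' := fun _ _ => rfl
      map_smul' := fun _ _ => rfl }
  refine ⟨Fintype.card (NIx W K m E), fun s => ww W (e.symm s), beta W ψ ∘ₗ R, ?_, ?_, ?_, ?_⟩
  · exact (orthonormal_ww W).comp _ e.symm.injective
  · exact (isCP_beta W ψ hcp).comp (isCP_submatrix (e : NIx W K m E → Fin _) R fun c => rfl)
  · have h1 : R 1 = 1 := Matrix.submatrix_one_equiv e
    rw [LinearMap.comp_apply, h1]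
    exact beta_one W ψ hone
  · intro F hF
    have h1 : R (Matrix.of fun s t => inner ℂ (ww W (e.symm s))
        (piPrime W ((coneHom W).j F) (ww W (e.symm t)))) = coef W (incl F) := by
      ext a b
      change inner ℂ (ww W (e.symm (e a))) (piPrime W (incl F) (ww W (e.symm (e b)))) = _
      rw [e.symm_apply_apply, e.symm_apply_apply]
      rfl
    rw [LinearMap.comp_apply, h1]
    exact hest F hF

end

end Pool.Agent.H.MP_e11395_an.PA
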