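import Pool.Agent.H.MP_e11395_an.A.AOf
import Pool.Agent.H.MP_e11395_an.A.BNuc

/-!
# MP_e11395, part A: the algebras `B` and `B'`
-/

set_option autoImplicit false

namespace Pool.Agent.H.MP_e11395_an

/-- **Part A.** All data of part A for a group with a length function and a 2-cocycle such that
the twisted group algebra has a unique trace and its inclusion in the bounded operators is
nuclear by compressions. -/
theorem exists_AData {G : Type} [Group G] (W : TwG G) (hU : W.UniqTr) (hK : W.Ker)
    (hτ : IsTr W.tauD) : Nonempty (AData W) :=
  PA.exists_AData_of W hU hτ (PA.piPrime W) (PA.piPrime_injective W) (PA.nucData W hK)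

end Pool.Agent.H.MP_e11395_an
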