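import Pool.Agent.H.MP_e11395_an.A.BRed

/-!
# MP_e11395, part A2: `B` is separable
-/

set_option autoImplicit false
set_option linter.unusedSectionVars false

open Filter Topology
open scoped ENNReal InnerProductSpace BoundedContinuousFunction

namespace Pool.Agent.H.MP_e11395_an.PA

noncomputable section

variable {G : Type} [Group G] (W : TwG G)

include W in
theorem countable_G : Countable G := by
  have h : (Set.univ : Set G) = ⋃ n : ℕ, {x | W.len x ≤ n} :=
    (Set.eq_univ_of_forall fun x => Set.mem_iUnion.2 ⟨W.len x, le_refl (W.len x)⟩).symm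
  rw [← Set.countable_univ_iff, h]
  exact Set.countable_iUnion fun n => (W.len_fin n).countable

/-- `D` is separable. -/
theorem separable_DT : TopologicalSpace.SeparableSpace W.DT := by
  haveI := countable_G W
  have h1 : TopologicalSpace.IsSeparable
      ((Submodule.span ℂ (Set.range W.lamD) : Submodule ℂ W.DT) : Set W.DT) :=
    (Set.countable_range W.lamD).isSeparable.span (R := ℂ)
  have h2 : closure ((Submodule.span ℂ (Set.range W.lamD) : Submodule ℂ W.DT) : Set W.DT) =
      Set.univ := by
    refine Set.eq_univ_of_forall fun T => Metric.mem_closure_iff.2 fun ε hε => ?_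
    obtain ⟨c, hc⟩ := W.D_dense T ε hε
    refine ⟨_, ?_, by rw [dist_eq_norm]; exact hc⟩
    exact Submodule.sum_mem _ fun x _ => Submodule.smul_mem _ _ (Submodule.subset_span ⟨x, rfl⟩)
  rw [← TopologicalSpace.isSeparable_univ_iff, ← h2]
  exact h1.closure

theorem separable_Mt (m : ℕ) : TopologicalSpace.SeparableSpace (Mt (Fin m) ℂ) := by
  have h : TopologicalSpace.SeparableSpace (Fin m → Fin m → ℂ) := inferInstance
  exact h

/-- The functions with values in a separable algebra. -/
theorem separable_QE (E : Type) [CStarAlgebra E] [TopologicalSpace.SeparableSpace E] :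
    TopologicalSpace.SeparableSpace (QE E) := by
  haveI : SecondCountableTopology E := UniformSpace.secondCountable_of_separable E
  haveI : SecondCountableTopology C(unitInterval, E) := inferInstance
  haveI : SecondCountableTopology ↥(QEs E) := inferInstance
  have h : TopologicalSpace.SeparableSpace ↥(QEs E) := inferInstance
  exact h

theorem eps_RK {k : ℕ} {E : BT W} (hE : E.val.f = 0) : QE.eps (RK W k E) = 0 := by
  have h1 := QE.eps_spec (RK W k E)
  have h2 : E.val.x 0 k = 0 := by
    rw [E.mem.x0, hE]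
    rfl
  rw [RK_val, h2, ← map_zero (algebraMap ℂ (LL G)), cmp_algebraMap] at h1
  exact ((algebraMap ℂ (Mt (Fin (ball W k).card) ℂ)).injective h1).symm

theorem LK_RK_x {k : ℕ} {E : BT W} (hE : E.val.f = 0) (s : unitInterval) (j : ℕ) :
    (LK W k (RK W k E)).val.x s j = if j = k then E.val.x s k else 0 := by
  have h1 : E.val.x s k * P W k = E.val.x s k := by
    have h1 := E.mem.out s k
    rw [hE, ContinuousMap.zero_apply, zero_mul, mul_sub, mul_one, sub_eq_zero] at h1
    exact h1.symm
  have h2 : P W k * E.val.x s k = E.val.x s k := by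
    rw [← E.mem.comm s k]
    exact h1
  rw [LK_x, eps_RK W hE, map_zero, zero_add, zero_smul, sub_zero, RK_val, emb_cmp k h1 h2]

theorem LK_RK_f {k : ℕ} {E : BT W} (hE : E.val.f = 0) (s : unitInterval) :
    (LK W k (RK W k E)).val.f s = 0 := by
  rw [LK_f, eps_RK W hE, map_zero, zero_add]

/-- The approximation of `F` by lifts. -/
theorem approx_F (F : BT W) (ε : ℝ) (hε : 0 < ε) : ∃ (K : ℕ)
    (m : ∀ k : Fin K, QE (Mt (Fin (ball W k).card) ℂ)),
      ‖F - (LI W (RI W F) + ∑ k : Fin K, LK W k (m k))‖ ≤ ε := by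
  obtain ⟨K, hK⟩ := F.mem.asy_unif ε hε
  set E : BT W := F - LI W (RI W F) with hEd
  have hE : E.val.f = 0 := by
    refine ContinuousMap.ext fun t => ?_
    rw [hEd, BT.val_sub, Amb.sub_f, ContinuousMap.sub_apply]
    exact sub_self _
  have hEx : ∀ s k, E.val.x s k = F.val.x s k - phi W k (sc s F.val.f) := fun s k => by
    rw [hEd, BT.val_sub, Amb.sub_x]
    congr 1
  refine ⟨K, fun k => RK W k E, ?_⟩
  rw [← sub_sub, ← hEd, ← BT.norm_val]
  refine Amb.norm_le hε.le (fun s j => ?_) (fun s => ?_)
  · have h3 : (∑ k : Fin K, LK W k (RK W k E) : BT W).val.x s j =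
        ∑ k : Fin K, (LK W k (RK W k E) : BT W).val.x s j :=
      map_sum ((Amb.ev1 s j).comp BT.valHom) _ _
    rw [BT.val_sub, Amb.sub_x, h3]
    simp only [LK_RK_x W hE]
    rw [Fin.sum_univ_eq_sum_range (fun k => if j = k then E.val.x s k else 0) K,
      Finset.sum_ite_eq]
    by_cases hj : j < K
    · rw [if_pos (Finset.mem_range.2 hj), sub_self, norm_zero]
      exact hε.le
    · rw [if_neg (fun h => hj (Finset.mem_range.1 h)), sub_zero, hEx]
      exact hK j (not_lt.1 hj) s
  · have h3 : (∑ k : Fin K, LK W k (RK W k E) : BT W).val.f s =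
        ∑ k : Fin K, (LK W k (RK W k E) : BT W).val.f s :=
      map_sum ((Amb.ev2 s).comp BT.valHom) _ _
    rw [BT.val_sub, Amb.sub_f, ContinuousMap.sub_apply, h3,
      Finset.sum_eq_zero (fun k _ => LK_RK_f W hE s), sub_zero, hE, ContinuousMap.zero_apply,
      norm_zero]
    exact hε.le

/-- `B` is separable. -/
theorem separable_BT : TopologicalSpace.SeparableSpace (BT W) := by
  haveI := separable_DT W
  haveI := separable_QE W.DT
  haveI : ∀ m, TopologicalSpace.SeparableSpace (Mt (Fin m) ℂ) := separable_Mt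
  haveI : ∀ m, TopologicalSpace.SeparableSpace (QE (Mt (Fin m) ℂ)) := fun m => separable_QE _
  have h1 : ∀ K : ℕ, TopologicalSpace.IsSeparable (Set.range fun p : QE W.DT ×
      (∀ k : Fin K, QE (Mt (Fin (ball W k).card) ℂ)) =>
        LI W p.1 + ∑ k : Fin K, LK W k (p.2 k)) := fun K => by
    refine TopologicalSpace.isSeparable_range ?_
    refine ((LI_cont W).comp continuous_fst).add (continuous_finsetSum _ fun k _ => ?_)
    exact (LK_cont W k).comp ((continuous_apply k).comp continuous_snd)
  have h2 := (TopologicalSpace.IsSeparable.iUnion h1).closure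
  rw [← TopologicalSpace.isSeparable_univ_iff]
  refine h2.mono fun F _ => Metric.mem_closure_iff.2 fun ε hε => ?_
  obtain ⟨K, m, hm⟩ := approx_F W F (ε / 2) (by positivity)
  refine ⟨_, Set.mem_iUnion.2 ⟨K, ⟨(RI W F, m), rfl⟩⟩, ?_⟩
  rw [dist_eq_norm]
  exact hm.trans_lt (by linarith)

end

end Pool.Agent.H.MP_e11395_an.PA
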