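import Pool.Agent.H.MP_e11395_an.A.BTr
import Pool.Agent.H.MP_e11395_an.A.BSepar

/-!
# MP_e11395, part A2: assembly, given the nuclear data
-/

set_option autoImplicit false
set_option linter.unusedSectionVars false

namespace Pool.Agent.H.MP_e11395_an.PA

/-- All data of part A, given a faithful representation of `B'` with nuclear data. -/
theorem exists_AData_of {G : Type} [Group G] (W : TwG G) (hU : W.UniqTr) (hτ : IsTr W.tauD)
    {HH : Type} [NormedAddCommGroup HH] [InnerProductSpace ℂ HH] [CompleteSpace HH]
    (π' : BP W →⋆ₐ[ℂ] (HH →L[ℂ] HH)) (hπ : Function.Injective π')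
    (hN : NucData (coneHom W) π') : Nonempty (AData W) :=
  ⟨{ d := dd W
     d_pos := dd_pos W
     B := BT W
     B' := BP W
     HH := HH
     C := coneB W
     C' := coneP W
     J := coneHom W
     π' := π'
     π'_inj := hπ
     nuc := hN
     sep := coneB_sep W
     separable := separable_BT W
     extTr := extTrB hU hτ
     q₀ := q0 W
     q₀_surj := q0_surj
     q₀_ext := q0_ext hU hτ }⟩

end Pool.Agent.H.MP_e11395_an.PA
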