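import Pool.Agent.H.MP_e11395_an.A.BAlgA

/-!
# MP_e11395, part A2: the C*-algebras `BP W` (this is `B'`) and `BT W` (this is `B`)
-/

set_option autoImplicit false
set_option linter.unusedSectionVars false

open Filter Topology
open scoped ENNReal InnerProductSpace BoundedContinuousFunction

namespace Pool.Agent.H.MP_e11395_an.PA

noncomputable section

variable {G : Type} [Group G] (W : TwG G)

/-- The C*-algebra `B'`. -/
def BP : Type := ↥(BsP W)

instance : CStarAlgebra (BP W) := inferInstanceAs (CStarAlgebra ↥(BsP W))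

/-- The C*-algebra `B`. -/
def BT : Type := ↥(Bs W)

instance : CStarAlgebra (BT W) := inferInstanceAs (CStarAlgebra ↥(Bs W))

variable {W}

/-- The underlying function. -/
def BP.val (F : BP W) : Amb G := Subtype.val F

/-- The underlying function. -/
def BT.val (F : BT W) : Amb G := Subtype.val F

/-- Constructor. -/
def BP.mk (F : Amb G) (h : InP W F) : BP W := ⟨F, h⟩

/-- Constructor. -/
def BT.mk (F : Amb G) (h : InB W F) : BT W := ⟨F, h⟩

@[simp] theorem BP.val_mk (F : Amb G) (h : InP W F) : (BP.mk F h).val = F := rfl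
@[simp] theorem BT.val_mk (F : Amb G) (h : InB W F) : (BT.mk F h).val = F := rfl

@[ext] theorem BP.ext {F F' : BP W} (h : F.val = F'.val) : F = F' := Subtype.ext h
@[ext] theorem BT.ext {F F' : BT W} (h : F.val = F'.val) : F = F' := Subtype.ext h

theorem BP.mem (F : BP W) : InP W F.val := F.2
theorem BT.mem (F : BT W) : InB W F.val := F.2

/-- The inclusion in the ambient algebra. -/
def BP.valHom : BP W →⋆ₐ[ℂ] Amb G where
  toFun := BP.val
  map_one' := rfl
  map_mul' _ _ := rfl
  map_zero' := rfl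
  map_add' _ _ := rfl
  commutes' _ := rfl
  map_star' _ := rfl

/-- The inclusion in the ambient algebra. -/
def BT.valHom : BT W →⋆ₐ[ℂ] Amb G where
  toFun := BT.val
  map_one' := rfl
  map_mul' _ _ := rfl
  map_zero' := rfl
  map_add' _ _ := rfl
  commutes' _ := rfl
  map_star' _ := rfl

@[simp] theorem BP.valHom_apply (F : BP W) : BP.valHom F = F.val := rfl
@[simp] theorem BT.valHom_apply (F : BT W) : BT.valHom F = F.val := rfl

theorem BP.norm_val (F : BP W) : ‖F.val‖ = ‖F‖ := rfl
theorem BT.norm_val (F : BT W) : ‖F.val‖ = ‖F‖ := rfl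

@[simp] theorem BP.val_mul (F F' : BP W) : (F * F').val = F.val * F'.val := rfl
@[simp] theorem BT.val_mul (F F' : BT W) : (F * F').val = F.val * F'.val := rfl
@[simp] theorem BP.val_add (F F' : BP W) : (F + F').val = F.val + F'.val := rfl
@[simp] theorem BT.val_add (F F' : BT W) : (F + F').val = F.val + F'.val := rfl
@[simp] theorem BP.val_sub (F F' : BP W) : (F - F').val = F.val - F'.val := rfl
@[simp] theorem BT.val_sub (F F' : BT W) : (F - F').val = F.val - F'.val := rfl
@[simp] theorem BP.val_star (F : BP W) : (star F).val = star F.val := rfl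
@[simp] theorem BT.val_star (F : BT W) : (star F).val = star F.val := rfl
@[simp] theorem BP.val_one : (1 : BP W).val = 1 := rfl
@[simp] theorem BT.val_one : (1 : BT W).val = 1 := rfl
@[simp] theorem BP.val_zero : (0 : BP W).val = 0 := rfl
@[simp] theorem BT.val_zero : (0 : BT W).val = 0 := rfl
@[simp] theorem BP.val_smul (c : ℂ) (F : BP W) : (c • F).val = c • F.val := rfl
@[simp] theorem BT.val_smul (c : ℂ) (F : BT W) : (c • F).val = c • F.val := rfl
@[simp] theorem BP.val_algebraMap (c : ℂ) :
    (algebraMap ℂ (BP W) c).val = algebraMap ℂ (Amb G) c := rfl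
@[simp] theorem BT.val_algebraMap (c : ℂ) :
    (algebraMap ℂ (BT W) c).val = algebraMap ℂ (Amb G) c := rfl

/-- The inclusion of `B` in `B'`. -/
def incl : BT W →⋆ₐ[ℂ] BP W where
  toFun F := BP.mk F.val F.mem.toInP
  map_one' := rfl
  map_mul' _ _ := rfl
  map_zero' := rfl
  map_add' _ _ := rfl
  commutes' _ := rfl
  map_star' _ := rfl

@[simp] theorem incl_val (F : BT W) : (incl F).val = F.val := rfl

theorem incl_injective : Function.Injective (incl : BT W →⋆ₐ[ℂ] BP W) := fun _ _ h =>
  BT.ext (congrArg BP.val h)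

/-! ### Scaling -/

theorem InP.scale (s : unitInterval) {F : Amb G} (h : InP W F) : InP W (Amb.scale s F) where
  x0 k := by rw [Amb.scale_x, Amb.scale_f, sc_apply, mul_zero, h.x0]
  f0 := by
    rw [Amb.scale_f, sc_apply, mul_zero]
    exact h.f0
  comm r k := h.comm _ k

theorem InB.scale (s : unitInterval) {F : Amb G} (h : InB W F) : InB W (Amb.scale s F) where
  toInP := h.toInP.scale s
  D t := h.D _
  out r k := by
    rw [Amb.scale_x, Amb.scale_f, sc_apply, mul_zero]
    exact h.out _ k
  asy r := by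
    have := h.asy (s * r)
    rw [Amb.scale_f, sc_sc, mul_comm r s]
    exact this

/-- The scaling of `B'`. -/
def BP.h (s : unitInterval) : BP W →⋆ₐ[ℂ] BP W where
  toFun F := BP.mk (Amb.scale s F.val) (F.mem.scale s)
  map_one' := rfl
  map_mul' _ _ := rfl
  map_zero' := rfl
  map_add' _ _ := rfl
  commutes' _ := rfl
  map_star' _ := rfl

/-- The scaling of `B`. -/
def BT.h (s : unitInterval) : BT W →⋆ₐ[ℂ] BT W where
  toFun F := BT.mk (Amb.scale s F.val) (F.mem.scale s)
  map_one' := rfl
  map_mul' _ _ := rfl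
  map_zero' := rfl
  map_add' _ _ := rfl
  commutes' _ := rfl
  map_star' _ := rfl

@[simp] theorem BP.h_val (s : unitInterval) (F : BP W) : (BP.h s F).val = Amb.scale s F.val := rfl
@[simp] theorem BT.h_val (s : unitInterval) (F : BT W) : (BT.h s F).val = Amb.scale s F.val := rfl

theorem BP.h_cont (F : BP W) : Continuous fun s => BP.h s F :=
  Continuous.subtype_mk (Amb.scale_cont F.val) _

theorem BT.h_cont (F : BT W) : Continuous fun s => BT.h s F :=
  Continuous.subtype_mk (Amb.scale_cont F.val) _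

theorem Amb.scale_one (F : Amb G) : Amb.scale 1 F = F := by
  refine Amb.ext (fun s k => ?_) (fun s => ?_)
  · rw [Amb.scale_x, one_mul]
  · rw [Amb.scale_f, sc_apply, one_mul]

theorem BP.h_one (F : BP W) : BP.h 1 F = F := BP.ext (Amb.scale_one _)
theorem BT.h_one (F : BT W) : BT.h 1 F = F := BT.ext (Amb.scale_one _)

/-! ### The character -/

/-- The value at `0`. -/
def ev0 (F : Amb G) : ℂ := tauL G (F.f 0)

theorem InP.ev0_f {F : Amb G} (h : InP W F) : F.f 0 = algebraMap ℂ (LL G) (ev0 F) := by
  obtain ⟨c, hc⟩ := h.f0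
  rw [ev0, hc, tauL_algebraMap]

theorem InP.ev0_x {F : Amb G} (h : InP W F) (k : ℕ) :
    F.x 0 k = algebraMap ℂ (LL G) (ev0 F) := by
  rw [h.x0, h.ev0_f]

/-- The character of `B'`. -/
def BP.ε : BP W →⋆ₐ[ℂ] ℂ where
  toFun F := ev0 F.val
  map_one' := by
    rw [ev0, BP.val_one, Amb.one_f, ContinuousMap.one_apply, ← map_one (algebraMap ℂ (LL G)),
      tauL_algebraMap]
  map_mul' F F' := by
    rw [ev0, BP.val_mul, Amb.mul_f, ContinuousMap.mul_apply, F.mem.ev0_f, F'.mem.ev0_f,
      ← map_mul, tauL_algebraMap]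
  map_zero' := by
    rw [ev0, BP.val_zero, Amb.zero_f, ContinuousMap.zero_apply, map_zero]
  map_add' F F' := by
    rw [ev0, BP.val_add, Amb.add_f, ContinuousMap.add_apply, map_add]
    rfl
  commutes' c := by
    rw [ev0, BP.val_algebraMap]
    exact tauL_algebraMap c
  map_star' F := by
    rw [ev0, BP.val_star, Amb.star_f, ContinuousMap.star_apply, F.mem.ev0_f]
    have : star (algebraMap ℂ (LL G) (ev0 F.val)) = algebraMap ℂ (LL G) (star (ev0 F.val)) :=
      (algebraMap_star_comm _).symm
    rw [this, tauL_algebraMap]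

@[simp] theorem BP.ε_apply (F : BP W) : BP.ε F = ev0 F.val := rfl

theorem BP.h_zero (F : BP W) : BP.h 0 F = algebraMap ℂ (BP W) (BP.ε F) := by
  refine BP.ext (Amb.ext (fun s k => ?_) (fun s => ?_))
  · rw [BP.h_val, Amb.scale_x, zero_mul, F.mem.ev0_x]
    rfl
  · rw [BP.h_val, Amb.scale_f, sc_apply, zero_mul, F.mem.ev0_f]
    rfl

theorem BT.h_zero (F : BT W) : BT.h 0 F = algebraMap ℂ (BT W) (BP.ε (incl F)) := by
  refine BT.ext ?_
  exact congrArg BP.val (BP.h_zero (incl F))

end

end Pool.Agent.H.MP_e11395_an.PA
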