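import Pool.Agent.H.MP_e11395_an.A.BPhi

/-!
# MP_e11395, part A2: the ambient algebra `C(I, ℓ^∞(ℕ, L)) × C(I, L)`
-/

set_option autoImplicit false
set_option linter.unusedSectionVars false

open Filter Topology
open scoped ENNReal InnerProductSpace BoundedContinuousFunction

namespace Pool.Agent.H.MP_e11395_an.PA

noncomputable section

/-- The ambient algebra. -/
def Amb (G : Type) : Type := C(unitInterval, ℕ →ᵇ LL G) × C(unitInterval, LL G)

instance (G : Type) : CStarAlgebra (Amb G) :=
  inferInstanceAs (CStarAlgebra (C(unitInterval, ℕ →ᵇ LL G) × C(unitInterval, LL G)))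

namespace Amb

variable {G : Type}

/-- Constructor. -/
def mk (x : C(unitInterval, ℕ →ᵇ LL G)) (f : C(unitInterval, LL G)) : Amb G := (x, f)

/-- The first component. -/
def xs (F : Amb G) : C(unitInterval, ℕ →ᵇ LL G) := F.1

/-- The entries of the first component. -/
def x (F : Amb G) (s : unitInterval) (k : ℕ) : LL G := F.1 s k

/-- The second component. -/
def f (F : Amb G) : C(unitInterval, LL G) := F.2

@[simp] theorem xs_mk (x : C(unitInterval, ℕ →ᵇ LL G)) (f : C(unitInterval, LL G)) :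
    (mk x f).xs = x := rfl
@[simp] theorem x_mk (x : C(unitInterval, ℕ →ᵇ LL G)) (f : C(unitInterval, LL G))
    (s : unitInterval) (k : ℕ) : (mk x f).x s k = x s k := rfl
@[simp] theorem f_mk (x : C(unitInterval, ℕ →ᵇ LL G)) (f : C(unitInterval, LL G)) :
    (mk x f).f = f := rfl

theorem ext {F F' : Amb G} (h1 : ∀ s k, F.x s k = F'.x s k) (h2 : ∀ s, F.f s = F'.f s) :
    F = F' := by
  refine Prod.ext ?_ ?_
  · ext1 s
    ext1 k
    exact h1 s k
  · ext1 s
    exact h2 s

theorem norm_x_le (F : Amb G) (s : unitInterval) (k : ℕ) : ‖F.x s k‖ ≤ ‖F‖ :=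
  ((F.1 s).norm_coe_le_norm k).trans ((F.1.norm_coe_le_norm s).trans (_root_.norm_fst_le F))

theorem norm_f_le (F : Amb G) : ‖F.f‖ ≤ ‖F‖ := _root_.norm_snd_le F

theorem norm_f_apply_le (F : Amb G) (s : unitInterval) : ‖F.f s‖ ≤ ‖F‖ :=
  (F.f.norm_coe_le_norm s).trans F.norm_f_le

theorem norm_le {F : Amb G} {M : ℝ} (hM : 0 ≤ M) (h1 : ∀ s k, ‖F.x s k‖ ≤ M)
    (h2 : ∀ s, ‖F.f s‖ ≤ M) : ‖F‖ ≤ M := by
  have h3 : ‖F.1‖ ≤ M := by
    rw [ContinuousMap.norm_le _ hM]
    intro s
    exact (BoundedContinuousFunction.norm_le hM).2 (h1 s)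
  have h4 : ‖F.2‖ ≤ M := by
    rw [ContinuousMap.norm_le _ hM]
    exact h2
  exact (Prod.norm_def F).le.trans (max_le h3 h4)

@[simp] theorem one_x (s : unitInterval) (k : ℕ) : (1 : Amb G).x s k = 1 := rfl
@[simp] theorem zero_x (s : unitInterval) (k : ℕ) : (0 : Amb G).x s k = 0 := rfl
@[simp] theorem mul_x (F F' : Amb G) (s : unitInterval) (k : ℕ) :
    (F * F').x s k = F.x s k * F'.x s k := rfl
@[simp] theorem add_x (F F' : Amb G) (s : unitInterval) (k : ℕ) :
    (F + F').x s k = F.x s k + F'.x s k := rfl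
@[simp] theorem sub_x (F F' : Amb G) (s : unitInterval) (k : ℕ) :
    (F - F').x s k = F.x s k - F'.x s k := rfl
@[simp] theorem star_x (F : Amb G) (s : unitInterval) (k : ℕ) :
    (star F).x s k = star (F.x s k) := rfl
@[simp] theorem smul_x (c : ℂ) (F : Amb G) (s : unitInterval) (k : ℕ) :
    (c • F).x s k = c • F.x s k := rfl
@[simp] theorem algebraMap_x (c : ℂ) (s : unitInterval) (k : ℕ) :
    (algebraMap ℂ (Amb G) c).x s k = algebraMap ℂ (LL G) c := rfl
@[simp] theorem one_f : (1 : Amb G).f = 1 := rfl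
@[simp] theorem zero_f : (0 : Amb G).f = 0 := rfl
@[simp] theorem mul_f (F F' : Amb G) : (F * F').f = F.f * F'.f := rfl
@[simp] theorem add_f (F F' : Amb G) : (F + F').f = F.f + F'.f := rfl
@[simp] theorem sub_f (F F' : Amb G) : (F - F').f = F.f - F'.f := rfl
@[simp] theorem star_f (F : Amb G) : (star F).f = star F.f := rfl
@[simp] theorem smul_f (c : ℂ) (F : Amb G) : (c • F).f = c • F.f := rfl
@[simp] theorem algebraMap_f (c : ℂ) :
    (algebraMap ℂ (Amb G) c).f = algebraMap ℂ C(unitInterval, LL G) c := rfl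

/-- Evaluation of the first component. -/
def ev1 (s : unitInterval) (k : ℕ) : Amb G →⋆ₐ[ℂ] LL G where
  toFun F := F.x s k
  map_one' := rfl
  map_mul' _ _ := rfl
  map_zero' := rfl
  map_add' _ _ := rfl
  commutes' _ := rfl
  map_star' _ := rfl

/-- Evaluation of the second component. -/
def ev2 (s : unitInterval) : Amb G →⋆ₐ[ℂ] LL G where
  toFun F := F.f s
  map_one' := rfl
  map_mul' _ _ := rfl
  map_zero' := rfl
  map_add' _ _ := rfl
  commutes' _ := rfl
  map_star' _ := rfl

@[simp] theorem ev1_apply (s : unitInterval) (k : ℕ) (F : Amb G) : ev1 s k F = F.x s k := rfl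
@[simp] theorem ev2_apply (s : unitInterval) (F : Amb G) : ev2 s F = F.f s := rfl

/-- Scaling of the parameter. -/
def scale (s : unitInterval) : Amb G →⋆ₐ[ℂ] Amb G where
  toFun F := mk (sc s F.xs) (sc s F.f)
  map_one' := rfl
  map_mul' _ _ := rfl
  map_zero' := rfl
  map_add' _ _ := rfl
  commutes' _ := rfl
  map_star' _ := rfl

@[simp] theorem scale_x (s : unitInterval) (F : Amb G) (r : unitInterval) (k : ℕ) :
    (scale s F).x r k = F.x (s * r) k := rfl
@[simp] theorem scale_f (s : unitInterval) (F : Amb G) : (scale s F).f = sc s F.f := rfl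

theorem scale_cont (F : Amb G) : Continuous fun s => scale s F := by
  have h : Continuous fun s : unitInterval => ((sc s F.xs, sc s F.f) :
      C(unitInterval, ℕ →ᵇ LL G) × C(unitInterval, LL G)) :=
    (continuous_sc F.xs).prodMk (continuous_sc F.f)
  exact h

theorem f_cont : Continuous (f : Amb G → C(unitInterval, LL G)) :=
  (continuous_snd : Continuous (Prod.snd :
    C(unitInterval, ℕ →ᵇ LL G) × C(unitInterval, LL G) → C(unitInterval, LL G)))

/-- Convergence in the ambient algebra is uniform convergence of the entries. -/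
theorem x_cont (s : unitInterval) (k : ℕ) : Continuous fun F : Amb G => F.x s k := by
  refine Metric.continuous_iff.2 fun F ε hε => ⟨ε, hε, fun F' h => ?_⟩
  rw [dist_eq_norm] at h ⊢
  exact (norm_x_le (F' - F) s k).trans_lt h

theorem f_apply_cont (s : unitInterval) : Continuous fun F : Amb G => F.f s := by
  refine Metric.continuous_iff.2 fun F ε hε => ⟨ε, hε, fun F' h => ?_⟩
  rw [dist_eq_norm] at h ⊢
  exact (norm_f_apply_le (F' - F) s).trans_lt h

end Amb

theorem norm_sc_le {X : Type} [NormedAddCommGroup X] (s : unitInterval)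
    (g : C(unitInterval, X)) : ‖sc s g‖ ≤ ‖g‖ := by
  rw [ContinuousMap.norm_le _ (norm_nonneg _)]
  intro t
  exact g.norm_coe_le_norm _

theorem tauL_algebraMap {G : Type} [Group G] (c : ℂ) : tauL G (algebraMap ℂ (LL G) c) = c := by
  rw [Algebra.algebraMap_eq_smul_one, map_smul]
  have : tauL G 1 = 1 := by
    change inner ℂ (dl 1 : H2 G) (dl 1) = 1
    rw [inner_dl_left, dl_self]
  rw [this, smul_eq_mul, mul_one]

end

end Pool.Agent.H.MP_e11395_an.PA
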