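import Pool.Agent.H.MP_e11395_an.A.BPhi

/-!
# MP_e11395, part A2: `phi k` and the projection on the ball
-/

set_option autoImplicit false
set_option linter.unusedSectionVars false

open Filter Topology
open scoped ENNReal InnerProductSpace

namespace Pool.Agent.H.MP_e11395_an.PA

variable {G : Type} [Group G] (W : TwG G)

/-- If `g 0 = c` is a scalar then `phi k g` is `c` outside the ball. (Job: for `j ≠ 0`,
`V_j (1 - P) = 0` by `V_mul_P`; so `phi k g (1 - P) = V_0 c V_0 (1 - P) = c ∑_j V_j V_j (1-P)`.) -/
theorem phi_mul_one_sub_P (k : ℕ) (g : C(unitInterval, LL G)) (c : ℂ)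
    (hg : g 0 = algebraMap ℂ (LL G) c) :
    phi W k g * (1 - P W k) = algebraMap ℂ (LL G) c * (1 - P W k) := by
  have h0 : ∀ j : Fin (k + 2), j ≠ 0 → V W k j * (1 - P W k) = 0 := by
    intro j hj
    rw [mul_sub, mul_one, V_mul_P W k j hj, sub_self]
  have h1 : ∀ j : Fin (k + 2), V W k j * g (tt k j) * V W k j * (1 - P W k) =
      algebraMap ℂ (LL G) c * (V W k j * V W k j * (1 - P W k)) := by
    intro j
    by_cases hj : j = 0
    · subst hj
      rw [tt_zero, hg, ← Algebra.commutes c (V W k 0)]
      simp only [mul_assoc]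
    · simp only [mul_assoc, h0 j hj, mul_zero]
  rw [phi, Finset.sum_mul, Finset.sum_congr rfl fun j _ => h1 j, ← Finset.mul_sum,
    ← Finset.sum_mul, (V_isCut W k).sum, one_mul]

/-- If `g 0` is a scalar then `phi k g` commutes with the projection on the ball.
(Job: apply `phi_mul_one_sub_P` to `g` and to `star g`.) -/
theorem phi_P_comm (k : ℕ) (g : C(unitInterval, LL G)) (c : ℂ)
    (hg : g 0 = algebraMap ℂ (LL G) c) :
    phi W k g * P W k = P W k * phi W k g := by
  have h1 := phi_mul_one_sub_P W k g c hg
  have hg' : (star g) 0 = algebraMap ℂ (LL G) (star c) := by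
    rw [ContinuousMap.star_apply, hg, algebraMap_star_comm]
  have h2 := congrArg star (phi_mul_one_sub_P W k (star g) (star c) hg')
  rw [star_mul, star_mul, star_sub, star_one, P_star, phi_star, star_star,
    ← algebraMap_star_comm, star_star, ← Algebra.commutes c (1 - P W k), ← h1] at h2
  rw [sub_mul, mul_sub, one_mul, mul_one] at h2
  exact (sub_right_inj.1 h2).symm

end Pool.Agent.H.MP_e11395_an.PA
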