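import Pool.Agent.H.MP_e11395_an.A.BPhiM
import Pool.Agent.H.MP_e11395_an.A.BPhiP
import Pool.Agent.H.MP_e11395_an.A.BAmb

/-!
# MP_e11395, part A2: the subalgebras `B` and `B'` of the ambient algebra

`InP`: the pairs `F = (x, f)` such that `F 0` is a scalar and every `x_k(s)` commutes with the
projection `P k`. `InB`: moreover `f` has values in `D`, `x_k(s) = f(0)` outside the ball, and
`x_k(s) - phi_k(f(s ·)) → 0`.
-/

set_option autoImplicit false
set_option linter.unusedSectionVars false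

open Filter Topology
open scoped ENNReal InnerProductSpace BoundedContinuousFunction

namespace Pool.Agent.H.MP_e11395_an.PA

noncomputable section

variable {G : Type} [Group G] (W : TwG G)

/-- The defining conditions of `B'`. -/
structure InP (F : Amb G) : Prop where
  x0 : ∀ k, F.x 0 k = F.f 0
  f0 : ∃ c : ℂ, F.f 0 = algebraMap ℂ (LL G) c
  comm : ∀ s k, F.x s k * P W k = P W k * F.x s k

/-- The defining conditions of `B`. -/
structure InB (F : Amb G) : Prop extends InP W F where
  D : ∀ t, F.f t ∈ W.D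
  out : ∀ s k, F.x s k * (1 - P W k) = F.f 0 * (1 - P W k)
  asy : ∀ s, Tendsto (fun k => ‖F.x s k - phi W k (sc s F.f)‖) atTop (𝓝 0)

variable {W}

theorem InP.mul {F F' : Amb G} (h : InP W F) (h' : InP W F') : InP W (F * F') where
  x0 k := by rw [Amb.mul_x, Amb.mul_f, ContinuousMap.mul_apply, h.x0, h'.x0]
  f0 := by
    obtain ⟨c, hc⟩ := h.f0
    obtain ⟨c', hc'⟩ := h'.f0
    exact ⟨c * c', by rw [Amb.mul_f, ContinuousMap.mul_apply, hc, hc', map_mul]⟩
  comm s k := by
    rw [Amb.mul_x, mul_assoc, h'.comm s k, ← mul_assoc, h.comm s k, mul_assoc]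

theorem InP.add {F F' : Amb G} (h : InP W F) (h' : InP W F') : InP W (F + F') where
  x0 k := by rw [Amb.add_x, Amb.add_f, ContinuousMap.add_apply, h.x0, h'.x0]
  f0 := by
    obtain ⟨c, hc⟩ := h.f0
    obtain ⟨c', hc'⟩ := h'.f0
    exact ⟨c + c', by rw [Amb.add_f, ContinuousMap.add_apply, hc, hc', map_add]⟩
  comm s k := by
    rw [Amb.add_x, add_mul, mul_add, h.comm s k, h'.comm s k]

theorem InP.star {F : Amb G} (h : InP W F) : InP W (star F) where
  x0 k := by rw [Amb.star_x, Amb.star_f, ContinuousMap.star_apply, h.x0]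
  f0 := by
    obtain ⟨c, hc⟩ := h.f0
    refine ⟨starRingEnd ℂ c, ?_⟩
    rw [Amb.star_f, ContinuousMap.star_apply, hc]
    exact (algebraMap_star_comm c).symm
  comm s k := by
    have := congrArg Star.star (h.comm s k)
    simp only [star_mul, P_star] at this
    rw [Amb.star_x]
    exact this.symm

theorem InP.algMap (c : ℂ) : InP W (algebraMap ℂ (Amb G) c) where
  x0 _ := rfl
  f0 := ⟨c, rfl⟩
  comm s k := by
    rw [Amb.algebraMap_x]
    exact Algebra.commutes c _

theorem BAlgA_sc_add (s : unitInterval) (F F' : Amb G) :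
    sc s (F + F').f = sc s F.f + sc s F'.f := by
  rw [Amb.add_f]
  ext1 t
  rfl

theorem BAlgA_sc_sub (s : unitInterval) (F F' : Amb G) :
    sc s (F - F').f = sc s F.f - sc s F'.f := by
  rw [Amb.sub_f]
  ext1 t
  rfl

theorem BAlgA_sc_mul (s : unitInterval) (F F' : Amb G) :
    sc s (F * F').f = sc s F.f * sc s F'.f := by
  rw [Amb.mul_f]
  ext1 t
  rfl

theorem BAlgA_sc_star (s : unitInterval) (F : Amb G) :
    sc s (star F).f = star (sc s F.f) := by
  rw [Amb.star_f]
  ext1 t
  rfl

theorem BAlgA_norm (a b c d e : LL G) :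
    ‖a * b - e‖ ≤ ‖a - c‖ * ‖b‖ + ‖c‖ * ‖b - d‖ + ‖e - c * d‖ := by
  have h : a * b - e = (a - c) * b + c * (b - d) - (e - c * d) := by noncomm_ring
  rw [h]
  refine (norm_sub_le _ _).trans (add_le_add ((norm_add_le _ _).trans ?_) le_rfl)
  exact add_le_add (norm_mul_le _ _) (norm_mul_le _ _)

/-- (Job.) `asy`: `x x' - phi(f f') = (x - phi f) x' + phi f (x' - phi f') +
(phi f phi f' - phi (f f'))`, `phi_mul_tendsto`. -/
theorem InB.mul {F F' : Amb G} (h : InB W F) (h' : InB W F') : InB W (F * F') := by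
  refine ⟨h.toInP.mul h'.toInP, fun t => ?_, fun s k => ?_, fun s => ?_⟩
  · rw [Amb.mul_f, ContinuousMap.mul_apply]
    exact mul_mem (h.D t) (h'.D t)
  · obtain ⟨c', hc'⟩ := h'.f0
    rw [Amb.mul_x, Amb.mul_f, ContinuousMap.mul_apply, mul_assoc, h'.out s k, hc',
      ← mul_assoc, ← Algebra.commutes c' (F.x s k), mul_assoc, h.out s k, ← mul_assoc,
      Algebra.commutes c' (F.f 0)]
  · have h1 := phi_mul_tendsto W (sc s F.f) (sc s F'.f) fun t => h'.D _
    have h2 := ((h.asy s).mul_const ‖F'‖).add ((h'.asy s).const_mul ‖F‖)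
    have h3 := h2.add h1
    rw [zero_mul, mul_zero, add_zero, add_zero] at h3
    refine squeeze_zero (fun k => norm_nonneg _) (fun k => ?_) h3
    rw [Amb.mul_x, BAlgA_sc_mul]
    refine (BAlgA_norm _ _ (phi W k (sc s F.f)) (phi W k (sc s F'.f)) _).trans ?_
    refine add_le_add (add_le_add ?_ ?_) le_rfl
    · exact mul_le_mul_of_nonneg_left (F'.norm_x_le s k) (norm_nonneg _)
    · exact mul_le_mul_of_nonneg_right
        ((norm_phi_le W k _).trans ((norm_sc_le s _).trans F.norm_f_le)) (norm_nonneg _)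

/-- (Job.) -/
theorem InB.add {F F' : Amb G} (h : InB W F) (h' : InB W F') : InB W (F + F') := by
  refine ⟨h.toInP.add h'.toInP, fun t => ?_, fun s k => ?_, fun s => ?_⟩
  · rw [Amb.add_f, ContinuousMap.add_apply]
    exact add_mem (h.D t) (h'.D t)
  · rw [Amb.add_x, Amb.add_f, ContinuousMap.add_apply, add_mul, add_mul, h.out s k, h'.out s k]
  · have h3 := (h.asy s).add (h'.asy s)
    rw [add_zero] at h3
    refine squeeze_zero (fun k => norm_nonneg _) (fun k => ?_) h3
    have h4 : phi W k (sc s (F + F').f) = phi W k (sc s F.f) + phi W k (sc s F'.f) := by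
      rw [← phi_add, BAlgA_sc_add]
    rw [Amb.add_x, h4, add_sub_add_comm]
    exact norm_add_le _ _

/-- (Job.) -/
theorem InB.star {F : Amb G} (h : InB W F) : InB W (star F) := by
  refine ⟨h.toInP.star, fun t => ?_, fun s k => ?_, fun s => ?_⟩
  · rw [Amb.star_f, ContinuousMap.star_apply]
    exact star_mem (h.D t)
  · obtain ⟨c, hc⟩ := h.f0
    have h1 : (1 - P W k) * F.x s k = F.x s k * (1 - P W k) := by
      rw [sub_mul, mul_sub, one_mul, mul_one, h.comm s k]
    have h2 := congrArg Star.star h1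
    rw [h.out s k, hc, Algebra.commutes c (1 - P W k)] at h2
    simp only [star_mul, star_sub, star_one, P_star] at h2
    rw [Amb.star_x, Amb.star_f, ContinuousMap.star_apply, hc]
    exact h2
  · refine (h.asy s).congr fun k => ?_
    have h4 : phi W k (sc s (Star.star F).f) = Star.star (phi W k (sc s F.f)) := by
      rw [← phi_star, BAlgA_sc_star]
    rw [Amb.star_x, h4, ← star_sub, norm_star]

/-- (Job.) -/
theorem InB.algMap (c : ℂ) : InB W (algebraMap ℂ (Amb G) c) := by
  refine ⟨InP.algMap c, fun t => ?_, fun s k => ?_, fun s => ?_⟩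
  · exact algebraMap_mem W.D c
  · rfl
  · have h4 : ∀ k, phi W k (sc s (algebraMap ℂ (Amb G) c).f) = algebraMap ℂ (LL G) c := fun k => by
      have h5 : sc s (algebraMap ℂ (Amb G) c).f = c • (1 : C(unitInterval, LL G)) := by
        ext1 t
        rw [Amb.algebraMap_f, sc_apply, Algebra.algebraMap_eq_smul_one]
        rfl
      rw [h5, phi_smul, phi_one, Algebra.algebraMap_eq_smul_one]
    refine tendsto_const_nhds.congr fun k => ?_
    rw [h4, Amb.algebraMap_x, sub_self, norm_zero]

variable (W)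

/-- The algebra `B'` as a subalgebra. -/
def BsP : StarSubalgebra ℂ (Amb G) where
  carrier := {F | InP W F}
  mul_mem' := InP.mul
  add_mem' := InP.add
  algebraMap_mem' := InP.algMap
  star_mem' := InP.star

/-- The algebra `B` as a subalgebra. -/
def Bs : StarSubalgebra ℂ (Amb G) where
  carrier := {F | InB W F}
  mul_mem' := InB.mul
  add_mem' := InB.add
  algebraMap_mem' := InB.algMap
  star_mem' := InB.star

theorem BAlgA_tau : Continuous (tauL G) := by
  change Continuous fun T : LL G => inner ℂ (dl 1 : H2 G) (T (dl 1))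
  exact continuous_const.inner (ContinuousLinearMap.apply ℂ (H2 G) (dl 1)).continuous

theorem BAlgA_alg : Continuous (algebraMap ℂ (LL G)) :=
  continuous_algebraMap ℂ (LL G)

/-- (Job.) The set of scalars is closed (`c = tauL G (F.f 0)`). -/
instance BsP_closed : IsClosed (BsP W : Set (Amb G)) := by
  have h : (BsP W : Set (Amb G)) = (⋂ k, {F : Amb G | F.x 0 k = F.f 0}) ∩
      ({F : Amb G | F.f 0 = algebraMap ℂ (LL G) (tauL G (F.f 0))} ∩
      ⋂ s, ⋂ k, {F : Amb G | F.x s k * P W k = P W k * F.x s k}) := by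
    ext F
    simp only [Set.mem_inter_iff, Set.mem_iInter, Set.mem_ofPred_eq]
    constructor
    · intro hF
      have hF' : InP W F := hF
      refine ⟨hF'.x0, ?_, hF'.comm⟩
      obtain ⟨c, hc⟩ := hF'.f0
      rw [hc, tauL_algebraMap]
    · rintro ⟨h1, h2, h3⟩
      exact (⟨h1, ⟨_, h2⟩, h3⟩ : InP W F)
  rw [h]
  refine (isClosed_iInter fun k => isClosed_eq (Amb.x_cont 0 k) (Amb.f_apply_cont 0)).inter
    ((isClosed_eq (Amb.f_apply_cont 0)
      (BAlgA_alg.comp (BAlgA_tau.comp (Amb.f_apply_cont 0)))).inter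
    (isClosed_iInter fun s => isClosed_iInter fun k => isClosed_eq
      ((Amb.x_cont s k).mul continuous_const) (continuous_const.mul (Amb.x_cont s k))))

theorem BAlgA_asy (s : unitInterval) :
    IsClosed {F : Amb G | Tendsto (fun k => ‖F.x s k - phi W k (sc s F.f)‖) atTop (𝓝 0)} := by
  refine isClosed_of_closure_subset fun F hF => ?_
  rw [Metric.mem_closure_iff] at hF
  rw [Set.mem_ofPred_eq, Metric.tendsto_atTop]
  intro ε hε
  obtain ⟨F', hF', hd⟩ := hF (ε / 3) (by positivity)
  rw [Set.mem_ofPred_eq, Metric.tendsto_atTop] at hF'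
  obtain ⟨N, hN⟩ := hF' (ε / 3) (by positivity)
  refine ⟨N, fun k hk => ?_⟩
  have h1 := hN k hk
  rw [Real.dist_eq, sub_zero, abs_of_nonneg (norm_nonneg _)] at h1 ⊢
  rw [dist_eq_norm] at hd
  have h2 : F.x s k - phi W k (sc s F.f) = (F - F').x s k +
      (F'.x s k - phi W k (sc s F'.f)) - phi W k (sc s (F - F').f) := by
    have h3 : phi W k (sc s (F - F').f) = phi W k (sc s F.f) - phi W k (sc s F'.f) := by
      rw [← phi_sub, BAlgA_sc_sub]
    rw [h3, Amb.sub_x]
    abel
  rw [h2]
  refine (norm_sub_le _ _).trans_lt ?_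
  have h4 : ‖phi W k (sc s (F - F').f)‖ ≤ ‖F - F'‖ :=
    (norm_phi_le W k _).trans ((norm_sc_le s _).trans (F - F').norm_f_le)
  have h5 := norm_add_le ((F - F').x s k) (F'.x s k - phi W k (sc s F'.f))
  have h6 := (F - F').norm_x_le s k
  linarith

/-- (Job.) `asy`: `‖x_k - phi_k f‖ ≤ ‖x'_k - phi_k f'‖ + 2 ‖F - F'‖`. -/
instance Bs_closed : IsClosed (Bs W : Set (Amb G)) := by
  have h : (Bs W : Set (Amb G)) = (BsP W : Set (Amb G)) ∩
      ((⋂ t, {F : Amb G | F.f t ∈ W.D}) ∩
      ((⋂ s, ⋂ k, {F : Amb G | F.x s k * (1 - P W k) = F.f 0 * (1 - P W k)}) ∩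
      ⋂ s, {F : Amb G | Tendsto (fun k => ‖F.x s k - phi W k (sc s F.f)‖) atTop (𝓝 0)})) := by
    ext F
    simp only [Set.mem_inter_iff, Set.mem_iInter, Set.mem_ofPred_eq]
    constructor
    · intro hF
      have hF' : InB W F := hF
      exact ⟨hF'.toInP, hF'.D, hF'.out, hF'.asy⟩
    · rintro ⟨h1, h2, h3, h4⟩
      exact (⟨h1, h2, h3, h4⟩ : InB W F)
  rw [h]
  refine (BsP_closed W).inter ((isClosed_iInter fun t => ?_).inter
    ((isClosed_iInter fun s => isClosed_iInter fun k => isClosed_eq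
      ((Amb.x_cont s k).mul continuous_const)
      ((Amb.f_apply_cont 0).mul continuous_const)).inter
    (isClosed_iInter fun s => BAlgA_asy W s)))
  exact W.D_closed.preimage (Amb.f_apply_cont t)

end

end Pool.Agent.H.MP_e11395_an.PA
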