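import Pool.Agent.H.MP_e11395_an.A.BAmb

/-!
# MP_e11395, part A2: compressions to the balls
-/

set_option autoImplicit false
set_option linter.unusedSectionVars false

open Filter Topology
open scoped ENNReal InnerProductSpace BoundedContinuousFunction

namespace Pool.Agent.H.MP_e11395_an.PA

noncomputable section

variable {G : Type} [Group G] (W : TwG G)

theorem ball_finite (k : ℕ) : {x : G | W.len x < NN k}.Finite :=
  (W.len_fin (NN k)).subset fun x (hx : W.len x < NN k) => hx.le

/-- The ball of radius `NN k`. -/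
def ball (k : ℕ) : Finset G := (ball_finite W k).toFinset

theorem mem_ball {k : ℕ} {x : G} : x ∈ ball W k ↔ W.len x < NN k := by simp [ball]

theorem one_mem_ball (k : ℕ) : (1 : G) ∈ ball W k := by
  rw [mem_ball, W.len_one]
  exact NN_pos k

/-- The enumeration of the ball. -/
def en (k : ℕ) : Fin (ball W k).card ≃ ball W k := (ball W k).equivFin.symm

theorem card_ball_pos (k : ℕ) : 0 < (ball W k).card :=
  Finset.card_pos.2 ⟨1, one_mem_ball W k⟩

variable {W}

/-- (Job.) If `T` commutes with `P k` then `T (dl x)`, `x` in the ball, is the sum of its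
coordinates in the ball. -/
theorem expand {k : ℕ} {T : LL G} (hT : T * P W k = P W k * T) {x : G} (hx : x ∈ ball W k) :
    T (dl x) = ∑ y ∈ ball W k, (T (dl x) : H2 G) y • dl y := by
  have h1 : P W k (dl x) = dl x := by
    rw [P_dl, ind_of_lt W ((mem_ball W).1 hx), one_smul]
  have h2 : T (dl x) = P W k (T (dl x)) := by
    have h3 : T (P W k (dl x)) = P W k (T (dl x)) :=
      congrArg (fun S : LL G => S (dl x)) hT
    rwa [h1] at h3
  ext z
  rw [lp.coeFn_sum, Finset.sum_apply]
  by_cases hz : z ∈ ball W k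
  · rw [Finset.sum_eq_single z]
    · rw [lp.coeFn_smul, Pi.smul_apply, smul_eq_mul, dl_self, mul_one]
    · intro y _ hy
      rw [lp.coeFn_smul, Pi.smul_apply, smul_eq_mul, dl_ne (Ne.symm hy), mul_zero]
    · intro h
      exact absurd hz h
  · rw [Finset.sum_eq_zero]
    · rw [h2, P_apply, ind_of_not_lt W (fun h => hz ((mem_ball W).2 h)), zero_mul]
    · intro y hy
      have hzy : z ≠ y := fun h => hz (h ▸ hy)
      rw [lp.coeFn_smul, Pi.smul_apply, smul_eq_mul, dl_ne hzy, mul_zero]

/-- The compression to the ball as a matrix. -/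
def cmp (k : ℕ) (T : LL G) : Mt (Fin (ball W k).card) ℂ :=
  Mt.of fun i j => (T (dl (en W k j : G)) : H2 G) (en W k i : G)

theorem cmp_apply (k : ℕ) (T : LL G) (i j : Fin (ball W k).card) :
    (cmp k T : Mt (Fin (ball W k).card) ℂ) i j = (T (dl (en W k j : G)) : H2 G) (en W k i : G) :=
  rfl

/-- (Job.) -/
theorem cmp_mul {k : ℕ} {S T : LL G} (hT : T * P W k = P W k * T) :
    (cmp k (S * T) : Mt (Fin (ball W k).card) ℂ) = cmp k S * cmp k T := by
  ext i j
  rw [Mt.mul_apply]
  simp only [cmp_apply]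
  have h1 : (S * T) (dl (en W k j : G)) = S (T (dl (en W k j : G))) := rfl
  conv_lhs => rw [h1, expand hT (en W k j).2, map_sum, lp.coeFn_sum, Finset.sum_apply,
    ← Finset.sum_coe_sort (ball W k), ← Equiv.sum_comp (en W k)]
  refine Finset.sum_congr rfl fun l _ => ?_
  rw [map_smul, lp.coeFn_smul, Pi.smul_apply, smul_eq_mul, mul_comm]

/-- (Job.) -/
theorem cmp_star (k : ℕ) (T : LL G) :
    (cmp k (star T) : Mt (Fin (ball W k).card) ℂ) = star (cmp k T) := by
  ext i j
  rw [Mt.star_apply]
  simp only [cmp_apply]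
  rw [← inner_dl_left, ContinuousLinearMap.star_eq_adjoint,
    ContinuousLinearMap.adjoint_inner_right, inner_dl_right]
  rfl

/-- (Job.) -/
theorem cmp_algebraMap (k : ℕ) (c : ℂ) :
    (cmp k (algebraMap ℂ (LL G) c) : Mt (Fin (ball W k).card) ℂ) =
      algebraMap ℂ (Mt (Fin (ball W k).card) ℂ) c := by
  ext i j
  rw [Mt.algebraMap_apply, cmp_apply]
  have h1 : (algebraMap ℂ (LL G) c) (dl (en W k j : G)) = c • dl (en W k j : G) := rfl
  rw [h1, lp.coeFn_smul, Pi.smul_apply, smul_eq_mul]
  by_cases hij : i = j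
  · subst hij
    rw [dl_self, mul_one, if_pos rfl]
    rfl
  · have h2 : (en W k i : G) ≠ (en W k j : G) := fun h =>
      hij ((en W k).injective (Subtype.ext h))
    rw [dl_ne h2, mul_zero, if_neg hij]

/-- (Job.) If `T` commutes with `P k` and its compression vanishes then `T P k = 0`. -/
theorem mul_P_eq_zero {k : ℕ} {T : LL G} (hT : T * P W k = P W k * T)
    (h : (cmp k T : Mt (Fin (ball W k).card) ℂ) = 0) : T * P W k = 0 := by
  refine TwG.ext_dl fun y => ?_
  have h1 : (T * P W k) (dl y) = T (P W k (dl y)) := rfl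
  rw [h1, P_dl, map_smul]
  by_cases hy : y ∈ ball W k
  · rw [expand hT hy, Finset.sum_eq_zero, smul_zero]
    · rfl
    · intro z hz
      have h2 := congrArg (fun M : Mt (Fin (ball W k).card) ℂ =>
        M ((en W k).symm ⟨z, hz⟩) ((en W k).symm ⟨y, hy⟩)) h
      simp only [cmp_apply, Equiv.apply_symm_apply, Mt.zero_apply] at h2
      rw [h2, zero_smul]
  · rw [ind_of_not_lt W (fun h => hy ((mem_ball W).2 h)), zero_smul]
    rfl

end

end Pool.Agent.H.MP_e11395_an.PA
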