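import Pool.Agent.H.MP_e11395_an.A.BCut

/-!
# MP_e11395, part A2: the cut-offs almost commute with `D`
-/

set_option autoImplicit false
set_option linter.unusedSectionVars false

open Filter Topology
open scoped ENNReal InnerProductSpace

namespace Pool.Agent.H.MP_e11395_an.PA

variable {G : Type} [Group G] (W : TwG G)

theorem BComm_norm_lam_le (y : G) : ‖W.lam y‖ ≤ 1 :=
  ContinuousLinearMap.opNorm_le_bound _ zero_le_one fun ξ => by
    rw [one_mul]
    exact ((W.lamI y).norm_map ξ).le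

/-- The cut-offs almost commute with the translations: `V (lam y) - (lam y) V = lam y * dgc b`
with `b x = gq (th (y x)) - gq (th x)`. -/
theorem comm_lam_le (k : ℕ) (j : Fin (k + 2)) (y : G) :
    ‖W.lam y * V W k j - V W k j * W.lam y‖ ≤ √(((k : ℝ) + 1) * ((W.len y : ℝ) / NN k)) := by
  set C : ℝ := √(((k : ℝ) + 1) * ((W.len y : ℝ) / NN k)) with hC
  set b : G → ℂ := fun x => ((gq k j (th W k x) : ℝ) : ℂ) - ((gq k j (th W k (y * x)) : ℝ) : ℂ)
    with hb
  have hbC : ∀ x, ‖b x‖ ≤ C := by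
    intro x
    rw [hb, hC]
    dsimp only
    rw [← Complex.ofReal_sub, Complex.norm_real, Real.norm_eq_abs, abs_sub_comm]
    refine (gq_lip k j _ _).trans (Real.sqrt_le_sqrt ?_)
    exact mul_le_mul_of_nonneg_left (th_lip W k x y) (by positivity)
  have e : W.lam y * V W k j - V W k j * W.lam y = W.lam y * dgc b := by
    refine TwG.ext_dl fun x => ?_
    change W.lam y (V W k j (dl x)) - V W k j (W.lam y (dl x)) = W.lam y (dgc b (dl x))
    rw [V_dl, dgc_dl hbC, W.lam_dl, map_smul, map_smul, map_smul, V_dl, W.lam_dl, smul_smul,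
      smul_smul, smul_smul, ← sub_smul, hb]
    congr 1
    ring
  rw [e]
  calc ‖W.lam y * dgc b‖ ≤ ‖W.lam y‖ * ‖dgc b‖ := norm_mul_le _ _
    _ ≤ 1 * C := mul_le_mul (BComm_norm_lam_le W y) (norm_dgc_le (Real.sqrt_nonneg _) hbC)
        (norm_nonneg _) zero_le_one
    _ = C := one_mul _

/-- The bound tends to zero. -/
theorem BComm_tendsto (n : ℕ) :
    Tendsto (fun k : ℕ => √(((k : ℝ) + 1) * ((n : ℝ) / NN k))) atTop (𝓝 0) := by
  rw [← Real.sqrt_zero]
  refine (Real.continuous_sqrt.tendsto 0).comp ?_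
  have h1 : Tendsto (fun k : ℕ => (n : ℝ) * (1 / ((k : ℝ) + 1))) atTop (𝓝 0) := by
    have := (tendsto_one_div_add_atTop_nhds_zero_nat (𝕜 := ℝ)).const_mul (n : ℝ)
    rwa [mul_zero] at this
  refine squeeze_zero (fun k => by positivity) (fun k => ?_) h1
  have h2 : (NN k : ℝ) = ((k : ℝ) + 1) ^ 4 := by
    unfold NN
    push_cast
    ring
  rw [h2]
  have h3 : (0 : ℝ) < (k : ℝ) + 1 := by positivity
  have h4 : ((k : ℝ) + 1) * ((n : ℝ) / ((k : ℝ) + 1) ^ 4) = n * (1 / ((k : ℝ) + 1) ^ 3) := by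
    field_simp
  rw [h4]
  refine mul_le_mul_of_nonneg_left ?_ (Nat.cast_nonneg n)
  refine one_div_le_one_div_of_le h3 ?_
  have h5 : (1 : ℝ) ≤ (k : ℝ) + 1 := by
    have : (0 : ℝ) ≤ k := Nat.cast_nonneg k
    linarith
  nlinarith [mul_pos h3 h3]

/-- Change of the operator. -/
theorem BComm_change (k : ℕ) (j : Fin (k + 2)) (T S : LL G) :
    ‖T * V W k j - V W k j * T‖ ≤ 2 * ‖T - S‖ + ‖S * V W k j - V W k j * S‖ := by
  have h1 : ‖V W k j‖ ≤ 1 := (V_isCut W k).norm_le j
  have e : T * V W k j - V W k j * T = (T - S) * V W k j - V W k j * (T - S) +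
      (S * V W k j - V W k j * S) := by noncomm_ring
  rw [e]
  have h2 : ‖(T - S) * V W k j‖ ≤ ‖T - S‖ * 1 :=
    (norm_mul_le _ _).trans (mul_le_mul_of_nonneg_left h1 (norm_nonneg _))
  have h3 : ‖V W k j * (T - S)‖ ≤ 1 * ‖T - S‖ :=
    (norm_mul_le _ _).trans (mul_le_mul_of_nonneg_right h1 (norm_nonneg _))
  have h4 := norm_add_le ((T - S) * V W k j - V W k j * (T - S))
    (S * V W k j - V W k j * S)
  have h5 := norm_sub_le ((T - S) * V W k j) (V W k j * (T - S))
  linarith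

/-- The cut-offs almost commute with the elements of `D`. (Job: `W.D_dense`, the translations
by `comm_lam_le`; finite sums.) -/
theorem comm_D {T : LL G} (hT : T ∈ W.D) (ε : ℝ) (hε : 0 < ε) :
    ∃ K, ∀ k, K ≤ k → ∀ j, ‖T * V W k j - V W k j * T‖ ≤ ε := by
  obtain ⟨c, hc⟩ := W.D_dense (TwG.DT.mk T hT) (ε / 3) (by positivity)
  set S : LL G := c.sum fun x a => a • W.lam x with hS
  have hTS : ‖T - S‖ < ε / 3 := by
    rw [← TwG.DT.norm_val, TwG.DT.val_sub, TwG.DT.val_mk] at hc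
    have h2 : (c.sum fun x a => a • W.lamD x).val = S := by
      rw [← TwG.DT.valHom_apply, map_finsuppSum]
      rfl
    rwa [h2] at hc
  have hlim : Tendsto (fun k : ℕ => ∑ x ∈ c.support,
      ‖c x‖ * √(((k : ℝ) + 1) * ((W.len x : ℝ) / NN k))) atTop (𝓝 0) := by
    have h1 : Tendsto (fun k : ℕ => ∑ x ∈ c.support,
        ‖c x‖ * √(((k : ℝ) + 1) * ((W.len x : ℝ) / NN k))) atTop
        (𝓝 (∑ x ∈ c.support, ‖c x‖ * 0)) :=
      tendsto_finsetSum _ fun x _ => (BComm_tendsto (W.len x)).const_mul _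
    simpa using h1
  obtain ⟨K, hK⟩ := (hlim.eventually (gt_mem_nhds (show (0 : ℝ) < ε / 3 by positivity))).exists_forall_of_atTop
  refine ⟨K, fun k hk j => ?_⟩
  have h1 : ‖S * V W k j - V W k j * S‖ ≤ ∑ x ∈ c.support,
      ‖c x‖ * √(((k : ℝ) + 1) * ((W.len x : ℝ) / NN k)) := by
    have e : S * V W k j - V W k j * S = ∑ x ∈ c.support,
        c x • (W.lam x * V W k j - V W k j * W.lam x) := by
      rw [hS, Finsupp.sum, Finset.sum_mul, Finset.mul_sum, ← Finset.sum_sub_distrib]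
      refine Finset.sum_congr rfl fun x _ => ?_
      rw [smul_mul_assoc, mul_smul_comm, smul_sub]
    rw [e]
    refine (norm_sum_le _ _).trans (Finset.sum_le_sum fun x _ => ?_)
    rw [norm_smul]
    exact mul_le_mul_of_nonneg_left (comm_lam_le W k j x) (norm_nonneg _)
  have h2 := BComm_change W k j T S
  have h3 := hK k hk
  linarith

/-- The same uniformly for continuous functions with values in `D`. (Job: compactness of the
unit interval and `‖V‖ ≤ 1`.) -/
theorem comm_D_unif (g : C(unitInterval, LL G)) (hg : ∀ t, g t ∈ W.D) (ε : ℝ) (hε : 0 < ε) :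
    ∃ K, ∀ k, K ≤ k → ∀ j t, ‖g t * V W k j - V W k j * g t‖ ≤ ε := by
  choose K hK using fun t => comm_D W (hg t) (ε / 3) (by positivity)
  obtain ⟨s, -, hs⟩ := (isCompact_univ (X := unitInterval)).elim_nhds_subcover
    (fun t => {u | ‖g u - g t‖ < ε / 3}) (fun t _ => by
      have h1 : Continuous fun u => ‖g u - g t‖ := (g.continuous.sub continuous_const).norm
      refine h1.continuousAt.eventually_lt continuousAt_const ?_
      rw [sub_self, norm_zero]
      positivity)
  refine ⟨s.sup K, fun k hk j t => ?_⟩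
  obtain ⟨u, hu, htu⟩ := Set.mem_iUnion₂.1 (hs (Set.mem_univ t))
  have h1 : ‖g t - g u‖ < ε / 3 := htu
  have h2 := hK u k ((Finset.le_sup hu).trans hk) j
  have h3 := BComm_change W k j (g t) (g u)
  linarith

end Pool.Agent.H.MP_e11395_an.PA
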