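import Pool.Agent.H.MP_e11395_an.A.BPhi

/-!
# MP_e11395, part A2: strong convergence of `phi k`
-/

set_option autoImplicit false
set_option linter.unusedSectionVars false

open Filter Topology
open scoped ENNReal InnerProductSpace

namespace Pool.Agent.H.MP_e11395_an.PA

variable {G : Type} [Group G] (W : TwG G)

/-- The height is close to `1`. -/
theorem BPhiE_th (k : ℕ) (x : G) : |th W k x - 1| ≤ (W.len x : ℝ) / NN k := by
  rw [abs_sub_comm, abs_of_nonneg (by linarith [th_le_one W k x])]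
  have h := le_max_right 0 (1 - (W.len x : ℝ) / NN k)
  have h2 : th W k x = max 0 (1 - (W.len x : ℝ) / NN k) := rfl
  rw [h2]
  linarith

/-- The size of the radius. -/
theorem BPhiE_NN (k : ℕ) : (NN k : ℝ) = ((k : ℝ) + 1) ^ 4 := by
  unfold NN
  push_cast
  ring

/-- Division by the radius. -/
theorem BPhiE_div (k : ℕ) {c : ℝ} (hc : 0 ≤ c) : c / NN k ≤ c / ((k : ℝ) + 1) := by
  refine div_le_div_of_nonneg_left hc (by positivity) ?_
  rw [BPhiE_NN]
  have h1 : (1 : ℝ) ≤ (k : ℝ) + 1 := by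
    have : (0 : ℝ) ≤ k := Nat.cast_nonneg k
    linarith
  calc (k : ℝ) + 1 = ((k : ℝ) + 1) ^ 1 := (pow_one _).symm
    _ ≤ ((k : ℝ) + 1) ^ 4 := pow_le_pow_right₀ h1 (by norm_num)

/-- The sum of the products of the cut-offs at two points is close to `1`. -/
theorem BPhiE_one (k : ℕ) (x y : G) :
    |∑ j : Fin (k + 2), gq k j (th W k y) * gq k j (th W k x) - 1| ≤
      ((W.len x : ℝ) + W.len y) / ((k : ℝ) + 1) := by
  have hx := tent_sum k (th W k x) (th_nonneg W k x) (th_le_one W k x)
  have hy := tent_sum k (th W k y) (th_nonneg W k y) (th_le_one W k y)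
  have h0 : ∑ j : Fin (k + 2), gq k j (th W k y) * gq k j (th W k x) - 1 =
      -((1 / 2) * ∑ j : Fin (k + 2), (gq k j (th W k x) - gq k j (th W k y)) ^ 2) := by
    have h1 : ∀ j : Fin (k + 2), (gq k j (th W k x) - gq k j (th W k y)) ^ 2 =
        tent k j (th W k x) + tent k j (th W k y) -
          2 * (gq k j (th W k y) * gq k j (th W k x)) := fun j => by
      rw [← gq_mul_self, ← gq_mul_self]
      ring
    simp only [h1]
    rw [Finset.sum_sub_distrib, Finset.sum_add_distrib, hx, hy, ← Finset.mul_sum]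
    ring
  have hd : |th W k x - th W k y| ≤ ((W.len x : ℝ) + W.len y) / NN k := by
    have e : th W k x - th W k y = (th W k x - 1) - (th W k y - 1) := by ring
    rw [e, add_div]
    exact (abs_sub _ _).trans (add_le_add (BPhiE_th W k x) (BPhiE_th W k y))
  have hs : ∑ j : Fin (k + 2), (gq k j (th W k x) - gq k j (th W k y)) ^ 2 ≤
      ((k : ℝ) + 2) * (((k : ℝ) + 1) * (((W.len x : ℝ) + W.len y) / NN k)) := by
    have h2 : ∀ j ∈ (Finset.univ : Finset (Fin (k + 2))),
        (gq k j (th W k x) - gq k j (th W k y)) ^ 2 ≤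
          ((k : ℝ) + 1) * (((W.len x : ℝ) + W.len y) / NN k) := fun j _ => by
      have h3 := gq_lip k j (th W k x) (th W k y)
      have h4 : 0 ≤ ((k : ℝ) + 1) * |th W k x - th W k y| := by positivity
      calc (gq k j (th W k x) - gq k j (th W k y)) ^ 2 =
            |gq k j (th W k x) - gq k j (th W k y)| ^ 2 := (sq_abs _).symm
        _ ≤ √(((k : ℝ) + 1) * |th W k x - th W k y|) ^ 2 :=
            pow_le_pow_left₀ (abs_nonneg _) h3 2
        _ = ((k : ℝ) + 1) * |th W k x - th W k y| := Real.sq_sqrt h4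
        _ ≤ _ := mul_le_mul_of_nonneg_left hd (by positivity)
    refine (Finset.sum_le_sum h2).trans (le_of_eq ?_)
    rw [Finset.sum_const, Finset.card_univ, Fintype.card_fin, nsmul_eq_mul]
    push_cast
    ring
  have hn : 0 ≤ ∑ j : Fin (k + 2), (gq k j (th W k x) - gq k j (th W k y)) ^ 2 :=
    Finset.sum_nonneg fun j _ => sq_nonneg _
  rw [h0, abs_neg, abs_of_nonneg (by positivity)]
  set c : ℝ := (W.len x : ℝ) + W.len y with hc
  have hc0 : 0 ≤ c := by positivity
  have hk : (0 : ℝ) ≤ k := Nat.cast_nonneg k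
  have hk1 : (0 : ℝ) < (k : ℝ) + 1 := by positivity
  calc (1 / 2) * ∑ j : Fin (k + 2), (gq k j (th W k x) - gq k j (th W k y)) ^ 2 ≤
        (1 / 2) * (((k : ℝ) + 2) * (((k : ℝ) + 1) * (c / NN k))) :=
        mul_le_mul_of_nonneg_left hs (by norm_num)
    _ = (c / ((k : ℝ) + 1)) * ((1 / 2) * ((k : ℝ) + 2) / ((k : ℝ) + 1) ^ 2) := by
        rw [BPhiE_NN]
        field_simp
    _ ≤ (c / ((k : ℝ) + 1)) * 1 := by
        refine mul_le_mul_of_nonneg_left ?_ (by positivity)
        rw [div_le_one (by positivity)]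
        nlinarith
    _ = _ := mul_one _

/-- The entries of `phi k g`. -/
theorem BPhiE_entry (k : ℕ) (g : C(unitInterval, LL G)) (x y : G) :
    (phi W k g (dl x) : H2 G) y = ∑ j : Fin (k + 2),
      ((gq k j (th W k y) * gq k j (th W k x) : ℝ) : ℂ) * (g (tt k j) (dl x) : H2 G) y := by
  have h1 : phi W k g (dl x) = ∑ j : Fin (k + 2), V W k j (g (tt k j) (V W k j (dl x))) := by
    rw [phi, sum_apply]
    rfl
  rw [h1, lp.coeFn_sum, Finset.sum_apply]
  refine Finset.sum_congr rfl fun j _ => ?_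
  rw [V_dl, map_smul, V, dgc_apply (fun x => norm_gq_le k j (th W k x)), lp.coeFn_smul,
    Pi.smul_apply, smul_eq_mul]
  push_cast
  ring

/-- The matrix entries of `phi k g` converge to those of `g 1`. (Job: the entry at `(y, x)` is
`∑_j gq_j(th x) gq_j(th y) (g(t_j) (dl x)) y`. If `gq_j(th k x) ≠ 0` then
`|t_j - 1| ≤ (1/(k+1)) + len x / NN k`, so `‖g(t_j) - g 1‖` is small; and
`∑_j gq_j(th x) gq_j(th y) = 1 - (1/2) ∑_j (gq_j(th x) - gq_j(th y))²` tends to `1` by `gq_lip`,
`|th x - th y| ≤ (len x + len y) / NN k`.) -/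
theorem phi_entry (g : C(unitInterval, LL G)) (x y : G) :
    Tendsto (fun k => (phi W k g (dl x) : H2 G) y) atTop (𝓝 ((g 1 (dl x) : H2 G) y)) := by
  rw [Metric.tendsto_atTop]
  intro ε hε
  obtain ⟨δ, hδ, hg⟩ := Metric.continuousAt_iff.1 (g.continuous.continuousAt (x := 1))
    (ε / 2) (half_pos hε)
  set M : ℝ := ‖(g 1 (dl x) : H2 G) y‖ with hM
  have hM0 : 0 ≤ M := norm_nonneg _
  obtain ⟨K₁, hK₁⟩ := exists_nat_gt ((1 + (W.len x : ℝ)) / δ)
  obtain ⟨K₂, hK₂⟩ := exists_nat_gt (((W.len x : ℝ) + W.len y) * M / (ε / 2))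
  refine ⟨max K₁ K₂, fun k hk => ?_⟩
  have hk1 : (K₁ : ℝ) ≤ k := by exact_mod_cast (le_max_left _ _).trans hk
  have hk2 : (K₂ : ℝ) ≤ k := by exact_mod_cast (le_max_right _ _).trans hk
  have hkp : (0 : ℝ) < (k : ℝ) + 1 := by positivity
  have hA : (1 + (W.len x : ℝ)) / ((k : ℝ) + 1) < δ := by
    rw [div_lt_iff₀ hkp]
    rw [div_lt_iff₀ hδ] at hK₁
    nlinarith
  have hB : ((W.len x : ℝ) + W.len y) / ((k : ℝ) + 1) * M < ε / 2 := by
    rw [div_mul_eq_mul_div, div_lt_iff₀ hkp]
    rw [div_lt_iff₀ (half_pos hε)] at hK₂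
    nlinarith
  rw [dist_eq_norm, BPhiE_entry]
  -- the splitting
  have hsplit : ∑ j : Fin (k + 2),
      ((gq k j (th W k y) * gq k j (th W k x) : ℝ) : ℂ) * (g (tt k j) (dl x) : H2 G) y -
        (g 1 (dl x) : H2 G) y =
      ∑ j : Fin (k + 2), ((gq k j (th W k y) * gq k j (th W k x) : ℝ) : ℂ) *
        (((g (tt k j) - g 1) (dl x) : H2 G) y) +
      ((∑ j : Fin (k + 2), gq k j (th W k y) * gq k j (th W k x) - 1 : ℝ) : ℂ) *
        (g 1 (dl x) : H2 G) y := by
    have h1 : ∀ j : Fin (k + 2), (((g (tt k j) - g 1) (dl x) : H2 G) y) =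
        (g (tt k j) (dl x) : H2 G) y - (g 1 (dl x) : H2 G) y := fun j => rfl
    simp only [h1, mul_sub, Finset.sum_sub_distrib]
    push_cast
    rw [← Finset.sum_mul]
    ring
  rw [hsplit]
  have hfirst : ‖∑ j : Fin (k + 2), ((gq k j (th W k y) * gq k j (th W k x) : ℝ) : ℂ) *
      (((g (tt k j) - g 1) (dl x) : H2 G) y)‖ ≤ ε / 2 := by
    have h1 : ∀ j ∈ (Finset.univ : Finset (Fin (k + 2))),
        ‖((gq k j (th W k y) * gq k j (th W k x) : ℝ) : ℂ) *
          (((g (tt k j) - g 1) (dl x) : H2 G) y)‖ ≤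
        ((tent k j (th W k y) + tent k j (th W k x)) / 2) * (ε / 2) := by
      intro j _
      have hn : ‖((gq k j (th W k y) * gq k j (th W k x) : ℝ) : ℂ)‖ =
          gq k j (th W k y) * gq k j (th W k x) := by
        rw [Complex.norm_real,
          Real.norm_of_nonneg (mul_nonneg (gq_nonneg _ _ _) (gq_nonneg _ _ _))]
      have hle : gq k j (th W k y) * gq k j (th W k x) ≤
          (tent k j (th W k y) + tent k j (th W k x)) / 2 := by
        rw [← gq_mul_self, ← gq_mul_self]
        nlinarith [sq_nonneg (gq k j (th W k y) - gq k j (th W k x))]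
      rw [norm_mul, hn]
      by_cases h0 : gq k j (th W k x) = 0
      · rw [h0, mul_zero, zero_mul]
        have := tent_nonneg k j (th W k y)
        have := tent_nonneg k j (th W k x)
        positivity
      · refine mul_le_mul hle ?_ (norm_nonneg _) (by
          have := tent_nonneg k j (th W k y)
          have := tent_nonneg k j (th W k x)
          positivity)
        have hj := (gq_ne_zero_iff k j (th W k x)).1 h0
        have hdist : dist (tt k j) 1 < δ := by
          rw [Subtype.dist_eq, Real.dist_eq, tt_val]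
          have e : ((1 : unitInterval) : ℝ) = 1 := rfl
          rw [e]
          have h3 : |((j : ℕ) : ℝ) / ((k : ℝ) + 1) - th W k x| ≤ 1 / ((k : ℝ) + 1) := by
            have e2 : ((j : ℕ) : ℝ) / ((k : ℝ) + 1) - th W k x =
                -((((k : ℝ) + 1) * th W k x - j) / ((k : ℝ) + 1)) := by
              field_simp
              ring
            rw [e2, abs_neg, abs_div, abs_of_pos hkp]
            exact (div_le_div_iff_of_pos_right hkp).2 hj.le
          have h4 := (BPhiE_th W k x).trans (BPhiE_div k (Nat.cast_nonneg (W.len x)))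
          have e3 : ((j : ℕ) : ℝ) / ((k : ℝ) + 1) - 1 =
              (((j : ℕ) : ℝ) / ((k : ℝ) + 1) - th W k x) + (th W k x - 1) := by ring
          rw [e3]
          refine (abs_add_le _ _).trans_lt ?_
          rw [add_div] at hA
          linarith
        have h5 := (hg hdist).le
        rw [dist_eq_norm] at h5
        refine (lp.norm_apply_le_norm (by simp) _ _).trans ?_
        refine ((g (tt k j) - g 1).le_opNorm _).trans ?_
        rw [norm_dl, mul_one]
        exact h5
    refine (norm_sum_le _ _).trans ((Finset.sum_le_sum h1).trans (le_of_eq ?_))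
    rw [← Finset.sum_mul, ← Finset.sum_div, Finset.sum_add_distrib,
      tent_sum k (th W k x) (th_nonneg W k x) (th_le_one W k x),
      tent_sum k (th W k y) (th_nonneg W k y) (th_le_one W k y)]
    ring
  have hsecond : ‖((∑ j : Fin (k + 2), gq k j (th W k y) * gq k j (th W k x) - 1 : ℝ) : ℂ) *
        (g 1 (dl x) : H2 G) y‖ < ε / 2 := by
    rw [norm_mul, Complex.norm_real, Real.norm_eq_abs]
    exact (mul_le_mul_of_nonneg_right (BPhiE_one W k x y) hM0).trans_lt hB
  calc _ ≤ _ := norm_add_le _ _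
    _ < ε / 2 + ε / 2 := add_lt_add_of_le_of_lt hfirst hsecond
    _ = ε := by ring

/-- If `phi k g → 0` in norm then `g 1 = 0`. -/
theorem eq_zero_of_phi (g : C(unitInterval, LL G))
    (h : Tendsto (fun k => ‖phi W k g‖) atTop (𝓝 0)) : g 1 = 0 := by
  refine TwG.ext_dl fun x => ?_
  refine PB.ext_lp fun y => ?_
  have h1 := phi_entry W g x y
  have h2 : Tendsto (fun k => (phi W k g (dl x) : H2 G) y) atTop (𝓝 0) := by
    rw [tendsto_zero_iff_norm_tendsto_zero]
    refine squeeze_zero (fun _ => norm_nonneg _) (fun k => ?_) h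
    refine (lp.norm_apply_le_norm (by simp) _ _).trans ?_
    refine ((phi W k g).le_opNorm _).trans ?_
    rw [norm_dl, mul_one]
  rw [tendsto_nhds_unique h1 h2]
  rfl

end Pool.Agent.H.MP_e11395_an.PA
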