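import Pool.Agent.H.MP_e11395_an.A.BAlg
import Pool.Agent.H.MP_e11395_an.A.BBall
import Pool.Agent.H.MP_e11395_an.A.BPhiE
import Pool.Agent.H.MP_e11395_an.Cone

/-!
# MP_e11395, part A2: `B` and `B'` as contractible algebras with finite dimensional representations
-/

set_option autoImplicit false
set_option linter.unusedSectionVars false

open Filter Topology
open scoped ENNReal InnerProductSpace BoundedContinuousFunction

namespace Pool.Agent.H.MP_e11395_an.PA

noncomputable section

variable {G : Type} [Group G] (W : TwG G)

variable {W}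

/-- The representation at the place `k` and the parameter `s`. -/
def piK (k : ℕ) (s : unitInterval) : BP W →⋆ₐ[ℂ] Mt (Fin (ball W k).card) ℂ where
  toFun F := cmp k (F.val.x s k)
  map_one' := by
    rw [BP.val_one, Amb.one_x, ← map_one (algebraMap ℂ (LL G)), cmp_algebraMap, map_one]
  map_mul' F F' := by
    rw [BP.val_mul, Amb.mul_x, cmp_mul (F'.mem.comm s k)]
  map_zero' := by
    rw [BP.val_zero, Amb.zero_x, ← map_zero (algebraMap ℂ (LL G)), cmp_algebraMap, map_zero]
  map_add' F F' := by
    refine Mt.ext fun i j => ?_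
    rfl
  commutes' c := by
    rw [BP.val_algebraMap, Amb.algebraMap_x, cmp_algebraMap]
  map_star' F := by
    rw [BP.val_star, Amb.star_x, cmp_star]

theorem piK_apply (k : ℕ) (s : unitInterval) (F : BP W) :
    piK k s F = cmp k (F.val.x s k) := rfl

variable (W)

/-- The dimensions of the representations in the enumeration. -/
def dd (n : ℕ) : ℕ := (ball W n.unpair.1).card

theorem dd_pos (n : ℕ) : 0 < dd W n := card_ball_pos W _

/-- The contractible algebra `B'`. -/
def coneP : ConeAlg (dd W) (BP W) where
  h := BP.h
  h_cont := BP.h_cont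
  h_one := BP.h_one
  ε := BP.ε
  h_zero := BP.h_zero
  π n := piK n.unpair.1 (TopologicalSpace.denseSeq unitInterval n.unpair.2)

/-- The contractible algebra `B`. -/
def coneB : ConeAlg (dd W) (BT W) where
  h := BT.h
  h_cont := BT.h_cont
  h_one := BT.h_one
  ε := BP.ε.comp incl
  h_zero := BT.h_zero
  π n := (piK n.unpair.1 (TopologicalSpace.denseSeq unitInterval n.unpair.2)).comp incl

/-- The inclusion as a morphism of contractible algebras. -/
def coneHom : (coneB W).Hom (coneP W) where
  j := incl
  inj := incl_injective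
  h _ _ := rfl
  ε _ := rfl
  π _ _ := rfl

/-- The entries are continuous in the parameter. -/
theorem BCone_cont (F : Amb G) (k : ℕ) (x y : G) :
    Continuous fun s : unitInterval => (F.x s k (dl x) : H2 G) y := by
  have h1 : Continuous fun s : unitInterval => F.x s k := by
    have h := F.xs.continuous
    refine Metric.continuous_iff.2 fun s ε hε => ?_
    obtain ⟨δ, hδ, hs⟩ := Metric.continuous_iff.1 h s ε hε
    exact ⟨δ, hδ, fun t ht => (BoundedContinuousFunction.dist_coe_le_dist k).trans_lt (hs t ht)⟩
  have h2 : Continuous fun s : unitInterval => (F.x s k (dl x) : H2 G) :=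
    h1.clm_apply continuous_const
  refine Metric.continuous_iff.2 fun s ε hε => ?_
  obtain ⟨δ, hδ, hs⟩ := Metric.continuous_iff.1 h2 s ε hε
  refine ⟨δ, hδ, fun t ht => lt_of_le_of_lt ?_ (hs t ht)⟩
  rw [dist_eq_norm, dist_eq_norm]
  have := lp.norm_apply_le_norm (by simp) ((F.x t k (dl x) : H2 G) - (F.x s k (dl x) : H2 G)) y
  exact this

/-- (Job.) The finite dimensional representations separate the points of `B`: if all vanish then
by continuity `piK k s F = 0` for all `k`, `s`; at `s = 0` this gives `F.f 0 = 0`
(`ev0 F = 0` as the ball is not empty); so `F.x s k = F.x s k * P + F.x s k * (1 - P) = 0`;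
then `phi k (sc s F.f) → 0`, so `F.f s = 0` by `eq_zero_of_phi`. -/
theorem coneB_sep : (coneB W).Sep := by
  intro F hF
  have h1 : ∀ (k : ℕ) (s : unitInterval),
      (cmp k (F.val.x s k) : Mt (Fin (ball W k).card) ℂ) = 0 := by
    intro k
    have hd : ∀ m : ℕ, (cmp k (F.val.x (TopologicalSpace.denseSeq unitInterval m) k) :
        Mt (Fin (ball W k).card) ℂ) = 0 := by
      intro m
      have h := hF (Nat.pair k m)
      have h' : (cmp (Nat.pair k m).unpair.1 (F.val.x (TopologicalSpace.denseSeq unitInterval
          (Nat.pair k m).unpair.2) (Nat.pair k m).unpair.1) :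
          Mt (Fin (ball W (Nat.pair k m).unpair.1).card) ℂ) = 0 := h
      rw [Nat.unpair_pair] at h'
      exact h'
    intro s
    refine Mt.ext fun i j => ?_
    have hc : Continuous fun s : unitInterval =>
        (F.val.x s k (dl (en W k j : G)) : H2 G) (en W k i : G) :=
      BCone_cont F.val k _ _
    have hz : (fun s : unitInterval => (F.val.x s k (dl (en W k j : G)) : H2 G) (en W k i : G)) =
        fun _ => 0 := by
      refine (TopologicalSpace.denseRange_denseSeq unitInterval).equalizer hc continuous_const ?_
      funext m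
      exact congrFun (congrFun (hd m) i) j
    exact congrFun hz s
  have h2 : ev0 F.val = 0 := by
    have h := h1 0 0
    rw [F.mem.toInP.ev0_x, cmp_algebraMap] at h
    have h' := congrFun (congrFun h ⟨0, card_ball_pos W 0⟩) ⟨0, card_ball_pos W 0⟩
    rw [Mt.algebraMap_apply, if_pos rfl] at h'
    exact h'
  have h3 : F.val.f 0 = 0 := by
    rw [F.mem.toInP.ev0_f, h2, map_zero]
  have h4 : ∀ s k, F.val.x s k = 0 := by
    intro s k
    have e : F.val.x s k = F.val.x s k * P W k + F.val.x s k * (1 - P W k) := by
      rw [← mul_add, add_sub_cancel, mul_one]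
    rw [e, mul_P_eq_zero (F.mem.comm s k) (h1 k s), F.mem.out, h3, zero_mul, add_zero]
  refine BT.ext (Amb.ext h4 fun s => ?_)
  have h5 : Tendsto (fun k => ‖phi W k (sc s F.val.f)‖) atTop (𝓝 0) := by
    refine (F.mem.asy s).congr fun k => ?_
    rw [h4, zero_sub, norm_neg]
  have h6 := eq_zero_of_phi W _ h5
  rw [sc_apply, mul_one] at h6
  exact h6

end

end Pool.Agent.H.MP_e11395_an.PA
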