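import Pool.Agent.H.MP_e11395_an.A.BTent

/-!
# MP_e11395, part A2: the cut-off operators on `ℓ²(G)`

`NN k = (k+1)^4`; `th k x = max 0 (1 - len x / NN k)`; `tent k j θ = max 0 (1 - |(k+1) θ - j|)`
(a partition of unity of `[0,1]`, `j = 0, ..., k+1`); `V k j` is the multiplication by
`√(tent k j (th k x))`; `P k` is the projection on `{x | len x < NN k}`.
-/

set_option autoImplicit false
set_option linter.unusedSectionVars false

open Filter Topology
open scoped ENNReal InnerProductSpace

namespace Pool.Agent.H.MP_e11395_an.PA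

variable {G : Type} [Group G] (W : TwG G)

/-- The height of a group element: `1` at `1`, `0` outside the ball of radius `NN k`. -/
noncomputable def th (k : ℕ) (x : G) : ℝ := max 0 (1 - (W.len x : ℝ) / NN k)

theorem th_nonneg (k : ℕ) (x : G) : 0 ≤ th W k x := le_max_left _ _

theorem th_le_one (k : ℕ) (x : G) : th W k x ≤ 1 := by
  unfold th
  refine max_le zero_le_one ?_
  have : 0 ≤ (W.len x : ℝ) / NN k := by positivity
  linarith

/-- The length function is Lipschitz, so is the height. -/
theorem th_lip (k : ℕ) (x y : G) :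
    |th W k (y * x) - th W k x| ≤ (W.len y : ℝ) / NN k := by
  have h1 : (W.len (y * x) : ℝ) ≤ W.len y + W.len x := by exact_mod_cast W.len_mul y x
  have h2 : (W.len x : ℝ) ≤ W.len y + W.len (y * x) := by
    have h := W.len_mul y⁻¹ (y * x)
    rw [inv_mul_cancel_left, W.len_inv] at h
    exact_mod_cast h
  have hN : (0 : ℝ) < NN k := by exact_mod_cast NN_pos k
  unfold th
  refine (abs_max_sub_max_le_max _ _ _ _).trans ?_
  rw [sub_self, abs_zero, max_eq_right (abs_nonneg _)]
  have h3 : 1 - (W.len (y * x) : ℝ) / NN k - (1 - (W.len x : ℝ) / NN k) =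
      ((W.len x : ℝ) - W.len (y * x)) / NN k := by ring
  rw [h3, abs_div, abs_of_pos hN]
  gcongr
  rw [abs_le]
  constructor <;> linarith

/-- The cut-off operators. -/
noncomputable def V (k : ℕ) (j : Fin (k + 2)) : LL G :=
  dgc fun x => ((gq k j (th W k x) : ℝ) : ℂ)

theorem V_dl (k : ℕ) (j : Fin (k + 2)) (x : G) :
    V W k j (dl x) = ((gq k j (th W k x) : ℝ) : ℂ) • dl x :=
  dgc_dl (fun x => norm_gq_le k j (th W k x)) x

/-- The indicator function of the ball. -/
def ind (k : ℕ) (x : G) : ℂ := if W.len x < NN k then 1 else 0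

theorem norm_ind_le (k : ℕ) (x : G) : ‖ind W k x‖ ≤ 1 := by
  unfold ind
  split_ifs <;> simp

theorem ind_of_lt {k : ℕ} {x : G} (h : W.len x < NN k) : ind W k x = 1 := if_pos h

theorem ind_of_not_lt {k : ℕ} {x : G} (h : ¬ W.len x < NN k) : ind W k x = 0 := if_neg h

/-- The projection on the span of the ball. -/
noncomputable def P (k : ℕ) : LL G := dgc (ind W k)

theorem P_dl (k : ℕ) (x : G) : P W k (dl x) = ind W k x • dl x :=
  dgc_dl (norm_ind_le W k) x

theorem P_apply (k : ℕ) (v : H2 G) (x : G) : P W k v x = ind W k x * v x :=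
  dgc_apply (norm_ind_le W k) v x

theorem P_star (k : ℕ) : star (P W k) = P W k := by
  rw [P, ← dgc_star (norm_ind_le W k)]
  congr 1
  funext x
  unfold ind
  split_ifs <;> simp

theorem P_mul_self (k : ℕ) : P W k * P W k = P W k := by
  rw [P, ← dgc_mul (norm_ind_le W k) (norm_ind_le W k)]
  congr 1
  funext x
  unfold ind
  split_ifs <;> simp

theorem P_V_comm (k : ℕ) (j : Fin (k + 2)) : P W k * V W k j = V W k j * P W k :=
  dgc_comm (norm_ind_le W k) (fun x => norm_gq_le k j (th W k x))

/-- For `j ≥ 1` the cut-off `V k j` is supported in the ball. -/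
theorem V_mul_P (k : ℕ) (j : Fin (k + 2)) (hj : j ≠ 0) : V W k j * P W k = V W k j := by
  rw [V, P, ← dgc_mul (fun x => norm_gq_le k j (th W k x)) (norm_ind_le W k)]
  congr 1
  funext x
  by_cases h : W.len x < NN k
  · rw [ind_of_lt W h, mul_one]
  · have h0 : gq k j (th W k x) = 0 := by
      by_contra h1
      rw [← ne_eq, gq_ne_zero_iff] at h1
      have hN : (0 : ℝ) < NN k := by exact_mod_cast NN_pos k
      have h2 : th W k x = 0 := by
        unfold th
        apply max_eq_left
        have h3 : (NN k : ℝ) ≤ W.len x := by exact_mod_cast not_lt.1 h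
        have h4 : 1 ≤ (W.len x : ℝ) / NN k := by rwa [le_div_iff₀ hN, one_mul]
        linarith
      rw [h2, mul_zero, zero_sub, abs_neg] at h1
      have h5 : (1 : ℝ) ≤ (j : ℕ) := by
        have h6 : 1 ≤ (j : ℕ) := Nat.one_le_iff_ne_zero.2 fun h7 => hj (Fin.ext h7)
        exact_mod_cast h6
      rw [abs_of_nonneg (by linarith)] at h1
      linarith
    rw [h0]
    simp

/-- The family `V k` is a cut-off family. -/
theorem V_isCut (k : ℕ) : IsCut (V W k) where
  sa j := by
    rw [V, ← dgc_star (fun x => norm_gq_le k j (th W k x))]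
    congr 1
    funext x
    simp
  comm i j := dgc_comm (fun x => norm_gq_le k i (th W k x)) (fun x => norm_gq_le k j (th W k x))
  sum := by
    have h1 : ∀ j : Fin (k + 2), V W k j * V W k j =
        dgc fun x => ((gq k j (th W k x) : ℝ) : ℂ) * ((gq k j (th W k x) : ℝ) : ℂ) := fun j => by
      rw [V, ← dgc_mul (fun x => norm_gq_le k j (th W k x))
        (fun x => norm_gq_le k j (th W k x))]
    simp only [h1]
    rw [← dgc_sum Finset.univ (a := fun (j : Fin (k + 2)) x =>
      ((gq k j (th W k x) : ℝ) : ℂ) * ((gq k j (th W k x) : ℝ) : ℂ)) (C := 1)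
      (fun j x => by
        rw [norm_mul]
        exact mul_le_one₀ (norm_gq_le k j (th W k x)) (norm_nonneg _)
          (norm_gq_le k j (th W k x))), ← dgc_one]
    congr 1
    funext x
    have h2 := tent_sum k (th W k x) (th_nonneg W k x) (th_le_one W k x)
    have h3 : ∀ j : Fin (k + 2), ((gq k j (th W k x) : ℝ) : ℂ) * ((gq k j (th W k x) : ℝ) : ℂ) =
        ((tent k j (th W k x) : ℝ) : ℂ) := fun j => by
      rw [← Complex.ofReal_mul, gq_mul_self]
    simp only [h3]
    rw [← Complex.ofReal_sum, h2, Complex.ofReal_one]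
  far i j h := by
    rw [V, V, ← dgc_mul (fun x => norm_gq_le k i (th W k x))
        (fun x => norm_gq_le k j (th W k x)), ← dgc_zero]
    congr 1
    funext x
    have h1 : gq k i (th W k x) = 0 ∨ gq k j (th W k x) = 0 := by
      by_contra h2
      push Not at h2
      have h3 := (gq_ne_zero_iff k i _).1 h2.1
      have h4 := (gq_ne_zero_iff k j _).1 h2.2
      rw [abs_lt] at h3 h4
      have h5 : ((i : ℕ) : ℝ) + 2 ≤ (j : ℕ) := by exact_mod_cast h
      linarith [h3.1, h3.2, h4.1, h4.2]
    rcases h1 with h1 | h1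
    · rw [h1]; simp
    · rw [h1]; simp

end Pool.Agent.H.MP_e11395_an.PA
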