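import Pool.Agent.H.MP_e11395_an.Mt

/-!
# Twisted group algebras

`TwG G`: a proper length function and a 2-cocycle with values in the circle on the group `G`;
`H2 G`: the Hilbert space `ℓ²(G)`; `LL G`: its bounded operators; `W.lam x`: the twisted left
translations; `W.D`: the twisted reduced group C*-algebra; `tauD`: the vector state of `δ_1`.
-/

set_option autoImplicit false
set_option linter.unusedSectionVars false

open Filter Topology
open scoped ENNReal

namespace Pool.Agent.H.MP_e11395_an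

/-- `ℓ²(G)`. -/
abbrev H2 (G : Type) : Type := lp (fun _ : G => ℂ) 2

/-- The bounded operators on `ℓ²(G)`. -/
abbrev LL (G : Type) : Type := H2 G →L[ℂ] H2 G

noncomputable instance (G : Type) : CStarAlgebra (LL G) where

open Classical in
/-- The standard basis vectors of `ℓ²(G)`. -/
noncomputable def dl {G : Type} (x : G) : H2 G := lp.single 2 x 1

open Classical in
theorem dl_apply {G : Type} (x y : G) : (dl x : H2 G) y = if y = x then 1 else 0 := by
  rw [dl, lp.single_apply]
  by_cases h : y = x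
  · subst h; simp
  · simp [h]

theorem dl_self {G : Type} (x : G) : (dl x : H2 G) x = 1 := by
  classical
  simp [dl_apply]

theorem dl_ne {G : Type} {x y : G} (h : y ≠ x) : (dl x : H2 G) y = 0 := by
  classical
  simp [dl_apply, h]

theorem inner_dl_left {G : Type} (x : G) (ξ : H2 G) : inner ℂ (dl x) ξ = ξ x := by
  classical
  rw [dl, lp.inner_single_left]
  simp

theorem inner_dl_right {G : Type} (x : G) (ξ : H2 G) :
    inner ℂ ξ (dl x) = (starRingEnd ℂ) (ξ x) := by
  rw [← inner_conj_symm, inner_dl_left]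

theorem norm_dl {G : Type} (x : G) : ‖(dl x : H2 G)‖ = 1 := by
  classical
  rw [dl, lp.norm_single (by simp)]
  simp

/-- A group with a proper length function and a circle valued 2-cocycle. -/
structure TwG (G : Type) [Group G] where
  ω : G → G → ℂ
  ω_norm : ∀ x y, ‖ω x y‖ = 1
  ω_one_left : ∀ x, ω 1 x = 1
  ω_one_right : ∀ x, ω x 1 = 1
  ω_mul : ∀ x y z, ω x y * ω (x * y) z = ω x (y * z) * ω y z
  len : G → ℕ
  len_one : len 1 = 0
  len_inv : ∀ x, len x⁻¹ = len x
  len_mul : ∀ x y, len (x * y) ≤ len x + len y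
  len_fin : ∀ n, {x | len x ≤ n}.Finite

namespace TwG

variable {G : Type} [Group G] (W : TwG G)

/-- The twisted left translation `(lam x ξ)(y) = ω(x, x⁻¹ y) ξ(x⁻¹ y)`. -/
noncomputable def lamI (x : G) : H2 G →ₗᵢ[ℂ] H2 G where
  toFun ξ := ⟨fun y => W.ω x (x⁻¹ * y) * ξ (x⁻¹ * y), by
    have h : Memℓp (fun y => W.ω x (x⁻¹ * y) * ξ (x⁻¹ * y)) 2 := by
      apply memℓp_gen
      have h1 := (lp.memℓp ξ).summable (by simp)
      have h2 := (Equiv.mulLeft x⁻¹).summable_iff.2 h1
      refine h2.congr fun y => ?_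
      simp [W.ω_norm]
    exact h⟩
  map_add' ξ η := by
    ext y
    simp [mul_add]
  map_smul' c ξ := by
    ext y
    simp [mul_left_comm]
  norm_map' ξ := by
    have h2 : (0 : ℝ) < (2 : ℝ≥0∞).toReal := by simp
    change ‖(⟨fun y => W.ω x (x⁻¹ * y) * ξ (x⁻¹ * y), _⟩ : lp (fun _ : G => ℂ) 2)‖ = ‖ξ‖
    rw [lp.norm_eq_tsum_rpow h2, lp.norm_eq_tsum_rpow h2]
    congr 1
    rw [← (Equiv.mulLeft x⁻¹).tsum_eq (fun z => ‖ξ z‖ ^ (2 : ℝ≥0∞).toReal)]
    refine tsum_congr fun y => ?_
    simp [W.ω_norm]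

/-- The twisted left translation. -/
noncomputable def lam (x : G) : LL G := (W.lamI x).toContinuousLinearMap

theorem lam_apply (x : G) (ξ : H2 G) (y : G) :
    (W.lam x ξ : H2 G) y = W.ω x (x⁻¹ * y) * ξ (x⁻¹ * y) := rfl

theorem lam_dl (x y : G) : W.lam x (dl y) = W.ω x y • dl (x * y) := by
  ext z
  rw [lam_apply, lp.coeFn_smul, Pi.smul_apply, smul_eq_mul]
  by_cases h : z = x * y
  · subst h
    rw [inv_mul_cancel_left, dl_self, dl_self]
  · have h1 : x⁻¹ * z ≠ y := fun h2 => h (by rw [← h2, mul_inv_cancel_left])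
    rw [dl_ne h1, dl_ne h, mul_zero, mul_zero]

theorem ext_dl {S T : LL G} (h : ∀ y, S (dl y) = T (dl y)) : S = T := by
  classical
  refine ContinuousLinearMap.ext fun ξ => ?_
  have h1 : HasSum (fun i => lp.single 2 i (ξ i)) ξ := lp.hasSum_single (by simp) ξ
  have h2 : ∀ i, lp.single 2 i (ξ i) = (ξ i) • (dl i : H2 G) := fun i => by
    rw [dl, ← lp.single_smul]
    simp
  have h3 : ∀ R : LL G, HasSum (fun i => (ξ i) • R (dl i)) (R ξ) := fun R => by
    have h5 : (fun i => ξ i • R (dl i : H2 G)) = fun i => R (lp.single 2 i (ξ i)) :=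
      funext fun i => by rw [h2 i, map_smul]
    rw [h5]
    exact R.hasSum h1
  have hS := h3 S
  have hT := h3 T
  simp only [h] at hS
  exact hS.unique hT

theorem lam_one : W.lam 1 = 1 := by
  refine ext_dl fun y => ?_
  rw [lam_dl, W.ω_one_left, one_mul, one_smul]
  rfl

theorem lam_mul (x y : G) : W.lam x * W.lam y = W.ω x y • W.lam (x * y) := by
  refine ext_dl fun z => ?_
  show W.lam x (W.lam y (dl z)) = W.ω x y • W.lam (x * y) (dl z)
  rw [lam_dl, map_smul, lam_dl, lam_dl, smul_smul, smul_smul, W.ω_mul, mul_comm, mul_assoc]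

theorem Tw_star_mul (x : G) : star (W.lam x) * W.lam x = 1 :=
  (ContinuousLinearMap.norm_map_iff_adjoint_comp_self _).1 fun ξ => (W.lamI x).norm_map ξ

theorem Tw_mul_inv (x : G) :
    W.lam x * ((starRingEnd ℂ) (W.ω x x⁻¹) • W.lam x⁻¹) = 1 := by
  rw [mul_smul_comm, lam_mul, smul_smul, mul_inv_cancel, lam_one]
  have h : (starRingEnd ℂ) (W.ω x x⁻¹) * W.ω x x⁻¹ = 1 := by
    rw [mul_comm, Complex.mul_conj, Complex.normSq_eq_norm_sq, W.ω_norm]
    simp
  rw [h, one_smul]

/-- `lam x` is unitary, `star (lam x) = conj ω(x, x⁻¹) lam x⁻¹`. -/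
theorem lam_star (x : G) :
    star (W.lam x) = (starRingEnd ℂ) (W.ω x x⁻¹) • W.lam x⁻¹ := by
  calc star (W.lam x) = star (W.lam x) *
        (W.lam x * ((starRingEnd ℂ) (W.ω x x⁻¹) • W.lam x⁻¹)) := by
        rw [Tw_mul_inv, mul_one]
    _ = _ := by rw [← mul_assoc, Tw_star_mul, one_mul]

theorem lam_unitary (x : G) : W.lam x ∈ unitary (LL G) := by
  rw [Unitary.mem_iff]
  exact ⟨W.Tw_star_mul x, by rw [lam_star]; exact W.Tw_mul_inv x⟩

/-- The twisted reduced group C*-algebra, as a subalgebra. -/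
noncomputable def D : StarSubalgebra ℂ (LL G) :=
  (StarAlgebra.adjoin ℂ (Set.range W.lam)).topologicalClosure

instance D_closed : IsClosed (W.D : Set (LL G)) :=
  StarSubalgebra.isClosed_topologicalClosure _

theorem lam_mem (x : G) : W.lam x ∈ W.D :=
  StarSubalgebra.le_topologicalClosure _ (StarAlgebra.subset_adjoin ℂ _ ⟨x, rfl⟩)

/-- The twisted reduced group C*-algebra. -/
def DT : Type := ↥W.D

noncomputable instance : CStarAlgebra W.DT := inferInstanceAs (CStarAlgebra ↥W.D)

namespace DT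

variable {W}

/-- The underlying operator. -/
def val (T : W.DT) : LL G := Subtype.val T

/-- An operator in `D` as an element of the C*-algebra `D`. -/
def mk (T : LL G) (hT : T ∈ W.D) : W.DT := ⟨T, hT⟩

@[simp] theorem val_mk (T : LL G) (hT : T ∈ W.D) : (mk T hT).val = T := rfl

@[ext] theorem ext {S T : W.DT} (h : S.val = T.val) : S = T := Subtype.ext h

theorem val_mem (T : W.DT) : T.val ∈ W.D := T.2

@[simp] theorem val_one : (1 : W.DT).val = 1 := rfl
@[simp] theorem val_zero : (0 : W.DT).val = 0 := rfl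
@[simp] theorem val_add (S T : W.DT) : (S + T).val = S.val + T.val := rfl
@[simp] theorem val_sub (S T : W.DT) : (S - T).val = S.val - T.val := rfl
@[simp] theorem val_neg (T : W.DT) : (-T).val = -T.val := rfl
@[simp] theorem val_mul (S T : W.DT) : (S * T).val = S.val * T.val := rfl
@[simp] theorem val_star (T : W.DT) : (star T).val = star T.val := rfl
@[simp] theorem val_smul (c : ℂ) (T : W.DT) : (c • T).val = c • T.val := rfl
theorem norm_val (T : W.DT) : ‖T.val‖ = ‖T‖ := rfl

/-- The inclusion in the bounded operators. -/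
noncomputable def valHom : W.DT →⋆ₐ[ℂ] LL G where
  toFun := val
  map_one' := rfl
  map_mul' _ _ := rfl
  map_zero' := rfl
  map_add' _ _ := rfl
  commutes' _ := rfl
  map_star' _ := rfl

@[simp] theorem valHom_apply (T : W.DT) : valHom T = T.val := rfl

end DT

/-- `lam x` as an element of `D`. -/
noncomputable def lamD (x : G) : W.DT := DT.mk (W.lam x) (W.lam_mem x)

theorem Tw_span_mul {S T : LL G} (hS : S ∈ Submodule.span ℂ (Set.range W.lam))
    (hT : T ∈ Submodule.span ℂ (Set.range W.lam)) :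
    S * T ∈ Submodule.span ℂ (Set.range W.lam) := by
  refine Submodule.span_induction (p := fun S _ => S * T ∈ Submodule.span ℂ (Set.range W.lam))
    ?_ ?_ ?_ ?_ hS
  · rintro _ ⟨x, rfl⟩
    refine Submodule.span_induction
      (p := fun T _ => W.lam x * T ∈ Submodule.span ℂ (Set.range W.lam)) ?_ ?_ ?_ ?_ hT
    · rintro _ ⟨y, rfl⟩
      rw [lam_mul]
      exact Submodule.smul_mem _ _ (Submodule.subset_span ⟨_, rfl⟩)
    · rw [mul_zero]
      exact Submodule.zero_mem _
    · intro a b _ _ ha hb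
      rw [mul_add]
      exact Submodule.add_mem _ ha hb
    · intro c a _ ha
      rw [mul_smul_comm]
      exact Submodule.smul_mem _ _ ha
  · rw [zero_mul]
    exact Submodule.zero_mem _
  · intro a b _ _ ha hb
    rw [add_mul]
    exact Submodule.add_mem _ ha hb
  · intro c a _ ha
    rw [smul_mul_assoc]
    exact Submodule.smul_mem _ _ ha

theorem Tw_span_star {S : LL G} (hS : S ∈ Submodule.span ℂ (Set.range W.lam)) :
    star S ∈ Submodule.span ℂ (Set.range W.lam) := by
  refine Submodule.span_induction (p := fun S _ => star S ∈ Submodule.span ℂ (Set.range W.lam))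
    ?_ ?_ ?_ ?_ hS
  · rintro _ ⟨x, rfl⟩
    rw [lam_star]
    exact Submodule.smul_mem _ _ (Submodule.subset_span ⟨_, rfl⟩)
  · rw [star_zero]
    exact Submodule.zero_mem _
  · intro a b _ _ ha hb
    rw [star_add]
    exact Submodule.add_mem _ ha hb
  · intro c a _ ha
    rw [star_smul]
    exact Submodule.smul_mem _ _ ha

theorem Tw_adjoin_le {S : LL G} (hS : S ∈ StarAlgebra.adjoin ℂ (Set.range W.lam)) :
    S ∈ Submodule.span ℂ (Set.range W.lam) := by
  induction hS using StarAlgebra.adjoin_induction with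
  | mem x hx => exact Submodule.subset_span hx
  | algebraMap r =>
    rw [Algebra.algebraMap_eq_smul_one, ← W.lam_one]
    exact Submodule.smul_mem _ _ (Submodule.subset_span ⟨_, rfl⟩)
  | add x y _ _ hx hy => exact Submodule.add_mem _ hx hy
  | mul x y _ _ hx hy => exact W.Tw_span_mul hx hy
  | star x _ hx => exact W.Tw_span_star hx

/-- The linear span of the `lam x` is dense in `D`. -/
theorem D_dense (T : W.DT) (ε : ℝ) (hε : 0 < ε) :
    ∃ c : G →₀ ℂ, ‖T - c.sum fun x a => a • W.lamD x‖ < ε := by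
  have h1 : T.val ∈ closure ((StarAlgebra.adjoin ℂ (Set.range W.lam) : StarSubalgebra ℂ (LL G)) :
      Set (LL G)) := T.val_mem
  obtain ⟨S, hS, hd⟩ := Metric.mem_closure_iff.1 h1 ε hε
  obtain ⟨c, hc⟩ := (Finsupp.mem_span_range_iff_exists_finsupp).1 (W.Tw_adjoin_le hS)
  refine ⟨c, ?_⟩
  rw [← DT.norm_val, DT.val_sub]
  have h2 : (c.sum fun x a => a • W.lamD x).val = S := by
    rw [← hc, ← DT.valHom_apply, map_finsuppSum]
    rfl
  rw [h2, ← dist_eq_norm]
  exact hd

end TwG

/-- The vector state of `δ_1`. -/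
noncomputable def tauL (G : Type) [Group G] : LL G →ₗ[ℂ] ℂ where
  toFun T := inner ℂ (dl 1) (T (dl 1))
  map_add' S T := by rw [_root_.add_apply, inner_add_right]
  map_smul' c T := by rw [_root_.smul_apply, inner_smul_right]; rfl

/-- The canonical trace of `D`. -/
noncomputable def TwG.tauD {G : Type} [Group G] (W : TwG G) : W.DT →ₗ[ℂ] ℂ :=
  (tauL G) ∘ₗ (TwG.DT.valHom : W.DT →⋆ₐ[ℂ] LL G).toAlgHom.toLinearMap

theorem TwG.tauD_apply {G : Type} [Group G] (W : TwG G) (T : W.DT) :
    W.tauD T = (T.val (dl 1) : H2 G) 1 := inner_dl_left _ _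

end Pool.Agent.H.MP_e11395_an
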