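import Pool.Agent.H.MP_e11395_an.B.Diag
import Pool.Agent.H.MP_e11395_an.A.Tw

/-!
# MP_e11395, part A2: scalar diagonal operators on `ℓ²(G)`, sums of cut-downs
-/

set_option autoImplicit false
set_option linter.unusedSectionVars false

open scoped ENNReal InnerProductSpace

namespace Pool.Agent.H.MP_e11395_an.PA

variable {G : Type}

/-- The operator of multiplication by a bounded function. -/
noncomputable def dgc (a : G → ℂ) : LL G := PB.dg (fun x => a x • (1 : ℂ →L[ℂ] ℂ))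

theorem norm_smul_one_le (z : ℂ) : ‖z • (1 : ℂ →L[ℂ] ℂ)‖ ≤ ‖z‖ := by
  rw [norm_smul]
  exact mul_le_of_le_one_right (norm_nonneg _) ContinuousLinearMap.norm_id_le

theorem dgc_apply {a : G → ℂ} {C : ℝ} (ha : ∀ x, ‖a x‖ ≤ C) (v : H2 G) (x : G) :
    dgc a v x = a x * v x := by
  rw [dgc, PB.dg_apply (C := C) (fun x => (norm_smul_one_le _).trans (ha x))]
  simp

theorem norm_dgc_le {a : G → ℂ} {C : ℝ} (hC : 0 ≤ C) (ha : ∀ x, ‖a x‖ ≤ C) : ‖dgc a‖ ≤ C :=
  PB.norm_dg_le hC (fun x => (norm_smul_one_le _).trans (ha x))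

theorem dgc_mul {a b : G → ℂ} {C D : ℝ} (ha : ∀ x, ‖a x‖ ≤ C) (hb : ∀ x, ‖b x‖ ≤ D) :
    dgc (fun x => a x * b x) = dgc a * dgc b := by
  rw [dgc, dgc, dgc, ← PB.dg_mul (fun x => (norm_smul_one_le _).trans (ha x))
    (fun x => (norm_smul_one_le _).trans (hb x))]
  congr 1
  funext x
  ext
  simp [mul_comm]

theorem dgc_add {a b : G → ℂ} {C D : ℝ} (ha : ∀ x, ‖a x‖ ≤ C) (hb : ∀ x, ‖b x‖ ≤ D) :
    dgc (fun x => a x + b x) = dgc a + dgc b := by
  rw [dgc, dgc, dgc, ← PB.dg_add (fun x => (norm_smul_one_le _).trans (ha x))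
    (fun x => (norm_smul_one_le _).trans (hb x))]
  congr 1
  funext x
  ext
  simp

theorem dgc_zero : dgc (fun _ : G => (0 : ℂ)) = 0 := by
  refine PB.ext_op fun v x => ?_
  rw [dgc_apply (C := 0) (by simp)]
  simp

theorem dgc_one : dgc (fun _ : G => (1 : ℂ)) = 1 := by
  rw [dgc, ← PB.dg_one]
  simp only [one_smul]

theorem dgc_sum {ι : Type} (s : Finset ι) {a : ι → G → ℂ} {C : ℝ}
    (ha : ∀ i x, ‖a i x‖ ≤ C) :
    dgc (fun x => ∑ i ∈ s, a i x) = ∑ i ∈ s, dgc (a i) := by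
  classical
  induction s using Finset.induction_on with
  | empty => simpa using dgc_zero
  | insert i s hi ih =>
    rw [Finset.sum_insert hi, ← ih, ← dgc_add (ha i) (D := s.card * C) (fun x => ?_)]
    · congr 1
      funext x
      rw [Finset.sum_insert hi]
    · refine (norm_sum_le _ _).trans ?_
      refine (Finset.sum_le_sum fun j _ => ha j x).trans ?_
      simp

theorem dgc_star {a : G → ℂ} {C : ℝ} (ha : ∀ x, ‖a x‖ ≤ C) :
    dgc (fun x => star (a x)) = star (dgc a) := by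
  rw [dgc, dgc, ← PB.dg_star (fun x => (norm_smul_one_le _).trans (ha x))]
  congr 1
  funext x
  simp

theorem dgc_comm {a b : G → ℂ} {C D : ℝ} (ha : ∀ x, ‖a x‖ ≤ C) (hb : ∀ x, ‖b x‖ ≤ D) :
    dgc a * dgc b = dgc b * dgc a := by
  rw [← dgc_mul ha hb, ← dgc_mul hb ha]
  congr 1
  funext x
  ring

theorem dgc_dl {a : G → ℂ} {C : ℝ} (ha : ∀ x, ‖a x‖ ≤ C) (x : G) :
    dgc a (dl x) = a x • dl x := by
  refine PB.ext_lp fun y => ?_
  rw [dgc_apply ha]
  change a y * (dl x : H2 G) y = a x * (dl x : H2 G) y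
  by_cases h : y = x
  · rw [h]
  · rw [dl_ne h]; simp

end Pool.Agent.H.MP_e11395_an.PA
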