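import Pool.Agent.H.MP_e11395_an.A.BBall

/-!
# MP_e11395, part A2: matrices on the ball as operators
-/

set_option autoImplicit false
set_option linter.unusedSectionVars false

open Filter Topology
open scoped ENNReal InnerProductSpace BoundedContinuousFunction

namespace Pool.Agent.H.MP_e11395_an.PA

noncomputable section

variable {G : Type} [Group G] {W : TwG G}

/-- The rank one operator `ξ ↦ ξ(x) dl y`. -/
def rk1 (y x : G) : LL G := (innerSL ℂ (dl x : H2 G)).smulRight (dl y)

theorem rk1_apply (y x : G) (ξ : H2 G) : rk1 y x ξ = (ξ x) • dl y := by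
  rw [rk1]
  change inner ℂ (dl x) ξ • dl y = _
  rw [inner_dl_left]

/-- The operator with the matrix `M` on the ball. -/
def emb (k : ℕ) (M : Mt (Fin (ball W k).card) ℂ) : LL G :=
  ∑ i, ∑ j, M i j • rk1 (en W k i : G) (en W k j : G)

theorem BEmb_apply (k : ℕ) (M : Mt (Fin (ball W k).card) ℂ) (ξ : H2 G) :
    emb k M ξ = ∑ i, ∑ j, M i j • (ξ (en W k j : G) • (dl (en W k i : G) : H2 G)) := by
  unfold emb
  rw [ContinuousLinearMap.sum_apply]
  refine Finset.sum_congr rfl fun i _ => ?_
  rw [ContinuousLinearMap.sum_apply]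
  refine Finset.sum_congr rfl fun j _ => ?_
  rw [ContinuousLinearMap.smul_apply, rk1_apply]

theorem BEmb_en_ne {k : ℕ} {i j : Fin (ball W k).card} (h : i ≠ j) :
    (en W k i : G) ≠ (en W k j : G) := fun h1 =>
  h ((en W k).injective (Subtype.ext h1))

theorem BEmb_dl_en (k : ℕ) (M : Mt (Fin (ball W k).card) ℂ) (j : Fin (ball W k).card) :
    emb k M (dl (en W k j : G)) = ∑ i, M i j • (dl (en W k i : G) : H2 G) := by
  rw [BEmb_apply]
  refine Finset.sum_congr rfl fun i _ => ?_
  rw [Finset.sum_eq_single j]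
  · rw [dl_self, one_smul]
  · intro j' _ h
    rw [dl_ne (BEmb_en_ne h), zero_smul, smul_zero]
  · intro h
    exact absurd (Finset.mem_univ j) h

theorem BEmb_dl_out (k : ℕ) (M : Mt (Fin (ball W k).card) ℂ) {x : G} (hx : x ∉ ball W k) :
    emb k M (dl x) = 0 := by
  rw [BEmb_apply]
  refine Finset.sum_eq_zero fun i _ => Finset.sum_eq_zero fun j _ => ?_
  have h : (en W k j : G) ≠ x := fun h1 => hx (h1 ▸ (en W k j).2)
  rw [dl_ne h, zero_smul, smul_zero]

theorem BEmb_cases (k : ℕ) (y : G) : (∃ j, (en W k j : G) = y) ∨ y ∉ ball W k := by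
  by_cases h : y ∈ ball W k
  · exact Or.inl ⟨(en W k).symm ⟨y, h⟩, by rw [Equiv.apply_symm_apply]⟩
  · exact Or.inr h

theorem BEmb_ind_en (k : ℕ) (j : Fin (ball W k).card) : ind W k (en W k j : G) = 1 :=
  ind_of_lt W (mem_ball W |>.1 (en W k j).2)

theorem BEmb_ind_out (k : ℕ) {x : G} (hx : x ∉ ball W k) : ind W k x = 0 :=
  ind_of_not_lt W fun h => hx ((mem_ball W).2 h)

/-- (Job.) -/
theorem cmp_emb (k : ℕ) (M : Mt (Fin (ball W k).card) ℂ) : cmp k (emb k M) = M := by
  refine Mt.ext fun i j => ?_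
  rw [cmp_apply, BEmb_dl_en, ← inner_dl_left, inner_sum, Finset.sum_eq_single i]
  · rw [inner_smul_right, inner_dl_left, dl_self, mul_one]
  · intro i' _ h
    rw [inner_smul_right, inner_dl_left, dl_ne (BEmb_en_ne (Ne.symm h)), mul_zero]
  · intro h
    exact absurd (Finset.mem_univ i) h

/-- (Job.) -/
theorem emb_mul_P (k : ℕ) (M : Mt (Fin (ball W k).card) ℂ) : emb k M * P W k = emb k M := by
  refine TwG.ext_dl fun y => ?_
  rw [ContinuousLinearMap.mul_apply, P_dl, map_smul]
  rcases BEmb_cases (W := W) k y with ⟨j, rfl⟩ | h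
  · rw [BEmb_ind_en, one_smul]
  · rw [BEmb_dl_out k M h, smul_zero]

/-- (Job.) -/
theorem P_mul_emb (k : ℕ) (M : Mt (Fin (ball W k).card) ℂ) : P W k * emb k M = emb k M := by
  refine TwG.ext_dl fun y => ?_
  rw [ContinuousLinearMap.mul_apply]
  rcases BEmb_cases (W := W) k y with ⟨j, rfl⟩ | h
  · rw [BEmb_dl_en, map_sum]
    refine Finset.sum_congr rfl fun i _ => ?_
    rw [map_smul, P_dl, BEmb_ind_en, one_smul]
  · rw [BEmb_dl_out k M h, map_zero]

/-- (Job.) `emb` is inverse to `cmp` on the operators with `T P = T = P T`. -/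
theorem emb_cmp (k : ℕ) {T : LL G} (h1 : T * P W k = T) (h2 : P W k * T = T) :
    emb k (cmp k T : Mt (Fin (ball W k).card) ℂ) = T := by
  refine TwG.ext_dl fun y => ?_
  rcases BEmb_cases (W := W) k y with ⟨j, rfl⟩ | h
  · rw [BEmb_dl_en, expand (h1.trans h2.symm) (en W k j).2]
    simp only [cmp_apply]
    rw [(en W k).sum_comp (fun y : ball W k =>
      (T (dl (en W k j : G)) : H2 G) (y : G) • (dl (y : G) : H2 G))]
    exact Finset.sum_coe_sort (ball W k)
      (fun y => (T (dl (en W k j : G)) : H2 G) y • (dl y : H2 G))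
  · rw [BEmb_dl_out k _ h, ← h1, ContinuousLinearMap.mul_apply, P_dl, BEmb_ind_out k h,
      zero_smul, map_zero]

/-- (Job.) -/
theorem emb_cont (k : ℕ) : Continuous (emb k : Mt (Fin (ball W k).card) ℂ → LL G) := by
  unfold emb
  refine continuous_finsetSum _ fun i _ => continuous_finsetSum _ fun j _ => ?_
  exact (Mt.continuous_entry i j).smul continuous_const

/-- (Job: `Mt.continuous_iff`.) -/
theorem cmp_cont (k : ℕ) : Continuous (cmp k : LL G → Mt (Fin (ball W k).card) ℂ) := by
  refine Mt.continuous_iff.2 fun i j => ?_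
  have h : (fun T : LL G => (cmp k T : Mt (Fin (ball W k).card) ℂ) i j) =
      fun T : LL G => innerSL ℂ (dl (en W k i : G) : H2 G) (T (dl (en W k j : G))) := by
    funext T
    rw [cmp_apply]
    exact (inner_dl_left _ _).symm
  rw [h]
  exact (innerSL ℂ (dl (en W k i : G) : H2 G)).continuous.comp
    (ContinuousLinearMap.apply ℂ (H2 G) (dl (en W k j : G))).continuous

end

end Pool.Agent.H.MP_e11395_an.PA
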