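import Pool.Agent.H.MP_e11395_an.A.BAlg

/-!
# MP_e11395, part A2: the asymptotic condition holds uniformly
-/

set_option autoImplicit false
set_option linter.unusedSectionVars false

open Filter Topology
open scoped ENNReal InnerProductSpace BoundedContinuousFunction

namespace Pool.Agent.H.MP_e11395_an.PA

variable {G : Type} [Group G] {W : TwG G}

/-- (Job.) The map `s ↦ F.xs s - phiB W 0 (sc s F.f) ∈ (ℕ →ᵇ L)` is continuous, its values
tend to `0` along `k`; finite subcover of the unit interval. -/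
theorem InB.asy_unif {F : Amb G} (h : InB W F) (ε : ℝ) (hε : 0 < ε) :
    ∃ K, ∀ k, K ≤ k → ∀ s, ‖F.x s k - phi W k (sc s F.f)‖ ≤ ε := by
  have hcont : Continuous fun s : unitInterval =>
      (F.xs s - phiB W 0 (sc s F.f) : ℕ →ᵇ LL G) :=
    F.xs.continuous.sub ((phiB W 0).continuous.comp (continuous_sc F.f))
  have hval : ∀ (s : unitInterval) (k : ℕ),
      (F.xs s - phiB W 0 (sc s F.f) : ℕ →ᵇ LL G) k = F.x s k - phi W k (sc s F.f) := by
    intro s k
    rw [BoundedContinuousFunction.sub_apply, phiB_apply, if_pos (Nat.zero_le k)]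
    rfl
  have hlim : ∀ s : unitInterval, ∃ K, ∀ k, K ≤ k →
      ‖F.x s k - phi W k (sc s F.f)‖ < ε / 2 := fun s =>
    eventually_atTop.1 ((h.asy s).eventually (gt_mem_nhds (half_pos hε)))
  choose Kf hKf using hlim
  have hU : ∀ s : unitInterval, {s' : unitInterval |
      ‖(F.xs s' - phiB W 0 (sc s' F.f) : ℕ →ᵇ LL G) - (F.xs s - phiB W 0 (sc s F.f))‖ <
        ε / 2} ∈ 𝓝 s := by
    intro s
    have h1 := Metric.tendsto_nhds.1 (hcont.tendsto s) (ε / 2) (half_pos hε)
    filter_upwards [h1] with s' hs'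
    rwa [dist_eq_norm] at hs'
  obtain ⟨t, _, ht⟩ := isCompact_univ.elim_nhds_subcover _ (fun s _ => hU s)
  refine ⟨t.sup Kf, fun k hk s => ?_⟩
  obtain ⟨s₀, hs₀, hs⟩ := Set.mem_iUnion₂.1 (ht (Set.mem_univ s))
  have h1 : ‖(F.x s k - phi W k (sc s F.f)) - (F.x s₀ k - phi W k (sc s₀ F.f))‖ < ε / 2 := by
    rw [← hval, ← hval, ← BoundedContinuousFunction.sub_apply]
    exact (BoundedContinuousFunction.norm_coe_le_norm _ k).trans_lt hs
  have h2 := hKf s₀ k ((Finset.le_sup (f := Kf) hs₀).trans hk)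
  have h3 := norm_add_le ((F.x s k - phi W k (sc s F.f)) - (F.x s₀ k - phi W k (sc s₀ F.f)))
    (F.x s₀ k - phi W k (sc s₀ F.f))
  rw [sub_add_cancel] at h3
  linarith

end Pool.Agent.H.MP_e11395_an.PA
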