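import Pool.Agent.H.MP_e11395_an.A.BCone
import Pool.Agent.H.MP_e11395_an.A.BUnif
import Pool.Agent.H.MP_e11395_an.D.State

/-!
# MP_e11395, part A2: elements of `B`

`insA k y`: the element with `x_k = y` and all other coordinates `0`;
`zc k c`: the central element `c(s) P k` at the place `k`;
`liftA f`: the element `(phi_k(f(s ·)), f)` for `f ∈ C(I, D)` with scalar value at `0`.
-/

set_option autoImplicit false
set_option linter.unusedSectionVars false

open Filter Topology
open scoped ENNReal InnerProductSpace BoundedContinuousFunction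

namespace Pool.Agent.H.MP_e11395_an.PA

noncomputable section

/-- The element of the ambient algebra with the single coordinate `y` at the place `k`. -/
def insA {G : Type} (k : ℕ) (y : C(unitInterval, LL G)) : Amb G :=
  Amb.mk ⟨fun s => single k (y s), by fun_prop⟩ 0

theorem insA_x {G : Type} (k : ℕ) (y : C(unitInterval, LL G)) (s : unitInterval) (j : ℕ) :
    (insA k y).x s j = if j = k then y s else 0 := rfl

theorem insA_f {G : Type} (k : ℕ) (y : C(unitInterval, LL G)) : (insA k y).f = 0 := rfl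

variable {G : Type} [Group G] (W : TwG G)

/-- (Job.) -/
theorem insA_InB {k : ℕ} {y : C(unitInterval, LL G)} (h0 : y 0 = 0)
    (h1 : ∀ s, y s * P W k = y s) (h2 : ∀ s, P W k * y s = y s) : InB W (insA k y) where
  x0 j := by
    rw [insA_x, insA_f, ContinuousMap.zero_apply]
    split_ifs
    · exact h0
    · rfl
  f0 := ⟨0, by rw [insA_f, ContinuousMap.zero_apply, map_zero]⟩
  comm s j := by
    rw [insA_x]
    split_ifs with h
    · subst h
      rw [h1, h2]
    · rw [zero_mul, mul_zero]
  D t := by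
    rw [insA_f, ContinuousMap.zero_apply]
    exact zero_mem _
  out s j := by
    rw [insA_x, insA_f, ContinuousMap.zero_apply, zero_mul]
    split_ifs with h
    · subst h
      rw [mul_sub, mul_one, h1, sub_self]
    · rw [zero_mul]
  asy s := by
    refine tendsto_const_nhds.congr' ?_
    filter_upwards [eventually_gt_atTop k] with j hj
    have h3 : sc s (0 : C(unitInterval, LL G)) = 0 := rfl
    have h4 : phi W j (0 : C(unitInterval, LL G)) = 0 := by
      have := phi_sub W j (0 : C(unitInterval, LL G)) 0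
      rwa [sub_self, sub_self] at this
    rw [insA_x, insA_f, if_neg (by omega), h3, h4, sub_zero, norm_zero]

/-- The function `c(s) P k`. -/
def cP (k : ℕ) (c : C(unitInterval, ℝ)) : C(unitInterval, LL G) :=
  ⟨fun s => ((c s : ℝ) : ℂ) • P W k, by fun_prop⟩

theorem cP_apply (k : ℕ) (c : C(unitInterval, ℝ)) (s : unitInterval) :
    cP W k c s = ((c s : ℝ) : ℂ) • P W k := rfl

/-- The central element `c(s) P k` at the place `k`. -/
def zc (k : ℕ) (c : C(unitInterval, ℝ)) (hc : c 0 = 0) : BT W :=
  BT.mk (insA k (cP W k c)) (insA_InB W (by rw [cP_apply, hc, Complex.ofReal_zero, zero_smul])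
    (fun s => by rw [cP_apply, smul_mul_assoc, P_mul_self])
    (fun s => by rw [cP_apply, mul_smul_comm, P_mul_self]))

theorem zc_x (k : ℕ) (c : C(unitInterval, ℝ)) (hc : c 0 = 0) (s : unitInterval) (j : ℕ) :
    (zc W k c hc).val.x s j = if j = k then ((c s : ℝ) : ℂ) • P W k else 0 := rfl

theorem zc_f (k : ℕ) (c : C(unitInterval, ℝ)) (hc : c 0 = 0) : (zc W k c hc).val.f = 0 := rfl

/-- (Job.) -/
theorem zc_central (k : ℕ) (c : C(unitInterval, ℝ)) (hc : c 0 = 0) (F : BT W) :
    zc W k c hc * F = F * zc W k c hc := by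
  refine BT.ext (Amb.ext (fun s j => ?_) (fun s => ?_))
  · rw [BT.val_mul, BT.val_mul, Amb.mul_x, Amb.mul_x, zc_x]
    split_ifs with h
    · subst h
      rw [smul_mul_assoc, mul_smul_comm, F.mem.comm]
    · rw [zero_mul, mul_zero]
  · rw [BT.val_mul, BT.val_mul, Amb.mul_f, Amb.mul_f, zc_f, zero_mul, mul_zero]

/-- (Job: `w = zc (√c)`, `v = 1 - zc (1 - √(1-c))`.) -/
theorem zc_sq (k : ℕ) (c : C(unitInterval, ℝ)) (hc : c 0 = 0) (h0 : ∀ s, 0 ≤ c s)
    (h1 : ∀ s, c s ≤ 1) :
    (∃ w : BT W, star w * w = zc W k c hc) ∧ ∃ v : BT W, star v * v = 1 - zc W k c hc := by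
  constructor
  · let r : C(unitInterval, ℝ) := ⟨fun s => Real.sqrt (c s), by fun_prop⟩
    have hr : r 0 = 0 := by
      change Real.sqrt (c 0) = 0
      rw [hc, Real.sqrt_zero]
    refine ⟨zc W k r hr, BT.ext (Amb.ext (fun s j => ?_) (fun s => ?_))⟩
    · rw [BT.val_mul, BT.val_star, Amb.mul_x, Amb.star_x, zc_x, zc_x]
      split_ifs with h
      · have h3 : (r s : ℝ) * r s = c s := Real.mul_self_sqrt (h0 s)
        rw [star_smul, P_star, smul_mul_smul_comm, P_mul_self, ← h3, Complex.ofReal_mul,
          Complex.star_def, Complex.conj_ofReal]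
      · rw [mul_zero]
    · rw [BT.val_mul, BT.val_star, Amb.mul_f, Amb.star_f, zc_f, zc_f, mul_zero]
  · let r : C(unitInterval, ℝ) := ⟨fun s => 1 - Real.sqrt (1 - c s), by fun_prop⟩
    have hr : r 0 = 0 := by
      change 1 - Real.sqrt (1 - c 0) = 0
      rw [hc, sub_zero, Real.sqrt_one, sub_self]
    refine ⟨1 - zc W k r hr, BT.ext (Amb.ext (fun s j => ?_) (fun s => ?_))⟩
    · rw [BT.val_mul, BT.val_star, BT.val_sub, BT.val_sub, BT.val_one, Amb.mul_x, Amb.star_x,
        Amb.sub_x, Amb.sub_x, Amb.one_x, zc_x, zc_x]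
      split_ifs with h
      · have h3 : (r s : ℝ) + r s - r s * r s = c s := by
          have h4 : Real.sqrt (1 - c s) * Real.sqrt (1 - c s) = 1 - c s :=
            Real.mul_self_sqrt (sub_nonneg.2 (h1 s))
          change (1 - Real.sqrt (1 - c s)) + (1 - Real.sqrt (1 - c s)) -
            (1 - Real.sqrt (1 - c s)) * (1 - Real.sqrt (1 - c s)) = c s
          linear_combination -h4
        rw [star_sub, star_one, star_smul, P_star, Complex.star_def, Complex.conj_ofReal, sub_mul,
          one_mul, mul_sub, mul_one, smul_mul_smul_comm, P_mul_self, ← h3, Complex.ofReal_sub,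
          Complex.ofReal_add, Complex.ofReal_mul, sub_smul, add_smul]
        abel
      · rw [sub_zero, star_one, mul_one]
    · rw [BT.val_mul, BT.val_star, BT.val_sub, BT.val_sub, BT.val_one, Amb.mul_f, Amb.star_f,
        Amb.sub_f, Amb.sub_f, Amb.one_f, zc_f, zc_f, sub_zero, mul_one]
      change star (1 : LL G) = 1
      exact star_one _

/-- An extreme trace is multiplicative for `zc k c`, `0 ≤ c ≤ 1`. -/
theorem zc_ext {σ : BT W →ₗ[ℂ] ℂ} (h : IsExt σ) (k : ℕ) (c : C(unitInterval, ℝ)) (hc : c 0 = 0)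
    (h0 : ∀ s, 0 ≤ c s) (h1 : ∀ s, c s ≤ 1) (F : BT W) :
    σ (zc W k c hc * F) = σ (zc W k c hc) * σ F := by
  obtain ⟨⟨w, hw⟩, ⟨v, hv⟩⟩ := zc_sq W k c hc h0 h1
  exact h.center (zc_central W k c hc) hw hv F

/-- The element `(phi_k(f(s ·)), f)` of the ambient algebra. -/
def liftA (f : C(unitInterval, LL G)) : Amb G :=
  Amb.mk ⟨fun s => phiB W 0 (sc s f), (phiB W 0).continuous.comp (continuous_sc f)⟩ f

theorem liftA_x (f : C(unitInterval, LL G)) (s : unitInterval) (k : ℕ) :
    (liftA W f).x s k = phi W k (sc s f) := by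
  change (if 0 ≤ k then phi W k (sc s f) else 0) = _
  rw [if_pos (Nat.zero_le k)]

theorem liftA_f (f : C(unitInterval, LL G)) : (liftA W f).f = f := rfl

/-- (Job: at `s = 0`, `sc 0 f` is the constant scalar function, `phi_smul`, `phi_one`;
`phi_P_comm`, `phi_mul_one_sub_P`.) -/
theorem liftA_InB {f : C(unitInterval, LL G)} (hD : ∀ t, f t ∈ W.D)
    (h0 : ∃ c : ℂ, f 0 = algebraMap ℂ (LL G) c) : InB W (liftA W f) := by
  obtain ⟨c, hc⟩ := h0
  have hg : ∀ s, (sc s f) 0 = algebraMap ℂ (LL G) c := fun s => by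
    rw [sc_apply, mul_zero, hc]
  have h1 : sc 0 f = c • (1 : C(unitInterval, LL G)) := by
    ext1 t
    rw [sc_apply, zero_mul, hc, ContinuousMap.smul_apply, ContinuousMap.one_apply,
      Algebra.algebraMap_eq_smul_one]
  exact
    { x0 := fun k => by
        rw [liftA_x, liftA_f, h1, phi_smul, phi_one, hc, Algebra.algebraMap_eq_smul_one]
      f0 := ⟨c, by rw [liftA_f, hc]⟩
      comm := fun s k => by
        rw [liftA_x]
        exact phi_P_comm W k (sc s f) c (hg s)
      D := hD
      out := fun s k => by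
        rw [liftA_x, liftA_f, hc]
        exact phi_mul_one_sub_P W k (sc s f) c (hg s)
      asy := fun s => by
        refine tendsto_const_nhds.congr' (Eventually.of_forall fun k => ?_)
        change (0 : ℝ) = ‖(liftA W f).x s k - phi W k (sc s (liftA W f).f)‖
        rw [liftA_x, liftA_f, sub_self, norm_zero] }

end

end Pool.Agent.H.MP_e11395_an.PA
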