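import Pool.Agent.H.MP_e11395_an.A.CPg

/-!
# MP_e11395, part A2: completely positive maps into C*-algebras, closure properties
-/

set_option autoImplicit false
set_option linter.unusedSectionVars false

namespace Pool.Agent.H.MP_e11395_an

/-- Positive elements of a C*-algebra. -/
def Pos {C : Type} [CStarAlgebra C] (a : C) : Prop := ∃ r : C, a = star r * r

namespace Pos

variable {C : Type} [CStarAlgebra C]

theorem zero : Pos (0 : C) := ⟨0, by simp⟩

theorem starAlgHom_continuous {C' : Type} [CStarAlgebra C'] (ρ : C →⋆ₐ[ℂ] C') : Continuous ρ :=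
  AddMonoidHomClass.continuous_of_bound ρ 1 fun b => by
    rw [one_mul]
    exact NonUnitalStarAlgHom.norm_apply_le ρ b

/-- (Job.) `CStarAlgebra.spectralOrder`, `CStarAlgebra.nonneg_iff_eq_star_mul_self`. -/
theorem add {a b : C} (ha : Pos a) (hb : Pos b) : Pos (a + b) := by
  let := CStarAlgebra.spectralOrder C
  let := CStarAlgebra.spectralOrderedRing C
  obtain ⟨r, rfl⟩ := ha
  obtain ⟨s, rfl⟩ := hb
  have h : 0 ≤ star r * r + star s * s :=
    add_nonneg (star_mul_self_nonneg _) (star_mul_self_nonneg _)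
  obtain ⟨t, ht⟩ := CStarAlgebra.nonneg_iff_eq_star_mul_self.1 h
  exact ⟨t, ht⟩

theorem sum {σ : Type} (s : Finset σ) (a : σ → C) (h : ∀ x ∈ s, Pos (a x)) :
    Pos (∑ x ∈ s, a x) := by
  classical
  induction s using Finset.induction_on with
  | empty => rw [Finset.sum_empty]; exact zero
  | insert x s hx ih =>
    rw [Finset.sum_insert hx]
    exact (h x (Finset.mem_insert_self _ _)).add (ih fun y hy => h y (Finset.mem_insert_of_mem hy))

theorem smul {a : C} (ha : Pos a) {c : ℝ} (hc : 0 ≤ c) : Pos ((c : ℂ) • a) := by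
  obtain ⟨r, rfl⟩ := ha
  refine ⟨((√c : ℝ) : ℂ) • r, ?_⟩
  rw [star_smul, smul_mul_smul_comm]
  congr 1
  rw [Complex.star_def, Complex.conj_ofReal, ← Complex.ofReal_mul, Real.mul_self_sqrt hc]

theorem conj {a : C} (ha : Pos a) (V : C) : Pos (star V * a * V) := by
  obtain ⟨r, rfl⟩ := ha
  exact ⟨r * V, by rw [star_mul]; simp only [mul_assoc]⟩

theorem map {C' : Type} [CStarAlgebra C'] {a : C} (ha : Pos a) (ρ : C →⋆ₐ[ℂ] C') : Pos (ρ a) := by
  obtain ⟨r, rfl⟩ := ha
  exact ⟨ρ r, by rw [map_mul, map_star]⟩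

/-- Positivity is detected by separating families of *-homomorphisms: `a` is selfadjoint, as
`ρ i (star a - a) = 0`, and its negative part vanishes, as its images do
(`StarAlgHomClass.map_cfc` with `fun t => max (-t) 0`, spectral mapping). -/
theorem of_sep {κ : Type} {C' : κ → Type} [∀ i, CStarAlgebra (C' i)] (ρ : ∀ i, C →⋆ₐ[ℂ] C' i)
    (hsep : ∀ a : C, (∀ i, ρ i a = 0) → a = 0) {a : C} (h : ∀ i, Pos (ρ i a)) : Pos a := by
  let := CStarAlgebra.spectralOrder C
  let := CStarAlgebra.spectralOrderedRing C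
  have hsa : IsSelfAdjoint a := by
    rw [isSelfAdjoint_iff, ← sub_eq_zero]
    refine hsep _ fun i => ?_
    obtain ⟨r, hr⟩ := h i
    rw [map_sub, map_star, hr]
    simp
  have hneg : a⁻ = 0 := by
    refine hsep _ fun i => ?_
    let := CStarAlgebra.spectralOrder (C' i)
    let := CStarAlgebra.spectralOrderedRing (C' i)
    obtain ⟨r, hr⟩ := h i
    have h1 : 0 ≤ ρ i a := by
      rw [hr]
      exact star_mul_self_nonneg _
    have h2 : ρ i (a⁻) = (ρ i a)⁻ := by
      rw [CFC.negPart_def, CFC.negPart_def]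
      exact NonUnitalStarAlgHomClass.map_cfcₙ (ρ i) (fun t : ℝ => t⁻) a
        (hφ := starAlgHom_continuous _)
    rw [h2, CFC.negPart_eq_zero_iff _ h1.isSelfAdjoint]
    exact h1
  exact CStarAlgebra.nonneg_iff_eq_star_mul_self.1 ((CFC.negPart_eq_zero_iff a hsa).1 hneg)

end Pos

section

variable {A : Type} [Ring A] [StarRing A] [Algebra ℂ A] {C : Type} [CStarAlgebra C]

/-- The positivity form of complete positivity. -/
theorem isCP_iff_pos (φ : A →ₗ[ℂ] C) : IsCP φ ↔ ∀ (k : ℕ) (X : Matrix (Fin k) (Fin k) A),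
    Pos (Mt.of fun i j => φ ((X.conjTranspose * X) i j) : Mt (Fin k) C) := by
  constructor
  · intro h k X
    obtain ⟨Y, hY⟩ := h k X
    refine ⟨Mt.of fun i j => Y i j, ?_⟩
    refine Mt.ext fun i j => ?_
    have h1 := congrFun (congrFun hY i) j
    rw [Mt.of_apply, Mt.mul_apply]
    exact h1
  · intro h k X
    obtain ⟨Y, hY⟩ := h k X
    refine ⟨Matrix.of fun i j => Y i j, ?_⟩
    ext i j
    exact congrArg (fun N : Mt (Fin k) C => N i j) hY

theorem IsCP.add' {φ ψ : A →ₗ[ℂ] C} (h : IsCP φ) (h' : IsCP ψ) : IsCP (φ + ψ) := by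
  rw [isCP_iff_pos] at h h' ⊢
  intro k X
  exact (h k X).add (h' k X)

theorem IsCP.zero' : IsCP (0 : A →ₗ[ℂ] C) := by
  rw [isCP_iff_pos]
  intro k X
  exact Pos.zero

theorem IsCP.sum' {σ : Type} (s : Finset σ) (φ : σ → A →ₗ[ℂ] C) (h : ∀ x ∈ s, IsCP (φ x)) :
    IsCP (∑ x ∈ s, φ x) := by
  classical
  induction s using Finset.induction_on with
  | empty => rw [Finset.sum_empty]; exact IsCP.zero'
  | insert x s hx ih =>
    rw [Finset.sum_insert hx]
    exact (h x (Finset.mem_insert_self _ _)).add' (ih fun y hy => h y (Finset.mem_insert_of_mem hy))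

theorem IsCP.smul' {φ : A →ₗ[ℂ] C} (h : IsCP φ) {c : ℝ} (hc : 0 ≤ c) : IsCP ((c : ℂ) • φ) := by
  rw [isCP_iff_pos] at h ⊢
  intro k X
  exact (h k X).smul hc

/-- (Job.) Conjugation with the diagonal matrix `V ⊗ 1` (`dia` or `Mt.of`). -/
theorem IsCP.conj' {φ ψ : A →ₗ[ℂ] C} (h : IsCP φ) (V : C) (hψ : ∀ a, ψ a = star V * φ a * V) :
    IsCP ψ := by
  rw [isCP_iff_pos] at h ⊢
  intro k X
  have h1 := (h k X).conj (Mt.of fun i j => if i = j then V else 0)
  refine cast (congrArg Pos ?_) h1
  refine Mt.ext fun i j => ?_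
  rw [Mt.mul_apply, Finset.sum_eq_single j]
  · rw [Mt.mul_apply, Finset.sum_eq_single i]
    · simp [hψ]
    · intro m _ hm
      simp [hm]
    · simp
  · intro m _ hm
    simp [hm]
  · simp

/-- A *-homomorphism is completely positive. -/
theorem isCP_starHom {B : Type} [Ring B] [StarRing B] [Algebra ℂ B] (π : A →⋆ₐ[ℂ] B) :
    IsCP π.toAlgHom.toLinearMap := by
  intro k X
  refine ⟨X.map π, ?_⟩
  ext i j
  simp [Matrix.mul_apply, map_sum, map_mul, map_star]

/-- Complete positivity is detected by separating families of *-homomorphisms (`Pos.of_sep` for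
the matrix algebras and the *-homomorphisms `Mt.map (ρ i)`). -/
theorem isCP_of_sep {κ : Type} {C' : κ → Type} [∀ i, CStarAlgebra (C' i)]
    (ρ : ∀ i, C →⋆ₐ[ℂ] C' i) (hsep : ∀ a : C, (∀ i, ρ i a = 0) → a = 0) {φ : A →ₗ[ℂ] C}
    (h : ∀ i, IsCP ((ρ i).toAlgHom.toLinearMap ∘ₗ φ)) : IsCP φ := by
  rw [isCP_iff_pos]
  intro k X
  refine Pos.of_sep (fun i => Mt.map (ρ i)) (fun M hM => ?_) fun i => ?_
  · refine Mt.ext fun u v => hsep _ fun i => ?_
    exact congrArg (fun N : Mt (Fin k) (C' i) => N u v) (hM i)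
  · exact (isCP_iff_pos _).1 (h i) k X

/-- The map `c ↦ ∑ c a b star (V a) V b` on scalar matrices. -/
noncomputable def vecMap {ι : Type} [Fintype ι] (V : ι → C) : Matrix ι ι ℂ →ₗ[ℂ] C where
  toFun c := ∑ a, ∑ b, c a b • (star (V a) * V b)
  map_add' c d := by simp [add_smul, Finset.sum_add_distrib]
  map_smul' c d := by simp [Finset.smul_sum, smul_smul]

theorem vecMap_apply {ι : Type} [Fintype ι] (V : ι → C) (c : Matrix ι ι ℂ) :
    vecMap V c = ∑ a, ∑ b, c a b • (star (V a) * V b) := rfl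

/-- (Job.) `isCP_gram` with `Z l c = ∑ a, c l a • V a`. -/
theorem isCP_vecMap {ι : Type} [Fintype ι] [DecidableEq ι] (V : ι → C) : IsCP (vecMap V) := by
  refine isCP_gram (vecMap V) (fun l : ι =>
    { toFun := fun c => ∑ a, c l a • V a
      map_add' := fun c d => by simp [add_smul, Finset.sum_add_distrib]
      map_smul' := fun c d => by simp [Finset.smul_sum, smul_smul] }) fun c d => ?_
  change ∑ a, ∑ b, (star c * d) a b • (star (V a) * V b) =
    ∑ l, star (∑ a, c l a • V a) * ∑ b, d l b • V b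
  have h1 : ∀ a b, (star c * d) a b • (star (V a) * V b) =
      ∑ l, (star (c l a • V a)) * (d l b • V b) := by
    intro a b
    rw [Matrix.mul_apply, Finset.sum_smul]
    refine Finset.sum_congr rfl fun l _ => ?_
    rw [star_smul, smul_mul_smul_comm, Matrix.star_apply]
  simp only [h1, star_sum, Finset.sum_mul, Finset.mul_sum]
  rw [Finset.sum_congr rfl fun a _ => Finset.sum_comm, Finset.sum_comm]
  exact Finset.sum_congr rfl fun l _ => Finset.sum_comm

end

/-- The identity from `Mt E ℂ` to `Matrix E E ℂ`. -/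
def toMat {E : Type} [Fintype E] [DecidableEq E] : Mt E ℂ →⋆ₐ[ℂ] Matrix E E ℂ where
  toFun M := Matrix.of fun i j => M i j
  map_one' := by
    ext i j
    rw [Matrix.of_apply, Mt.one_apply, Matrix.one_apply]
  map_mul' M N := by
    ext i j
    rw [Matrix.of_apply, Mt.mul_apply, Matrix.mul_apply]
    rfl
  map_zero' := rfl
  map_add' _ _ := rfl
  commutes' c := by
    ext i j
    rw [Matrix.of_apply, Mt.algebraMap_apply, Matrix.algebraMap_matrix_apply]
  map_star' M := rfl

/-- (Job.) The compression along a map of the index sets is completely positive: compose `toMat`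
with `vecMap V`, `V a = ∑_{e : g e = a} E_{z, e}` in `Mt E ℂ`, where `z` is any index (if `E` is
empty everything is trivial). -/
theorem isCP_submatrix {ι E : Type} [Fintype ι] [DecidableEq ι] [Fintype E] [DecidableEq E]
    (g : E → ι) (φ : Matrix ι ι ℂ →ₗ[ℂ] Matrix E E ℂ) (hφ : ∀ c, φ c = c.submatrix g g) :
    IsCP φ := by
  rcases isEmpty_or_nonempty E with hE | ⟨⟨z⟩⟩
  · intro k X
    refine ⟨0, ?_⟩
    ext i j e
    exact isEmptyElim e
  · have h1 : φ = (toMat (E := E)).toAlgHom.toLinearMap ∘ₗ vecMap (fun a : ι =>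
        (Mt.of fun x y => if x = z ∧ g y = a then (1 : ℂ) else 0 : Mt E ℂ)) := by
      refine LinearMap.ext fun c => ?_
      ext x y
      rw [hφ, Matrix.submatrix_apply]
      change _ = (vecMap (fun a : ι =>
        (Mt.of fun x y => if x = z ∧ g y = a then (1 : ℂ) else 0 : Mt E ℂ)) c) x y
      rw [vecMap_apply, CPg_sum_apply, Finset.sum_eq_single (g x)]
      · rw [CPg_sum_apply, Finset.sum_eq_single (g y)]
        · rw [Mt.smul_apply, Mt.mul_apply, Finset.sum_eq_single z]
          · simp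
          · intro w _ hw
            simp [hw]
          · simp
        · intro b _ hb
          rw [Mt.smul_apply, Mt.mul_apply, Finset.sum_eq_zero, smul_zero]
          intro w _
          simp [hb.symm]
        · simp
      · intro b _ hb
        rw [CPg_sum_apply]
        refine Finset.sum_eq_zero fun d _ => ?_
        rw [Mt.smul_apply, Mt.mul_apply, Finset.sum_eq_zero, smul_zero]
        intro w _
        simp [hb.symm]
      · simp
    rw [h1]
    exact (isCP_starHom _).comp (isCP_vecMap _)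

end Pool.Agent.H.MP_e11395_an
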