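import Pool.Agent.H.MP_e11395_an.A.BBall
import Pool.Agent.H.MP_e11395_an.A.BNucCP

/-!
# MP_e11395, part A2: matrices as operators on the ball
-/

set_option autoImplicit false
set_option linter.unusedSectionVars false

open Filter Topology
open scoped ENNReal InnerProductSpace BoundedContinuousFunction

namespace Pool.Agent.H.MP_e11395_an.PA

noncomputable section

variable {G : Type} [Group G] (W : TwG G)

/-- The rank one operator `ξ ↦ ξ(x) δ_1`. -/
def rk (x : G) : LL G := InnerProductSpace.rankOne ℂ (dl (1 : G)) (dl x)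

theorem rk_apply (x : G) (ξ : H2 G) : rk x ξ = ξ x • dl 1 := by
  rw [rk, InnerProductSpace.rankOne_apply, inner_dl_left]

theorem star_rk (x : G) : star (rk x) = InnerProductSpace.rankOne ℂ (dl x) (dl (1 : G)) := by
  rw [rk, ContinuousLinearMap.star_eq_adjoint, InnerProductSpace.adjoint_rankOne]

theorem star_rk_mul_rk (x y : G) (ξ : H2 G) : (star (rk x) * rk y) ξ = ξ y • dl x := by
  rw [star_rk]
  change InnerProductSpace.rankOne ℂ (dl x) (dl (1 : G)) (rk y ξ) = _
  rw [InnerProductSpace.rankOne_apply, rk_apply, inner_smul_right, inner_dl_left, dl_self, mul_one]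

/-- The matrix `c` on the ball as an operator. -/
def tb (k : ℕ) (c : Matrix (ball W k) (ball W k) ℂ) : LL G :=
  ∑ x, ∑ y, c x y • (star (rk (x : G)) * rk (y : G))

theorem tb_add (k : ℕ) (c d : Matrix (ball W k) (ball W k) ℂ) :
    tb W k (c + d) = tb W k c + tb W k d := by
  simp [tb, add_smul, Finset.sum_add_distrib]

theorem tb_smul (k : ℕ) (z : ℂ) (c : Matrix (ball W k) (ball W k) ℂ) :
    tb W k (z • c) = z • tb W k c := by
  simp [tb, Finset.smul_sum, smul_smul]

theorem sum_apply_op {ι : Type} (s : Finset ι) (T : ι → LL G) (ξ : H2 G) :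
    (∑ x ∈ s, T x) ξ = ∑ x ∈ s, T x ξ := _root_.sum_apply _ _ _

theorem tb_dl (k : ℕ) (c : Matrix (ball W k) (ball W k) ℂ) (y : ball W k) :
    tb W k c (dl (y : G)) = ∑ x, c x y • dl (x : G) := by
  rw [tb, sum_apply_op]
  refine Finset.sum_congr rfl fun x _ => ?_
  rw [sum_apply_op, Finset.sum_eq_single y]
  · change c x y • (star (rk (x : G)) * rk (y : G)) (dl (y : G)) = _
    rw [star_rk_mul_rk, dl_self, one_smul]
  · intro z _ hz
    change c x z • (star (rk (x : G)) * rk (z : G)) (dl (y : G)) = 0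
    rw [star_rk_mul_rk, dl_ne (fun h => hz (Subtype.ext h)), zero_smul, smul_zero]
  · simp

theorem tb_dl_out (k : ℕ) (c : Matrix (ball W k) (ball W k) ℂ) {y : G} (hy : y ∉ ball W k) :
    tb W k c (dl y) = 0 := by
  rw [tb, sum_apply_op]
  refine Finset.sum_eq_zero fun x _ => ?_
  rw [sum_apply_op]
  refine Finset.sum_eq_zero fun z _ => ?_
  change c x z • (star (rk (x : G)) * rk (z : G)) (dl y) = 0
  rw [star_rk_mul_rk, dl_ne (fun h => hy (by rw [← h]; exact z.2)), zero_smul, smul_zero]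

theorem P_dl_in {k : ℕ} {y : G} (hy : y ∈ ball W k) : P W k (dl y) = dl y := by
  rw [P_dl, ind_of_lt W ((mem_ball W).1 hy), one_smul]

theorem P_dl_out {k : ℕ} {y : G} (hy : y ∉ ball W k) : P W k (dl y) = 0 := by
  rw [P_dl, ind_of_not_lt W (fun h => hy ((mem_ball W).2 h)), zero_smul]

theorem tb_mul_P (k : ℕ) (c : Matrix (ball W k) (ball W k) ℂ) : tb W k c * P W k = tb W k c := by
  refine TwG.ext_dl fun y => ?_
  change tb W k c (P W k (dl y)) = _
  by_cases hy : y ∈ ball W k
  · rw [P_dl_in W hy]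
  · rw [P_dl_out W hy, map_zero, tb_dl_out W k c hy]

theorem P_mul_tb (k : ℕ) (c : Matrix (ball W k) (ball W k) ℂ) : P W k * tb W k c = tb W k c := by
  refine TwG.ext_dl fun y => ?_
  change P W k (tb W k c (dl y)) = _
  by_cases hy : y ∈ ball W k
  · rw [tb_dl W k c ⟨y, hy⟩, map_sum]
    refine Finset.sum_congr rfl fun x _ => ?_
    rw [map_smul, P_dl_in W x.2]
  · rw [tb_dl_out W k c hy, map_zero]

theorem tb_comm (k : ℕ) (c : Matrix (ball W k) (ball W k) ℂ) :
    tb W k c * P W k = P W k * tb W k c := by rw [tb_mul_P, P_mul_tb]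

open Classical in
theorem tb_one (k : ℕ) : tb W k 1 = P W k := by
  refine TwG.ext_dl fun y => ?_
  by_cases hy : y ∈ ball W k
  · rw [tb_dl W k 1 ⟨y, hy⟩, P_dl_in W hy, Finset.sum_eq_single ⟨y, hy⟩]
    · simp
    · intro x _ hx
      simp [hx]
    · simp
  · rw [tb_dl_out W k 1 hy, P_dl_out W hy]

/-- The matrix of coefficients of an operator commuting with `P k`. -/
theorem tb_coeff {k : ℕ} {T : LL G} (hT : T * P W k = P W k * T) :
    tb W k (Matrix.of fun x y => inner ℂ (dl (x : G)) (T (dl (y : G)))) = T * P W k := by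
  refine TwG.ext_dl fun y => ?_
  by_cases hy : y ∈ ball W k
  · rw [tb_dl W k _ ⟨y, hy⟩]
    change _ = T (P W k (dl y))
    rw [P_dl_in W hy]
    conv_rhs => rw [expand hT hy, ← Finset.sum_coe_sort]
    refine Finset.sum_congr rfl fun x _ => ?_
    rw [Matrix.of_apply, inner_dl_left]
  · rw [tb_dl_out W k _ hy]
    change _ = T (P W k (dl y))
    rw [P_dl_out W hy, map_zero]

end

end Pool.Agent.H.MP_e11395_an.PA
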