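import Pool.Agent.H.MP_e11395_an.A.BNucPL
import Pool.Agent.H.MP_e11395_an.A.BNucOp
import Pool.Agent.H.MP_e11395_an.A.BAlg

/-!
# MP_e11395, part A2: the map from matrices to `B'`
-/

set_option autoImplicit false
set_option linter.unusedSectionVars false

open Filter Topology
open scoped ENNReal InnerProductSpace BoundedContinuousFunction

namespace Pool.Agent.H.MP_e11395_an.PA

noncomputable section

variable {G : Type} [Group G] (W : TwG G) (K m : ℕ) (E : Finset G)

/-- The index set of the matrices: `none` is the scalar part, `some (i, inl e)` belongs to the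
second component at the grid point `i + 1`, `some (i, inr ⟨k, x⟩)` to the first component. -/
abbrev NIx : Type := Option (Fin (m + 1) × (E ⊕ Σ k : Fin K, ball W k))

variable {K m E}

/-- The scalar part. -/
def lam0 : Matrix (NIx W K m E) (NIx W K m E) ℂ →ₗ[ℂ] ℂ where
  toFun c := c none none
  map_add' _ _ := rfl
  map_smul' _ _ := rfl

/-- The block of the second component. -/
def blkE (i : Fin (m + 1)) : Matrix (NIx W K m E) (NIx W K m E) ℂ →ₗ[ℂ] Matrix E E ℂ where
  toFun c := c.submatrix (fun e => some (i, Sum.inl e)) (fun e => some (i, Sum.inl e))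
  map_add' _ _ := rfl
  map_smul' _ _ := rfl

/-- The block of the first component. -/
def blkB (i : Fin (m + 1)) (k : Fin K) :
    Matrix (NIx W K m E) (NIx W K m E) ℂ →ₗ[ℂ] Matrix (ball W k) (ball W k) ℂ where
  toFun c := c.submatrix (fun x => some (i, Sum.inr ⟨k, x⟩)) (fun x => some (i, Sum.inr ⟨k, x⟩))
  map_add' _ _ := rfl
  map_smul' _ _ := rfl

variable (ψ : Matrix E E ℂ →ₗ[ℂ] LL G)

/-- The values of the second component at the grid points. -/
def fA (j : Fin (m + 2)) : Matrix (NIx W K m E) (NIx W K m E) ℂ →ₗ[ℂ] LL G :=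
  Fin.cases ((LinearMap.toSpanSingleton ℂ (LL G) 1) ∘ₗ lam0 W) (fun i => ψ ∘ₗ blkE W i) j

/-- The linear map `c ↦ c (1 - P)`. -/
def outP (k : ℕ) : ℂ →ₗ[ℂ] LL G := LinearMap.toSpanSingleton ℂ (LL G) (1 - P W k)

/-- The linear map `tb`. -/
def tbL (k : ℕ) : Matrix (ball W k) (ball W k) ℂ →ₗ[ℂ] LL G where
  toFun c := tb W k c
  map_add' := tb_add W k
  map_smul' := tb_smul W k

/-- The values of the `k`-th entry of the first component at the grid points. -/
def xA (k : Fin K) (j : Fin (m + 2)) : Matrix (NIx W K m E) (NIx W K m E) ℂ →ₗ[ℂ] LL G :=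
  Fin.cases ((LinearMap.toSpanSingleton ℂ (LL G) 1) ∘ₗ lam0 W)
    (fun i => tbL W k ∘ₗ blkB W i k + outP W k ∘ₗ lam0 W) j

theorem fA_zero (c : Matrix (NIx W K m E) (NIx W K m E) ℂ) :
    fA W ψ 0 c = algebraMap ℂ (LL G) (c none none) := by
  rw [Algebra.algebraMap_eq_smul_one]
  rfl

theorem fA_succ (i : Fin (m + 1)) (c : Matrix (NIx W K m E) (NIx W K m E) ℂ) :
    fA W ψ i.succ c = ψ (blkE W i c) := rfl

theorem xA_zero (k : Fin K) (c : Matrix (NIx W K m E) (NIx W K m E) ℂ) :
    xA W k 0 c = algebraMap ℂ (LL G) (c none none) := by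
  rw [Algebra.algebraMap_eq_smul_one]
  rfl

theorem xA_succ (k : Fin K) (i : Fin (m + 1)) (c : Matrix (NIx W K m E) (NIx W K m E) ℂ) :
    xA W k i.succ c = tb W k (blkB W i k c) + c none none • (1 - P W k) := rfl

theorem xA_comm (k : Fin K) (j : Fin (m + 2)) (c : Matrix (NIx W K m E) (NIx W K m E) ℂ) :
    xA W k j c * P W k = P W k * xA W k j c := by
  refine Fin.cases ?_ (fun i => ?_) j
  · rw [xA_zero]
    exact Algebra.commutes _ _
  · rw [xA_succ, add_mul, mul_add, tb_comm, smul_mul_assoc, mul_smul_comm, sub_mul, mul_sub,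
      one_mul, mul_one]

/-- The second component. -/
def fB (c : Matrix (NIx W K m E) (NIx W K m E) ℂ) : C(unitInterval, LL G) :=
  pl m fun j => fA W ψ j c

/-- The entries `k < K` of the first component. -/
def xB (k : Fin K) (c : Matrix (NIx W K m E) (NIx W K m E) ℂ) : C(unitInterval, LL G) :=
  pl m fun j => xA W k j c

theorem fB_zero (c : Matrix (NIx W K m E) (NIx W K m E) ℂ) :
    fB W ψ c 0 = algebraMap ℂ (LL G) (c none none) := by
  rw [fB, pl_zero, fA_zero]

theorem xB_zero (k : Fin K) (c : Matrix (NIx W K m E) (NIx W K m E) ℂ) :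
    xB W k c 0 = algebraMap ℂ (LL G) (c none none) := by
  rw [xB, pl_zero, xA_zero]

theorem fB_add (c d : Matrix (NIx W K m E) (NIx W K m E) ℂ) :
    fB W ψ (c + d) = fB W ψ c + fB W ψ d := by
  refine ContinuousMap.ext fun t => ?_
  rw [ContinuousMap.add_apply]
  simp only [fB, map_add]
  exact pl_add m _ _ t

theorem fB_smul (z : ℂ) (c : Matrix (NIx W K m E) (NIx W K m E) ℂ) :
    fB W ψ (z • c) = z • fB W ψ c := by
  refine ContinuousMap.ext fun t => ?_
  rw [ContinuousMap.smul_apply]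
  simp only [fB, map_smul]
  exact pl_smul m _ _ t

theorem xB_add (k : Fin K) (c d : Matrix (NIx W K m E) (NIx W K m E) ℂ) :
    xB W k (c + d) = xB W k c + xB W k d := by
  refine ContinuousMap.ext fun t => ?_
  rw [ContinuousMap.add_apply]
  simp only [xB, map_add]
  exact pl_add m _ _ t

theorem xB_smul (k : Fin K) (z : ℂ) (c : Matrix (NIx W K m E) (NIx W K m E) ℂ) :
    xB W k (z • c) = z • xB W k c := by
  refine ContinuousMap.ext fun t => ?_
  rw [ContinuousMap.smul_apply]
  simp only [xB, map_smul]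
  exact pl_smul m _ _ t

/-- The first component. -/
def xxB (c : Matrix (NIx W K m E) (NIx W K m E) ℂ) : C(unitInterval, ℕ →ᵇ LL G) :=
  ⟨fun s => phiB W K (sc s (fB W ψ c)) + ∑ k : Fin K, single (k : ℕ) (xB W k c s), by
    refine Continuous.add ((phiB W K).continuous.comp (continuous_sc _)) ?_
    exact continuous_finsetSum _ fun k _ => (single (k : ℕ)).continuous.comp (xB W k c).continuous⟩

theorem bcf_sum_apply {σ : Type} (S : Finset σ) (T : σ → (ℕ →ᵇ LL G)) (k : ℕ) :
    (∑ a ∈ S, T a) k = ∑ a ∈ S, T a k := by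
  classical
  induction S using Finset.induction_on with
  | empty => rfl
  | insert a S ha ih => rw [Finset.sum_insert ha, Finset.sum_insert ha, ← ih]; rfl

theorem xxB_lt (c : Matrix (NIx W K m E) (NIx W K m E) ℂ) (s : unitInterval) (k : Fin K) :
    xxB W ψ c s (k : ℕ) = xB W k c s := by
  change (phiB W K (sc s (fB W ψ c)) + ∑ k : Fin K, single (k : ℕ) (xB W k c s)) (k : ℕ) = _
  rw [BoundedContinuousFunction.add_apply, phiB_apply, if_neg (by have := k.2; omega), zero_add,
    bcf_sum_apply, Finset.sum_eq_single k]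
  · rw [single_apply, if_pos rfl]
  · intro l _ hl
    rw [single_apply, if_neg (fun h => hl (Fin.ext h.symm))]
  · simp

theorem xxB_ge (c : Matrix (NIx W K m E) (NIx W K m E) ℂ) (s : unitInterval) {k : ℕ}
    (hk : K ≤ k) : xxB W ψ c s k = phi W k (sc s (fB W ψ c)) := by
  change (phiB W K (sc s (fB W ψ c)) + ∑ k : Fin K, single (k : ℕ) (xB W k c s)) k = _
  rw [BoundedContinuousFunction.add_apply, phiB_apply, if_pos hk, bcf_sum_apply,
    Finset.sum_eq_zero, add_zero]
  intro l _
  rw [single_apply, if_neg]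
  have := l.2
  omega

theorem sc_add' (s : unitInterval) (g g' : C(unitInterval, LL G)) :
    sc s (g + g') = sc s g + sc s g' := rfl

theorem sc_sub' (s : unitInterval) (g g' : C(unitInterval, LL G)) :
    sc s (g - g') = sc s g - sc s g' := rfl

theorem sc_smul' (s : unitInterval) (z : ℂ) (g : C(unitInterval, LL G)) :
    sc s (z • g) = z • sc s g := rfl

theorem xxB_add (c d : Matrix (NIx W K m E) (NIx W K m E) ℂ) :
    xxB W ψ (c + d) = xxB W ψ c + xxB W ψ d := by
  refine ContinuousMap.ext fun s => ?_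
  ext1 k
  change xxB W ψ (c + d) s k = xxB W ψ c s k + xxB W ψ d s k
  rcases lt_or_ge k K with hk | hk
  · have h := fun c : Matrix (NIx W K m E) (NIx W K m E) ℂ => xxB_lt W ψ c s ⟨k, hk⟩
    refine (h _).trans ?_
    rw [xB_add, ContinuousMap.add_apply]
    exact congrArg₂ (· + ·) (h c).symm (h d).symm
  · rw [xxB_ge W ψ (c + d) s hk, xxB_ge W ψ c s hk, xxB_ge W ψ d s hk, fB_add, sc_add', phi_add]

theorem xxB_smul (z : ℂ) (c : Matrix (NIx W K m E) (NIx W K m E) ℂ) :
    xxB W ψ (z • c) = z • xxB W ψ c := by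
  refine ContinuousMap.ext fun s => ?_
  ext1 k
  change xxB W ψ (z • c) s k = z • xxB W ψ c s k
  rcases lt_or_ge k K with hk | hk
  · have h := fun c : Matrix (NIx W K m E) (NIx W K m E) ℂ => xxB_lt W ψ c s ⟨k, hk⟩
    refine (h _).trans ?_
    rw [xB_smul, ContinuousMap.smul_apply]
    exact congrArg (z • ·) (h c).symm
  · rw [xxB_ge W ψ (z • c) s hk, xxB_ge W ψ c s hk, fB_smul, sc_smul', phi_smul]

theorem pl_mul_comm {m : ℕ} (T : Fin (m + 2) → LL G) (Q : LL G) (h : ∀ j, T j * Q = Q * T j)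
    (t : unitInterval) : pl m T t * Q = Q * pl m T t := by
  rw [pl_apply, Finset.sum_mul, Finset.mul_sum]
  refine Finset.sum_congr rfl fun j _ => ?_
  rw [smul_mul_assoc, mul_smul_comm, h]

theorem betaInP (c : Matrix (NIx W K m E) (NIx W K m E) ℂ) :
    InP W (Amb.mk (xxB W ψ c) (fB W ψ c)) where
  x0 k := by
    rw [Amb.x_mk, Amb.f_mk, fB_zero]
    rcases lt_or_ge k K with hk | hk
    · exact (xxB_lt W ψ c 0 ⟨k, hk⟩).trans (xB_zero W ⟨k, hk⟩ c)
    · rw [xxB_ge W ψ c 0 hk]
      have h : sc 0 (fB W ψ c) = (c none none) • (1 : C(unitInterval, LL G)) := by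
        refine ContinuousMap.ext fun t => ?_
        rw [sc_apply, zero_mul, fB_zero, Algebra.algebraMap_eq_smul_one]
        rfl
      rw [h, phi_smul, phi_one, Algebra.algebraMap_eq_smul_one]
  f0 := ⟨c none none, fB_zero W ψ c⟩
  comm s k := by
    rw [Amb.x_mk]
    rcases lt_or_ge k K with hk | hk
    · have h : xxB W ψ c s k = xB W ⟨k, hk⟩ c s := xxB_lt W ψ c s ⟨k, hk⟩
      rw [h]
      exact pl_mul_comm _ _ (fun j => xA_comm W ⟨k, hk⟩ j c) s
    · rw [xxB_ge W ψ c s hk]
      refine phi_P_comm W k _ (c none none) ?_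
      rw [sc_apply, mul_zero, fB_zero]

/-- The map `β`. -/
def beta : Matrix (NIx W K m E) (NIx W K m E) ℂ →ₗ[ℂ] BP W where
  toFun c := BP.mk (Amb.mk (xxB W ψ c) (fB W ψ c)) (betaInP W ψ c)
  map_add' c d := by
    refine BP.ext ?_
    rw [BP.val_add, BP.val_mk, BP.val_mk, BP.val_mk, xxB_add, fB_add]
    rfl
  map_smul' z c := by
    refine BP.ext ?_
    rw [RingHom.id_apply, BP.val_smul, BP.val_mk, BP.val_mk, xxB_smul, fB_smul]
    rfl

theorem beta_f (c : Matrix (NIx W K m E) (NIx W K m E) ℂ) (t : unitInterval) :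
    (beta W ψ c).val.f t = fB W ψ c t := rfl

theorem beta_x_lt (c : Matrix (NIx W K m E) (NIx W K m E) ℂ) (s : unitInterval) (k : Fin K) :
    (beta W ψ c).val.x s k = xB W k c s := xxB_lt W ψ c s k

theorem beta_x_ge (c : Matrix (NIx W K m E) (NIx W K m E) ℂ) (s : unitInterval) {k : ℕ}
    (hk : K ≤ k) : (beta W ψ c).val.x s k = phi W k (sc s (fB W ψ c)) := xxB_ge W ψ c s hk

/-! ### Unitality -/

open Classical in
theorem fA_one (h1 : ψ 1 = 1) (j : Fin (m + 2)) :
    fA W ψ j (1 : Matrix (NIx W K m E) (NIx W K m E) ℂ) = 1 := by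
  refine Fin.cases ?_ (fun i => ?_) j
  · rw [fA_zero, Matrix.one_apply_eq, map_one]
  · rw [fA_succ]
    have h : blkE W i (1 : Matrix (NIx W K m E) (NIx W K m E) ℂ) = 1 := by
      refine Matrix.submatrix_one _ fun e e' h => ?_
      simpa using h
    rw [h, h1]

open Classical in
theorem xA_one (k : Fin K) (j : Fin (m + 2)) :
    xA W k j (1 : Matrix (NIx W K m E) (NIx W K m E) ℂ) = 1 := by
  refine Fin.cases ?_ (fun i => ?_) j
  · rw [xA_zero, Matrix.one_apply_eq, map_one]
  · rw [xA_succ]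
    have h : blkB W i k (1 : Matrix (NIx W K m E) (NIx W K m E) ℂ) = 1 := by
      refine Matrix.submatrix_one _ fun e e' h => ?_
      simpa using h
    rw [h, tb_one, Matrix.one_apply_eq, one_smul, add_sub_cancel]

open Classical in
theorem beta_one (h1 : ψ 1 = 1) :
    beta W ψ (1 : Matrix (NIx W K m E) (NIx W K m E) ℂ) = 1 := by
  have hf : fB W ψ (1 : Matrix (NIx W K m E) (NIx W K m E) ℂ) = 1 := by
    refine ContinuousMap.ext fun t => ?_
    simp only [fB, fA_one W ψ h1]
    exact pl_const m _ t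
  refine BP.ext (Amb.ext (fun s k => ?_) (fun s => ?_))
  · rw [BP.val_one, Amb.one_x]
    rcases lt_or_ge k K with hk | hk
    · refine (beta_x_lt W ψ _ s ⟨k, hk⟩).trans ?_
      simp only [xB, xA_one W]
      exact pl_const m _ s
    · rw [beta_x_ge W ψ _ s hk, hf]
      exact phi_one W k
  · rw [beta_f, hf, BP.val_one, Amb.one_f]

end

end Pool.Agent.H.MP_e11395_an.PA
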