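import Pool.Agent.H.MP_e11395_an.A.Tw
import Pool.Agent.H.MP_e11395_an.D.Tr
import Pool.Agent.H.MP_e11395_an.Defs

/-!
# The properties of the twisted group algebra used in the construction of `B`
-/

set_option autoImplicit false

namespace Pool.Agent.H.MP_e11395_an

variable {G : Type} [Group G]

/-- The canonical trace is the only tracial state of `D`. -/
def TwG.UniqTr (W : TwG G) : Prop := ∀ t : W.DT →ₗ[ℂ] ℂ, IsTr t → t = W.tauD

open Classical in
/-- Nuclearity of the inclusion of `D` in the bounded operators, with compressions to finite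
subsets of `G`. -/
def TwG.Ker (W : TwG G) : Prop :=
  ∀ (S : Finset W.DT) (ε : ℝ), 0 < ε → ∃ (E : Finset G) (ψ : Matrix E E ℂ →ₗ[ℂ] LL G),
    IsCP ψ ∧ ψ 1 = 1 ∧ ∀ T ∈ S,
      ‖ψ (Matrix.of fun e f => inner ℂ (dl (e : G)) (T.val (dl (f : G)))) - T.val‖ < ε

end Pool.Agent.H.MP_e11395_an
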