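import Pool.Agent.H.MP_e11395_an.A.BNucPos
import Pool.Agent.H.MP_e11395_an.A.BCone
import Pool.Agent.H.MP_e11395_an.A.Iface
import Pool.Agent.H.MP_e11395_an.B.Nuc

/-!
# MP_e11395, part A2: nuclear data for the inclusion of `B` in `B'`
-/

set_option autoImplicit false
set_option linter.unusedSectionVars false

open Filter Topology
open scoped ENNReal InnerProductSpace BoundedContinuousFunction

namespace Pool.Agent.H.MP_e11395_an.PA

noncomputable section

variable {G : Type} [Group G] {W : TwG G}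

/-- Uniform convergence in the definition of `B`. -/
theorem InB.unif {F : Amb G} (h : InB W F) {δ : ℝ} (hδ : 0 < δ) :
    ∃ K : ℕ, ∀ k, K ≤ k → ∀ s, ‖F.x s k - phi W k (sc s F.f)‖ ≤ δ := by
  have key : ∃ K : ℕ, ∀ k, K ≤ k → ∀ s ∈ (Set.univ : Set unitInterval),
      ‖F.x s k - phi W k (sc s F.f)‖ ≤ δ := by
    refine isCompact_univ.induction_on (p := fun U => ∃ K : ℕ, ∀ k, K ≤ k → ∀ s ∈ U,
      ‖F.x s k - phi W k (sc s F.f)‖ ≤ δ) ?_ ?_ ?_ ?_
    · exact ⟨0, fun k _ s hs => absurd hs (Set.notMem_empty s)⟩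
    · rintro U U' hU ⟨K, hK⟩
      exact ⟨K, fun k hk s hs => hK k hk s (hU hs)⟩
    · rintro U U' ⟨K, hK⟩ ⟨K', hK'⟩
      refine ⟨max K K', fun k hk s hs => ?_⟩
      rcases hs with hs | hs
      · exact hK k ((le_max_left _ _).trans hk) s hs
      · exact hK' k ((le_max_right _ _).trans hk) s hs
    · intro s _
      have hcont : Continuous fun r : unitInterval => F.xs r - phiB W 0 (sc r F.f) :=
        F.xs.continuous.sub ((phiB W 0).continuous.comp (continuous_sc _))
      have h1 := Metric.continuous_iff.1 hcont s (δ / 2) (by positivity)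
      obtain ⟨η, hη, h1⟩ := h1
      have h2 := h.asy s
      rw [Metric.tendsto_atTop] at h2
      obtain ⟨K, hK⟩ := h2 (δ / 2) (by positivity)
      refine ⟨Metric.ball s η, mem_nhdsWithin_of_mem_nhds (Metric.ball_mem_nhds s hη), K,
        fun k hk r hr => ?_⟩
      have h3 := hK k hk
      rw [Real.dist_eq, sub_zero, abs_of_nonneg (norm_nonneg _)] at h3
      have h4 := h1 r hr
      rw [dist_eq_norm] at h4
      have h5 : ‖(F.x r k - phi W k (sc r F.f)) - (F.x s k - phi W k (sc s F.f))‖ ≤ δ / 2 := by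
        refine le_trans ?_ h4.le
        have h6 := (F.xs r - phiB W 0 (sc r F.f) - (F.xs s - phiB W 0 (sc s F.f))).norm_coe_le_norm k
        exact h6
      calc ‖F.x r k - phi W k (sc r F.f)‖ = ‖((F.x r k - phi W k (sc r F.f)) -
            (F.x s k - phi W k (sc s F.f))) + (F.x s k - phi W k (sc s F.f))‖ := by
            rw [sub_add_cancel]
        _ ≤ δ / 2 + δ / 2 := (norm_add_le _ _).trans (add_le_add h5 h3.le)
        _ = δ := by ring
  obtain ⟨K, hK⟩ := key
  exact ⟨K, fun k hk s => hK k hk s (Set.mem_univ s)⟩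

theorem InB.unif_finset (S : Finset (BT W)) {δ : ℝ} (hδ : 0 < δ) :
    ∃ K : ℕ, ∀ F ∈ S, ∀ k, K ≤ k → ∀ s, ‖F.val.x s k - phi W k (sc s F.val.f)‖ ≤ δ := by
  classical
  induction S using Finset.induction_on with
  | empty => exact ⟨0, fun F hF => absurd hF (Finset.notMem_empty F)⟩
  | insert F S _ ih =>
    obtain ⟨K₁, h1⟩ := ih
    obtain ⟨K₂, h2⟩ := F.mem.unif hδ
    refine ⟨max K₁ K₂, fun F' hF' k hk s => ?_⟩
    rcases Finset.mem_insert.1 hF' with rfl | hF'
    · exact h2 k ((le_max_right _ _).trans hk) s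
    · exact h1 F' hF' k ((le_max_left _ _).trans hk) s

variable (W)

section

variable {K m : ℕ} {E : Finset G}

/-- The places of the vectors. -/
def pt : NIx W K m E → Option ℕ × unitInterval
  | none => (none, 0)
  | some (i, Sum.inl _) => (none, tt m i.succ)
  | some (i, Sum.inr ⟨k, _⟩) => (some (k : ℕ), tt m i.succ)

/-- The group elements of the vectors. -/
def gp : NIx W K m E → G
  | none => 1
  | some (_, Sum.inl e) => e
  | some (_, Sum.inr ⟨_, x⟩) => x

theorem tt_inj {m : ℕ} {i j : Fin (m + 2)} (h : tt m i = tt m j) : i = j := by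
  have h1 := congrArg (fun t : unitInterval => (t : ℝ)) h
  simp only [tt_val] at h1
  have hm : ((m : ℝ) + 1) ≠ 0 := by positivity
  rw [div_left_inj' hm] at h1
  exact Fin.ext (by exact_mod_cast h1)

theorem pt_gp_inj (a b : NIx W K m E) (h1 : pt W a = pt W b) (h2 : gp W a = gp W b) : a = b := by
  have h0 : ∀ i : Fin (m + 1), tt m i.succ ≠ 0 := fun i h => by
    rw [← tt_zero m] at h
    exact Fin.succ_ne_zero i (tt_inj h)
  have hi : ∀ i j : Fin (m + 1), tt m i.succ = tt m j.succ → i = j := fun i j h =>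
    Fin.succ_injective _ (tt_inj h)
  rcases a with _ | ⟨i, e | ⟨k, x⟩⟩ <;> rcases b with _ | ⟨j, e' | ⟨l, y⟩⟩
  · rfl
  · exact absurd (congrArg Prod.snd h1).symm (h0 j)
  · exact absurd (congrArg Prod.snd h1).symm (h0 j)
  · exact absurd (congrArg Prod.snd h1) (h0 i)
  · have h3 := hi i j (congrArg Prod.snd h1)
    have h4 : e = e' := Subtype.ext h2
    rw [h3, h4]
  · exact absurd (congrArg Prod.fst h1) (by simp [pt])
  · exact absurd (congrArg Prod.snd h1) (h0 i)
  · exact absurd (congrArg Prod.fst h1) (by simp [pt])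
  · have h3 := hi i j (congrArg Prod.snd h1)
    have h4 : (k : ℕ) = (l : ℕ) := by
      have := congrArg Prod.fst h1
      simpa [pt] using this
    have h5 : k = l := Fin.ext h4
    subst h5
    have h6 : x = y := Subtype.ext h2
    rw [h3, h6]

/-- The vectors. -/
def ww (a : NIx W K m E) : HH G := vv (pt W a) (gp W a)

theorem orthonormal_ww : Orthonormal ℂ (ww W : NIx W K m E → HH G) :=
  orthonormal_vv _ _ (pt_gp_inj W)

/-- The matrix of coefficients. -/
def coef (F : BP W) : Matrix (NIx W K m E) (NIx W K m E) ℂ :=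
  Matrix.of fun a b => inner ℂ (ww W a) (piPrime W F (ww W b))

open Classical in
theorem coef_apply (F : BP W) (a b : NIx W K m E) : coef W F a b =
    if pt W a = pt W b then inner ℂ (dl (gp W a) : H2 G) (evP W (pt W a) F (dl (gp W b))) else 0 :=
  inner_vv_pi W F _ _ _ _

theorem coef_same (F : BP W) {a b : NIx W K m E} (h : pt W a = pt W b) : coef W F a b =
    inner ℂ (dl (gp W a) : H2 G) (evP W (pt W a) F (dl (gp W b))) :=
  (coef_apply W F a b).trans (if_pos h)

theorem coef_none (F : BP W) :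
    (coef W F : Matrix (NIx W K m E) (NIx W K m E) ℂ) none none = ev0 F.val := by
  rw [coef_same W F rfl]
  rfl

theorem coef_blkE (F : BP W) (i : Fin (m + 1)) :
    blkE W i (coef W F : Matrix (NIx W K m E) (NIx W K m E) ℂ) =
      Matrix.of fun e f : E =>
        inner ℂ (dl (e : G) : H2 G) (F.val.f (tt m i.succ) (dl (f : G))) := by
  ext e f
  exact coef_same W F (a := (some (i, Sum.inl e) : NIx W K m E)) (b := some (i, Sum.inl f)) rfl

theorem coef_blkB (F : BP W) (i : Fin (m + 1)) (k : Fin K) :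
    blkB W i k (coef W F : Matrix (NIx W K m E) (NIx W K m E) ℂ) =
      Matrix.of fun e f : ball W k =>
        inner ℂ (dl (e : G) : H2 G) (F.val.x (tt m i.succ) k (dl (f : G))) := by
  ext e f
  exact coef_same W F (a := (some (i, Sum.inr ⟨k, e⟩) : NIx W K m E))
    (b := some (i, Sum.inr ⟨k, f⟩)) rfl

/-- The values of the first component are reproduced exactly at the grid points. -/
theorem xA_coef (F : BT W) (k : Fin K) (j : Fin (m + 2)) :
    xA W k j (coef W (incl F) : Matrix (NIx W K m E) (NIx W K m E) ℂ) =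
      F.val.x (tt m j) k := by
  refine Fin.cases ?_ (fun i => ?_) j
  · rw [xA_zero, coef_none, tt_zero, incl_val, ← F.mem.ev0_x (k : ℕ)]
  · have hc : F.val.x (tt m i.succ) (k : ℕ) * P W k = P W k * F.val.x (tt m i.succ) (k : ℕ) :=
      F.mem.comm _ _
    rw [xA_succ, coef_none, coef_blkB, incl_val, tb_coeff W hc]
    have h := F.mem.out (tt m i.succ) (k : ℕ)
    rw [F.mem.ev0_f, Algebra.algebraMap_eq_smul_one, smul_mul_assoc, one_mul] at h
    rw [← h, ← mul_add, add_sub_cancel, mul_one]

end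

end

end Pool.Agent.H.MP_e11395_an.PA
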