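import Pool.Agent.H.MP_e11395_an.A.BPhi

/-!
# MP_e11395, part A2: piecewise linear interpolation with the tents
-/

set_option autoImplicit false
set_option linter.unusedSectionVars false

open Filter Topology
open scoped ENNReal InnerProductSpace

namespace Pool.Agent.H.MP_e11395_an.PA

section

variable {X : Type} [NormedAddCommGroup X] [NormedSpace ℂ X]

theorem tent_cont (k j : ℕ) : Continuous (tent k j) := by
  unfold tent
  fun_prop

/-- Piecewise linear interpolation of the values `T j` at the grid points. -/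
noncomputable def pl (m : ℕ) (T : Fin (m + 2) → X) : C(unitInterval, X) :=
  ⟨fun t => ∑ j : Fin (m + 2), ((tent m j (t : ℝ) : ℝ) : ℂ) • T j, by
    refine continuous_finsetSum _ fun j _ => Continuous.smul ?_ continuous_const
    exact Complex.continuous_ofReal.comp ((tent_cont m j).comp continuous_subtype_val)⟩

theorem pl_apply (m : ℕ) (T : Fin (m + 2) → X) (t : unitInterval) :
    pl m T t = ∑ j : Fin (m + 2), ((tent m j (t : ℝ) : ℝ) : ℂ) • T j := rfl

theorem pl_add (m : ℕ) (S T : Fin (m + 2) → X) (t : unitInterval) :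
    pl m (fun j => S j + T j) t = pl m S t + pl m T t := by
  simp only [pl_apply, smul_add, Finset.sum_add_distrib]

theorem pl_smul (m : ℕ) (c : ℂ) (T : Fin (m + 2) → X) (t : unitInterval) :
    pl m (fun j => c • T j) t = c • pl m T t := by
  simp only [pl_apply, smul_comm _ c, Finset.smul_sum]

theorem tent_at_zero (m j : ℕ) : tent m j 0 = if j = 0 then 1 else 0 := by
  unfold tent
  by_cases h : j = 0
  · subst h
    simp
  · rw [if_neg h]
    apply max_eq_left
    have h1 : (1 : ℝ) ≤ j := by exact_mod_cast Nat.one_le_iff_ne_zero.2 h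
    rw [mul_zero, zero_sub, abs_neg, abs_of_nonneg (by linarith)]
    linarith

theorem pl_zero (m : ℕ) (T : Fin (m + 2) → X) : pl m T 0 = T 0 := by
  rw [pl_apply, Finset.sum_eq_single 0]
  · simp [tent_at_zero]
  · intro j _ hj
    have h1 : (j : ℕ) ≠ 0 := fun h => hj (Fin.ext h)
    simp [tent_at_zero, h1]
  · simp

theorem sum_tent_C (m : ℕ) (t : unitInterval) :
    ∑ j : Fin (m + 2), ((tent m j (t : ℝ) : ℝ) : ℂ) = 1 := by
  rw [← Complex.ofReal_sum, tent_sum m t t.2.1 t.2.2, Complex.ofReal_one]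

theorem pl_const (m : ℕ) (a : X) (t : unitInterval) : pl m (fun _ => a) t = a := by
  rw [pl_apply, ← Finset.sum_smul, sum_tent_C, one_smul]

/-- The interpolation is close to `g` if the values are close to `g` near the grid points. -/
theorem pl_dist (m : ℕ) (T : Fin (m + 2) → X) (g : unitInterval → X) {δ : ℝ}
    (h : ∀ (j : Fin (m + 2)) (t : unitInterval), |((m : ℝ) + 1) * t - (j : ℕ)| < 1 →
      ‖T j - g t‖ ≤ δ) (t : unitInterval) : ‖pl m T t - g t‖ ≤ δ := by
  have h1 : pl m T t - g t = ∑ j : Fin (m + 2), ((tent m j (t : ℝ) : ℝ) : ℂ) • (T j - g t) := by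
    simp only [smul_sub, Finset.sum_sub_distrib]
    rw [← Finset.sum_smul, sum_tent_C, one_smul, pl_apply]
  rw [h1]
  refine (norm_sum_le _ _).trans ?_
  have h2 : ∀ j ∈ (Finset.univ : Finset (Fin (m + 2))),
      ‖((tent m j (t : ℝ) : ℝ) : ℂ) • (T j - g t)‖ ≤ tent m j (t : ℝ) * δ := by
    intro j _
    rw [norm_smul, Complex.norm_real, Real.norm_of_nonneg (tent_nonneg _ _ _)]
    by_cases h3 : tent m j (t : ℝ) = 0
    · rw [h3, zero_mul, zero_mul]
    · exact mul_le_mul_of_nonneg_left (h j t ((tent_pos_iff m j t).1 h3)) (tent_nonneg _ _ _)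
  refine (Finset.sum_le_sum h2).trans ?_
  rw [← Finset.sum_mul, tent_sum m t t.2.1 t.2.2, one_mul]

theorem dist_tt_lt (m : ℕ) (j : Fin (m + 2)) (t : unitInterval)
    (h : |((m : ℝ) + 1) * t - (j : ℕ)| < 1) : dist (tt m j) t < 1 / ((m : ℝ) + 1) := by
  have hm : (0 : ℝ) < (m : ℝ) + 1 := by positivity
  rw [Subtype.dist_eq, Real.dist_eq, tt_val]
  have h1 : (j : ℝ) / ((m : ℝ) + 1) - t = -((((m : ℝ) + 1) * t - (j : ℕ)) / ((m : ℝ) + 1)) := by
    field_simp
    ring
  rw [h1, abs_neg, abs_div, abs_of_pos hm]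
  gcongr

end

/-- Uniform continuity of finitely many functions on the unit interval, in the form used for the
interpolation: for large `m` the values at the grid points are close to the values nearby. -/
theorem exists_mesh {X : Type} [NormedAddCommGroup X] {σ : Type} (S : Finset σ)
    (g : σ → C(unitInterval, X)) {δ : ℝ} (hδ : 0 < δ) :
    ∃ m₀ : ℕ, ∀ m, m₀ ≤ m → ∀ a ∈ S, ∀ (j : Fin (m + 2)) (t : unitInterval),
      |((m : ℝ) + 1) * t - (j : ℕ)| < 1 → ‖g a (tt m j) - g a t‖ ≤ δ := by
  classical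
  induction S using Finset.induction_on with
  | empty => exact ⟨0, fun m _ a ha => absurd ha (Finset.notMem_empty a)⟩
  | insert b S hb ih =>
    obtain ⟨m₁, hm₁⟩ := ih
    have huc : UniformContinuous (g b) :=
      CompactSpace.uniformContinuous_of_continuous (g b).continuous
    obtain ⟨η, hη, h1⟩ := Metric.uniformContinuous_iff.1 huc δ hδ
    obtain ⟨m₂, hm₂⟩ := exists_nat_one_div_lt hη
    refine ⟨max m₁ m₂, fun m hm a ha j t h => ?_⟩
    rcases Finset.mem_insert.1 ha with rfl | ha
    · rw [← dist_eq_norm]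
      refine (h1 ((dist_tt_lt m j t h).trans (lt_of_le_of_lt ?_ hm₂))).le
      have h3 : (m₂ : ℝ) ≤ m := by exact_mod_cast (le_max_right _ _).trans hm
      gcongr
    · exact hm₁ m ((le_max_left _ _).trans hm) a ha j t h

end Pool.Agent.H.MP_e11395_an.PA
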