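import Pool.Agent.H.MP_e11395_an.A.BAlg
import Pool.Agent.H.MP_e11395_an.A.BBall
import Pool.Agent.H.MP_e11395_an.B.Diag

/-!
# MP_e11395, part A2: a faithful representation of `B'` with many vectors
-/

set_option autoImplicit false
set_option linter.unusedSectionVars false

open Filter Topology
open scoped ENNReal InnerProductSpace BoundedContinuousFunction

namespace Pool.Agent.H.MP_e11395_an.PA

noncomputable section

variable {G : Type} [Group G] (W : TwG G)

/-- The Hilbert space of the representation. -/
abbrev HH (G : Type) : Type := lp (fun _ : Option ℕ × unitInterval => H2 G) 2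

/-- The evaluations: `none` for the second component. -/
def evP (p : Option ℕ × unitInterval) : BP W →⋆ₐ[ℂ] LL G :=
  match p with
  | (none, t) => (Amb.ev2 t).comp BP.valHom
  | (some k, t) => (Amb.ev1 t k).comp BP.valHom

theorem evP_none (t : unitInterval) (F : BP W) : evP W (none, t) F = F.val.f t := rfl

theorem evP_some (k : ℕ) (t : unitInterval) (F : BP W) : evP W (some k, t) F = F.val.x t k := rfl

theorem evP_sep (F : BP W) (h : ∀ p, evP W p F = 0) : F = 0 :=
  BP.ext (Amb.ext (fun s k => h (some k, s)) (fun s => h (none, s)))

/-- The representation of `B'`. -/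
def piPrime : BP W →⋆ₐ[ℂ] (HH G →L[ℂ] HH G) := PB.sumRep (evP W)

theorem piPrime_injective : Function.Injective (piPrime W) :=
  PB.sumRep_injective _ (evP_sep W)

open Classical in
/-- The vector `δ_x` at the place `p`. -/
def vv (p : Option ℕ × unitInterval) (x : G) : HH G := lp.single 2 p (dl x)

open Classical in
theorem inner_vv (p q : Option ℕ × unitInterval) (x y : G) :
    inner ℂ (vv p x) (vv q y) = if p = q ∧ x = y then (1 : ℂ) else 0 := by
  rw [vv, vv, lp.inner_single_left, lp.single_apply]
  by_cases h : p = q
  · subst h
    rw [Pi.single_eq_same, inner_dl_left, dl_apply]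
    simp
  · rw [Pi.single_eq_of_ne h, inner_zero_right, if_neg (fun h1 => h h1.1)]

open Classical in
theorem inner_vv_pi (F : BP W) (p q : Option ℕ × unitInterval) (x y : G) :
    inner ℂ (vv p x) (piPrime W F (vv q y)) =
      if p = q then inner ℂ (dl x : H2 G) (evP W p F (dl y)) else 0 := by
  rw [vv, lp.inner_single_left, piPrime, PB.sumRep_apply, vv, lp.single_apply]
  by_cases h : p = q
  · subst h
    rw [Pi.single_eq_same, if_pos rfl]
  · rw [Pi.single_eq_of_ne h, map_zero, inner_zero_right, if_neg h]

/-- A family of vectors given by an injective family of places and group elements. -/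
theorem orthonormal_vv {ι : Type} (p : ι → Option ℕ × unitInterval) (x : ι → G)
    (h : ∀ a b, p a = p b → x a = x b → a = b) : Orthonormal ℂ fun a => vv (p a) (x a) := by
  classical
  rw [orthonormal_iff_ite]
  intro a b
  rw [inner_vv]
  by_cases h1 : a = b
  · subst h1
    simp
  · rw [if_neg h1, if_neg (fun h2 => h1 (h a b h2.1 h2.2))]

end

end Pool.Agent.H.MP_e11395_an.PA
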