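import Pool.Agent.H.MP_e11395_an.A.BNucBeta
import Pool.Agent.H.MP_e11395_an.A.BNucRep

/-!
# MP_e11395, part A2: complete positivity of the map from matrices to `B'`
-/

set_option autoImplicit false
set_option linter.unusedSectionVars false

open Filter Topology
open scoped ENNReal InnerProductSpace BoundedContinuousFunction

namespace Pool.Agent.H.MP_e11395_an.PA

noncomputable section

variable {G : Type} [Group G] (W : TwG G) {K m : ℕ} {E : Finset G}
  (ψ : Matrix E E ℂ →ₗ[ℂ] LL G)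

open Classical in
/-- `c ↦ c_00 star V V`. -/
theorem isCP_scal (V : LL G) (φ : Matrix (NIx W K m E) (NIx W K m E) ℂ →ₗ[ℂ] LL G)
    (hφ : ∀ c, φ c = c none none • (star V * V)) : IsCP φ := by
  have h : φ = vecMap (fun a => if a = none then V else 0) := by
    refine LinearMap.ext fun c => ?_
    rw [hφ, vecMap_apply, Finset.sum_eq_single none]
    · rw [Finset.sum_eq_single none]
      · simp
      · intro b _ hb
        simp [hb]
      · simp
    · intro b _ hb
      refine Finset.sum_eq_zero fun d _ => ?_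
      simp [hb]
    · simp
  rw [h]
  exact isCP_vecMap _

open Classical in
theorem isCP_tb (i : Fin (m + 1)) (k : Fin K) :
    IsCP (tbL W k ∘ₗ (blkB W i k :
      Matrix (NIx W K m E) (NIx W K m E) ℂ →ₗ[ℂ] Matrix (ball W k) (ball W k) ℂ)) := by
  have h1 : ∀ c : Matrix (NIx W K m E) (NIx W K m E) ℂ, tb W k (blkB W i k c) =
      ∑ x : ball W k, ∑ y : ball W k, c (some (i, Sum.inr ⟨k, x⟩)) (some (i, Sum.inr ⟨k, y⟩)) •
        (star (rk (x : G)) * rk (y : G)) := fun c => rfl
  have hcp : IsCP ((vecMap (fun x : ball W k => rk (x : G)) :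
      Matrix (ball W k) (ball W k) ℂ →ₗ[ℂ] LL G) ∘ₗ (blkB W i k :
      Matrix (NIx W K m E) (NIx W K m E) ℂ →ₗ[ℂ] Matrix (ball W k) (ball W k) ℂ)) :=
    (isCP_vecMap _).comp (isCP_submatrix _ _ fun c => rfl)
  exact hcp

theorem P_proj (k : ℕ) : star (1 - P W k) * (1 - P W k) = 1 - P W k := by
  rw [star_sub, star_one, P_star, sub_mul, mul_sub, mul_sub, one_mul, one_mul, mul_one, P_mul_self,
    sub_self, sub_zero]

open Classical in
theorem isCP_fA (hψ : IsCP ψ) (j : Fin (m + 2)) :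
    IsCP (fA W ψ j : Matrix (NIx W K m E) (NIx W K m E) ℂ →ₗ[ℂ] LL G) := by
  refine Fin.cases ?_ (fun i => ?_) j
  · refine isCP_scal W 1 _ fun c => ?_
    rw [fA_zero, Algebra.algebraMap_eq_smul_one, star_one, mul_one]
  · exact hψ.comp (isCP_submatrix _ _ fun c => rfl)

open Classical in
theorem isCP_xA (k : Fin K) (j : Fin (m + 2)) :
    IsCP (xA W k j : Matrix (NIx W K m E) (NIx W K m E) ℂ →ₗ[ℂ] LL G) := by
  refine Fin.cases ?_ (fun i => ?_) j
  · refine isCP_scal W 1 _ fun c => ?_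
    rw [xA_zero, Algebra.algebraMap_eq_smul_one, star_one, mul_one]
  · refine (isCP_tb W i k).add' (isCP_scal W (1 - P W k) _ fun c => ?_)
    rw [P_proj]
    rfl

/-- A nonnegative combination of completely positive maps. -/
theorem isCP_pl {A : Type} [Ring A] [StarRing A] [Algebra ℂ A] (T : Fin (m + 2) → A →ₗ[ℂ] LL G)
    (hT : ∀ j, IsCP (T j)) (t : unitInterval) (φ : A →ₗ[ℂ] LL G)
    (hφ : ∀ a, φ a = pl m (fun j => T j a) t) : IsCP φ := by
  have h : φ = ∑ j : Fin (m + 2), ((tent m j (t : ℝ) : ℝ) : ℂ) • T j := by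
    refine LinearMap.ext fun a => ?_
    rw [hφ, pl_apply, LinearMap.sum_apply]
    rfl
  rw [h]
  exact IsCP.sum' _ _ fun j _ => (hT j).smul' (tent_nonneg _ _ _)

open Classical in
theorem isCP_beta (hψ : IsCP ψ) :
    IsCP (beta W ψ : Matrix (NIx W K m E) (NIx W K m E) ℂ →ₗ[ℂ] BP W) := by
  have hf : ∀ (t : unitInterval) (φ : Matrix (NIx W K m E) (NIx W K m E) ℂ →ₗ[ℂ] LL G),
      (∀ c, φ c = fB W ψ c t) → IsCP φ := fun t φ hφ =>
    isCP_pl (fun j => fA W ψ j) (isCP_fA W ψ hψ) t φ hφ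
  refine isCP_of_sep (evP W) (evP_sep W) ?_
  rintro ⟨_ | k, t⟩
  · exact hf t _ fun c => rfl
  · rcases lt_or_ge k K with hk | hk
    · exact isCP_pl (fun j => xA W ⟨k, hk⟩ j) (isCP_xA W ⟨k, hk⟩) t _ fun c =>
        beta_x_lt W ψ c t ⟨k, hk⟩
    · let L : Fin (k + 2) → (Matrix (NIx W K m E) (NIx W K m E) ℂ →ₗ[ℂ] LL G) := fun j =>
        { toFun := fun c => fB W ψ c (t * tt k j)
          map_add' := fun c d => by rw [fB_add]; rfl
          map_smul' := fun z c => by rw [fB_smul]; rfl }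
      let L' : Fin (k + 2) → (Matrix (NIx W K m E) (NIx W K m E) ℂ →ₗ[ℂ] LL G) := fun j =>
        { toFun := fun c => V W k j * L j c * V W k j
          map_add' := fun c d => by rw [map_add, mul_add, add_mul]
          map_smul' := fun z c => by
            rw [map_smul, mul_smul_comm, smul_mul_assoc]; rfl }
      have hL : ∀ j, IsCP (L' j) := fun j =>
        (hf (t * tt k j) (L j) fun c => rfl).conj' (V W k j) fun c => by
          rw [(V_isCut W k).sa]; rfl
      have h : (evP W (some k, t)).toAlgHom.toLinearMap ∘ₗ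
          (beta W ψ : Matrix (NIx W K m E) (NIx W K m E) ℂ →ₗ[ℂ] BP W) = ∑ j, L' j := by
        refine LinearMap.ext fun c => ?_
        rw [LinearMap.sum_apply]
        exact beta_x_ge W ψ c t hk
      rw [h]
      exact IsCP.sum' _ _ fun j _ => hL j

end

end Pool.Agent.H.MP_e11395_an.PA
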