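import Pool.Agent.H.MP_e11395_an.A.BComm

/-!
# MP_e11395, part A2: the maps `phi k : C(I, L) → L`

`phi k g = ∑_j V_{k,j} g(j/(k+1)) V_{k,j}`: unital, contractive, and asymptotically
multiplicative on the functions with values in `D`.
-/

set_option autoImplicit false
set_option linter.unusedSectionVars false

open Filter Topology
open scoped ENNReal InnerProductSpace

namespace Pool.Agent.H.MP_e11395_an.PA

variable {G : Type} [Group G] (W : TwG G)

/-- The grid points. -/
noncomputable def tt (k : ℕ) (j : Fin (k + 2)) : unitInterval :=
  ⟨(j : ℝ) / ((k : ℝ) + 1), by positivity, by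
    rw [div_le_one (by positivity)]
    have : (j : ℕ) ≤ k + 1 := by omega
    exact_mod_cast this⟩

theorem tt_val (k : ℕ) (j : Fin (k + 2)) : ((tt k j : unitInterval) : ℝ) = (j : ℝ) / ((k : ℝ) + 1) :=
  rfl

theorem tt_zero (k : ℕ) : tt k 0 = 0 := by
  ext
  simp [tt_val]

/-- The map `g ↦ ∑_j V_j g(t_j) V_j`. -/
noncomputable def phi (k : ℕ) (g : C(unitInterval, LL G)) : LL G :=
  ∑ j, V W k j * g (tt k j) * V W k j

theorem phi_add (k : ℕ) (g g' : C(unitInterval, LL G)) :
    phi W k (g + g') = phi W k g + phi W k g' := by
  simp only [phi, ContinuousMap.add_apply, mul_add, add_mul, Finset.sum_add_distrib]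

theorem phi_sub (k : ℕ) (g g' : C(unitInterval, LL G)) :
    phi W k (g - g') = phi W k g - phi W k g' := by
  simp only [phi, ContinuousMap.sub_apply, mul_sub, sub_mul, Finset.sum_sub_distrib]

theorem phi_smul (k : ℕ) (c : ℂ) (g : C(unitInterval, LL G)) :
    phi W k (c • g) = c • phi W k g := by
  simp only [phi, ContinuousMap.smul_apply, mul_smul_comm, smul_mul_assoc, Finset.smul_sum]

theorem phi_star (k : ℕ) (g : C(unitInterval, LL G)) :
    phi W k (star g) = star (phi W k g) := by
  simp only [phi, star_sum, star_mul, (V_isCut W k).sa, ContinuousMap.star_apply, mul_assoc]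

theorem phi_one (k : ℕ) : phi W k 1 = 1 := by
  simp only [phi, ContinuousMap.one_apply, mul_one]
  exact (V_isCut W k).sum

theorem norm_phi_le (k : ℕ) (g : C(unitInterval, LL G)) : ‖phi W k g‖ ≤ ‖g‖ :=
  (V_isCut W k).norm_cut_le _ (norm_nonneg _) fun _ => g.norm_coe_le_norm _

/-! ### Scaling and the bounded sequence of the `phi k` -/

/-- Multiplication by `s` on the unit interval. -/
def scI (s : unitInterval) : C(unitInterval, unitInterval) := ⟨fun t => s * t, by fun_prop⟩

@[simp] theorem scI_apply (s t : unitInterval) : scI s t = s * t := rfl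

/-- The scaled function `t ↦ g (s t)`. -/
def sc {X : Type} [TopologicalSpace X] (s : unitInterval) (g : C(unitInterval, X)) :
    C(unitInterval, X) := g.comp (scI s)

@[simp] theorem sc_apply {X : Type} [TopologicalSpace X] (s : unitInterval)
    (g : C(unitInterval, X)) (t : unitInterval) : sc s g t = g (s * t) := rfl

theorem sc_one {X : Type} [TopologicalSpace X] (g : C(unitInterval, X)) : sc 1 g = g := by
  ext t; simp

theorem sc_sc {X : Type} [TopologicalSpace X] (s r : unitInterval) (g : C(unitInterval, X)) :
    sc s (sc r g) = sc (s * r) g := by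
  ext t
  simp only [sc_apply]
  congr 1
  rw [← mul_assoc, mul_comm r s]

theorem continuous_sc {X : Type} [TopologicalSpace X] (g : C(unitInterval, X)) :
    Continuous fun s => sc s g := by
  have h : Continuous fun p : unitInterval × unitInterval => g (p.1 * p.2) := by fun_prop
  exact (ContinuousMap.curry ⟨_, h⟩).continuous

open scoped BoundedContinuousFunction

/-- The bounded sequence `(phi k g)_k`, cut off below `K`. -/
noncomputable def phiB (K : ℕ) : C(unitInterval, LL G) →L[ℂ] (ℕ →ᵇ LL G) :=
  LinearMap.mkContinuous
    { toFun := fun g => BoundedContinuousFunction.ofNormedAddCommGroupDiscrete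
        (fun k => if K ≤ k then phi W k g else 0) ‖g‖ (fun k => by
          split_ifs
          · exact norm_phi_le W k g
          · simp)
      map_add' := fun g g' => by
        ext1 k
        change (if K ≤ k then phi W k (g + g') else 0) = (if K ≤ k then phi W k g else 0) +
          (if K ≤ k then phi W k g' else 0)
        split_ifs
        · exact phi_add W k g g'
        · simp
      map_smul' := fun c g => by
        ext1 k
        change (if K ≤ k then phi W k (c • g) else 0) = c • (if K ≤ k then phi W k g else 0)
        split_ifs
        · exact phi_smul W k c g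
        · simp }
    1 (fun g => by
      rw [one_mul]
      refine (BoundedContinuousFunction.norm_le (norm_nonneg _)).2 fun k => ?_
      change ‖(if K ≤ k then phi W k g else 0)‖ ≤ ‖g‖
      split_ifs
      · exact norm_phi_le W k g
      · simp)

theorem phiB_apply (K : ℕ) (g : C(unitInterval, LL G)) (k : ℕ) :
    phiB W K g k = if K ≤ k then phi W k g else 0 := rfl

/-- The sequence with the single nonzero entry `T` at the place `k`. -/
noncomputable def single (k : ℕ) : LL G →L[ℂ] (ℕ →ᵇ LL G) :=
  LinearMap.mkContinuous
    { toFun := fun T => BoundedContinuousFunction.ofNormedAddCommGroupDiscrete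
        (fun j => if j = k then T else 0) ‖T‖ (fun j => by split_ifs <;> simp)
      map_add' := fun S T => by
        ext1 j
        change (if j = k then S + T else 0) = (if j = k then S else 0) + (if j = k then T else 0)
        split_ifs <;> simp
      map_smul' := fun c T => by
        ext1 j
        change (if j = k then c • T else 0) = c • (if j = k then T else 0)
        split_ifs <;> simp }
    1 (fun T => by
      rw [one_mul]
      refine (BoundedContinuousFunction.norm_le (norm_nonneg _)).2 fun j => ?_
      change ‖(if j = k then T else 0)‖ ≤ ‖T‖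
      split_ifs <;> simp)

theorem single_apply (k : ℕ) (T : LL G) (j : ℕ) :
    single k T j = if j = k then T else 0 := rfl

end Pool.Agent.H.MP_e11395_an.PA
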