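import Pool.Agent.H.MP_e11395_an.A.BPhi

/-!
# MP_e11395, part A2: asymptotic multiplicativity of `phi k`
-/

set_option autoImplicit false
set_option linter.unusedSectionVars false

open Filter Topology
open scoped ENNReal InnerProductSpace

namespace Pool.Agent.H.MP_e11395_an.PA

variable {G : Type} [Group G] (W : TwG G)

theorem BPhiM_dist (k : ℕ) (i j : Fin (k + 2)) (h1 : (i : ℕ) ≤ j + 1) (h2 : (j : ℕ) ≤ i + 1) :
    dist (tt k i) (tt k j) ≤ 1 / ((k : ℝ) + 1) := by
  have hk : (0 : ℝ) < (k : ℝ) + 1 := by positivity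
  rw [Subtype.dist_eq, Real.dist_eq, tt_val, tt_val, ← sub_div, abs_div, abs_of_pos hk]
  refine div_le_div_of_nonneg_right ?_ hk.le
  have h1' : ((i : ℕ) : ℝ) ≤ (j : ℕ) + 1 := by exact_mod_cast h1
  have h2' : ((j : ℕ) : ℝ) ≤ (i : ℕ) + 1 := by exact_mod_cast h2
  rw [abs_le]
  constructor <;> linarith

/-- Asymptotic multiplicativity. (Job: `IsCut.norm_cut_mul_sub_le` with `X j = g (tt k j)`,
`Y j = g' (tt k j)`; `ε₁` from `comm_D_unif`, `ε₂` from the uniform continuity of `g'`, as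
`|tt k i - tt k j| ≤ 1/(k+1)` for `|i - j| ≤ 1`.) -/
theorem phi_mul_tendsto (g g' : C(unitInterval, LL G)) (hg' : ∀ t, g' t ∈ W.D) :
    Tendsto (fun k => ‖phi W k (g * g') - phi W k g * phi W k g'‖) atTop (𝓝 0) := by
  rw [Metric.tendsto_atTop]
  intro ε hε
  have hM : (0 : ℝ) < ‖g‖ + 1 := by positivity
  set η : ℝ := ε / (9 * (‖g‖ + 1)) with hη
  have hη0 : 0 < η := by positivity
  obtain ⟨K₁, hK₁⟩ := comm_D_unif W g' hg' η hη0
  have huc : UniformContinuous g' := CompactSpace.uniformContinuous_of_continuous g'.continuous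
  obtain ⟨δ, hδ, hδ'⟩ := Metric.uniformContinuous_iff.1 huc η hη0
  obtain ⟨K₂, hK₂⟩ := exists_nat_one_div_lt hδ
  refine ⟨max K₁ K₂, fun k hk => ?_⟩
  have hk1 : K₁ ≤ k := (le_max_left _ _).trans hk
  have hk2 : K₂ ≤ k := (le_max_right _ _).trans hk
  rw [Real.dist_eq, sub_zero, abs_of_nonneg (norm_nonneg _)]
  have h := (V_isCut W k).norm_cut_mul_sub_le (fun j => g (tt k j)) (fun j => g' (tt k j))
    (M := ‖g‖) (ε₁ := η) (ε₂ := η) (norm_nonneg _) (fun i => g.norm_coe_le_norm _)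
    (fun i j => hK₁ k hk1 j _) (fun i j hij hji => by
      have h3 : dist (tt k i) (tt k j) < δ := by
        refine (BPhiM_dist k i j hij hji).trans_lt (lt_of_le_of_lt ?_ hK₂)
        refine one_div_le_one_div_of_le (by positivity) ?_
        have : (K₂ : ℝ) ≤ k := by exact_mod_cast hk2
        linarith
      have h4 := hδ' h3
      rw [dist_eq_norm] at h4
      exact h4.le)
  have e : phi W k (g * g') - phi W k g * phi W k g' =
      ∑ j, V W k j * (g (tt k j) * g' (tt k j)) * V W k j -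
        (∑ j, V W k j * g (tt k j) * V W k j) * (∑ j, V W k j * g' (tt k j) * V W k j) := rfl
  rw [e]
  refine h.trans_lt ?_
  have h5 : ‖g‖ * (3 * (2 * η + η)) = ε * (‖g‖ / (‖g‖ + 1)) := by
    rw [hη]; field_simp; ring
  rw [h5]
  have h6 : ‖g‖ / (‖g‖ + 1) < 1 := by
    rw [div_lt_one hM]; linarith
  calc ε * (‖g‖ / (‖g‖ + 1)) < ε * 1 := mul_lt_mul_of_pos_left h6 hε
    _ = ε := mul_one _

end Pool.Agent.H.MP_e11395_an.PA
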