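import Pool.Agent.H.MP_e11395_an.A.BTrA

/-!
# MP_e11395, part A2: the algebra of the functions with scalar value at `0`

`QE E = {g ∈ C(I, E) | g 0 ∈ ℂ 1}` and its extreme traces, when `E` has a unique trace.
-/

set_option autoImplicit false
set_option linter.unusedSectionVars false

open Filter Topology
open scoped ComplexOrder

namespace Pool.Agent.H.MP_e11395_an.PA

noncomputable section

variable (E : Type) [CStarAlgebra E]

/-- The functions with scalar value at `0`, as a subalgebra. -/
def QEs : StarSubalgebra ℂ C(unitInterval, E) where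
  carrier := {g | ∃ c : ℂ, g 0 = algebraMap ℂ E c}
  mul_mem' := by
    rintro g g' ⟨c, hc⟩ ⟨c', hc'⟩
    exact ⟨c * c', by rw [ContinuousMap.mul_apply, hc, hc', map_mul]⟩
  add_mem' := by
    rintro g g' ⟨c, hc⟩ ⟨c', hc'⟩
    exact ⟨c + c', by rw [ContinuousMap.add_apply, hc, hc', map_add]⟩
  algebraMap_mem' c := ⟨c, rfl⟩
  star_mem' := by
    rintro g ⟨c, hc⟩
    refine ⟨star c, ?_⟩
    rw [ContinuousMap.star_apply, hc]
    exact (algebraMap_star_comm c).symm

/-- (Job: the range of `algebraMap ℂ E` is a finite dimensional subspace, so closed;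
evaluation at `0` is continuous.) -/
instance QEs_closed : IsClosed (QEs E : Set C(unitInterval, E)) := by
  have h1 : IsClosed ((LinearMap.range (Algebra.linearMap ℂ E) : Submodule ℂ E) : Set E) :=
    Submodule.closed_of_finiteDimensional _
  have h2 : (QEs E : Set C(unitInterval, E)) = (fun g : C(unitInterval, E) => g 0) ⁻¹'
      ((LinearMap.range (Algebra.linearMap ℂ E) : Submodule ℂ E) : Set E) := by
    ext g
    constructor
    · rintro ⟨c, hc⟩
      exact ⟨c, hc.symm⟩
    · rintro ⟨c, hc⟩
      exact ⟨c, hc.symm⟩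
  rw [h2]
  exact h1.preimage (continuous_eval_const (0 : unitInterval))

/-- The functions with scalar value at `0`. -/
def QE : Type := ↥(QEs E)

instance : CStarAlgebra (QE E) := inferInstanceAs (CStarAlgebra ↥(QEs E))

variable {E}

namespace QE

/-- The underlying function. -/
def val (g : QE E) : C(unitInterval, E) := Subtype.val g

/-- Constructor. -/
def mk (g : C(unitInterval, E)) (h : ∃ c : ℂ, g 0 = algebraMap ℂ E c) : QE E := ⟨g, h⟩

@[simp] theorem val_mk (g : C(unitInterval, E)) (h : ∃ c : ℂ, g 0 = algebraMap ℂ E c) :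
    (mk g h).val = g := rfl

@[ext] theorem ext {g g' : QE E} (h : ∀ t, g.val t = g'.val t) : g = g' :=
  Subtype.ext (ContinuousMap.ext h)

theorem mem (g : QE E) : ∃ c : ℂ, g.val 0 = algebraMap ℂ E c := g.2

@[simp] theorem val_one : (1 : QE E).val = 1 := rfl
@[simp] theorem val_zero : (0 : QE E).val = 0 := rfl
@[simp] theorem val_add (g g' : QE E) : (g + g').val = g.val + g'.val := rfl
@[simp] theorem val_sub (g g' : QE E) : (g - g').val = g.val - g'.val := rfl
@[simp] theorem val_mul (g g' : QE E) : (g * g').val = g.val * g'.val := rfl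
@[simp] theorem val_star (g : QE E) : (star g).val = star g.val := rfl
@[simp] theorem val_smul (c : ℂ) (g : QE E) : (c • g).val = c • g.val := rfl
@[simp] theorem val_algebraMap (c : ℂ) :
    (algebraMap ℂ (QE E) c).val = algebraMap ℂ C(unitInterval, E) c := rfl
theorem norm_val (g : QE E) : ‖g.val‖ = ‖g‖ := rfl

/-- Evaluation. -/
def ev (t : unitInterval) : QE E →⋆ₐ[ℂ] E where
  toFun g := g.val t
  map_one' := rfl
  map_mul' _ _ := rfl
  map_zero' := rfl
  map_add' _ _ := rfl
  commutes' _ := rfl
  map_star' _ := rfl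

@[simp] theorem ev_apply (t : unitInterval) (g : QE E) : ev t g = g.val t := rfl

/-- The function `s ↦ min(s, x)/x · e`. -/
def ramp (x : unitInterval) (e : E) : QE E :=
  mk ⟨fun s => ((min (s : ℝ) x / (x : ℝ) : ℝ) : ℂ) • e, by fun_prop⟩
    ⟨0, by
      change ((min ((0 : unitInterval) : ℝ) x / (x : ℝ) : ℝ) : ℂ) • e = _
      rw [map_zero, Set.Icc.coe_zero, min_eq_left x.2.1, zero_div, Complex.ofReal_zero, zero_smul]⟩

theorem ramp_val (x : unitInterval) (e : E) (s : unitInterval) :
    (ramp x e).val s = ((min (s : ℝ) x / (x : ℝ) : ℝ) : ℂ) • e := rfl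

theorem ramp_self {x : unitInterval} (hx : 0 < (x : ℝ)) (e : E) : (ramp x e).val x = e := by
  rw [ramp_val, min_self, div_self hx.ne', Complex.ofReal_one, one_smul]

theorem ev_surj {x : unitInterval} (hx : 0 < (x : ℝ)) :
    Function.Surjective (ev x : QE E →⋆ₐ[ℂ] E) := fun e => ⟨ramp x e, ramp_self hx e⟩

/-- The central copy of `C([0,1], ℝ)`. (Job: the ring axioms, all pointwise.) -/
def cen : C(unitInterval, ℝ) →+* QE E where
  toFun c := mk ⟨fun s => ((c s : ℝ) : ℂ) • (1 : E), by fun_prop⟩
    ⟨c 0, by rw [Algebra.algebraMap_eq_smul_one]; rfl⟩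
  map_one' := by
    ext t
    change (((1 : ℝ) : ℝ) : ℂ) • (1 : E) = 1
    rw [Complex.ofReal_one, one_smul]
  map_mul' c d := by
    ext t
    change ((c t * d t : ℝ) : ℂ) • (1 : E) = (((c t : ℝ) : ℂ) • (1 : E)) * (((d t : ℝ) : ℂ) • (1 : E))
    rw [smul_mul_smul_comm, mul_one, Complex.ofReal_mul]
  map_zero' := by
    ext t
    change (((0 : ℝ) : ℝ) : ℂ) • (1 : E) = 0
    rw [Complex.ofReal_zero, zero_smul]
  map_add' c d := by
    ext t
    change ((c t + d t : ℝ) : ℂ) • (1 : E) = (((c t : ℝ) : ℂ) • (1 : E)) + (((d t : ℝ) : ℂ) • (1 : E))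
    rw [Complex.ofReal_add, add_smul]

theorem cen_val (c : C(unitInterval, ℝ)) (s : unitInterval) :
    (cen c : QE E).val s = ((c s : ℝ) : ℂ) • (1 : E) := rfl

/-- The value at `0`. -/
def eps [Nontrivial E] : QE E →⋆ₐ[ℂ] ℂ where
  toFun g := g.mem.choose
  map_one' := by
    apply (algebraMap ℂ E).injective
    rw [← (1 : QE E).mem.choose_spec, map_one]
    rfl
  map_mul' g g' := by
    apply (algebraMap ℂ E).injective
    rw [← (g * g').mem.choose_spec, map_mul, ← g.mem.choose_spec, ← g'.mem.choose_spec]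
    rfl
  map_zero' := by
    apply (algebraMap ℂ E).injective
    rw [← (0 : QE E).mem.choose_spec, map_zero (algebraMap ℂ E)]
    rfl
  map_add' g g' := by
    apply (algebraMap ℂ E).injective
    rw [← (g + g').mem.choose_spec, map_add, ← g.mem.choose_spec, ← g'.mem.choose_spec]
    rfl
  commutes' c := by
    apply (algebraMap ℂ E).injective
    rw [← (algebraMap ℂ (QE E) c).mem.choose_spec]
    rfl
  map_star' g := by
    apply (algebraMap ℂ E).injective
    rw [← (star g).mem.choose_spec, algebraMap_star_comm, ← g.mem.choose_spec]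
    rfl

theorem eps_spec [Nontrivial E] (g : QE E) : g.val 0 = algebraMap ℂ E (eps g) :=
  g.mem.choose_spec

end QE

end

end Pool.Agent.H.MP_e11395_an.PA
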