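import Pool.Agent.H.MP_e11395_an.A.AData
import Pool.Agent.H.MP_e11395_an.D.State

/-!
# MP_e11395, part A2: extreme traces and central functions
-/

set_option autoImplicit false
set_option linter.unusedSectionVars false

open Filter Topology
open scoped ComplexOrder

namespace Pool.Agent.H.MP_e11395_an.PA

variable {B : Type} [CStarAlgebra B]

theorem BTrP_center (sc : C(unitInterval, ℝ) →+* B) (hs : ∀ c, star (sc c) = sc c)
    (hc : ∀ c b, sc c * b = b * sc c) {κ : B →ₗ[ℂ] ℂ} (h : IsExt κ) (c : C(unitInterval, ℝ))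
    (h0 : ∀ y, 0 ≤ c y) (h1 : ∀ y, c y ≤ 1) (g : B) :
    κ (sc c * g) = κ (sc c) * κ g := by
  let w : C(unitInterval, ℝ) := ⟨fun y => √(c y), by fun_prop⟩
  let v : C(unitInterval, ℝ) := ⟨fun y => √(1 - c y), by fun_prop⟩
  refine h.center (z := sc c) (w := sc w) (v := sc v) ?_ ?_ ?_ g
  · intro a
    exact hc c a
  · have e : w * w = c := by
      ext y
      exact Real.mul_self_sqrt (h0 y)
    rw [hs, ← map_mul, e]
  · have e : v * v + c = 1 := by
      ext y
      have e1 : (v * v + c) y = √(1 - c y) * √(1 - c y) + c y := rfl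
      rw [e1, Real.mul_self_sqrt (sub_nonneg.2 (h1 y))]
      simp
    have e2 : sc (v * v + c) = sc (v * v) + sc c := map_add sc _ _
    rw [e, map_one] at e2
    rw [hs, ← map_mul, e2, add_sub_cancel_right]

theorem BTrP_mul (sc : C(unitInterval, ℝ) →+* B) (hs : ∀ c, star (sc c) = sc c)
    (hc : ∀ c b, sc c * b = b * sc c) (hr : ∀ (r : ℝ) (c : C(unitInterval, ℝ)),
      sc (r • c) = (r : ℂ) • sc c) {κ : B →ₗ[ℂ] ℂ} (h : IsExt κ) (c : C(unitInterval, ℝ))
    (g : B) : κ (sc c * g) = κ (sc c) * κ g := by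
  have hM : (0 : ℝ) < ‖c‖ + 1 := by positivity
  set M : ℝ := ‖c‖ + 1 with hMdef
  obtain ⟨c', hc'⟩ : ∃ c' : C(unitInterval, ℝ), ∀ y, c' y = (1 / (2 * M)) * (c y + M) :=
    ⟨(1 / (2 * M)) • (c + M • (1 : C(unitInterval, ℝ))), fun y => by
      have e : ((1 / (2 * M)) • (c + M • (1 : C(unitInterval, ℝ)))) y =
        (1 / (2 * M)) * (c y + M * 1) := rfl
      rw [e, mul_one]⟩
  have hb : ∀ y, |c y| ≤ ‖c‖ := fun y => by
    have := c.norm_coe_le_norm y
    rwa [Real.norm_eq_abs] at this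
  have h0 : ∀ y, 0 ≤ c' y := fun y => by
    rw [hc']
    have := (abs_le.1 (hb y)).1
    have h2 : 0 ≤ c y + M := by linarith
    positivity
  have h1 : ∀ y, c' y ≤ 1 := fun y => by
    rw [hc', one_div, inv_mul_le_iff₀ (by positivity), mul_one]
    have := (abs_le.1 (hb y)).2
    linarith
  have hcc : c + M • (1 : C(unitInterval, ℝ)) = (2 * M) • c' := by
    ext y
    have e : ((2 * M) • c') y = 2 * M * c' y := rfl
    have e' : (c + M • (1 : C(unitInterval, ℝ))) y = c y + M * 1 := rfl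
    rw [e, e', hc']
    field_simp
  have hsc : sc c = ((2 * M : ℝ) : ℂ) • sc c' - ((M : ℝ) : ℂ) • 1 := by
    have e1 : sc (c + M • (1 : C(unitInterval, ℝ))) = sc c + sc (M • (1 : C(unitInterval, ℝ))) :=
      map_add sc _ _
    rw [hcc, hr (2 * M), hr M, map_one] at e1
    rw [e1, add_sub_cancel_right]
  have hcen := BTrP_center sc hs hc h c' h0 h1 g
  rw [hsc, sub_mul, smul_mul_assoc, smul_mul_assoc, one_mul, map_sub, map_sub, map_smul, map_smul,
    map_smul, map_smul, hcen, h.one]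
  simp only [smul_eq_mul]
  ring

theorem BTrP_real (sc : C(unitInterval, ℝ) →+* B) (hs : ∀ c, star (sc c) = sc c)
    {κ : B →ₗ[ℂ] ℂ} (h : IsExt κ) (c : C(unitInterval, ℝ)) :
    κ (sc c) = (((κ (sc c)).re : ℝ) : ℂ) := by
  have h1 := h.map_star (sc c)
  rw [hs] at h1
  exact (Complex.conj_eq_iff_re.1 h1.symm).symm

theorem BTrP_eval (sc : C(unitInterval, ℝ) →+* B) (hs : ∀ c, star (sc c) = sc c)
    (hc : ∀ c b, sc c * b = b * sc c) (hr : ∀ (r : ℝ) (c : C(unitInterval, ℝ)),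
      sc (r • c) = (r : ℂ) • sc c) {κ : B →ₗ[ℂ] ℂ} (h : IsExt κ) :
    ∃ x : unitInterval, ∀ c : C(unitInterval, ℝ), κ (sc c) = ((c x : ℝ) : ℂ) := by
  have key : ∃ x : unitInterval, ∀ c : C(unitInterval, ℝ), (∀ y, 0 ≤ c y) →
      κ (sc c) = 0 → c x = 0 := by
    by_contra hcon
    push Not at hcon
    choose c hc0 hck hcx using hcon
    obtain ⟨t, -, ht⟩ := (isCompact_univ (X := unitInterval)).elim_nhds_subcover
      (fun x => {y | 0 < c x y}) (fun x _ => by
        refine (isOpen_lt continuous_const (c x).continuous).mem_nhds ?_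
        exact lt_of_le_of_ne (hc0 x x) (Ne.symm (hcx x)))
    let s : C(unitInterval, ℝ) := ∑ x ∈ t, c x
    have hs' : ∀ y, 0 < s y := fun y => by
      obtain ⟨x, hx, hxy⟩ := Set.mem_iUnion₂.1 (ht (Set.mem_univ y))
      have e : s y = ∑ x ∈ t, c x y := by simp [s]
      rw [e]
      exact Finset.sum_pos' (fun x _ => hc0 x y) ⟨x, hx, hxy⟩
    let s' : C(unitInterval, ℝ) := ⟨fun y => (s y)⁻¹, s.continuous.inv₀ fun y => (hs' y).ne'⟩
    have h1 : s * s' = 1 := by
      ext y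
      have : (s * s') y = s y * (s y)⁻¹ := rfl
      rw [this, mul_inv_cancel₀ (hs' y).ne']
      rfl
    have h2 : κ (sc s) = 0 := by
      simp only [s, map_sum]
      exact Finset.sum_eq_zero fun x _ => hck x
    have h3 := BTrP_mul sc hs hc hr h s (sc s')
    rw [← map_mul, h1, map_one, h.one, h2, zero_mul] at h3
    exact one_ne_zero h3
  obtain ⟨x, hx⟩ := key
  refine ⟨x, fun c => ?_⟩
  set r : ℝ := (κ (sc c)).re with hrd
  have hrc : κ (sc c) = (r : ℂ) := BTrP_real sc hs h c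
  let d : C(unitInterval, ℝ) := c + (-r) • (1 : C(unitInterval, ℝ))
  have hd : κ (sc d) = 0 := by
    simp only [d]
    rw [map_add, hr, map_one, map_add, map_smul, h.one, hrc]
    simp
  have hdd : κ (sc (d * d)) = 0 := by
    rw [map_mul, BTrP_mul sc hs hc hr h, hd, zero_mul]
  have h4 := hx (d * d) (fun y => mul_self_nonneg (d y)) hdd
  have h5 : d x = 0 := mul_self_eq_zero.1 h4
  have h6 : d x = c x - r := by
    simp [d, sub_eq_add_neg]
  rw [hrc]
  have h7 : c x = r := by linarith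
  rw [h7]

/-- Extreme traces and central copies of `C([0,1], ℝ)`. (Job: the same proof as `extb_center`,
`extb_mul`, `extb_real`, `extb_eval` in `D/ExtB.lean`, with `extb_sc B c` replaced by `sc c`.) -/
theorem ext_center_point (sc : C(unitInterval, ℝ) →+* B) (hs : ∀ c, star (sc c) = sc c)
    (hc : ∀ c b, sc c * b = b * sc c) (hr : ∀ (r : ℝ) (c : C(unitInterval, ℝ)),
      sc (r • c) = (r : ℂ) • sc c) {κ : B →ₗ[ℂ] ℂ} (h : IsExt κ) :
    ∃ x : unitInterval, ∀ (c : C(unitInterval, ℝ)) (b : B),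
      κ (sc c * b) = ((c x : ℝ) : ℂ) * κ b := by
  obtain ⟨x, hx⟩ := BTrP_eval sc hs hc hr h
  refine ⟨x, fun c b => ?_⟩
  rw [BTrP_mul sc hs hc hr h, hx]

end Pool.Agent.H.MP_e11395_an.PA
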