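import Pool.Agent.H.MP_e11395_an.A.BQE
import Pool.Agent.H.MP_e11395_an.A.BTrP
import Pool.Agent.H.MP_e11395_an.D.StateA

/-!
# MP_e11395, part A2: the extreme traces of `QE E`

`QE E = {g ∈ C(I, E) | g 0 ∈ ℂ 1}` and its extreme traces, when `E` has a unique trace.
-/

set_option autoImplicit false
set_option linter.unusedSectionVars false

open Filter Topology
open scoped ComplexOrder

namespace Pool.Agent.H.MP_e11395_an.PA

noncomputable section

variable {E : Type} [CStarAlgebra E]

theorem BQX_star (c : C(unitInterval, ℝ)) : star (QE.cen c : QE E) = QE.cen c := by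
  apply QE.ext
  intro t
  rw [QE.val_star, ContinuousMap.star_apply, QE.cen_val, star_smul, star_one]
  congr 1
  exact Complex.conj_ofReal _

theorem BQX_comm (c : C(unitInterval, ℝ)) (b : QE E) : QE.cen c * b = b * QE.cen c := by
  apply QE.ext
  intro t
  rw [QE.val_mul, QE.val_mul, ContinuousMap.mul_apply, ContinuousMap.mul_apply, QE.cen_val,
    smul_mul_assoc, mul_smul_comm, one_mul, mul_one]

theorem BQX_smul (r : ℝ) (c : C(unitInterval, ℝ)) :
    (QE.cen (r • c) : QE E) = (r : ℂ) • QE.cen c := by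
  apply QE.ext
  intro t
  rw [QE.val_smul, ContinuousMap.smul_apply, QE.cen_val, QE.cen_val, smul_smul,
    ← Complex.ofReal_mul]
  rfl

theorem BQX_vanish {σ : QE E →ₗ[ℂ] ℂ} (h : IsExt σ) {x : unitInterval}
    (hx : ∀ (c : C(unitInterval, ℝ)) (b : QE E), σ (QE.cen c * b) = ((c x : ℝ) : ℂ) * σ b)
    (g : QE E) (hg : g.val x = 0) : σ g = 0 := by
  have key : ∀ ε : ℝ, 0 < ε → ‖σ g‖ ≤ ε := by
    intro ε hε
    let c : C(unitInterval, ℝ) := ⟨fun y => max 0 (1 - ‖g.val y‖ / ε), by fun_prop⟩
    have hc : ∀ y, c y = max 0 (1 - ‖g.val y‖ / ε) := fun _ => rfl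
    have hcx : c x = 1 := by
      rw [hc, hg]
      simp
    have h1 := hx c g
    rw [hcx, Complex.ofReal_one, one_mul] at h1
    rw [← h1]
    refine (h.toIsTr.norm_le _).trans ?_
    rw [← QE.norm_val, ContinuousMap.norm_le _ hε.le]
    intro y
    have h2 : (QE.cen c * g).val y = ((c y : ℝ) : ℂ) • g.val y := by
      rw [QE.val_mul, ContinuousMap.mul_apply, QE.cen_val, smul_mul_assoc, one_mul]
    rw [h2, norm_smul, Complex.norm_real, Real.norm_eq_abs, hc]
    rcases le_or_gt (‖g.val y‖) ε with h3 | h3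
    · have h4 : |max 0 (1 - ‖g.val y‖ / ε)| ≤ 1 := by
        rw [abs_of_nonneg (le_max_left _ _)]
        refine max_le zero_le_one ?_
        have : 0 ≤ ‖g.val y‖ / ε := by positivity
        linarith
      calc |max 0 (1 - ‖g.val y‖ / ε)| * ‖g.val y‖ ≤ 1 * ‖g.val y‖ :=
            mul_le_mul_of_nonneg_right h4 (norm_nonneg _)
        _ ≤ ε := by rw [one_mul]; exact h3
    · have h4 : max 0 (1 - ‖g.val y‖ / ε) = 0 := by
        refine max_eq_left ?_
        have : 1 ≤ ‖g.val y‖ / ε := by
          rw [le_div_iff₀ hε]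
          linarith
        linarith
      rw [h4]
      simpa using hε.le
  have h0 : ‖σ g‖ ≤ 0 := le_of_forall_pos_le_add fun ε hε => by
    rw [zero_add]
    exact key ε hε
  exact norm_le_zero_iff.1 h0

theorem BQX_eq {σ : QE E →ₗ[ℂ] ℂ} (h : IsExt σ) {x : unitInterval}
    (hx : ∀ (c : C(unitInterval, ℝ)) (b : QE E), σ (QE.cen c * b) = ((c x : ℝ) : ℂ) * σ b)
    (g g' : QE E) (hg : g.val x = g'.val x) : σ g = σ g' := by
  have h1 := BQX_vanish h hx (g - g') (by
    rw [QE.val_sub, ContinuousMap.sub_apply, hg, sub_self])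
  rw [map_sub] at h1
  exact sub_eq_zero.1 h1

/-- The extreme traces of `QE E`. (Job: `ext_center_point` with `QE.cen` gives `x`. If
`g.val x = 0` then `σ g = 0`: for `ε > 0` take `c s = max 0 (1 - ‖g s‖/ε)`, `c x = 1`,
`‖cen c * g‖ ≤ ε`, `σ g = σ (cen c * g)`, `IsTr.norm_le` (see `extb_vanish` in `D/ExtB.lean`).
If `x = 0`: `σ g = σ (g - algebraMap (eps g)) + eps g`. If `0 < x`: `t e = σ (ramp x e)` is a
tracial state of `E` (`ramp x (star e * e) - star (ramp x e) * ramp x e` vanishes at `x`), so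
`t = τ`, and `σ g = σ (ramp x (g.val x))`.) -/
theorem ext_QE [Nontrivial E] {τ : E →ₗ[ℂ] ℂ} (hu : ∀ t : E →ₗ[ℂ] ℂ, IsTr t → t = τ)
    {σ : QE E →ₗ[ℂ] ℂ} (h : IsExt σ) :
    (∀ g, σ g = QE.eps g) ∨ ∃ x : unitInterval, 0 < (x : ℝ) ∧ ∀ g, σ g = τ (g.val x) := by
  obtain ⟨x, hx⟩ := ext_center_point (QE.cen : C(unitInterval, ℝ) →+* QE E) BQX_star BQX_comm
    BQX_smul h
  rcases eq_or_lt_of_le x.2.1 with h0 | h0
  · left
    have hx0 : x = 0 := Subtype.ext h0.symm
    subst hx0
    intro g
    have h1 := BQX_eq h hx g (algebraMap ℂ (QE E) (QE.eps g)) (by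
      rw [QE.eps_spec g, QE.val_algebraMap]
      rfl)
    rw [h1, Algebra.algebraMap_eq_smul_one, map_smul, h.one, smul_eq_mul, mul_one]
  · right
    refine ⟨x, h0, ?_⟩
    let t : E →ₗ[ℂ] ℂ :=
      { toFun := fun e => σ (QE.ramp x e)
        map_add' := by
          intro a b
          rw [← map_add]
          apply BQX_eq h hx
          rw [QE.val_add, ContinuousMap.add_apply, QE.ramp_self h0, QE.ramp_self h0,
            QE.ramp_self h0]
        map_smul' := by
          intro c a
          rw [RingHom.id_apply, ← map_smul]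
          apply BQX_eq h hx
          rw [QE.val_smul, ContinuousMap.smul_apply, QE.ramp_self h0, QE.ramp_self h0] }
    have ht : ∀ e, t e = σ (QE.ramp x e) := fun _ => rfl
    have htr : IsTr t := by
      refine ⟨?_, fun a => ?_, fun a b => ?_⟩
      · rw [ht, ← h.one]
        apply BQX_eq h hx
        rw [QE.ramp_self h0, QE.val_one]
        rfl
      · have e : t (star a * a) = σ (star (QE.ramp x a) * QE.ramp x a) := by
          rw [ht]
          apply BQX_eq h hx
          rw [QE.val_mul, ContinuousMap.mul_apply, QE.val_star, ContinuousMap.star_apply,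
            QE.ramp_self h0, QE.ramp_self h0]
        rw [e]
        exact h.pos _
      · have e : ∀ a b : E, t (a * b) = σ (QE.ramp x a * QE.ramp x b) := by
          intro a b
          rw [ht]
          apply BQX_eq h hx
          rw [QE.val_mul, ContinuousMap.mul_apply, QE.ramp_self h0, QE.ramp_self h0,
            QE.ramp_self h0]
        rw [e, e, h.comm]
    intro g
    rw [← hu t htr, ht]
    apply BQX_eq h hx
    rw [QE.ramp_self h0]

end

end Pool.Agent.H.MP_e11395_an.PA
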