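import Pool.Agent.H.MP_e11395_an.A.BIns
import Pool.Agent.H.MP_e11395_an.A.BEmb
import Pool.Agent.H.MP_e11395_an.A.BQE

/-!
# MP_e11395, part A2: the quotients of `B`

`RI : B → QE D`, `F ↦ F.f`, and `RK k : B → QE M_n`, `F ↦ (s ↦ cmp k (F.x s k))`, and their right
inverses `LI`, `LK k`.
-/

set_option autoImplicit false
set_option linter.unusedSectionVars false

open Filter Topology
open scoped ENNReal InnerProductSpace BoundedContinuousFunction

namespace Pool.Agent.H.MP_e11395_an.PA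

noncomputable section

variable {G : Type} [Group G] (W : TwG G)

/-- The quotient map to the functions with values in `D`. -/
def RI : BT W →⋆ₐ[ℂ] QE W.DT where
  toFun F := QE.mk ⟨fun t => TwG.DT.mk (F.val.f t) (F.mem.D t),
      Continuous.subtype_mk F.val.f.continuous _⟩
    ⟨ev0 F.val, TwG.DT.ext F.mem.ev0_f⟩
  map_one' := rfl
  map_mul' _ _ := rfl
  map_zero' := rfl
  map_add' _ _ := rfl
  commutes' _ := rfl
  map_star' _ := rfl

theorem RI_val (F : BT W) (t : unitInterval) : ((RI W F).val t).val = F.val.f t := rfl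

/-- The quotient map to the functions with values in the matrices, at the place `k`. -/
def RK (k : ℕ) : BT W →⋆ₐ[ℂ] QE (Mt (Fin (ball W k).card) ℂ) where
  toFun F := QE.mk ⟨fun s => cmp k (F.val.x s k), by
      have h : Continuous fun s => F.val.x s k := by
        have h1 : Continuous fun s => F.val.xs s := F.val.xs.continuous
        exact (continuous_eval_const (F := ℕ →ᵇ LL G) k).comp h1
      exact (cmp_cont k).comp h⟩
    ⟨ev0 F.val, by
      change cmp k (F.val.x 0 k) = _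
      rw [F.mem.ev0_x, cmp_algebraMap]⟩
  map_one' := QE.ext fun s => (piK k s : BP W →⋆ₐ[ℂ] _).map_one'
  map_mul' F F' := QE.ext fun s => map_mul (piK k s) (incl F) (incl F')
  map_zero' := QE.ext fun s => map_zero (piK k s : BP W →⋆ₐ[ℂ] _)
  map_add' F F' := QE.ext fun s => map_add (piK k s) (incl F) (incl F')
  commutes' c := QE.ext fun s => AlgHomClass.commutes (piK k s : BP W →⋆ₐ[ℂ] _) c
  map_star' F := QE.ext fun s => map_star (piK k s) (incl F)

theorem RK_val (k : ℕ) (F : BT W) (s : unitInterval) :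
    (RK W k F).val s = cmp k (F.val.x s k) := rfl

/-- The right inverse of `RI` on functions. -/
def LIf (g : QE W.DT) : C(unitInterval, LL G) := ⟨fun t => (g.val t).val,
  (continuous_subtype_val : Continuous (Subtype.val : ↥W.D → LL G)).comp g.val.continuous⟩

/-- The right inverse of `RI`. -/
def LI (g : QE W.DT) : BT W := BT.mk (liftA W (LIf W g)) (liftA_InB W (fun t => (g.val t).val_mem)
  (by
    obtain ⟨c, hc⟩ := g.mem
    exact ⟨c, congrArg TwG.DT.val hc⟩))

theorem RI_LI (g : QE W.DT) : RI W (LI W g) = g := QE.ext fun _ => TwG.DT.ext rfl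

theorem RI_surj : Function.Surjective (RI W) := fun g => ⟨LI W g, RI_LI W g⟩

theorem BRed_LIf_le (g g' : QE W.DT) : ‖LIf W g - LIf W g'‖ ≤ ‖g - g'‖ := by
  rw [ContinuousMap.norm_le _ (norm_nonneg _)]
  intro t
  have h1 : (LIf W g - LIf W g') t = ((g - g').val t).val := rfl
  rw [h1, TwG.DT.norm_val]
  exact ((g - g').val.norm_coe_le_norm t).trans (QE.norm_val _).le

/-- (Job: `g ↦ LIf g` is isometric, `liftA` is additive and norm decreasing: `Amb.norm_le`,
`norm_phi_le`, `norm_sc_le`.) -/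
theorem LI_cont : Continuous (LI W) := by
  refine (LipschitzWith.of_dist_le_mul (K := 1) fun g g' => ?_).continuous
  rw [dist_eq_norm, dist_eq_norm, NNReal.coe_one, one_mul, ← BT.norm_val, BT.val_sub]
  refine Amb.norm_le (norm_nonneg _) (fun s k => ?_) (fun s => ?_)
  · rw [Amb.sub_x]
    change ‖(liftA W (LIf W g)).x s k - (liftA W (LIf W g')).x s k‖ ≤ _
    rw [liftA_x, liftA_x, ← phi_sub]
    have h1 : sc s (LIf W g) - sc s (LIf W g') = sc s (LIf W g - LIf W g') := rfl
    rw [h1]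
    exact (norm_phi_le W k _).trans ((norm_sc_le s _).trans (BRed_LIf_le W g g'))
  · rw [Amb.sub_f]
    change ‖(LIf W g - LIf W g') s‖ ≤ _
    exact ((LIf W g - LIf W g').norm_coe_le_norm s).trans (BRed_LIf_le W g g')

instance (k : ℕ) : Nontrivial (Mt (Fin (ball W k).card) ℂ) := by
  have h : 0 < (ball W k).card := card_ball_pos W k
  refine ⟨⟨0, 1, fun h1 => ?_⟩⟩
  have h2 := congrArg (fun M : Mt (Fin (ball W k).card) ℂ => M ⟨0, h⟩ ⟨0, h⟩) h1
  simp [Mt.one_apply] at h2

/-- The right inverse of `RK k` on functions, minus the scalar. -/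
def LKf (k : ℕ) (g : QE (Mt (Fin (ball W k).card) ℂ)) : C(unitInterval, LL G) :=
  ⟨fun s => emb k (g.val s) - QE.eps g • P W k, by
    have := (emb_cont (W := W) k).comp g.val.continuous
    exact this.sub continuous_const⟩

theorem LKf_apply (k : ℕ) (g : QE (Mt (Fin (ball W k).card) ℂ)) (s : unitInterval) :
    LKf W k g s = emb k (g.val s) - QE.eps g • P W k := rfl

theorem BRed_emb_alg (k : ℕ) (c : ℂ) :
    emb k (algebraMap ℂ (Mt (Fin (ball W k).card) ℂ) c) = c • P W k := by
  refine TwG.ext_dl fun y => ?_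
  have h1 : (c • P W k) (dl y) = c • P W k (dl y) := rfl
  rw [h1, P_dl]
  rcases BEmb_cases (W := W) k y with ⟨j, rfl⟩ | h
  · rw [BEmb_dl_en, BEmb_ind_en, one_smul, Finset.sum_eq_single j]
    · rw [Mt.algebraMap_apply, if_pos rfl]
      rfl
    · intro i _ h
      rw [Mt.algebraMap_apply, if_neg h, zero_smul]
    · intro h
      exact absurd (Finset.mem_univ j) h
  · rw [BEmb_dl_out k _ h, BEmb_ind_out k h, zero_smul, smul_zero]

theorem BRed_emb_sub (k : ℕ) (M N : Mt (Fin (ball W k).card) ℂ) :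
    emb k (M - N) = emb k M - emb k N := by
  simp only [emb, Mt.sub_apply, sub_smul, Finset.sum_sub_distrib]

theorem BRed_norm_emb (k : ℕ) : ∃ C : ℝ, 0 ≤ C ∧ ∀ M : Mt (Fin (ball W k).card) ℂ,
    ‖emb k M‖ ≤ C * ‖M‖ := by
  refine ⟨∑ i, ∑ j, ‖rk1 (en W k i : G) (en W k j : G)‖, by positivity, fun M => ?_⟩
  unfold emb
  refine (norm_sum_le _ _).trans ?_
  rw [Finset.sum_mul]
  refine Finset.sum_le_sum fun i _ => ?_
  refine (norm_sum_le _ _).trans ?_
  rw [Finset.sum_mul]
  refine Finset.sum_le_sum fun j _ => ?_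
  rw [norm_smul, mul_comm]
  exact mul_le_mul_of_nonneg_left (Mt.norm_entry_le M i j) (norm_nonneg _)

theorem BRed_cmp_add (k : ℕ) (S T : LL G) :
    (cmp k (S + T) : Mt (Fin (ball W k).card) ℂ) = cmp k S + cmp k T := rfl

theorem BRed_cmp_sub (k : ℕ) (S T : LL G) :
    (cmp k (S - T) : Mt (Fin (ball W k).card) ℂ) = cmp k S - cmp k T := rfl

/-- (Job: `emb k 1 = P W k` by `emb_cmp`, `cmp_algebraMap`; `QE.eps_spec`.) -/
theorem LKf_zero (k : ℕ) (g : QE (Mt (Fin (ball W k).card) ℂ)) : LKf W k g 0 = 0 := by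
  rw [LKf_apply, QE.eps_spec g, BRed_emb_alg, sub_self]

/-- The right inverse of `RK k`. -/
def LK (k : ℕ) (g : QE (Mt (Fin (ball W k).card) ℂ)) : BT W :=
  algebraMap ℂ (BT W) (QE.eps g) + BT.mk (insA k (LKf W k g)) (insA_InB W (LKf_zero W k g)
    (fun s => by rw [LKf_apply, sub_mul, emb_mul_P, smul_mul_assoc, P_mul_self])
    (fun s => by rw [LKf_apply, mul_sub, P_mul_emb, mul_smul_comm, P_mul_self]))

theorem LK_x (k : ℕ) (g : QE (Mt (Fin (ball W k).card) ℂ)) (s : unitInterval) (j : ℕ) :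
    (LK W k g).val.x s j = algebraMap ℂ (LL G) (QE.eps g) +
      (if j = k then emb k (g.val s) - QE.eps g • P W k else 0) := rfl

theorem LK_f (k : ℕ) (g : QE (Mt (Fin (ball W k).card) ℂ)) (s : unitInterval) :
    (LK W k g).val.f s = algebraMap ℂ (LL G) (QE.eps g) + 0 := rfl

/-- (Job: `cmp` is additive, `cmp_emb`, `cmp_algebraMap`, `cmp k (P W k) = 1`.) -/
theorem RK_LK (k : ℕ) (g : QE (Mt (Fin (ball W k).card) ℂ)) : RK W k (LK W k g) = g := by
  refine QE.ext fun s => ?_
  rw [RK_val, LK_x, if_pos rfl, BRed_cmp_add, BRed_cmp_sub, cmp_emb, ← BRed_emb_alg, cmp_emb,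
    cmp_algebraMap, add_sub_cancel]

theorem RK_surj (k : ℕ) : Function.Surjective (RK W k) := fun g => ⟨LK W k g, RK_LK W k g⟩

/-- (Job: `QE.eps` is continuous (`NonUnitalStarAlgHom.norm_apply_le` or
`eps = (g 0) 0 0`), `emb_cont` and uniform continuity: `emb k` is linear, so
`‖emb k M‖ ≤ C ‖M‖`; `Amb.norm_le`.) -/
theorem LK_cont (k : ℕ) : Continuous (LK W k) := by
  obtain ⟨C, hC0, hC⟩ := BRed_norm_emb W k
  have hK0 : 0 ≤ 1 + (C + ‖P W k‖) := by positivity
  refine (LipschitzWith.of_dist_le_mul (K := NNReal.mk (1 + (C + ‖P W k‖)) hK0)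
    fun g g' => ?_).continuous
  rw [dist_eq_norm, dist_eq_norm, NNReal.coe_mk, ← BT.norm_val, BT.val_sub]
  have he : ‖QE.eps g - QE.eps g'‖ ≤ ‖g - g'‖ := by
    rw [← map_sub]
    exact NonUnitalStarAlgHom.norm_apply_le QE.eps (g - g')
  have h1 : ‖algebraMap ℂ (LL G) (QE.eps g - QE.eps g')‖ ≤ ‖g - g'‖ := by
    rw [norm_algebraMap]
    have h3 : ‖(1 : LL G)‖ ≤ 1 := ContinuousLinearMap.norm_id_le
    exact (mul_le_of_le_one_right (norm_nonneg _) h3).trans he
  have hP : ‖(QE.eps g - QE.eps g') • P W k‖ ≤ ‖P W k‖ * ‖g - g'‖ := by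
    rw [norm_smul, mul_comm]
    exact mul_le_mul_of_nonneg_left he (norm_nonneg _)
  refine Amb.norm_le (by positivity) (fun s j => ?_) (fun s => ?_)
  · rw [Amb.sub_x, LK_x, LK_x]
    split_ifs with hj
    · have e : algebraMap ℂ (LL G) (QE.eps g) + (emb k (g.val s) - QE.eps g • P W k) -
          (algebraMap ℂ (LL G) (QE.eps g') + (emb k (g'.val s) - QE.eps g' • P W k)) =
          algebraMap ℂ (LL G) (QE.eps g - QE.eps g') +
            (emb k ((g - g').val s) - (QE.eps g - QE.eps g') • P W k) := by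
        have e2 : (g - g').val s = g.val s - g'.val s := rfl
        rw [e2, BRed_emb_sub, map_sub, sub_smul]
        abel
      rw [e]
      have h2 : ‖emb k ((g - g').val s)‖ ≤ C * ‖g - g'‖ :=
        (hC _).trans (mul_le_mul_of_nonneg_left
          (((g - g').val.norm_coe_le_norm s).trans (QE.norm_val _).le) hC0)
      calc ‖algebraMap ℂ (LL G) (QE.eps g - QE.eps g') +
            (emb k ((g - g').val s) - (QE.eps g - QE.eps g') • P W k)‖
          ≤ ‖g - g'‖ + (C * ‖g - g'‖ + ‖P W k‖ * ‖g - g'‖) :=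
            (norm_add_le _ _).trans (add_le_add h1 ((norm_sub_le _ _).trans (add_le_add h2 hP)))
        _ = (1 + (C + ‖P W k‖)) * ‖g - g'‖ := by ring
    · rw [add_zero, add_zero, ← map_sub]
      refine h1.trans ?_
      have : 0 ≤ (C + ‖P W k‖) * ‖g - g'‖ := by positivity
      linarith
  · have e : ((LK W k g).val - (LK W k g').val).f s =
        algebraMap ℂ (LL G) (QE.eps g - QE.eps g') := by
      rw [Amb.sub_f, ContinuousMap.sub_apply, LK_f, LK_f, add_zero, add_zero, map_sub]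
    rw [e]
    refine h1.trans ?_
    have : 0 ≤ (C + ‖P W k‖) * ‖g - g'‖ := by positivity
    linarith

end

end Pool.Agent.H.MP_e11395_an.PA
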