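import Pool.Agent.H.MP_e11395_an.A.BDiag

/-!
# MP_e11395, part A2: sums of cut-downs of operators

`V : Fin (k+2) → (H →L[ℂ] H)` is a family of commuting self-adjoint operators with
`∑ V_j² = 1` and `V_i V_j = 0` for `|i - j| ≥ 2`.
-/

set_option autoImplicit false
set_option linter.unusedSectionVars false

open scoped ENNReal InnerProductSpace

namespace Pool.Agent.H.MP_e11395_an.PA

variable {H : Type} [NormedAddCommGroup H] [InnerProductSpace ℂ H] [CompleteSpace H]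

/-- The row-column estimate: `‖∑ V_i⋆ X_i W_i‖ ≤ M a b`. -/
theorem norm_sum_cut_le {ι : Type} [Fintype ι] (V W X : ι → (H →L[ℂ] H)) {M a b : ℝ}
    (hM : 0 ≤ M) (ha : 0 ≤ a) (hb : 0 ≤ b) (hX : ∀ i, ‖X i‖ ≤ M)
    (hV : ∀ ξ : H, ∑ i, ‖V i ξ‖ ^ 2 ≤ a ^ 2 * ‖ξ‖ ^ 2)
    (hW : ∀ ξ : H, ∑ i, ‖W i ξ‖ ^ 2 ≤ b ^ 2 * ‖ξ‖ ^ 2) :
    ‖∑ i, star (V i) * X i * W i‖ ≤ M * a * b := by
  refine ContinuousLinearMap.opNorm_le_bound _ (by positivity) fun ξ => ?_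
  set T : H →L[ℂ] H := ∑ i, star (V i) * X i * W i with hT
  have key : ‖T ξ‖ ^ 2 ≤ M * a * b * ‖ξ‖ * ‖T ξ‖ := by
    have h0 : ∀ η : H, ⟪η, T ξ⟫_ℂ = ∑ i, ⟪V i η, X i (W i ξ)⟫_ℂ := fun η => by
      rw [hT, sum_apply, inner_sum]
      refine Finset.sum_congr rfl fun i _ => ?_
      change ⟪η, (star (V i)) (X i (W i ξ))⟫_ℂ = _
      rw [ContinuousLinearMap.star_eq_adjoint, ContinuousLinearMap.adjoint_inner_right]
    have h1 : ((‖T ξ‖ ^ 2 : ℝ) : ℂ) = ∑ i, ⟪V i (T ξ), X i (W i ξ)⟫_ℂ := by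
      have h2 : ((‖T ξ‖ ^ 2 : ℝ) : ℂ) = ⟪T ξ, T ξ⟫_ℂ := by
        rw [inner_self_eq_norm_sq_to_K]; push_cast; rfl
      rw [h2, h0]
    have h3 : ‖T ξ‖ ^ 2 ≤ ∑ i, ‖V i (T ξ)‖ * (M * ‖W i ξ‖) := by
      have h4 : ‖((‖T ξ‖ ^ 2 : ℝ) : ℂ)‖ = ‖T ξ‖ ^ 2 := by
        rw [Complex.norm_real, Real.norm_of_nonneg (by positivity)]
      rw [← h4, h1]
      refine (norm_sum_le _ _).trans (Finset.sum_le_sum fun i _ => ?_)
      refine (norm_inner_le_norm _ _).trans ?_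
      refine mul_le_mul_of_nonneg_left ?_ (norm_nonneg _)
      exact ((X i).le_opNorm _).trans (mul_le_mul_of_nonneg_right (hX i) (norm_nonneg _))
    have h5 : ∑ i, ‖V i (T ξ)‖ * (M * ‖W i ξ‖) ≤ (a * ‖T ξ‖) * (M * (b * ‖ξ‖)) := by
      have h6 : ∑ i, ‖V i (T ξ)‖ * (M * ‖W i ξ‖) = M * ∑ i, ‖V i (T ξ)‖ * ‖W i ξ‖ := by
        rw [Finset.mul_sum]; exact Finset.sum_congr rfl fun i _ => by ring
      have h7 : ∑ i, ‖V i (T ξ)‖ * ‖W i ξ‖ ≤ (a * ‖T ξ‖) * (b * ‖ξ‖) := by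
        refine (Real.sum_mul_le_sqrt_mul_sqrt _ _ _).trans ?_
        refine mul_le_mul ?_ ?_ (Real.sqrt_nonneg _) (by positivity)
        · rw [Real.sqrt_le_left (by positivity), mul_pow]; exact hV _
        · rw [Real.sqrt_le_left (by positivity), mul_pow]; exact hW _
      rw [h6]
      calc M * ∑ i, ‖V i (T ξ)‖ * ‖W i ξ‖ ≤ M * ((a * ‖T ξ‖) * (b * ‖ξ‖)) :=
            mul_le_mul_of_nonneg_left h7 hM
        _ = _ := by ring
    calc ‖T ξ‖ ^ 2 ≤ _ := h3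
      _ ≤ _ := h5
      _ = _ := by ring
  rcases (norm_nonneg (T ξ)).eq_or_lt with h0 | h0
  · rw [← h0]; positivity
  · refine le_of_mul_le_mul_right ?_ h0
    rw [← sq]
    exact key

variable {k : ℕ} {V : Fin (k + 2) → (H →L[ℂ] H)}

/-- The defining properties of the cut-off families. -/
structure IsCut (V : Fin (k + 2) → (H →L[ℂ] H)) : Prop where
  sa : ∀ j, star (V j) = V j
  comm : ∀ i j, V i * V j = V j * V i
  sum : ∑ j, V j * V j = 1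
  far : ∀ i j : Fin (k + 2), (i : ℕ) + 2 ≤ j → V i * V j = 0

namespace IsCut

variable (hV : IsCut V)

include hV

theorem far' (i j : Fin (k + 2)) (h : (i : ℕ) + 2 ≤ j ∨ (j : ℕ) + 2 ≤ i) : V i * V j = 0 := by
  rcases h with h | h
  · exact hV.far i j h
  · rw [hV.comm]; exact hV.far j i h

theorem sum_norm_sq (ξ : H) : ∑ j, ‖V j ξ‖ ^ 2 = ‖ξ‖ ^ 2 := by
  have h1 : ∀ j, ((‖V j ξ‖ ^ 2 : ℝ) : ℂ) = ⟪ξ, (V j * V j) ξ⟫_ℂ := fun j => by
    have h2 : ((‖V j ξ‖ ^ 2 : ℝ) : ℂ) = ⟪V j ξ, V j ξ⟫_ℂ := by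
      rw [inner_self_eq_norm_sq_to_K]; push_cast; rfl
    rw [h2]
    change _ = ⟪ξ, V j (V j ξ)⟫_ℂ
    conv_rhs => rw [← hV.sa j, ContinuousLinearMap.star_eq_adjoint,
      ContinuousLinearMap.adjoint_inner_right, ← ContinuousLinearMap.star_eq_adjoint, hV.sa j]
  have h3 : ((∑ j, ‖V j ξ‖ ^ 2 : ℝ) : ℂ) = ((‖ξ‖ ^ 2 : ℝ) : ℂ) := by
    push_cast
    have h4 : ∑ j, ((‖V j ξ‖ : ℂ) ^ 2) = ∑ j, ⟪ξ, (V j * V j) ξ⟫_ℂ := by
      refine Finset.sum_congr rfl fun j _ => ?_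
      rw [← h1 j]; push_cast; rfl
    rw [h4, ← inner_sum, ← sum_apply, hV.sum]
    change ⟪ξ, ξ⟫_ℂ = _
    rw [inner_self_eq_norm_sq_to_K]
    rfl
  exact_mod_cast h3

theorem norm_le (j : Fin (k + 2)) : ‖V j‖ ≤ 1 := by
  refine ContinuousLinearMap.opNorm_le_bound _ zero_le_one fun ξ => ?_
  have h1 : ‖V j ξ‖ ^ 2 ≤ ‖ξ‖ ^ 2 := by
    rw [← hV.sum_norm_sq ξ]
    exact Finset.single_le_sum (f := fun j => ‖V j ξ‖ ^ 2) (fun i _ => by positivity)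
      (Finset.mem_univ j)
  rw [one_mul]
  exact le_of_sq_le_sq h1 (norm_nonneg _) |> fun h => h

/-- `‖∑ V_j X_j V_j‖ ≤ sup ‖X_j‖`. -/
theorem norm_cut_le (X : Fin (k + 2) → (H →L[ℂ] H)) {M : ℝ} (hM : 0 ≤ M)
    (hX : ∀ i, ‖X i‖ ≤ M) : ‖∑ j, V j * X j * V j‖ ≤ M := by
  have h := norm_sum_cut_le V V X hM zero_le_one zero_le_one hX
    (fun ξ => by rw [hV.sum_norm_sq]; simp) (fun ξ => by rw [hV.sum_norm_sq]; simp)
  simp only [hV.sa, mul_one] at h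
  exact h

/-- The error of multiplicativity of `X ↦ ∑ V_j X_j V_j`. -/
theorem norm_cut_mul_sub_le (X Y : Fin (k + 2) → (H →L[ℂ] H)) {M ε₁ ε₂ : ℝ} (hM : 0 ≤ M)
    (hX : ∀ i, ‖X i‖ ≤ M) (h1 : ∀ i j, ‖Y i * V j - V j * Y i‖ ≤ ε₁)
    (h2 : ∀ i j : Fin (k + 2), (i : ℕ) ≤ j + 1 → (j : ℕ) ≤ i + 1 → ‖Y i - Y j‖ ≤ ε₂) :
    ‖∑ j, V j * (X j * Y j) * V j - (∑ j, V j * X j * V j) * (∑ j, V j * Y j * V j)‖ ≤
      M * (3 * (2 * ε₁ + ε₂)) := by
  have hε₁ : 0 ≤ ε₁ := (norm_nonneg _).trans (h1 0 0)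
  have hε₂ : 0 ≤ ε₂ := (norm_nonneg _).trans (h2 0 0 (by omega) (by omega))
  set ε : ℝ := 2 * ε₁ + ε₂ with hε
  have hε0 : 0 ≤ ε := by positivity
  set S : H →L[ℂ] H := ∑ j, V j * Y j * V j with hS
  let R : Fin (k + 2) → (H →L[ℂ] H) := fun i => Y i * V i - V i * S
  -- the coefficients
  have hK : ∀ i j : Fin (k + 2), (i : ℕ) ≤ j + 1 → (j : ℕ) ≤ i + 1 →
      ‖Y i * V i * V j - V i * V j * Y j‖ ≤ ε := by
    intro i j hij hji
    have e1 : Y i * V i * V j - V i * V j * Y j =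
        (Y i * V i - V i * Y i) * V j + V i * (Y i * V j - V j * Y i) +
          V i * V j * (Y i - Y j) := by noncomm_ring
    rw [e1]
    have a1 : ‖(Y i * V i - V i * Y i) * V j‖ ≤ ε₁ := by
      refine (norm_mul_le _ _).trans ?_
      calc _ ≤ ε₁ * 1 := mul_le_mul (h1 i i) (hV.norm_le j) (norm_nonneg _) hε₁
        _ = ε₁ := mul_one _
    have a2 : ‖V i * (Y i * V j - V j * Y i)‖ ≤ ε₁ := by
      refine (norm_mul_le _ _).trans ?_
      calc _ ≤ 1 * ε₁ := mul_le_mul (hV.norm_le i) (h1 i j) (norm_nonneg _) zero_le_one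
        _ = ε₁ := one_mul _
    have a3 : ‖V i * V j * (Y i - Y j)‖ ≤ ε₂ := by
      refine (norm_mul_le _ _).trans ?_
      have : ‖V i * V j‖ ≤ 1 := by
        refine (norm_mul_le _ _).trans ?_
        calc _ ≤ (1 : ℝ) * 1 := mul_le_mul (hV.norm_le i) (hV.norm_le j) (norm_nonneg _) zero_le_one
          _ = 1 := one_mul _
      calc _ ≤ 1 * ε₂ := mul_le_mul this (h2 i j hij hji) (norm_nonneg _) zero_le_one
        _ = ε₂ := one_mul _
    calc _ ≤ ‖(Y i * V i - V i * Y i) * V j‖ + ‖V i * (Y i * V j - V j * Y i)‖ +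
          ‖V i * V j * (Y i - Y j)‖ := norm_add₃_le
      _ ≤ ε₁ + ε₁ + ε₂ := add_le_add_three a1 a2 a3
      _ = ε := by rw [hε]; ring
  let nb : Fin (k + 2) → Finset (Fin (k + 2)) := fun i =>
    Finset.univ.filter fun j => (i : ℕ) ≤ j + 1 ∧ (j : ℕ) ≤ i + 1
  have hcard : ∀ i, (nb i).card ≤ 3 := by
    intro i
    have h3 : (nb i).card ≤ (Finset.Icc ((i : ℕ) - 1) (i + 1)).card := by
      refine Finset.card_le_card_of_injOn (fun j => (j : ℕ)) ?_ ?_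
      · intro j hj
        simp only [nb, Finset.coe_filter, Finset.mem_univ, true_and, Set.mem_ofPred_eq] at hj
        simp only [Finset.coe_Icc, Set.mem_Icc]
        omega
      · intro a _ b _ hab
        exact Fin.ext hab
    refine h3.trans ?_
    rw [Nat.card_Icc]
    omega
  have hR : ∀ i, R i = ∑ j ∈ nb i, (Y i * V i * V j - V i * V j * Y j) * V j := by
    intro i
    have e1 : R i = ∑ j, (Y i * V i * V j - V i * V j * Y j) * V j := by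
      have e2 : Y i * V i = ∑ j, Y i * V i * (V j * V j) := by
        rw [← Finset.mul_sum, hV.sum, mul_one]
      calc R i = Y i * V i - V i * S := rfl
        _ = ∑ j, Y i * V i * (V j * V j) - ∑ j, V i * (V j * Y j * V j) := by
            rw [← e2, hS, Finset.mul_sum]
        _ = _ := by
            rw [← Finset.sum_sub_distrib]
            refine Finset.sum_congr rfl fun j _ => ?_
            noncomm_ring
    rw [e1]
    symm
    refine Finset.sum_subset (Finset.subset_univ _) fun j _ hj => ?_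
    have hfar : V i * V j = 0 := by
      refine hV.far' i j ?_
      simp only [nb, Finset.mem_filter, Finset.mem_univ, true_and, not_and_or, not_le] at hj
      omega
    have e3 : Y i * V i * V j = 0 := by rw [mul_assoc, hfar, mul_zero]
    rw [e3, hfar, zero_mul, sub_zero, zero_mul]
  have hRn : ∀ (i : Fin (k + 2)) (ξ : H), ‖R i ξ‖ ^ 2 ≤ 3 * ε ^ 2 * ∑ j ∈ nb i, ‖V j ξ‖ ^ 2 := by
    intro i ξ
    have b1 : ‖R i ξ‖ ≤ ∑ j ∈ nb i, ε * ‖V j ξ‖ := by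
      rw [hR i, sum_apply]
      refine (norm_sum_le _ _).trans (Finset.sum_le_sum fun j hj => ?_)
      simp only [nb, Finset.mem_filter, Finset.mem_univ, true_and] at hj
      change ‖(Y i * V i * V j - V i * V j * Y j) (V j ξ)‖ ≤ _
      exact (ContinuousLinearMap.le_opNorm _ _).trans
        (mul_le_mul_of_nonneg_right (hK i j hj.1 hj.2) (norm_nonneg _))
    calc ‖R i ξ‖ ^ 2 ≤ (∑ j ∈ nb i, ε * ‖V j ξ‖) ^ 2 :=
          pow_le_pow_left₀ (norm_nonneg _) b1 2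
      _ ≤ (nb i).card * ∑ j ∈ nb i, (ε * ‖V j ξ‖) ^ 2 := sq_sum_le_card_mul_sum_sq
      _ ≤ 3 * ∑ j ∈ nb i, (ε * ‖V j ξ‖) ^ 2 :=
          mul_le_mul_of_nonneg_right (by exact_mod_cast hcard i)
            (Finset.sum_nonneg fun j _ => by positivity)
      _ = 3 * ε ^ 2 * ∑ j ∈ nb i, ‖V j ξ‖ ^ 2 := by
          rw [Finset.mul_sum, Finset.mul_sum]
          exact Finset.sum_congr rfl fun j _ => by ring
  have hRsum : ∀ ξ : H, ∑ i, ‖R i ξ‖ ^ 2 ≤ (3 * ε) ^ 2 * ‖ξ‖ ^ 2 := by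
    intro ξ
    calc ∑ i, ‖R i ξ‖ ^ 2 ≤ ∑ i, 3 * ε ^ 2 * ∑ j ∈ nb i, ‖V j ξ‖ ^ 2 :=
          Finset.sum_le_sum fun i _ => hRn i ξ
      _ = 3 * ε ^ 2 * ∑ i, ∑ j ∈ nb i, ‖V j ξ‖ ^ 2 := by rw [Finset.mul_sum]
      _ = 3 * ε ^ 2 * ∑ j, ∑ i ∈ nb j, ‖V j ξ‖ ^ 2 := by
          congr 1
          refine Finset.sum_comm' fun i j => ?_
          simp only [nb, Finset.mem_filter, Finset.mem_univ, true_and, and_true]
          omega
      _ ≤ 3 * ε ^ 2 * ∑ j, 3 * ‖V j ξ‖ ^ 2 := by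
          refine mul_le_mul_of_nonneg_left (Finset.sum_le_sum fun j _ => ?_) (by positivity)
          rw [Finset.sum_const, nsmul_eq_mul]
          exact mul_le_mul_of_nonneg_right (by exact_mod_cast hcard j) (by positivity)
      _ = (3 * ε) ^ 2 * ‖ξ‖ ^ 2 := by
          rw [← Finset.mul_sum, hV.sum_norm_sq]; ring
  have e0 : ∑ j, V j * (X j * Y j) * V j - (∑ j, V j * X j * V j) * S =
      ∑ i, star (V i) * X i * R i := by
    rw [Finset.sum_mul, ← Finset.sum_sub_distrib]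
    refine Finset.sum_congr rfl fun i _ => ?_
    rw [hV.sa]
    simp only [R]
    noncomm_ring
  rw [e0]
  have h := norm_sum_cut_le V R X hM zero_le_one (b := 3 * ε) (by positivity) hX
    (fun ξ => by rw [hV.sum_norm_sq]; simp) hRsum
  rw [mul_one] at h
  exact h

end IsCut

end Pool.Agent.H.MP_e11395_an.PA
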