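import Pool.Agent.H.MP_e11395_an.A.BSum

/-!
# MP_e11395, part A2: tent functions

`NN k = (k+1)^4`; `tent k j θ = max 0 (1 - |(k+1) θ - j|)` (a partition of unity of `[0,1]`,
`j = 0, ..., k+1`); `gq = √tent`.
-/

set_option autoImplicit false
set_option linter.unusedSectionVars false

open Filter Topology
open scoped ENNReal InnerProductSpace

namespace Pool.Agent.H.MP_e11395_an.PA

/-- The cut-off radius. -/
def NN (k : ℕ) : ℕ := (k + 1) ^ 4

theorem NN_pos (k : ℕ) : 0 < NN k := by unfold NN; positivity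

/-- The tent functions. -/
noncomputable def tent (k j : ℕ) (θ : ℝ) : ℝ := max 0 (1 - |((k : ℝ) + 1) * θ - j|)

theorem tent_nonneg (k j : ℕ) (θ : ℝ) : 0 ≤ tent k j θ := le_max_left _ _

theorem tent_le_one (k j : ℕ) (θ : ℝ) : tent k j θ ≤ 1 :=
  max_le zero_le_one (by have := abs_nonneg (((k : ℝ) + 1) * θ - j); linarith)

theorem tent_pos_iff (k j : ℕ) (θ : ℝ) : tent k j θ ≠ 0 ↔ |((k : ℝ) + 1) * θ - j| < 1 := by
  unfold tent
  constructor
  · intro h
    by_contra h1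
    push Not at h1
    exact h (max_eq_left (by linarith))
  · intro h h1
    have := le_max_right 0 (1 - |((k : ℝ) + 1) * θ - j|)
    linarith

/-- The tents form a partition of unity of `[0,1]`. (Job: with `m = ⌊(k+1)θ⌋`, only the tents
`m` and `m+1` are nonzero; for `θ = 1` only the tent `k+1`.) -/
theorem tent_sum (k : ℕ) (θ : ℝ) (h0 : 0 ≤ θ) (h1 : θ ≤ 1) :
    ∑ j : Fin (k + 2), tent k j θ = 1 := by
  rw [Fin.sum_univ_eq_sum_range (fun j => tent k j θ) (k + 2)]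
  have hx0 : 0 ≤ ((k : ℝ) + 1) * θ := by positivity
  have hx1 : ((k : ℝ) + 1) * θ ≤ (k : ℝ) + 1 := by
    have : (0 : ℝ) ≤ (k : ℝ) + 1 := by positivity
    nlinarith
  unfold tent
  generalize ((k : ℝ) + 1) * θ = x at hx0 hx1
  have hm0 : ((⌊x⌋₊ : ℕ) : ℝ) ≤ x := Nat.floor_le hx0
  have hm1 : x < ((⌊x⌋₊ : ℕ) : ℝ) + 1 := Nat.lt_floor_add_one x
  generalize ⌊x⌋₊ = m at hm0 hm1
  have hmk : m ≤ k + 1 := by
    have h2 : (m : ℝ) ≤ ((k + 1 : ℕ) : ℝ) := by push_cast; linarith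
    exact_mod_cast h2
  rw [Finset.sum_eq_add m (m + 1) (by omega)]
  · push_cast
    rw [abs_of_nonneg (by linarith), abs_of_nonpos (by linarith), max_eq_right (by linarith),
      max_eq_right (by linarith)]
    ring
  · intro c _ hc
    apply max_eq_left
    rcases lt_trichotomy c m with h | h | h
    · have h3 : (c : ℝ) + 1 ≤ m := by exact_mod_cast h
      have := le_abs_self (x - c)
      linarith
    · exact absurd h hc.1
    · have h4 : m + 2 ≤ c := by omega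
      have h3 : (m : ℝ) + 2 ≤ c := by exact_mod_cast h4
      have := neg_abs_le (x - c)
      linarith
  · intro h
    exact absurd (Finset.mem_range.2 (by omega)) h
  · intro h
    have h5 : m = k + 1 := by
      by_contra h6
      exact h (Finset.mem_range.2 (by omega))
    have h7 : (m : ℝ) = k + 1 := by exact_mod_cast h5
    apply max_eq_left
    have := neg_abs_le (x - ((m + 1 : ℕ) : ℝ))
    push_cast at this ⊢
    linarith

/-- Lipschitz bound. -/
theorem tent_lip (k j : ℕ) (θ θ' : ℝ) :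
    |tent k j θ - tent k j θ'| ≤ ((k : ℝ) + 1) * |θ - θ'| := by
  unfold tent
  rw [max_comm 0, max_comm 0]
  refine (abs_max_sub_max_le_abs (1 - |((k : ℝ) + 1) * θ - j|) (1 - |((k : ℝ) + 1) * θ' - j|) 0).trans ?_
  have h1 : 1 - |((k : ℝ) + 1) * θ - j| - (1 - |((k : ℝ) + 1) * θ' - j|)
      = |((k : ℝ) + 1) * θ' - j| - |((k : ℝ) + 1) * θ - j| := by ring
  rw [h1]
  refine (abs_abs_sub_abs_le (((k : ℝ) + 1) * θ' - j) (((k : ℝ) + 1) * θ - j)).trans (le_of_eq ?_)
  have h2 : ((k : ℝ) + 1) * θ' - j - (((k : ℝ) + 1) * θ - j) = ((k : ℝ) + 1) * (θ' - θ) := by ring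
  rw [h2, abs_mul, abs_of_nonneg (by positivity : (0 : ℝ) ≤ (k : ℝ) + 1), abs_sub_comm]

/-- The square roots of the tents. -/
noncomputable def gq (k j : ℕ) (θ : ℝ) : ℝ := √(tent k j θ)

theorem gq_nonneg (k j : ℕ) (θ : ℝ) : 0 ≤ gq k j θ := Real.sqrt_nonneg _

theorem gq_le_one (k j : ℕ) (θ : ℝ) : gq k j θ ≤ 1 :=
  Real.sqrt_le_one.2 (tent_le_one k j θ)

theorem gq_mul_self (k j : ℕ) (θ : ℝ) : gq k j θ * gq k j θ = tent k j θ :=
  Real.mul_self_sqrt (tent_nonneg k j θ)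

theorem gq_ne_zero_iff (k j : ℕ) (θ : ℝ) : gq k j θ ≠ 0 ↔ |((k : ℝ) + 1) * θ - j| < 1 := by
  rw [← tent_pos_iff, gq, Real.sqrt_ne_zero (tent_nonneg k j θ)]

/-- `|√a - √b| ≤ √|a - b|` for the tents. -/
theorem gq_lip (k j : ℕ) (θ θ' : ℝ) :
    |gq k j θ - gq k j θ'| ≤ √(((k : ℝ) + 1) * |θ - θ'|) := by
  refine Real.abs_le_sqrt ?_
  refine le_trans ?_ (tent_lip k j θ θ')
  unfold gq
  generalize ha : tent k j θ = a
  generalize hb : tent k j θ' = b
  have ha0 : 0 ≤ a := ha ▸ tent_nonneg k j θ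
  have hb0 : 0 ≤ b := hb ▸ tent_nonneg k j θ'
  have h1 : a - b = (√a - √b) * (√a + √b) := by
    have h2 := Real.mul_self_sqrt ha0
    have h3 := Real.mul_self_sqrt hb0
    nlinarith
  rw [h1, abs_mul, ← sq_abs, sq]
  refine mul_le_mul_of_nonneg_left ?_ (abs_nonneg _)
  have h4 := Real.sqrt_nonneg a
  have h5 := Real.sqrt_nonneg b
  rw [abs_of_nonneg (by linarith : 0 ≤ √a + √b), abs_le]
  constructor <;> linarith

theorem norm_gq_le (k j : ℕ) (θ : ℝ) : ‖((gq k j θ : ℝ) : ℂ)‖ ≤ 1 := by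
  rw [Complex.norm_real, Real.norm_of_nonneg (gq_nonneg k j θ)]
  exact gq_le_one k j θ

end Pool.Agent.H.MP_e11395_an.PA
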