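import Pool.Agent.H.MP_e11395_an.A.AData
import Pool.Agent.H.MP_e11395_an.D.State

/-!
# MP_e11395, part A2: the trace of a matrix algebra is unique
-/

set_option autoImplicit false
set_option linter.unusedSectionVars false

open Filter Topology
open scoped ComplexOrder

namespace Pool.Agent.H.MP_e11395_an.PA

/-- Matrix units. -/
noncomputable def BTrM_e {n : ℕ} (i j : Fin (n + 1)) : Mt (Fin (n + 1)) ℂ :=
  Mt.of fun a b => if a = i ∧ b = j then 1 else 0

theorem BTrM_e_apply {n : ℕ} (i j a b : Fin (n + 1)) :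
    BTrM_e i j a b = if a = i ∧ b = j then (1 : ℂ) else 0 := rfl

theorem BTrM_mul {n : ℕ} (i j k l : Fin (n + 1)) :
    BTrM_e i j * BTrM_e k l = if j = k then BTrM_e i l else 0 := by
  ext a b
  rw [Mt.mul_apply]
  simp only [BTrM_e_apply]
  by_cases hjk : j = k
  · subst hjk
    rw [if_pos rfl, BTrM_e_apply, Finset.sum_eq_single j]
    · by_cases h1 : a = i <;> by_cases h2 : b = l <;> simp [h1, h2]
    · intro c _ hc
      simp [hc]
    · intro h
      exact absurd (Finset.mem_univ j) h
  · rw [if_neg hjk, Mt.zero_apply]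
    refine Finset.sum_eq_zero fun c _ => ?_
    by_cases hc : c = j
    · subst hc
      simp [hjk]
    · simp [hc]

theorem BTrM_sum_apply {n : ℕ} {κ : Type} (s : Finset κ) (f : κ → Mt (Fin (n + 1)) ℂ)
    (a b : Fin (n + 1)) : (∑ x ∈ s, f x) a b = ∑ x ∈ s, f x a b := by
  classical
  induction s using Finset.induction_on with
  | empty => simp
  | insert x s hx ih => rw [Finset.sum_insert hx, Finset.sum_insert hx, Mt.add_apply, ih]

theorem BTrM_dec {n : ℕ} (M : Mt (Fin (n + 1)) ℂ) : M = ∑ i, ∑ j, M i j • BTrM_e i j := by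
  ext a b
  rw [BTrM_sum_apply]
  simp only [BTrM_sum_apply, Mt.smul_apply, BTrM_e_apply, smul_eq_mul]
  rw [Finset.sum_eq_single a, Finset.sum_eq_single b]
  · simp
  · intro c _ hc
    simp [Ne.symm hc]
  · intro h
    exact absurd (Finset.mem_univ b) h
  · intro c _ hc
    simp [Ne.symm hc]
  · intro h
    exact absurd (Finset.mem_univ a) h

/-- The value of a normalised trace on matrix units. -/
theorem BTrM_val {n : ℕ} (t : Mt (Fin (n + 1)) ℂ →ₗ[ℂ] ℂ)
    (h1 : t 1 = 1) (hc : ∀ a b, t (a * b) = t (b * a)) (i j : Fin (n + 1)) :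
    t (BTrM_e i j) = if i = j then ((n : ℂ) + 1)⁻¹ else 0 := by
  have hd : ∀ i j : Fin (n + 1), t (BTrM_e i i) = t (BTrM_e j j) := by
    intro i j
    have h := hc (BTrM_e i j) (BTrM_e j i)
    rwa [BTrM_mul, BTrM_mul, if_pos rfl, if_pos rfl] at h
  have hone : (1 : Mt (Fin (n + 1)) ℂ) = ∑ i, BTrM_e i i := by
    ext a b
    rw [BTrM_sum_apply, Mt.one_apply]
    simp only [BTrM_e_apply]
    by_cases hab : a = b
    · subst hab
      rw [Finset.sum_eq_single a]
      · simp
      · intro c _ hc
        simp [Ne.symm hc]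
      · intro h
        exact absurd (Finset.mem_univ a) h
    · rw [if_neg hab]
      refine (Finset.sum_eq_zero fun c _ => ?_).symm
      refine if_neg ?_
      rintro ⟨h1, h2⟩
      exact hab (h1.trans h2.symm)
  have hsum : ((n : ℂ) + 1) * t (BTrM_e i i) = 1 := by
    have h2 : t 1 = ∑ k : Fin (n + 1), t (BTrM_e k k) := by
      conv_lhs => rw [hone]
      rw [map_sum]
    rw [h1] at h2
    rw [Finset.sum_congr rfl (fun k _ => hd k i), Finset.sum_const, Finset.card_univ,
      Fintype.card_fin, nsmul_eq_mul] at h2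
    push_cast at h2
    exact h2.symm
  by_cases hij : i = j
  · subst hij
    rw [if_pos rfl]
    exact eq_inv_of_mul_eq_one_right hsum
  · rw [if_neg hij]
    have h := hc (BTrM_e i j) (BTrM_e j j)
    rw [BTrM_mul, BTrM_mul, if_pos rfl, if_neg (Ne.symm hij), map_zero] at h
    exact h

/-- The normalised trace is the only tracial state of a full matrix algebra. (Job: with the
matrix units `e i j`: `t (e i j) = t (e i j * e j j) = t (e j j * e i j) = 0` for `i ≠ j`, and
`t (e i i) = t (e i j * e j i) = t (e j j)`, `∑ t (e i i) = 1`.) -/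
theorem mtr_unique (n : ℕ) (t : Mt (Fin (n + 1)) ℂ →ₗ[ℂ] ℂ) (h : IsTr t) : t = mtr := by
  refine LinearMap.ext fun M => ?_
  rw [BTrM_dec M]
  simp only [map_sum, map_smul]
  refine Finset.sum_congr rfl fun i _ => Finset.sum_congr rfl fun j _ => ?_
  congr 1
  rw [BTrM_val t h.one h.comm i j]
  simp only [mtr, LinearMap.coe_mk, AddHom.coe_mk, BTrM_e_apply]
  by_cases hij : i = j
  · subst hij
    rw [if_pos rfl, Finset.sum_eq_single i]
    · simp
    · intro c _ hc
      simp [hc]
    · intro h
      exact absurd (Finset.mem_univ i) h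
  · rw [if_neg hij]
    have : ∀ c : Fin (n + 1), (if c = i ∧ c = j then (1 : ℂ) else 0) = 0 := by
      intro c
      refine if_neg ?_
      rintro ⟨h1, h2⟩
      exact hij (h1.symm.trans h2)
    simp [this]

end Pool.Agent.H.MP_e11395_an.PA
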