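import Pool.Agent.H.MP_e11395_an.A.BRed
import Pool.Agent.H.MP_e11395_an.A.BTrM
import Pool.Agent.H.MP_e11395_an.A.BQX

/-!
# MP_e11395, part A2: the extreme traces of `B`
-/

set_option autoImplicit false
set_option linter.unusedSectionVars false

open Filter Topology
open scoped ENNReal InnerProductSpace BoundedContinuousFunction ComplexOrder

namespace Pool.Agent.H.MP_e11395_an.PA

noncomputable section

/-! ### Generalities -/

theorem mtr_unique' {m : ℕ} (hm : 0 < m) (t : Mt (Fin m) ℂ →ₗ[ℂ] ℂ) (h : IsTr t) : t = mtr := by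
  obtain ⟨n, rfl⟩ := Nat.exists_eq_succ_of_ne_zero hm.ne'
  exact mtr_unique n t h

theorem extM {B : Type} [CStarAlgebra B] {m : ℕ} (hm : 0 < m) (q : B →⋆ₐ[ℂ] Mt (Fin m) ℂ)
    (hq : Function.Surjective q) : ∃ (k : ℕ) (q' : B →⋆ₐ[ℂ] Mt (Fin (k + 1)) ℂ),
      Function.Surjective q' ∧ pull mtr q = pull mtr q' := by
  obtain ⟨n, rfl⟩ := Nat.exists_eq_succ_of_ne_zero hm.ne'
  exact ⟨n, q, hq, rfl⟩

theorem extC {B : Type} [CStarAlgebra B] (e : B →⋆ₐ[ℂ] ℂ) {σ : B →ₗ[ℂ] ℂ} (h : ∀ b, σ b = e b) :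
    ∃ (k : ℕ) (q : B →⋆ₐ[ℂ] Mt (Fin (k + 1)) ℂ), Function.Surjective q ∧ σ = pull mtr q := by
  refine ⟨0, (dia (Fin (0 + 1))).comp e, fun M => ⟨algebraMap ℂ B (M 0 0), ?_⟩, ?_⟩
  · have h1 : e (algebraMap ℂ B (M 0 0)) = M 0 0 := AlgHomClass.commutes e _
    have h2 : ∀ i : Fin (0 + 1), i = 0 := fun i => Fin.ext (Nat.lt_one_iff.1 i.2)
    refine Mt.ext fun i j => ?_
    rw [StarAlgHom.comp_apply, h1, dia_apply, h2 i, h2 j, if_pos rfl]
  · refine LinearMap.ext fun b => ?_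
    rw [pull_apply, StarAlgHom.comp_apply, mtr_dia, h b]

variable {G : Type} [Group G] (W : TwG G)

theorem zc_mul_eq_zero {k : ℕ} {F : BT W} (h : RK W k F = 0) (c : C(unitInterval, ℝ))
    (hc : c 0 = 0) : zc W k c hc * F = 0 := by
  have h1 : ∀ s, P W k * F.val.x s k = 0 := fun s => by
    have h2 : (cmp k (F.val.x s k) : Mt (Fin (ball W k).card) ℂ) = 0 := by
      rw [← RK_val, h]
      rfl
    rw [← F.mem.comm s k]
    exact mul_P_eq_zero (F.mem.comm s k) h2
  refine BT.ext (Amb.ext (fun s j => ?_) (fun s => ?_))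
  · rw [BT.val_mul, Amb.mul_x, zc_x]
    by_cases hj : j = k
    · subst hj
      rw [if_pos rfl, smul_mul_assoc, h1, smul_zero]
      rfl
    · rw [if_neg hj, zero_mul]
      rfl
  · rw [BT.val_mul, Amb.mul_f, zc_f, zero_mul]
    rfl

theorem tr_caseA {σ : BT W →ₗ[ℂ] ℂ} (h : IsExt σ) {k : ℕ} {c : C(unitInterval, ℝ)}
    (hc : c 0 = 0) (h0 : ∀ s, 0 ≤ c s) (h1 : ∀ s, c s ≤ 1) (hne : σ (zc W k c hc) ≠ 0)
    {F : BT W} (hF : RK W k F = 0) : σ F = 0 := by
  have h2 := zc_ext W h k c hc h0 h1 F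
  rw [zc_mul_eq_zero W hF c hc, map_zero] at h2
  exact (mul_eq_zero.1 h2.symm).resolve_left hne

/-- The cut off function `min 1 (‖F s‖/ε)`. -/
def cutc (F : Amb G) (ε : ℝ) : C(unitInterval, ℝ) := ⟨fun s => min 1 (‖F.xs s‖ / ε), by
  have : Continuous fun s => F.xs s := F.xs.continuous
  fun_prop⟩

theorem tr_caseB {σ : BT W →ₗ[ℂ] ℂ} (h : IsExt σ)
    (hz : ∀ (k : ℕ) (c : C(unitInterval, ℝ)) (hc : c 0 = 0), (∀ s, 0 ≤ c s) → (∀ s, c s ≤ 1) →
      σ (zc W k c hc) = 0) {F : BT W} (hF : RI W F = 0) : σ F = 0 := by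
  have hf : F.val.f = 0 := by
    refine ContinuousMap.ext fun t => ?_
    rw [← RI_val, hF]
    rfl
  have hx0 : ∀ k, F.val.x 0 k = 0 := fun k => by
    rw [F.mem.x0, hf]
    rfl
  have hPx : ∀ s k, P W k * F.val.x s k = F.val.x s k := fun s k => by
    have h1 := F.mem.out s k
    rw [hf, ContinuousMap.zero_apply, zero_mul, mul_sub, mul_one, sub_eq_zero] at h1
    rw [← F.mem.comm s k]
    exact h1.symm
  refine norm_le_zero_iff.1 (le_of_forall_pos_le_add fun ε hε => ?_)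
  rw [zero_add]
  obtain ⟨K, hK⟩ := F.mem.asy_unif ε hε
  have hc : cutc F.val ε 0 = 0 := by
    have h1 : F.val.xs 0 = 0 := by
      ext1 k
      exact hx0 k
    change min 1 (‖F.val.xs 0‖ / ε) = 0
    rw [h1, norm_zero, zero_div]
    exact min_eq_right zero_le_one
  have hc0 : ∀ s, 0 ≤ cutc F.val ε s := fun s => le_min zero_le_one (by positivity)
  have hc1 : ∀ s, cutc F.val ε s ≤ 1 := fun s => min_le_left _ _
  have h2 : σ F = σ (F - ∑ k ∈ Finset.range K, zc W k (cutc F.val ε) hc * F) := by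
    rw [map_sub, map_sum, Finset.sum_eq_zero, sub_zero]
    intro k _
    rw [zc_ext W h k _ hc hc0 hc1, hz k _ hc hc0 hc1, zero_mul]
  rw [h2]
  refine (h.toIsTr.norm_le _).trans ?_
  rw [← BT.norm_val]
  refine Amb.norm_le hε.le (fun s j => ?_) (fun s => ?_)
  · have h3 : (∑ k ∈ Finset.range K, zc W k (cutc F.val ε) hc * F : BT W).val.x s j =
        ∑ k ∈ Finset.range K, (zc W k (cutc F.val ε) hc * F : BT W).val.x s j :=
      map_sum ((Amb.ev1 s j).comp BT.valHom) _ _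
    rw [BT.val_sub, Amb.sub_x, h3]
    have h4 : ∀ k, (zc W k (cutc F.val ε) hc * F : BT W).val.x s j =
        if j = k then ((cutc F.val ε s : ℝ) : ℂ) • F.val.x s k else 0 := fun k => by
      rw [BT.val_mul, Amb.mul_x, zc_x]
      by_cases hj : j = k
      · subst hj
        rw [if_pos rfl, if_pos rfl, smul_mul_assoc, hPx]
      · rw [if_neg hj, if_neg hj, zero_mul]
    simp only [h4, Finset.sum_ite_eq, Finset.mem_range]
    by_cases hj : j < K
    · rw [if_pos hj]
      have h5 : F.val.x s j - ((cutc F.val ε s : ℝ) : ℂ) • F.val.x s j =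
          ((1 - cutc F.val ε s : ℝ) : ℂ) • F.val.x s j := by
        rw [Complex.ofReal_sub, Complex.ofReal_one, sub_smul, one_smul]
      rw [h5, norm_smul, Complex.norm_real, Real.norm_of_nonneg (by linarith [hc1 s])]
      have h6 : ‖F.val.x s j‖ ≤ ‖F.val.xs s‖ := (F.val.xs s).norm_coe_le_norm j
      rcases le_total (‖F.val.xs s‖) ε with h7 | h7
      · refine (mul_le_of_le_one_left (norm_nonneg _) ?_).trans (h6.trans h7)
        linarith [hc0 s]
      · have h8 : cutc F.val ε s = 1 := min_eq_left ((one_le_div hε).2 h7)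
        rw [h8, sub_self, zero_mul]
        exact hε.le
    · rw [if_neg hj, sub_zero]
      have h5 := hK j (not_lt.1 hj) s
      have h6 : sc s F.val.f = 0 := by
        rw [hf]
        rfl
      have h7 : phi W j (0 : C(unitInterval, LL G)) = 0 := by
        have := phi_sub W j 0 0
        rwa [sub_self, sub_self] at this
      rwa [h6, h7, sub_zero] at h5
  · have h3 : (∑ k ∈ Finset.range K, zc W k (cutc F.val ε) hc * F : BT W).val.f s =
        ∑ k ∈ Finset.range K, (zc W k (cutc F.val ε) hc * F : BT W).val.f s :=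
      map_sum ((Amb.ev2 s).comp BT.valHom) _ _
    rw [BT.val_sub, Amb.sub_f, ContinuousMap.sub_apply, h3, Finset.sum_eq_zero, sub_zero, hf]
    · simpa using hε.le
    · intro k _
      rw [BT.val_mul, Amb.mul_f, hf, mul_zero]
      rfl

variable {W}

theorem nontrivial_DT (hτ : IsTr W.tauD) : Nontrivial W.DT :=
  ⟨⟨1, 0, fun h => by
    have h1 := hτ.one
    rw [h, map_zero] at h1
    exact zero_ne_one h1⟩⟩

/-- The extreme traces of `B`. -/
theorem extTrB (hU : W.UniqTr) (hτ : IsTr W.tauD) : ExtTr W (BT W) := by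
  intro σ h
  haveI := nontrivial_DT hτ
  by_cases hz : ∀ (k : ℕ) (c : C(unitInterval, ℝ)) (hc : c 0 = 0), (∀ s, 0 ≤ c s) →
      (∀ s, c s ≤ 1) → σ (zc W k c hc) = 0
  · obtain ⟨σ', h', rfl⟩ := ext_factor (RI W) (RI_surj W) h (fun F hF => tr_caseB W h hz hF)
    rcases ext_QE hU h' with he | ⟨x, hx, he⟩
    · left
      exact extC (QE.eps.comp (RI W)) fun F => he _
    · right
      refine ⟨(QE.ev x).comp (RI W), (QE.ev_surj hx).comp (RI_surj W), ?_⟩
      exact LinearMap.ext fun F => he _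
  · push Not at hz
    obtain ⟨k, c, hc, h0, h1, hne⟩ := hz
    left
    obtain ⟨σ', h', rfl⟩ := ext_factor (RK W k) (RK_surj W k) h
      (fun F hF => tr_caseA W h hc h0 h1 hne hF)
    rcases ext_QE (mtr_unique' (card_ball_pos W k)) h' with he | ⟨x, hx, he⟩
    · exact extC (QE.eps.comp (RK W k)) fun F => he _
    · obtain ⟨n, q, hq, hq'⟩ := extM (card_ball_pos W k) ((QE.ev x).comp (RK W k))
        ((QE.ev_surj hx).comp (RK_surj W k))
      refine ⟨n, q, hq, ?_⟩
      rw [← hq']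
      exact LinearMap.ext fun F => he _

/-- The quotient map to `D`. -/
def q0 (W : TwG G) : BT W →⋆ₐ[ℂ] W.DT := (QE.ev 1).comp (RI W)

theorem q0_surj : Function.Surjective (q0 W) :=
  (QE.ev_surj (x := 1) (by rw [Set.Icc.coe_one]; exact zero_lt_one)).comp (RI_surj W)

theorem q0_ext (hU : W.UniqTr) (hτ : IsTr W.tauD) : IsExt (pull W.tauD (q0 W)) :=
  ext_pull (q0 W) q0_surj hτ hU

end

end Pool.Agent.H.MP_e11395_an.PA
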