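import Pool.Agent.H.MP_e11395_an.A.AData
import Pool.Agent.H.MP_e11395_an.D.State

/-!
# MP_e11395, part A2: general lemmas on extreme tracial states
-/

set_option autoImplicit false
set_option linter.unusedSectionVars false

open Filter Topology
open scoped ComplexOrder

namespace Pool.Agent.H.MP_e11395_an.PA

variable {B Q E : Type} [CStarAlgebra B] [CStarAlgebra Q] [CStarAlgebra E]

/-- A tracial state which vanishes on the kernel of a surjective *-homomorphism comes from a
tracial state of the quotient. -/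
theorem BTrA_factor (R : B →⋆ₐ[ℂ] Q) (hR : Function.Surjective R) {σ : B →ₗ[ℂ] ℂ}
    (h : IsTr σ) (hv : ∀ b, R b = 0 → σ b = 0) :
    ∃ σ' : Q →ₗ[ℂ] ℂ, IsTr σ' ∧ σ = pull σ' R := by
  have hr : LinearMap.range (R : B →ₐ[ℂ] Q).toLinearMap = ⊤ := by
    rw [LinearMap.range_eq_top]
    exact hR
  obtain ⟨l, hl⟩ := LinearMap.exists_rightInverse_of_surjective _ hr
  have hl' : ∀ q, R (l q) = q := fun q => by
    have := LinearMap.congr_fun hl q
    exact this
  have key : ∀ b c, R b = R c → σ b = σ c := fun b c hbc => by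
    have h1 : σ (b - c) = 0 := hv _ (by rw [map_sub, hbc, sub_self])
    rw [map_sub] at h1
    exact sub_eq_zero.1 h1
  refine ⟨σ ∘ₗ l, ⟨?_, fun a => ?_, fun a b => ?_⟩, ?_⟩
  · rw [LinearMap.comp_apply, ← h.one]
    exact key _ _ (by rw [hl', map_one])
  · have h1 : (σ ∘ₗ l) (star a * a) = σ (star (l a) * l a) := by
      rw [LinearMap.comp_apply]
      exact key _ _ (by rw [hl', map_mul, map_star, hl'])
    rw [h1]
    exact h.pos _
  · have h1 : ∀ a b, (σ ∘ₗ l) (a * b) = σ (l a * l b) := fun a b => by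
      rw [LinearMap.comp_apply]
      exact key _ _ (by rw [hl', map_mul, hl', hl'])
    rw [h1, h1]
    exact h.comm _ _
  · ext b
    rw [pull_apply, LinearMap.comp_apply]
    exact key _ _ (by rw [hl'])

/-- `pull` is injective in the functional, for a surjective *-homomorphism. -/
theorem BTrA_inj (R : B →⋆ₐ[ℂ] Q) (hR : Function.Surjective R) {s t : Q →ₗ[ℂ] ℂ}
    (h : pull s R = pull t R) : s = t := by
  ext q
  obtain ⟨b, rfl⟩ := hR q
  exact LinearMap.congr_fun h b

/-- An extreme trace which vanishes on the kernel of a surjective *-homomorphism is an extreme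
trace of the quotient. (Job: `R` has a linear right inverse `ℓ`
(`LinearMap.exists_rightInverse_of_surjective`); `σ' = σ ∘ ℓ`; `σ b = σ (ℓ (R b))` because
`b - ℓ (R b)` is in the kernel. Positivity: `σ' (star q * q) = σ (star (ℓ q) * ℓ q)`, as the
difference is in the kernel; in the same way the trace property and `σ' 1 = 1`. Extremality:
if `σ' = (τ₁ + τ₂)/2` then `σ = (pull τ₁ R + pull τ₂ R)/2`, so `pull τ₁ R = σ = pull σ' R` and
`τ₁ = σ'` by surjectivity. `IsTr.comp` gives `IsTr (pull τ₁ R)`.) -/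
theorem ext_factor (R : B →⋆ₐ[ℂ] Q) (hR : Function.Surjective R) {σ : B →ₗ[ℂ] ℂ}
    (h : IsExt σ) (hv : ∀ b, R b = 0 → σ b = 0) :
    ∃ σ' : Q →ₗ[ℂ] ℂ, IsExt σ' ∧ σ = pull σ' R := by
  obtain ⟨s, hs, hsp⟩ := BTrA_factor R hR h.toIsTr hv
  refine ⟨s, ⟨hs, fun τ₁ τ₂ h₁ h₂ h12 => ?_⟩, hsp⟩
  have h1 : pull τ₁ R = σ := by
    refine h.ext (pull τ₁ R) (pull τ₂ R) (h₁.comp R) (h₂.comp R) fun a => ?_
    rw [hsp, pull_apply, pull_apply, pull_apply]
    exact h12 _
  exact BTrA_inj R hR (h1.trans hsp)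

/-- If `E` has a unique trace `τ` then `pull τ q` is an extreme trace for every surjective
`q : B → E`. (Job: let `pull τ q = (τ₁ + τ₂)/2`. If `q b = 0` then
`τ₁ (star b * b) + τ₂ (star b * b) = 0`, both are `≥ 0`, so `τ₁ (star b * b) = 0` and
`τ₁ b = 0` by `IsTr.cauchy` (with `b` and `1`). So `τ₁ = t ∘ q` with a tracial state `t` of `E`
(as in `ext_factor`, choose a linear right inverse of `q`), and `t = τ`.) -/
theorem ext_pull (q : B →⋆ₐ[ℂ] E) (hq : Function.Surjective q) {τ : E →ₗ[ℂ] ℂ} (hτ : IsTr τ)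
    (hu : ∀ t : E →ₗ[ℂ] ℂ, IsTr t → t = τ) : IsExt (pull τ q) := by
  refine ⟨hτ.comp q, fun τ₁ τ₂ h₁ h₂ h12 => ?_⟩
  have hv : ∀ b, q b = 0 → τ₁ b = 0 := fun b hb => by
    have h3 := h12 (star b * b)
    rw [pull_apply, map_mul, hb, mul_zero, map_zero] at h3
    have h4 : τ₁ (star b * b) + τ₂ (star b * b) = 0 := by
      have h5 : τ₁ (star b * b) + τ₂ (star b * b) = 2 * ((τ₁ (star b * b) + τ₂ (star b * b)) / 2) := by
        ring
      rw [h5, ← h3, mul_zero]
    have h6 : τ₁ (star b * b) = 0 := by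
      refine le_antisymm ?_ (h₁.pos b)
      rw [← h4]
      exact le_add_of_nonneg_right (h₂.pos b)
    have h7 := h₁.cauchy b 1
    rw [h6, star_one, one_mul, Complex.zero_re, mul_zero] at h7
    have h8 : ‖τ₁ b‖ ^ 2 = 0 := le_antisymm h7 (by positivity)
    exact norm_eq_zero.1 (pow_eq_zero_iff two_ne_zero |>.1 h8)
  obtain ⟨t, ht, htp⟩ := BTrA_factor q hq h₁ hv
  rw [htp, hu t ht]

end Pool.Agent.H.MP_e11395_an.PA
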