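import Pool.Agent.H.MP_e11395_an.Defs
import Pool.Agent.H.MP_e11395_an.Mt

/-!
# Part A1: completely positive maps given by Gram formulas
-/

set_option autoImplicit false
set_option linter.unusedSectionVars false

namespace Pool.Agent.H.MP_e11395_an

theorem CPg_sum_apply {ι B σ : Type} [Fintype ι] [DecidableEq ι] [CStarAlgebra B]
    (s : Finset σ) (f : σ → Mt ι B) (i j : ι) : (∑ x ∈ s, f x) i j = ∑ x ∈ s, f x i j := by
  classical
  induction s using Finset.induction_on with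
  | empty => rw [Finset.sum_empty, Finset.sum_empty, Mt.zero_apply]
  | insert a s ha ih => rw [Finset.sum_insert ha, Finset.sum_insert ha, Mt.add_apply, ih]

/-- A linear map with `φ(star a * b) = ∑_g star (Z_g a) * Z_g b` (finite sum, `Z_g` linear into a
C*-algebra) is completely positive. Proof: for `X : Matrix (Fin k) (Fin k) A` the matrix
`(Xᴴ * X).map φ` has the entries `∑_l φ(star X_{li} * X_{lj}) = ∑_{l,g} star (Z_g X_{li}) * Z_g X_{lj}`.
It is the sum over `(l, g)` of the matrices `star R * R` in the C*-algebra `Mt (Fin k) C`, where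
`R = R_{l,g}` has the first row `(Z_g X_{lj})_j` and zeros elsewhere (for `k = 0` everything is
trivial). A sum of elements `star R * R` of a C*-algebra is nonnegative in the spectral order, so
of the form `star Y * Y` (`CStarAlgebra.nonneg_iff_eq_star_mul_self`). -/
theorem isCP_gram {A C : Type} [Ring A] [StarRing A] [Algebra ℂ A] [CStarAlgebra C]
    (φ : A →ₗ[ℂ] C) {κ : Type} [Fintype κ] (Z : κ → A →ₗ[ℂ] C)
    (h : ∀ a b, φ (star a * b) = ∑ g, star (Z g a) * Z g b) : IsCP φ := by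
  intro k X
  letI := CStarAlgebra.spectralOrder (Mt (Fin k) C)
  letI := CStarAlgebra.spectralOrderedRing (Mt (Fin k) C)
  obtain ⟨M, hM⟩ : ∃ M : Mt (Fin k) C, M = Mt.of fun i j => φ ((X.conjTranspose * X) i j) :=
    ⟨_, rfl⟩
  obtain ⟨R, hR⟩ : ∃ R : Fin k → κ → Mt (Fin k) C,
      R = fun l g => Mt.of fun i j => if i = l then Z g (X l j) else 0 := ⟨_, rfl⟩
  have hsum : M = ∑ l, ∑ g, star (R l g) * R l g := by
    have hent : ∀ i j, (∑ l, ∑ g, star (R l g) * R l g : Mt (Fin k) C) i j =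
        ∑ l, ∑ g, star (Z g (X l i)) * Z g (X l j) := by
      intro i j
      rw [CPg_sum_apply]
      refine Finset.sum_congr rfl fun l _ => ?_
      rw [CPg_sum_apply]
      refine Finset.sum_congr rfl fun g _ => ?_
      rw [Mt.mul_apply, Finset.sum_eq_single l]
      · rw [Mt.star_apply, hR]
        simp
      · intro m _ hm
        rw [Mt.star_apply, hR]
        simp [hm]
      · intro hl
        exact absurd (Finset.mem_univ l) hl
    refine Mt.ext fun i j => ?_
    rw [hent, hM, Mt.of_apply, Matrix.mul_apply, map_sum]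
    refine Finset.sum_congr rfl fun l _ => ?_
    rw [Matrix.conjTranspose_apply, h]
  have hpos : 0 ≤ M := by
    rw [hsum]
    exact Finset.sum_nonneg fun l _ => Finset.sum_nonneg fun g _ => star_mul_self_nonneg _
  obtain ⟨Y, hY⟩ := CStarAlgebra.nonneg_iff_eq_star_mul_self.1 hpos
  refine ⟨Matrix.of fun i j => Y i j, ?_⟩
  ext i j
  have h2 := congrArg (fun N : Mt (Fin k) C => N i j) hY
  simp only [Mt.mul_apply, Mt.star_apply] at h2
  have h3 : ((Matrix.of fun i j => Y i j).conjTranspose * (Matrix.of fun i j => Y i j)) i j =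
      ∑ x, star (Y x i) * Y x j := rfl
  rw [h3, ← h2, hM, Mt.of_apply, Matrix.map_apply]

/-- A unital completely positive map between C*-algebras is contractive. Proof: let `a` be an
element, `c := ‖a‖ ^ 2 - star a * a ≥ 0`, `c = star d * d`. With `X = !![1, a; 0, 0]` (size `2`) the
matrix `φ(star X X) = !![1, φ a; φ(star a), φ(star a a)]` is of the form `star Y Y`, hence
nonnegative; multiplying with the row `(-φ(a)^*, 1)`: from
`star Y Y = !![1, φ a; φ(star a), φ(star a a)]` one gets, with the columns `Y_1, Y_2` of `Y`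
(`⟨Y_i, Y_j⟩ := ∑_l star (Y_{li}) Y_{lj}`): `⟨Y_1,Y_1⟩ = 1`, `⟨Y_1,Y_2⟩ = φ a`,
`0 ≤ ⟨Y_2 - Y_1 φ(a), Y_2 - Y_1 φ(a)⟩ = φ(star a a) - star (φ a) φ(a)`. Also
`φ(star d d) = ∑ star (..) (..)` (the case `k = 1`) is nonnegative, so
`φ(star a a) ≤ φ(‖a‖^2) = ‖a‖^2`. So `star (φ a) φ a ≤ ‖a‖^2`, and `‖φ a‖^2 ≤ ‖a‖^2`. -/
theorem IsCP.norm_le_of_one {A C : Type} [CStarAlgebra A] [CStarAlgebra C] {φ : A →ₗ[ℂ] C}
    (h : IsCP φ) (h1 : φ 1 = 1) (a : A) : ‖φ a‖ ≤ ‖a‖ := by
  letI := CStarAlgebra.spectralOrder A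
  letI := CStarAlgebra.spectralOrderedRing A
  letI := CStarAlgebra.spectralOrder C
  letI := CStarAlgebra.spectralOrderedRing C
  -- step 1: the Kadison-Schwarz inequality
  have hKS : star (φ a) * φ a ≤ φ (star a * a) := by
    obtain ⟨Y, hY⟩ := h 2 !![1, a; 0, 0]
    have e00 := congrFun (congrFun hY 0) 0
    have e01 := congrFun (congrFun hY 0) 1
    have e11 := congrFun (congrFun hY 1) 1
    simp only [Matrix.map_apply, Matrix.mul_apply, Fin.sum_univ_two,
      Matrix.conjTranspose_apply, Matrix.of_apply, Matrix.cons_val', Matrix.cons_val_zero,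
      Matrix.cons_val_one, Matrix.cons_val_fin_one, star_one, star_zero, mul_one, one_mul,
      mul_zero, add_zero, zero_mul] at e00 e01 e11
    rw [h1] at e00
    have hpos : 0 ≤ star (Y 0 1 - Y 0 0 * φ a) * (Y 0 1 - Y 0 0 * φ a) +
        star (Y 1 1 - Y 1 0 * φ a) * (Y 1 1 - Y 1 0 * φ a) :=
      add_nonneg (star_mul_self_nonneg _) (star_mul_self_nonneg _)
    have e10 : star (φ a) = star (Y 0 1) * Y 0 0 + star (Y 1 1) * Y 1 0 := by
      rw [e01, star_add, star_mul, star_mul, star_star, star_star]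
    have hexp : star (Y 0 1 - Y 0 0 * φ a) * (Y 0 1 - Y 0 0 * φ a) +
        star (Y 1 1 - Y 1 0 * φ a) * (Y 1 1 - Y 1 0 * φ a) =
        (star (Y 0 1) * Y 0 1 + star (Y 1 1) * Y 1 1) -
        (star (Y 0 1) * Y 0 0 + star (Y 1 1) * Y 1 0) * φ a -
        star (φ a) * (star (Y 0 0) * Y 0 1 + star (Y 1 0) * Y 1 1) +
        star (φ a) * (star (Y 0 0) * Y 0 0 + star (Y 1 0) * Y 1 0) * φ a := by
      simp only [star_sub, star_mul]
      noncomm_ring
    rw [hexp, ← e11, ← e10, ← e01, ← e00, mul_one] at hpos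
    have hfin : φ (star a * a) - star (φ a) * φ a - star (φ a) * φ a + star (φ a) * φ a =
        φ (star a * a) - star (φ a) * φ a := by
      rw [sub_add_cancel]
    rw [hfin, sub_nonneg] at hpos
    exact hpos
  -- step 2: positivity
  have hpos : φ (star a * a) ≤ algebraMap ℝ C (‖a‖ ^ 2) := by
    have hc : 0 ≤ algebraMap ℝ A (‖a‖ ^ 2) - star a * a :=
      sub_nonneg.2 (CStarAlgebra.star_mul_le_algebraMap_norm_sq (a := a))
    obtain ⟨d, hd⟩ := CStarAlgebra.nonneg_iff_eq_star_mul_self.1 hc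
    obtain ⟨Y, hY⟩ := h 1 !![d]
    have e00 := congrFun (congrFun hY 0) 0
    simp only [Matrix.map_apply, Matrix.mul_apply, Fin.sum_univ_one,
      Matrix.conjTranspose_apply, Matrix.of_apply, Matrix.cons_val', Matrix.cons_val_zero,
      Matrix.cons_val_fin_one] at e00
    have h2 : 0 ≤ φ (star d * d) := by
      rw [e00]
      exact star_mul_self_nonneg _
    rw [← hd, map_sub] at h2
    have h3 : φ (algebraMap ℝ A (‖a‖ ^ 2)) = algebraMap ℝ C (‖a‖ ^ 2) := by
      have e1 : algebraMap ℝ A (‖a‖ ^ 2) = ((‖a‖ ^ 2 : ℝ) : ℂ) • (1 : A) := by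
        rw [Algebra.algebraMap_eq_smul_one]
        exact (Complex.coe_smul _ _).symm
      have e2 : algebraMap ℝ C (‖a‖ ^ 2) = ((‖a‖ ^ 2 : ℝ) : ℂ) • (1 : C) := by
        rw [Algebra.algebraMap_eq_smul_one]
        exact (Complex.coe_smul _ _).symm
      rw [e1, e2, map_smul, h1]
    rw [h3, sub_nonneg] at h2
    exact h2
  have hle : star (φ a) * φ a ≤ algebraMap ℝ C (‖a‖ ^ 2) := hKS.trans hpos
  have hn : ‖star (φ a) * φ a‖ ≤ ‖a‖ ^ 2 :=
    (CStarAlgebra.norm_le_iff_le_algebraMap _ (by positivity) (star_mul_self_nonneg _)).2 hle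
  rw [CStarRing.norm_star_mul_self] at hn
  exact le_of_sq_le_sq (by nlinarith) (norm_nonneg a)

/-- Composition. -/
theorem IsCP.comp {A B C : Type} [Ring A] [StarRing A] [Algebra ℂ A] [Ring B] [StarRing B]
    [Algebra ℂ B] [Ring C] [StarRing C] [Algebra ℂ C] {φ : B →ₗ[ℂ] C} {ψ : A →ₗ[ℂ] B}
    (h : IsCP φ) (h' : IsCP ψ) : IsCP (φ ∘ₗ ψ) := by
  intro k X
  obtain ⟨Y, hY⟩ := h' k X
  obtain ⟨Z, hZ⟩ := h k Y
  refine ⟨Z, ?_⟩
  rw [← hZ, ← hY]
  rfl

end Pool.Agent.H.MP_e11395_an
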