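import Pool.Agent.H.MP_e11395_an.A.MulOp
import Pool.Agent.H.MP_e11395_an.A.Iface

/-!
# Part A1: the canonical trace of the twisted group algebra; continuity of tracial states
-/

set_option autoImplicit false
set_option linter.unusedSectionVars false

open scoped ComplexOrder

namespace Pool.Agent.H.MP_e11395_an

/-- A tracial state of a C*-algebra is bounded. Proof: with the spectral order of `A`,
`IsTr.pos` says that `t` is a positive linear map (every `0 ≤ a` is `star b * b`), and
`PositiveLinearMap.exists_norm_apply_le` applies. -/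
theorem isTr_bound {A : Type} [CStarAlgebra A] {t : A →ₗ[ℂ] ℂ} (h : IsTr t) :
    ∃ C : ℝ, 0 ≤ C ∧ ∀ a, ‖t a‖ ≤ C * ‖a‖ := by
  let _ := CStarAlgebra.spectralOrder A
  have := CStarAlgebra.spectralOrderedRing A
  obtain ⟨C, hC⟩ := (PositiveLinearMap.mk₀ t (fun x hx => by
    obtain ⟨b, hb⟩ := CStarAlgebra.nonneg_iff_eq_star_mul_self.1 hx
    rw [hb]
    exact h.pos b)).exists_norm_apply_le
  exact ⟨C, C.2, hC⟩

/-- `tau(lam x) = 0` for `x ≠ 1`. -/
theorem tauD_lamD {G : Type} [Group G] (W : TwG G) {x : G} (hx : x ≠ 1) :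
    W.tauD (W.lamD x) = 0 := by
  rw [W.tauD_apply]
  show (W.lam x (dl 1) : H2 G) 1 = 0
  rw [W.lam_dl, lp.coeFn_smul, Pi.smul_apply, mul_one, dl_ne hx.symm, smul_zero]

theorem D1_star_mul {G : Type} [Group G] (W : TwG G) (T : W.DT) :
    W.tauD (star T * T) = ((‖T.val (dl 1)‖ ^ 2 : ℝ) : ℂ) := by
  show inner ℂ (dl 1) ((star T * T).val (dl 1)) = _
  rw [TwG.DT.val_mul, TwG.DT.val_star]
  show inner ℂ (dl 1) (star T.val (T.val (dl 1))) = _
  rw [ContinuousLinearMap.star_eq_adjoint, ContinuousLinearMap.adjoint_inner_right,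
    inner_self_eq_norm_sq_to_K]
  simp

theorem D1_norm_le {G : Type} [Group G] (W : TwG G) (T : W.DT) : ‖W.tauD T‖ ≤ ‖T‖ := by
  show ‖inner ℂ (dl 1 : H2 G) (T.val (dl 1))‖ ≤ _
  refine (norm_inner_le_norm _ _).trans ?_
  rw [norm_dl, one_mul, ← TwG.DT.norm_val]
  refine (T.val.le_opNorm _).trans ?_
  rw [norm_dl, mul_one]

theorem D1_lamD_mul {G : Type} [Group G] (W : TwG G) (x y : G) :
    W.lamD x * W.lamD y = W.ω x y • W.lamD (x * y) := by
  ext1
  exact W.lam_mul x y

theorem D1_comm_lam {G : Type} [Group G] (W : TwG G) (x y : G) :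
    W.tauD (W.lamD x * W.lamD y) = W.tauD (W.lamD y * W.lamD x) := by
  rw [D1_lamD_mul, D1_lamD_mul, map_smul, map_smul]
  by_cases h : x * y = 1
  · have hy : y = x⁻¹ := eq_inv_of_mul_eq_one_right h
    subst hy
    have h1 := W.ω_mul x x⁻¹ x
    rw [mul_inv_cancel, inv_mul_cancel, W.ω_one_left, W.ω_one_right, mul_one, one_mul] at h1
    rw [mul_inv_cancel, inv_mul_cancel, h1]
  · have h' : y * x ≠ 1 := fun h2 => h (mul_eq_one_comm.1 h2)
    rw [tauD_lamD W h, tauD_lamD W h', smul_zero, smul_zero]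

theorem D1_comm_right {G : Type} [Group G] (W : TwG G) (x : G) (c : G →₀ ℂ) :
    W.tauD (W.lamD x * c.sum fun y a => a • W.lamD y) =
      W.tauD ((c.sum fun y a => a • W.lamD y) * W.lamD x) := by
  rw [Finsupp.sum, Finset.mul_sum, Finset.sum_mul, map_sum, map_sum]
  refine Finset.sum_congr rfl fun y _ => ?_
  rw [mul_smul_comm, smul_mul_assoc, map_smul, map_smul, D1_comm_lam]

theorem D1_comm_sum {G : Type} [Group G] (W : TwG G) (b c : G →₀ ℂ) :
    W.tauD ((b.sum fun y a => a • W.lamD y) * c.sum fun y a => a • W.lamD y) =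
      W.tauD ((c.sum fun y a => a • W.lamD y) * b.sum fun y a => a • W.lamD y) := by
  rw [Finsupp.sum, Finset.sum_mul, Finset.mul_sum, map_sum, map_sum]
  refine Finset.sum_congr rfl fun y _ => ?_
  rw [mul_smul_comm, smul_mul_assoc, map_smul, map_smul, D1_comm_right]

/-- Density of the finite combinations, as a statement on closed sets. -/
theorem D1_ind {G : Type} [Group G] (W : TwG G) {s : Set W.DT} (hs : IsClosed s)
    (h : ∀ c : G →₀ ℂ, (c.sum fun y a => a • W.lamD y) ∈ s) (T : W.DT) : T ∈ s := by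
  rw [← hs.closure_eq, Metric.mem_closure_iff]
  intro ε hε
  obtain ⟨c, hc⟩ := W.D_dense T ε hε
  exact ⟨_, h c, by rw [dist_eq_norm]; exact hc⟩

theorem D1_cont {G : Type} [Group G] (W : TwG G) : Continuous W.tauD :=
  (LinearMap.mkContinuous W.tauD 1 fun T => by rw [one_mul]; exact D1_norm_le W T).continuous

theorem D1_comm {G : Type} [Group G] (W : TwG G) (S T : W.DT) :
    W.tauD (S * T) = W.tauD (T * S) := by
  have hc := D1_cont W
  have h1 : ∀ (b : G →₀ ℂ) (T : W.DT),
      W.tauD ((b.sum fun y a => a • W.lamD y) * T) =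
        W.tauD (T * b.sum fun y a => a • W.lamD y) := fun b T =>
    D1_ind W (s := {T | W.tauD ((b.sum fun y a => a • W.lamD y) * T) =
        W.tauD (T * b.sum fun y a => a • W.lamD y)})
      (isClosed_eq (hc.comp (continuous_const.mul continuous_id))
        (hc.comp (continuous_id.mul continuous_const)))
      (fun c => D1_comm_sum W b c) T
  exact D1_ind W (s := {S | W.tauD (S * T) = W.tauD (T * S)})
    (isClosed_eq (hc.comp (continuous_id.mul continuous_const))
        (hc.comp (continuous_const.mul continuous_id)))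
      (fun c => h1 c T) S

/-- (D1) Positivity is `‖T δ_1‖²`; `tau(T S) = tau(S T)`: by density and bilinearity for
`T = lam x`, `S = lam y` (both sides are `0` unless `y = x⁻¹`, and `ω(x, x⁻¹) = ω(x⁻¹, x)`, which
is the cocycle identity for `x, x⁻¹, x`). -/
theorem tauD_isTr' {G : Type} [Group G] (W : TwG G) : IsTr W.tauD := by
  refine ⟨?_, fun T => ?_, D1_comm W⟩
  · rw [W.tauD_apply]
    exact dl_self 1
  · rw [D1_star_mul]
    exact Complex.zero_le_real.2 (by positivity)

/-- (D1) The trace is faithful: `tau(star T T) = ‖T δ_1‖²`, so `T δ_1 = 0`. For `S = lam x`: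
`‖T S δ_1‖² = tau(star S star T T S) = tau(S star S star T T) = tau(star T T) = 0`,
so `T δ_x = 0` for all `x` (`lam_dl`), `T = 0` by `ext_of_dl`. -/
theorem tauD_faithful' {G : Type} [Group G] (W : TwG G) (T : W.DT)
    (h : W.tauD (star T * T) = 0) : T = 0 := by
  have hu : ∀ x, W.lamD x * star (W.lamD x) = 1 := fun x => by
    ext1
    exact (Unitary.mem_iff.1 (W.lam_unitary x)).2
  ext1
  refine ext_of_dl fun x => ?_
  have h1 : W.tauD (star (T * W.lamD x) * (T * W.lamD x)) = 0 := by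
    rw [star_mul, mul_assoc, D1_comm, ← mul_assoc, mul_assoc, mul_assoc, hu, mul_one, h]
  rw [D1_star_mul, Complex.ofReal_eq_zero, sq_eq_zero_iff, norm_eq_zero, TwG.DT.val_mul] at h1
  have h2 : T.val (W.lam x (dl 1)) = 0 := h1
  rw [W.lam_dl, map_smul, mul_one, smul_eq_zero] at h2
  have h3 : W.ω x 1 ≠ 0 := by rw [W.ω_one_right]; exact one_ne_zero
  rw [TwG.DT.val_zero]
  exact h2.resolve_left h3

end Pool.Agent.H.MP_e11395_an
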