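import Mathlib

/-!
# The abelian group `QQ` and its bicharacter
-/

set_option autoImplicit false
set_option linter.unusedSectionVars false

namespace Pool.Agent.H.MP_e11395_an

/-- `(⨁ ℤ/9) ⊕ ℤ/3`. -/
abbrev QQ : Type := (ℕ →₀ ZMod 9) × ZMod 3

/-- The embedding `y ↦ 3 y` of `ℤ/3` in `ℤ/9`. -/
def three : ZMod 3 →+ ZMod 9 where
  toFun y := 3 * (y.val : ZMod 9)
  map_zero' := by decide
  map_add' := by decide

/-- `a(x, y) = x_0 + 3 y`. -/
def aQ : QQ →+ ZMod 9 where
  toFun q := q.1 0 + three q.2
  map_zero' := by simp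
  map_add' q r := by
    simp only [Prod.fst_add, Finsupp.add_apply, Prod.snd_add, map_add]
    ring

/-- `b((x,y),(x',y')) = ∑_{i<j} x_i x'_j - 3 x_0 y'`. -/
noncomputable def bQ (q r : QQ) : ZMod 9 :=
  (q.1.sum fun i u => r.1.sum fun j v => if i < j then u * v else 0) - q.1 0 * three r.2

theorem bQ_add_left (q q' r : QQ) : bQ (q + q') r = bQ q r + bQ q' r := by
  unfold bQ
  rw [Prod.fst_add, Finsupp.sum_add_index', Finsupp.add_apply]
  · ring
  · intro a
    apply Finset.sum_eq_zero
    intro j _
    simp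
  · intro a b₁ b₂
    rw [← Finsupp.sum_add]
    apply Finset.sum_congr rfl
    intro j _
    dsimp only
    split_ifs
    · ring
    · simp

theorem bQ_add_right (q r r' : QQ) : bQ q (r + r') = bQ q r + bQ q r' := by
  unfold bQ
  have h : ∀ i u, ((r + r').1.sum fun j v => if i < j then u * v else (0 : ZMod 9))
      = (r.1.sum fun j v => if i < j then u * v else 0)
        + (r'.1.sum fun j v => if i < j then u * v else 0) := by
    intro i u
    rw [Prod.fst_add, Finsupp.sum_add_index']
    · intro a
      simp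
    · intro a b₁ b₂
      split_ifs
      · ring
      · simp
  simp only [h]
  rw [Finsupp.sum_add, Prod.snd_add, map_add]
  ring

theorem QQ_three_mul_three : ∀ y : ZMod 3, 3 * three y = 0 := by
  intro y
  show 3 * (3 * (y.val : ZMod 9)) = 0
  have : (3 : ZMod 9) * 3 = 0 := by decide
  rw [← mul_assoc, this, zero_mul]

theorem QQ_three_injective : ∀ y : ZMod 3, three y = 0 → y = 0 := by
  decide

/-- The antisymmetrisation. -/
noncomputable def BQ (q r : QQ) : ZMod 9 := bQ q r - bQ r q

/-- The basis vectors. -/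
noncomputable def eQ (j : ℕ) : QQ := (Finsupp.single j 1, 0)

/-- The vector `v = (0, 1)`. -/
def vQ : QQ := (0, 1)

/-- `c(x, y) = ∑ x_j`. -/
noncomputable def cQ : QQ →+ ZMod 9 where
  toFun q := q.1.sum fun _ u => u
  map_zero' := by simp
  map_add' q r := by
    rw [Prod.fst_add, Finsupp.sum_add_index']
    · intro a
      rfl
    · intro a b₁ b₂
      rfl

theorem QQ_aQ_apply (q : QQ) : aQ q = q.1 0 + three q.2 := rfl

theorem QQ_cQ_apply (q : QQ) : cQ q = q.1.sum fun _ u => u := rfl

theorem QQ_bQ_single_left (i : ℕ) (r : QQ) :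
    bQ (eQ i) r = (r.1.sum fun j v => if i < j then v else 0)
      - (if i = 0 then three r.2 else 0) := by
  unfold bQ eQ
  rw [Finsupp.sum_single_index]
  · congr 1
    · apply Finset.sum_congr rfl
      intro j _
      dsimp only
      split_ifs
      · rw [one_mul]
      · rfl
    · by_cases h : i = 0
      · subst h
        simp
      · simp [h]
  · apply Finset.sum_eq_zero
    intro j _
    simp

theorem QQ_bQ_single_right (q : QQ) (j : ℕ) :
    bQ q (eQ j) = q.1.sum fun i u => if i < j then u else 0 := by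
  unfold bQ eQ
  have h : ∀ i u, ((Finsupp.single j (1 : ZMod 9)).sum fun j v => if i < j then u * v else 0)
      = if i < j then u else 0 := by
    intro i u
    rw [Finsupp.sum_single_index]
    · rw [mul_one]
    · simp
  simp only [h]
  have h3 : three (0 : ZMod 3) = 0 := map_zero three
  rw [h3, mul_zero, sub_zero]

theorem aQ_surj : Function.Surjective aQ := by
  intro x
  refine ⟨(Finsupp.single 0 x, 0), ?_⟩
  rw [QQ_aQ_apply]
  simp

/-- (Q1) -/
theorem QQ_BQ_vQ (q : QQ) : BQ q vQ = -(3 * q.1 0) := by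
  have h1 : bQ q vQ = -(3 * q.1 0) := by
    unfold bQ vQ
    have h : (q.1.sum fun i u => ((0 : ℕ →₀ ZMod 9).sum fun j v =>
        if i < j then u * v else (0 : ZMod 9))) = 0 := by
      apply Finset.sum_eq_zero
      intro i _
      simp
    have h3 : three (1 : ZMod 3) = 3 := by decide
    dsimp only
    rw [h, h3]
    ring
  have h2 : bQ vQ q = 0 := by
    unfold bQ vQ
    simp
  rw [BQ, h1, h2, sub_zero]

theorem BQ_vQ {k : QQ} (hk : aQ k = 0) : BQ k vQ = 0 := by
  rw [QQ_BQ_vQ]
  rw [QQ_aQ_apply] at hk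
  have h : k.1 0 = -three k.2 := eq_neg_of_add_eq_zero_left hk
  rw [h, mul_neg, QQ_three_mul_three]
  simp

/-- (Q1): `β(q, v) = ζ^(-a(q))`, `ζ = ζ_9³`. -/
theorem BQ_right_vQ (q : QQ) : BQ q vQ = -3 * aQ q := by
  rw [QQ_BQ_vQ, QQ_aQ_apply, mul_add, neg_mul, neg_mul, QQ_three_mul_three]
  simp

/-- (Q2) -/
theorem BQ_nondeg {k : QQ} (hk : aQ k = 0) (h : ∀ q, BQ k q = 0) : k = 0 := by
  classical
  -- the value on a basis vector
  have hB : ∀ j, j ≠ 0 → BQ k (eQ j) = (k.1.sum fun i u => if i < j then u else 0)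
      - (k.1.sum fun i u => if j < i then u else 0) := by
    intro j hj
    rw [BQ, QQ_bQ_single_right, QQ_bQ_single_left, if_neg hj, sub_zero]
  obtain ⟨N, hN⟩ : ∃ N, ∀ j, N < j → k.1 j = 0 := by
    refine ⟨k.1.support.sup id, fun j hj => ?_⟩
    by_contra hne
    have : j ≤ k.1.support.sup id := Finset.le_sup (f := id) (Finsupp.mem_support_iff.mpr hne)
    omega
  -- consecutive differences
  have hD : ∀ j, j ≠ 0 → k.1 j + k.1 (j + 1) = 0 := by
    intro j hj
    have h1 := h (eQ j)
    have h2 := h (eQ (j + 1))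
    rw [hB j hj] at h1
    rw [hB (j + 1) (by omega)] at h2
    have e1 : (k.1.sum fun i u => if i < j + 1 then u else 0)
        = (k.1.sum fun i u => if i < j then u else 0) + k.1 j := by
      have : k.1 j = k.1.sum fun i u => if i = j then u else 0 := by
        rw [Finsupp.sum_ite_self_eq']
      rw [this, ← Finsupp.sum_add]
      apply Finset.sum_congr rfl
      intro i _
      dsimp only
      rcases lt_trichotomy i j with hij | hij | hij
      · rw [if_pos (by omega), if_pos hij, if_neg (by omega), add_zero]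
      · rw [if_pos (by omega), if_neg (by omega), if_pos hij, zero_add]
      · rw [if_neg (by omega), if_neg (by omega), if_neg (by omega), add_zero]
    have e2 : (k.1.sum fun i u => if j < i then u else 0)
        = (k.1.sum fun i u => if j + 1 < i then u else 0) + k.1 (j + 1) := by
      have : k.1 (j + 1) = k.1.sum fun i u => if i = j + 1 then u else 0 := by
        rw [Finsupp.sum_ite_self_eq']
      rw [this, ← Finsupp.sum_add]
      apply Finset.sum_congr rfl
      intro i _
      dsimp only
      rcases lt_trichotomy i (j + 1) with hij | hij | hij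
      · rw [if_neg (by omega), if_neg (by omega), if_neg (by omega), add_zero]
      · rw [if_pos (by omega), if_neg (by omega), if_pos hij, zero_add]
      · rw [if_pos (by omega), if_pos (by omega), if_neg (by omega), add_zero]
    rw [e1] at h2
    rw [e2] at h1
    linear_combination h2 - h1
  -- descending induction
  have hZ : ∀ n j, j ≠ 0 → N < j + n → k.1 j = 0 := by
    intro n
    induction n with
    | zero => intro j _ hj; exact hN j (by omega)
    | succ n ih =>
      intro j hj0 hj
      have := hD j hj0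
      rw [ih (j + 1) (by omega) (by omega), add_zero] at this
      exact this
  have hz : ∀ j, j ≠ 0 → k.1 j = 0 := fun j hj => hZ (N + 1) j hj (by omega)
  have hs : k.1 = Finsupp.single 0 (k.1 0) := by
    ext j
    by_cases hj : j = 0
    · subst hj; simp
    · rw [hz j hj, Finsupp.single_apply, if_neg (fun e => hj e.symm)]
  have h0 : k.1 0 = 0 := by
    have h1 := h (eQ 1)
    rw [hB 1 one_ne_zero, hs, Finsupp.sum_single_index (by simp),
      Finsupp.sum_single_index (by simp)] at h1
    simpa using h1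
  have h2 : k.2 = 0 := by
    apply QQ_three_injective
    have := hk
    rw [QQ_aQ_apply, h0, zero_add] at this
    exact this
  rw [h0, Finsupp.single_zero] at hs
  exact Prod.ext hs h2

/-- (Q3) -/
theorem cQ_vQ : cQ vQ = 0 := by
  rw [QQ_cQ_apply, vQ]
  simp

/-- (Q3): `c = β(e_0, .)` on `ker a`. -/
theorem cQ_eq {k : QQ} (hk : aQ k = 0) : cQ k = BQ (eQ 0) k := by
  rw [BQ, QQ_bQ_single_left, QQ_bQ_single_right, if_pos rfl, QQ_cQ_apply]
  rw [QQ_aQ_apply] at hk
  have e1 : (k.1.sum fun _ u => u) = (k.1.sum fun j v => if 0 < j then v else 0) + k.1 0 := by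
    have : k.1 0 = k.1.sum fun i u => if i = 0 then u else 0 := by
      rw [Finsupp.sum_ite_self_eq']
    rw [this, ← Finsupp.sum_add]
    apply Finset.sum_congr rfl
    intro i _
    dsimp only
    by_cases hi : i = 0
    · rw [if_neg (by omega), if_pos hi, zero_add]
    · rw [if_pos (by omega), if_neg hi, add_zero]
  have e2 : (k.1.sum fun i u => if i < 0 then u else (0 : ZMod 9)) = 0 := by
    apply Finset.sum_eq_zero
    intro i _
    simp
  rw [e1, e2]
  linear_combination hk

/-- (Q3): `c = β(-e_{m+1}, .)` on the elements supported in `{0, …, m}`. -/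
theorem QQ_bQ_neg_left (q r : QQ) : bQ (-q) r = -bQ q r := by
  have h := bQ_add_left (-q) q r
  have h0 : bQ 0 r = 0 := by
    have := bQ_add_left 0 0 r
    rw [add_zero] at this
    linear_combination -this
  rw [neg_add_cancel, h0] at h
  linear_combination -h

theorem QQ_bQ_neg_right (q r : QQ) : bQ q (-r) = -bQ q r := by
  have h := bQ_add_right q (-r) r
  have h0 : bQ q 0 = 0 := by
    have := bQ_add_right q 0 0
    rw [add_zero] at this
    linear_combination -this
  rw [neg_add_cancel, h0] at h
  linear_combination -h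

theorem cQ_eq' (m : ℕ) {q : QQ} (hq : ∀ j, m < j → q.1 j = 0) : cQ q = BQ (-eQ (m + 1)) q := by
  rw [BQ, QQ_bQ_neg_left, QQ_bQ_neg_right, QQ_bQ_single_left, QQ_bQ_single_right,
    if_neg (by omega), QQ_cQ_apply]
  have e1 : (q.1.sum fun j v => if m + 1 < j then v else (0 : ZMod 9)) = 0 := by
    apply Finset.sum_eq_zero
    intro i _
    dsimp only
    split_ifs with hi
    · exact hq i (by omega)
    · rfl
  have e2 : (q.1.sum fun i u => if i < m + 1 then u else 0) = q.1.sum fun _ u => u := by
    apply Finset.sum_congr rfl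
    intro i hi
    dsimp only
    by_cases him : i < m + 1
    · rw [if_pos him]
    · rw [if_neg him, hq i (by omega)]
  rw [e1, e2]
  ring

theorem cQ_eQ (m : ℕ) : cQ (-eQ (m + 1)) = -1 ∧ aQ (-eQ (m + 1)) = 0 := by
  rw [map_neg, map_neg, QQ_cQ_apply, QQ_aQ_apply, eQ]
  constructor
  · simp
  · simp

/-- `len q = min {m + 1 : q in Q_m}`, where `Q_m` is spanned by `e_0, …, e_m, v`; `0` for `0`. -/
noncomputable def lenQ (q : QQ) : ℕ :=
  open Classical in
  if q = 0 then 0 else (q.1.support.sup id) + 1

theorem lenQ_zero : lenQ 0 = 0 := by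
  unfold lenQ
  rw [if_pos rfl]

theorem QQ_lenQ_ne {q : QQ} (h : q ≠ 0) : lenQ q = (q.1.support.sup id) + 1 := by
  unfold lenQ
  rw [if_neg h]

theorem lenQ_neg (q : QQ) : lenQ (-q) = lenQ q := by
  by_cases h : q = 0
  · rw [h, neg_zero]
  · rw [QQ_lenQ_ne h, QQ_lenQ_ne (neg_ne_zero.mpr h), Prod.fst_neg, Finsupp.support_neg]

theorem lenQ_add (q r : QQ) : lenQ (q + r) ≤ max (lenQ q) (lenQ r) := by
  classical
  by_cases hq : q = 0
  · rw [hq, zero_add]; exact le_max_right _ _
  by_cases hr : r = 0
  · rw [hr, add_zero]; exact le_max_left _ _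
  by_cases hs : q + r = 0
  · rw [hs, lenQ_zero]; exact Nat.zero_le _
  rw [QQ_lenQ_ne hq, QQ_lenQ_ne hr, QQ_lenQ_ne hs, Prod.fst_add]
  have h : (q.1 + r.1).support.sup id ≤ (q.1.support ∪ r.1.support).sup id :=
    Finset.sup_mono Finsupp.support_add
  rw [Finset.sup_union] at h
  rcases le_total (q.1.support.sup id) (r.1.support.sup id) with h' | h'
  · rw [max_eq_right (by omega)]
    rw [sup_eq_right.mpr h'] at h
    omega
  · rw [max_eq_left (by omega)]
    rw [sup_eq_left.mpr h'] at h
    omega

theorem lenQ_fin (n : ℕ) : {q : QQ | lenQ q ≤ n}.Finite := by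
  classical
  let F : QQ → (Fin (n + 1) → ZMod 9) × ZMod 3 := fun q => (fun i => q.1 i, q.2)
  apply Set.Finite.of_injOn (f := F) (t := Set.univ) (fun _ _ => Set.mem_univ _) _ Set.finite_univ
  intro q hq r hr hqr
  have key : ∀ {q : QQ}, lenQ q ≤ n → ∀ j, n < j → q.1 j = 0 := by
    intro q hq j hj
    by_contra hne
    have hq0 : q ≠ 0 := by
      rintro rfl
      exact hne rfl
    rw [QQ_lenQ_ne hq0] at hq
    have : j ≤ q.1.support.sup id := Finset.le_sup (f := id) (Finsupp.mem_support_iff.mpr hne)
    omega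
  have h1 : ∀ i : Fin (n + 1), (F q).1 i = (F r).1 i := fun i => congrFun (congrArg Prod.fst hqr) i
  have h2 : (F q).2 = (F r).2 := congrArg Prod.snd hqr
  refine Prod.ext ?_ h2
  ext j
  by_cases hj : j < n + 1
  · exact h1 ⟨j, hj⟩
  · rw [key hq j (by omega), key hr j (by omega)]

end Pool.Agent.H.MP_e11395_an
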