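import Pool.Agent.H.MP_e11395_an.A.FF
import Pool.Agent.H.MP_e11395_an.A.QQ
import Pool.Agent.H.MP_e11395_an.A.Tw

/-!
# The group `GG = FF ⋊ QQ` and its cocycle
-/

set_option autoImplicit false
set_option linter.unusedSectionVars false

namespace Pool.Agent.H.MP_e11395_an

/-- The group `FF ⋊ QQ`. -/
@[ext] structure GG where
  f : FF
  q : QQ

namespace GG

noncomputable instance : Mul GG := ⟨fun x y => ⟨x.f * FF.sh (aQ x.q) y.f, x.q + y.q⟩⟩
instance : One GG := ⟨⟨1, 0⟩⟩
noncomputable instance : Inv GG := ⟨fun x => ⟨FF.sh (-aQ x.q) x.f⁻¹, -x.q⟩⟩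

theorem mul_f (x y : GG) : (x * y).f = x.f * FF.sh (aQ x.q) y.f := rfl
theorem mul_q (x y : GG) : (x * y).q = x.q + y.q := rfl
theorem one_f : (1 : GG).f = 1 := rfl
theorem one_q : (1 : GG).q = 0 := rfl
theorem inv_f (x : GG) : (x⁻¹).f = FF.sh (-aQ x.q) x.f⁻¹ := rfl
theorem inv_q (x : GG) : (x⁻¹).q = -x.q := rfl

noncomputable instance : Group GG where
  mul_assoc x y z := by
    apply GG.ext
    · simp only [mul_f, mul_q, map_add, FF.sh_add, map_mul, mul_assoc]
    · simp only [mul_q, add_assoc]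
  one_mul x := by
    apply GG.ext
    · rw [mul_f, one_f, one_q, map_zero, FF.sh_zero, one_mul]
    · rw [mul_q, one_q, zero_add]
  mul_one x := by
    apply GG.ext
    · rw [mul_f, one_f, map_one, mul_one]
    · rw [mul_q, one_q, add_zero]
  inv_mul_cancel x := by
    apply GG.ext
    · rw [mul_f, inv_f, inv_q, one_f, map_neg, ← map_mul, inv_mul_cancel, map_one]
    · rw [mul_q, inv_q, one_q, neg_add_cancel]

end GG

/-- The character `j ↦ exp(2 π i j / 9)` of `ℤ/9`. -/
noncomputable def e9 (j : Z9) : ℂ := ZMod.stdAddChar j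

theorem e9_add (i j : Z9) : e9 (i + j) = e9 i * e9 j := by
  unfold e9
  exact AddChar.map_add_eq_mul _ _ _
theorem e9_zero : e9 0 = 1 := by
  unfold e9
  exact AddChar.map_zero_eq_one _
theorem e9_norm (j : Z9) : ‖e9 j‖ = 1 := by
  unfold e9
  exact AddChar.norm_apply _ _
theorem e9_inj {i j : Z9} (h : e9 i = e9 j) : i = j := by
  unfold e9 at h
  exact ZMod.injective_stdAddChar h
theorem e9_conj (j : Z9) : (starRingEnd ℂ) (e9 j) = e9 (-j) := by
  unfold e9
  exact (AddChar.map_neg_eq_conj _ _).symm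

theorem GG_bQ_zero_left (r : QQ) : bQ 0 r = 0 := by
  have h := bQ_add_left 0 0 r
  rw [add_zero] at h
  exact left_eq_add.mp h

theorem GG_bQ_zero_right (q : QQ) : bQ q 0 = 0 := by
  have h := bQ_add_right q 0 0
  rw [add_zero] at h
  exact left_eq_add.mp h

theorem GG_max_le (a b : ℕ) : max a b ≤ a + b := by
  omega

/-- The twisted group of the construction. -/
noncomputable def tw : TwG GG where
  ω x y := e9 (bQ x.q y.q)
  ω_norm x y := by
    exact e9_norm _
  ω_one_left x := by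
    show e9 (bQ (1 : GG).q x.q) = 1
    rw [GG.one_q, GG_bQ_zero_left, e9_zero]
  ω_one_right x := by
    show e9 (bQ x.q (1 : GG).q) = 1
    rw [GG.one_q, GG_bQ_zero_right, e9_zero]
  ω_mul x y z := by
    show e9 (bQ x.q y.q) * e9 (bQ (x * y).q z.q) = e9 (bQ x.q (y * z).q) * e9 (bQ y.q z.q)
    rw [GG.mul_q, GG.mul_q, bQ_add_left, bQ_add_right, ← e9_add, ← e9_add]
    congr 1
    ring
  len x := FF.len x.f + lenQ x.q
  len_one := by
    show FF.len (1 : GG).f + lenQ (1 : GG).q = 0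
    rw [GG.one_f, GG.one_q, FF.len_one, lenQ_zero]
  len_inv x := by
    show FF.len (x⁻¹).f + lenQ (x⁻¹).q = FF.len x.f + lenQ x.q
    rw [GG.inv_f, GG.inv_q, FF.len_sh, FF.len_inv, lenQ_neg]
  len_mul x y := by
    show FF.len (x * y).f + lenQ (x * y).q ≤ FF.len x.f + lenQ x.q + (FF.len y.f + lenQ y.q)
    rw [GG.mul_f, GG.mul_q]
    have h1 := FF.len_mul x.f (FF.sh (aQ x.q) y.f)
    rw [FF.len_sh] at h1
    have h2 := (lenQ_add x.q y.q).trans (GG_max_le _ _)
    omega
  len_fin n := by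
    have h1 := FF.len_fin n
    have h2 := lenQ_fin n
    refine ((h1.prod h2).image (fun p : FF × QQ => GG.mk p.1 p.2)).subset ?_
    intro x hx
    have hx' : FF.len x.f + lenQ x.q ≤ n := hx
    refine ⟨(x.f, x.q), ⟨?_, ?_⟩, rfl⟩
    · show FF.len x.f ≤ n
      omega
    · show lenQ x.q ≤ n
      omega

end Pool.Agent.H.MP_e11395_an
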