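import Pool.Agent.H.MP_e11395_an.A.MulOp

/-!
# Part A1: Powers' averaging estimate
-/

set_option autoImplicit false
set_option linter.unusedSectionVars false

namespace Pool.Agent.H.MP_e11395_an

/-- Orthogonal ranges: `‖∑ p_i T_i‖² = ‖∑ star T_i p_i T_i‖ ≤ n`. -/
theorem norm_sum_proj_mul_le {A : Type} [CStarAlgebra A] (n : ℕ) (p T : Fin n → A)
    (hp : ∀ i, IsStarProjection (p i)) (ho : ∀ i j, i ≠ j → p i * p j = 0)
    (hT : ∀ i, ‖T i‖ ≤ 1) : ‖∑ i, p i * T i‖ ≤ Real.sqrt n := by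
  have hn : ∀ i, ‖star (T i) * p i * T i‖ ≤ 1 := by
    intro i
    have h1 : ‖p i‖ ≤ 1 := (hp i).norm_le
    calc ‖star (T i) * p i * T i‖ ≤ ‖star (T i)‖ * ‖p i‖ * ‖T i‖ :=
          (norm_mul_le _ _).trans (mul_le_mul_of_nonneg_right (norm_mul_le _ _) (norm_nonneg _))
      _ ≤ 1 * 1 * 1 := by
          rw [norm_star]
          gcongr
          · exact hT i
          · exact hT i
      _ = 1 := by norm_num
  have h2 : star (∑ i, p i * T i) * (∑ i, p i * T i) = ∑ i, star (T i) * p i * T i := by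
    rw [star_sum, Finset.sum_mul_sum]
    refine Finset.sum_congr rfl fun i _ => ?_
    rw [Finset.sum_eq_single i]
    · rw [star_mul, (hp i).isSelfAdjoint.star_eq]
      calc star (T i) * p i * (p i * T i) = star (T i) * (p i * p i) * T i := by
            simp only [mul_assoc]
        _ = _ := by rw [(hp i).isIdempotentElem.eq]
    · intro j _ hj
      rw [star_mul, (hp i).isSelfAdjoint.star_eq]
      calc star (T i) * p i * (p j * T j) = star (T i) * (p i * p j) * T j := by
            simp only [mul_assoc]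
        _ = 0 := by rw [ho i j (Ne.symm hj)]; simp
    · intro h; exact absurd (Finset.mem_univ i) h
  have h3 : ‖∑ i, p i * T i‖ * ‖∑ i, p i * T i‖ ≤ n := by
    rw [← CStarRing.norm_star_mul_self, h2]
    calc ‖∑ i, star (T i) * p i * T i‖ ≤ ∑ i, ‖star (T i) * p i * T i‖ := norm_sum_le _ _
      _ ≤ ∑ _i : Fin n, (1 : ℝ) := Finset.sum_le_sum fun i _ => hn i
      _ = n := by simp
  exact Real.le_sqrt_of_sq_le (by rw [sq]; exact h3)

/-- Powers' estimate. `T_i = p_i T_i + (1-p_i) T_i p_i`. -/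
theorem powers_norm {A : Type} [CStarAlgebra A] (n : ℕ) (p T : Fin n → A)
    (hp : ∀ i, IsStarProjection (p i)) (ho : ∀ i j, i ≠ j → p i * p j = 0)
    (hT : ∀ i, ‖T i‖ ≤ 1) (h : ∀ i, (1 - p i) * T i * (1 - p i) = 0) :
    ‖∑ i, T i‖ ≤ 2 * Real.sqrt n := by
  have h1 : ∑ i, T i = ∑ i, p i * T i + star (∑ i, p i * (star (T i) * (1 - p i))) := by
    rw [star_sum, ← Finset.sum_add_distrib]
    refine Finset.sum_congr rfl fun i _ => ?_
    rw [star_mul, star_mul, star_star, (hp i).isSelfAdjoint.star_eq, star_sub, star_one,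
      (hp i).isSelfAdjoint.star_eq]
    have h2 := h i
    have h3 : (1 - p i) * T i * (1 - p i) = (1 - p i) * T i - (1 - p i) * T i * p i := by
      rw [mul_sub, mul_one]
    rw [h3, sub_eq_zero] at h2
    rw [← h2]
    noncomm_ring
  rw [h1]
  refine (norm_add_le _ _).trans ?_
  rw [norm_star, two_mul]
  refine add_le_add (norm_sum_proj_mul_le n p T hp ho hT) (norm_sum_proj_mul_le n p _ hp ho ?_)
  intro i
  have h4 : ‖1 - p i‖ ≤ 1 := (hp i).one_sub.norm_le
  calc ‖star (T i) * (1 - p i)‖ ≤ ‖star (T i)‖ * ‖1 - p i‖ := norm_mul_le _ _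
    _ ≤ 1 * 1 := by
        rw [norm_star]
        exact mul_le_mul (hT i) h4 (norm_nonneg _) zero_le_one
    _ = 1 := one_mul 1

open Classical in
/-- The projection onto `ℓ²(C)`. -/
noncomputable def ind {G : Type} (C : Set G) : LL G := mop (fun x => if x ∈ C then 1 else 0)

theorem ind_bd {G : Type} (C : Set G) [DecidablePred (· ∈ C)] (x : G) :
    ‖(if x ∈ C then (1 : ℂ) else 0)‖ ≤ 1 := by
  split_ifs <;> simp

theorem ind_proj {G : Type} (C : Set G) : IsStarProjection (ind C) := by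
  classical
  refine ⟨?_, ?_⟩
  · rw [IsIdempotentElem, ind, mop_mul (ind_bd C) (ind_bd C)]
    congr 1
    funext x
    split_ifs <;> simp
  · rw [isSelfAdjoint_iff, ind, mop_star (ind_bd C)]
    congr 1
    funext x
    split_ifs <;> simp

theorem ind_mul_disjoint {G : Type} {C D : Set G} (h : ∀ x, x ∈ C → x ∉ D) : ind C * ind D = 0 := by
  classical
  rw [ind, ind, mop_mul (ind_bd C) (ind_bd D)]
  refine ext_of_dl fun y => ?_
  rw [mop_dl (fun x => by split_ifs <;> simp)]
  by_cases hC : y ∈ C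
  · simp [hC, h y hC]
  · simp [hC]

theorem one_sub_ind {G : Type} (C : Set G) : 1 - ind C = ind Cᶜ := by
  classical
  refine ext_of_dl fun y => ?_
  rw [ind, ind, sub_apply, mop_dl (ind_bd C), mop_dl (fun x => by split_ifs <;> simp)]
  by_cases hC : y ∈ C <;> simp [hC]

/-- `1_D lam_y 1_D = 0` if `y D` is disjoint from `D`. -/
theorem TwG.ind_lam_ind {G : Type} [Group G] (W : TwG G) {D : Set G} {y : G}
    (h : ∀ x ∈ D, y * x ∉ D) : ind D * W.lam y * ind D = 0 := by
  classical
  refine ext_of_dl fun x => ?_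
  change ind D (W.lam y (ind D (dl x))) = 0
  rw [ind, mop_dl (ind_bd D), map_smul, W.lam_dl, map_smul, map_smul, mop_dl (ind_bd D)]
  by_cases hx : x ∈ D
  · simp [h x hx]
  · simp [hx]

/-- **Powers' averaging.** Let `C ⊆ G` with complement `D`, `y D` disjoint from `D`, and let
`g_j`, `j < n`, be such that the sets `g_j C` are disjoint. Then
`‖∑ lam_{g_j} lam_y (lam_{g_j})*‖ ≤ 2 sqrt n`. Proof: `powers_norm` with
`T_j = lam_{g_j} lam_y (lam_{g_j})*` and `p_j = lam_{g_j} 1_C (lam_{g_j})* = 1_{g_j C}`; then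
`(1-p_j) T_j (1-p_j) = lam_{g_j} 1_D lam_y 1_D (lam_{g_j})* = 0`. -/
theorem TwG.powers {G : Type} [Group G] (W : TwG G) {C : Set G} {y : G}
    (h : ∀ x, x ∉ C → y * x ∈ C) (n : ℕ) (g : Fin n → G)
    (hg : ∀ i j, i ≠ j → ∀ u ∈ C, ∀ v ∈ C, g i * u ≠ g j * v) :
    ‖∑ j, W.lam (g j) * W.lam y * star (W.lam (g j))‖ ≤ 2 * Real.sqrt n := by
  classical
  have hU : ∀ x, W.lam x * star (W.lam x) = 1 := fun x => (Unitary.mem_iff.1 (W.lam_unitary x)).2
  have hU' : ∀ x, star (W.lam x) * W.lam x = 1 := fun x =>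
    (Unitary.mem_iff.1 (W.lam_unitary x)).1
  have hn : ∀ x, ‖W.lam x‖ ≤ 1 := fun x => (W.lamI x).norm_toContinuousLinearMap_le
  -- the projection onto `g C`
  have hp : ∀ (E : Set G) (x : G), W.lam x * ind E * star (W.lam x) =
      ind {z | x⁻¹ * z ∈ E} := by
    intro E x
    have h1 := W.mop_lam (ind_bd {z | x⁻¹ * z ∈ E}) x
    have h2 : (fun y => if x * y ∈ {z | x⁻¹ * z ∈ E} then (1 : ℂ) else 0) =
        fun y => if y ∈ E then 1 else 0 := by
      funext y
      have : (x * y ∈ {z | x⁻¹ * z ∈ E}) ↔ y ∈ E := by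
        rw [Set.mem_ofPred_eq, inv_mul_cancel_left]
      simp only [this]
    rw [h2] at h1
    have h3 : ind {z | x⁻¹ * z ∈ E} * W.lam x = W.lam x * ind E := h1
    rw [← h3, mul_assoc, hU, mul_one]
  refine powers_norm n (fun j => ind {z | (g j)⁻¹ * z ∈ C}) _ (fun j => ind_proj _) ?_ ?_ ?_
  · intro i j hij
    refine ind_mul_disjoint fun x hx hx' => ?_
    exact hg i j hij _ hx _ hx' (by rw [mul_inv_cancel_left, mul_inv_cancel_left])
  · intro i
    calc ‖W.lam (g i) * W.lam y * star (W.lam (g i))‖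
        ≤ ‖W.lam (g i)‖ * ‖W.lam y‖ * ‖star (W.lam (g i))‖ :=
          (norm_mul_le _ _).trans (mul_le_mul_of_nonneg_right (norm_mul_le _ _) (norm_nonneg _))
      _ ≤ 1 * 1 * 1 := by
          rw [norm_star]
          gcongr
          · exact hn _
          · exact hn _
          · exact hn _
      _ = 1 := by norm_num
  · intro i
    have h1 : (1 - ind {z | (g i)⁻¹ * z ∈ C}) =
        W.lam (g i) * ind Cᶜ * star (W.lam (g i)) := by
      rw [one_sub_ind, hp]
      rfl
    rw [h1]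
    have h2 : W.lam (g i) * ind Cᶜ * star (W.lam (g i)) *
        (W.lam (g i) * W.lam y * star (W.lam (g i))) *
        (W.lam (g i) * ind Cᶜ * star (W.lam (g i))) =
        W.lam (g i) * (ind Cᶜ * W.lam y * ind Cᶜ) * star (W.lam (g i)) := by
      calc _ = W.lam (g i) * ind Cᶜ * (star (W.lam (g i)) * W.lam (g i)) * W.lam y *
            (star (W.lam (g i)) * W.lam (g i)) * ind Cᶜ * star (W.lam (g i)) := by
              simp only [mul_assoc]
        _ = _ := by
              rw [hU', mul_one, mul_one]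
              simp only [mul_assoc]
    rw [h2, W.ind_lam_ind, mul_zero, zero_mul]
    intro x hx hx'
    exact hx' (h x hx)

end Pool.Agent.H.MP_e11395_an
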