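import Pool.Agent.H.MP_e11395_an.A.FFb
import Pool.Agent.H.MP_e11395_an.A.GG
import Pool.Agent.H.MP_e11395_an.A.D1
import Pool.Agent.H.MP_e11395_an.A.Pow

/-!
# Part A1: uniqueness of the trace of the twisted group algebra of `GG`
-/

set_option autoImplicit false
set_option linter.unusedSectionVars false

namespace Pool.Agent.H.MP_e11395_an

theorem UT_star_mul {G : Type} [Group G] (W : TwG G) (x : G) :
    star (W.lamD x) * W.lamD x = 1 :=
  TwG.DT.ext (Unitary.mem_iff.1 (W.lam_unitary x)).1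

theorem UT_mul_star {G : Type} [Group G] (W : TwG G) (x : G) :
    W.lamD x * star (W.lamD x) = 1 :=
  TwG.DT.ext (Unitary.mem_iff.1 (W.lam_unitary x)).2

theorem UT_mul {G : Type} [Group G] (W : TwG G) (x y : G) :
    W.lamD x * W.lamD y = W.ω x y • W.lamD (x * y) :=
  TwG.DT.ext (W.lam_mul x y)

theorem UT_star {G : Type} [Group G] (W : TwG G) (x : G) :
    star (W.lamD x) = (starRingEnd ℂ) (W.ω x x⁻¹) • W.lamD x⁻¹ :=
  TwG.DT.ext (W.lam_star x)

theorem UT_one {G : Type} [Group G] (W : TwG G) : W.lamD 1 = 1 := TwG.DT.ext W.lam_one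

theorem UT_conj {G : Type} [Group G] (W : TwG G) {t : W.DT →ₗ[ℂ] ℂ} (ht : IsTr t) (c : G)
    (b : W.DT) : t (W.lamD c * b * star (W.lamD c)) = t b := by
  rw [ht.comm, ← mul_assoc, UT_star_mul, one_mul]

/-- If `‖∑_{j<n} lam_{g_j} lam_y (lam_{g_j})*‖ ≤ 2 sqrt n` can be achieved for every `n`, then
`t(lam y) = 0`: `t(lam_g lam_y (lam_g)*) = t(lam_y)` by the trace property, so
`n |t(lam_y)| ≤ C 2 sqrt n` for all `n` (`isTr_bound`). -/
theorem TwG.tr_eq_zero {G : Type} [Group G] (W : TwG G) {t : W.DT →ₗ[ℂ] ℂ} (ht : IsTr t) {y : G}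
    (h : ∀ n : ℕ, ∃ g : Fin n → G,
      ‖∑ j, W.lam (g j) * W.lam y * star (W.lam (g j))‖ ≤ 2 * Real.sqrt n) :
    t (W.lamD y) = 0 := by
  obtain ⟨C, hC, hb⟩ := isTr_bound ht
  have key : ∀ n : ℕ, (n : ℝ) * ‖t (W.lamD y)‖ ≤ C * (2 * Real.sqrt n) := by
    intro n
    obtain ⟨g, hg⟩ := h n
    have h1 : t (∑ j, W.lamD (g j) * W.lamD y * star (W.lamD (g j))) = n * t (W.lamD y) := by
      rw [map_sum, Finset.sum_congr rfl fun j _ => UT_conj W ht (g j) (W.lamD y),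
        Finset.sum_const, Finset.card_univ, Fintype.card_fin, nsmul_eq_mul]
    have h2 : ‖∑ j, W.lamD (g j) * W.lamD y * star (W.lamD (g j))‖ ≤ 2 * Real.sqrt n := by
      rw [← TwG.DT.norm_val, ← TwG.DT.valHom_apply, map_sum]
      exact hg
    have h3 := hb (∑ j, W.lamD (g j) * W.lamD y * star (W.lamD (g j)))
    rw [h1, norm_mul, Complex.norm_natCast] at h3
    exact h3.trans (mul_le_mul_of_nonneg_left h2 hC)
  by_contra hne
  have hT : 0 < ‖t (W.lamD y)‖ := norm_pos_iff.2 hne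
  obtain ⟨m, hm⟩ := exists_nat_gt (2 * C / ‖t (W.lamD y)‖)
  have hm0 : (0 : ℝ) < m := lt_of_le_of_lt (by positivity) hm
  have h1 := key (m ^ 2)
  have h2 : Real.sqrt ((m ^ 2 : ℕ) : ℝ) = m := by
    push_cast
    exact Real.sqrt_sq hm0.le
  rw [h2] at h1
  push_cast at h1
  rw [div_lt_iff₀ hT] at hm
  nlinarith

/-- A tracial state which vanishes on all `lam x`, `x ≠ 1`, is the canonical one (`D_dense`,
`isTr_bound`, `tauD_isTr'`, `tauD_lamD`, `lam_one`). -/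
theorem TwG.tr_eq {G : Type} [Group G] (W : TwG G) {t : W.DT →ₗ[ℂ] ℂ} (ht : IsTr t)
    (h : ∀ x, x ≠ 1 → t (W.lamD x) = 0) : t = W.tauD := by
  obtain ⟨C, hC, hb⟩ := isTr_bound ht
  obtain ⟨C', hC', hb'⟩ := isTr_bound (tauD_isTr' W)
  refine LinearMap.ext fun T => ?_
  have h1 : ∀ x, t (W.lamD x) = W.tauD (W.lamD x) := by
    intro x
    by_cases hx : x = 1
    · rw [hx, UT_one, ht.one, (tauD_isTr' W).one]
    · rw [h x hx, tauD_lamD W hx]
  have h2 : ∀ ε > 0, ‖t T - W.tauD T‖ ≤ (C + C') * ε := by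
    intro ε hε
    obtain ⟨c, hc⟩ := W.D_dense T ε hε
    set S := c.sum fun x a => a • W.lamD x
    have h3 : t S = W.tauD S := by
      simp only [S, map_finsuppSum, map_smul, h1]
    have h4 : t T - W.tauD T = t (T - S) - W.tauD (T - S) := by
      rw [map_sub, map_sub, h3]
      ring
    rw [h4]
    calc ‖t (T - S) - W.tauD (T - S)‖ ≤ ‖t (T - S)‖ + ‖W.tauD (T - S)‖ := norm_sub_le _ _
      _ ≤ C * ‖T - S‖ + C' * ‖T - S‖ := add_le_add (hb _) (hb' _)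
      _ = (C + C') * ‖T - S‖ := by ring
      _ ≤ (C + C') * ε := mul_le_mul_of_nonneg_left hc.le (by positivity)
  have h5 : ‖t T - W.tauD T‖ ≤ 0 := by
    refine le_of_forall_pos_le_add fun e he => ?_
    have h6 := h2 (e / (C + C' + 1)) (by positivity)
    rw [zero_add]
    refine h6.trans ?_
    rw [mul_div_assoc', div_le_iff₀ (by positivity)]
    nlinarith
  exact sub_eq_zero.1 (norm_le_zero_iff.1 h5)

/-- Conjugation invariance: `t(lam (c x c⁻¹)) = 0` implies `t(lam x) = 0`: `lam c lam x (lam c)*` is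
a multiple of modulus one of `lam (c x c⁻¹)`. -/
theorem TwG.tr_conj {G : Type} [Group G] (W : TwG G) {t : W.DT →ₗ[ℂ] ℂ} (ht : IsTr t) {c x : G}
    (h : t (W.lamD (c * x * c⁻¹)) = 0) : t (W.lamD x) = 0 := by
  rw [← UT_conj W ht c, UT_star, UT_mul, smul_mul_smul_comm, UT_mul, smul_smul, map_smul, h,
    smul_zero]

theorem UT_letters : ∀ i : Z9, ∃ u v : Z9, u ≠ v ∧ u ≠ i ∧ v ≠ i := by decide

/-- (D2), first case: `(x.f, aQ x.q) ≠ (1, 0)`. By `FF.exists_conj` there are `c` and `i` such that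
`y := (c, 0) x (c, 0)⁻¹ = (c x.f (sh (aQ x.q) c)⁻¹, x.q)` starts with `s_i` and ends with
`s_{i + aQ x.q}`. With `C := {z | z.f ∈ FF.E i}`: `z ∉ C → y z ∈ C` (`FF.mul_sh_mem`). Choose letters
`u ≠ v`, both different from `i`, and `g_j := ((s_u s_v)^j, 0)`: `g_j C` are disjoint by
`FF.pow_disjoint`. So `TwG.powers` and `TwG.tr_eq_zero` apply; then `TwG.tr_conj`. -/
theorem tr_tw_one {t : tw.DT →ₗ[ℂ] ℂ} (ht : IsTr t) {x : GG} (hx : x.f ≠ 1 ∨ aQ x.q ≠ 0) :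
    t (tw.lamD x) = 0 := by
  obtain ⟨c, i, h1, h2⟩ := FF.exists_conj x.f (aQ x.q) hx
  obtain ⟨u, v, huv, hu, hv⟩ := UT_letters i
  set cc : GG := ⟨c, 0⟩ with hcc
  set y : GG := cc * x * cc⁻¹ with hy
  have hyq : y.q = x.q := by
    rw [hy, GG.mul_q, GG.mul_q, GG.inv_q]
    show 0 + x.q + -0 = x.q
    rw [zero_add, neg_zero, add_zero]
  have hyf : y.f = c * x.f * (FF.sh (aQ x.q) c)⁻¹ := by
    rw [hy, GG.mul_f, GG.mul_f, GG.mul_q, GG.inv_f]
    show c * FF.sh (aQ 0) x.f * FF.sh (aQ (0 + x.q)) (FF.sh (-aQ 0) c⁻¹) = _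
    rw [map_zero, neg_zero, FF.sh_zero, FF.sh_zero, zero_add, map_inv]
  refine tw.tr_conj ht (c := cc) (tw.tr_eq_zero ht fun n => ?_)
  refine ⟨fun j => ⟨(FF.s u * FF.s v) ^ (j : ℕ), 0⟩, ?_⟩
  refine tw.powers (C := {z | z.f ∈ FF.E i}) (y := y) ?_ n _ ?_
  · intro z hz
    show (y * z).f ∈ FF.E i
    rw [GG.mul_f, hyq, hyf]
    exact FF.mul_sh_mem h1 h2 hz
  · intro j k hjk a ha b hb hab
    have h3 := congrArg GG.f hab
    rw [GG.mul_f, GG.mul_f] at h3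
    have h4 : (FF.s u * FF.s v) ^ (j : ℕ) * FF.sh (aQ 0) a.f =
        (FF.s u * FF.s v) ^ (k : ℕ) * FF.sh (aQ 0) b.f := h3
    rw [map_zero, FF.sh_zero, FF.sh_zero] at h4
    exact FF.pow_disjoint huv hu hv (fun h => hjk (Fin.ext h)) ha hb h4

/-- (D2), second case: `x = (1, q)`, `aQ q = 0`, `q ≠ 0`. By `BQ_nondeg` there is `r` with
`BQ q r ≠ 0`; with `y = (1, r)`: `y x = x y`, so `lam y lam x (lam y)* = e9 (bQ r q - bQ q r) lam x`
and `e9 (..) ≠ 1` (`e9_inj`), while `t (lam y lam x (lam y)*) = t (lam x)`. -/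
theorem tr_tw_two {t : tw.DT →ₗ[ℂ] ℂ} (ht : IsTr t) {x : GG} (hx : x ≠ 1) (hf : x.f = 1)
    (hq : aQ x.q = 0) : t (tw.lamD x) = 0 := by
  have hq0 : x.q ≠ 0 := fun h => hx (GG.ext hf h)
  obtain ⟨r, hr⟩ : ∃ r, BQ x.q r ≠ 0 := by
    by_contra hcon
    push Not at hcon
    exact hq0 (BQ_nondeg hq hcon)
  set y : GG := ⟨1, r⟩ with hy
  have hyx : y * x = x * y := by
    apply GG.ext
    · rw [GG.mul_f, GG.mul_f, hf, hq]
      show 1 * FF.sh (aQ r) 1 = 1 * FF.sh 0 1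
      rw [map_one, map_one]
    · rw [GG.mul_q, GG.mul_q, add_comm]
  have h1 : tw.ω x y • (tw.lamD y * tw.lamD x) = tw.ω y x • (tw.lamD x * tw.lamD y) := by
    rw [UT_mul, UT_mul, smul_smul, smul_smul, hyx, mul_comm]
  have h2 := congrArg (fun a => t (a * star (tw.lamD y))) h1
  simp only [smul_mul_assoc, map_smul, smul_eq_mul] at h2
  rw [UT_conj tw ht, mul_assoc, UT_mul_star, mul_one] at h2
  have h3 : (tw.ω x y - tw.ω y x) * t (tw.lamD x) = 0 := by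
    rw [sub_mul, h2, sub_self]
  rcases mul_eq_zero.1 h3 with h4 | h4
  · exfalso
    have h5 : e9 (bQ x.q r) = e9 (bQ r x.q) := sub_eq_zero.1 h4
    exact hr (sub_eq_zero.2 (e9_inj h5))
  · exact h4

theorem uniqTr_tw' : tw.UniqTr := by
  intro t ht
  refine tw.tr_eq ht fun x hx => ?_
  by_cases hf : x.f = 1
  · by_cases hq : aQ x.q = 0
    · exact tr_tw_two ht hx hf hq
    · exact tr_tw_one ht (Or.inr hq)
  · exact tr_tw_one ht (Or.inl hf)

end Pool.Agent.H.MP_e11395_an
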