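import Pool.Agent.H.MP_e11395_an.A.KerGG
import Pool.Agent.H.MP_e11395_an.A.UT

/-!
# Part A1: the main results on `D`
-/

set_option autoImplicit false

open scoped ComplexOrder

namespace Pool.Agent.H.MP_e11395_an

/-- (D1) The canonical functional is a tracial state. -/
theorem tauD_isTr {G : Type} [Group G] (W : TwG G) : IsTr W.tauD := tauD_isTr' W

/-- (D1) The trace is faithful. -/
theorem tauD_faithful {G : Type} [Group G] (W : TwG G) (T : W.DT) (h : W.tauD (star T * T) = 0) :
    T = 0 := tauD_faithful' W T h

/-- (D2) The trace is unique. -/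
theorem uniqTr_tw : tw.UniqTr := uniqTr_tw'

/-- (D3) The kernel. -/
theorem ker_tw : tw.Ker := kerData_tw.ker'

end Pool.Agent.H.MP_e11395_an
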