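import Mathlib

/-!
# The free product `FF` of nine groups of order two
-/

set_option autoImplicit false
set_option linter.unusedSectionVars false

namespace Pool.Agent.H.MP_e11395_an

/-- `ℤ/9`. -/
abbrev Z9 : Type := ZMod 9

/-- Reduced words: lists of elements of `ℤ/9` without equal neighbours. These are the elements of
the free product of nine groups of order two. -/
@[ext] structure FF where
  w : List Z9
  red : w.IsChain (· ≠ ·)

instance : DecidableEq FF := fun a b => decidable_of_iff (a.w = b.w) (by
  constructor
  · exact FF.ext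
  · intro h; rw [h])

namespace FF

/-- Multiplication by a letter on the left. -/
def cons (s : Z9) : FF → FF
  | ⟨[], _⟩ => ⟨[s], by simp⟩
  | ⟨t :: l, h⟩ => if e : s = t then ⟨l, h.tail⟩ else ⟨s :: t :: l, by
      exact List.IsChain.cons_cons e h⟩

theorem FF_cons_nil (s : Z9) (h : ([] : List Z9).IsChain (· ≠ ·)) :
    cons s ⟨[], h⟩ = ⟨[s], by simp⟩ := rfl

theorem FF_cons_same (s : Z9) (l : List Z9) (h : (s :: l).IsChain (· ≠ ·)) :
    cons s ⟨s :: l, h⟩ = ⟨l, h.tail⟩ := by
  simp [cons]

theorem FF_cons_ne (s t : Z9) (l : List Z9) (h : (t :: l).IsChain (· ≠ ·)) (e : s ≠ t) :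
    cons s ⟨t :: l, h⟩ = ⟨s :: t :: l, List.IsChain.cons_cons e h⟩ := by
  simp [cons, e]

/-- A reduced word `s :: l` is obtained from `l` by multiplication. -/
theorem FF_cons_red (s : Z9) (l : List Z9) (h : (s :: l).IsChain (· ≠ ·)) :
    cons s ⟨l, h.tail⟩ = ⟨s :: l, h⟩ := by
  cases l with
  | nil => rfl
  | cons t l =>
    have e : s ≠ t := by
      rw [List.isChain_cons_cons] at h
      exact h.1
    rw [FF_cons_ne s t l _ e]

theorem cons_cons_self (s : Z9) (a : FF) : cons s (cons s a) = a := by
  obtain ⟨l, h⟩ := a
  cases l with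
  | nil => rw [FF_cons_nil, FF_cons_same]
  | cons t l =>
    by_cases e : s = t
    · subst e
      rw [FF_cons_same, FF_cons_red]
    · rw [FF_cons_ne s t l h e, FF_cons_same]

instance : One FF := ⟨⟨[], by simp⟩⟩

instance : Mul FF := ⟨fun a b => a.w.foldr cons b⟩

instance : Inv FF := ⟨fun a => ⟨a.w.reverse, by
  have h := a.red
  rw [List.isChain_reverse]
  exact List.IsChain.imp (fun _ _ hab => fun e => hab e.symm) h⟩⟩

theorem one_w : (1 : FF).w = [] := rfl
theorem mul_def (a b : FF) : a * b = a.w.foldr cons b := rfl
theorem inv_w (a : FF) : (a⁻¹).w = a.w.reverse := rfl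

theorem FF_cons_mul (s : Z9) (b c : FF) : cons s b * c = cons s (b * c) := by
  obtain ⟨l, h⟩ := b
  cases l with
  | nil => rfl
  | cons t l =>
    by_cases e : s = t
    · subst e
      rw [FF_cons_same]
      change l.foldr cons c = cons s (cons s (l.foldr cons c))
      rw [cons_cons_self]
    · rw [FF_cons_ne s t l h e]
      rfl

theorem FF_foldr_mul (l : List Z9) (b c : FF) : l.foldr cons b * c = l.foldr cons (b * c) := by
  induction l with
  | nil => rfl
  | cons t l ih => rw [List.foldr_cons, List.foldr_cons, FF_cons_mul, ih]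

theorem FF_foldr_one (l : List Z9) (h : l.IsChain (· ≠ ·)) : l.foldr cons 1 = ⟨l, h⟩ := by
  induction l with
  | nil => rfl
  | cons t l ih => rw [List.foldr_cons, ih h.tail, FF_cons_red]

theorem FF_foldr_rev (l : List Z9) (b : FF) : l.reverse.foldr cons (l.foldr cons b) = b := by
  induction l with
  | nil => rfl
  | cons t l ih =>
    rw [List.reverse_cons, List.foldr_append]
    simp only [List.foldr_cons, List.foldr_nil]
    rw [cons_cons_self, ih]

/-- The group structure: the action of `a` on reduced words is the composition of the letters. -/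
instance : Group FF where
  mul_assoc a b c := by
    rw [mul_def a b, mul_def a (b * c), FF_foldr_mul]
  one_mul a := by
    rfl
  mul_one a := by
    rw [mul_def, FF_foldr_one a.w a.red]
  inv_mul_cancel a := by
    have h := FF_foldr_rev a.w 1
    rw [FF_foldr_one a.w a.red] at h
    exact h

/-- The letter `s`. -/
def s (i : Z9) : FF := ⟨[i], by simp⟩

theorem s_mul (i : Z9) (a : FF) : s i * a = cons i a := rfl

theorem s_mul_s (i : Z9) : s i * s i = 1 := by
  rw [s_mul, s, FF_cons_same]
  rfl

theorem s_inv (i : Z9) : (s i)⁻¹ = s i := rfl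

/-- Every element is a product of letters. -/
theorem induct {P : FF → Prop} (h1 : P 1) (hs : ∀ i a, P a → P (s i * a)) (a : FF) : P a := by
  obtain ⟨l, h⟩ := a
  induction l with
  | nil => exact h1
  | cons t l ih =>
    have h2 := hs t _ (ih h.tail)
    rw [s_mul, FF_cons_red] at h2
    exact h2

/-- The letters generate. -/
theorem closure_s : Subgroup.closure (Set.range s) = ⊤ := by
  rw [eq_top_iff]
  intro a _
  refine induct (P := fun a => a ∈ Subgroup.closure (Set.range s)) (Subgroup.one_mem _) ?_ a
  intro i a ha
  exact Subgroup.mul_mem _ (Subgroup.subset_closure ⟨i, rfl⟩) ha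

/-- The word length. -/
def len (a : FF) : ℕ := a.w.length

theorem len_one : len 1 = 0 := rfl
theorem len_inv (a : FF) : len a⁻¹ = len a := by
  rw [len, inv_w, List.length_reverse, len]

theorem FF_len_cons (s : Z9) (b : FF) : len (cons s b) ≤ len b + 1 := by
  obtain ⟨l, h⟩ := b
  cases l with
  | nil => exact le_rfl
  | cons t l =>
    by_cases e : s = t
    · subst e
      rw [FF_cons_same]
      simp only [len, List.length_cons]
      omega
    · rw [FF_cons_ne s t l h e]
      simp [len]

theorem len_mul (a b : FF) : len (a * b) ≤ len a + len b := by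
  have key : ∀ (l : List Z9) (b : FF), len (l.foldr cons b) ≤ l.length + len b := by
    intro l b
    induction l with
    | nil => simp
    | cons t l ih =>
      have h2 := FF_len_cons t (l.foldr cons b)
      rw [List.foldr_cons, List.length_cons]
      omega
  exact key a.w b

theorem len_fin (n : ℕ) : {a : FF | len a ≤ n}.Finite := by
  have h1 : {l : List Z9 | l.length ≤ n}.Finite := List.finite_length_le Z9 n
  refine Set.Finite.of_finite_image (f := FF.w) (h1.subset ?_) ?_
  · rintro l ⟨a, ha, rfl⟩
    exact ha
  · intro a _ b _ hab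
    exact FF.ext hab

theorem FF_chain_map (f : Z9 → Z9) (hf : Function.Injective f) (l : List Z9)
    (h : l.IsChain (· ≠ ·)) : (l.map f).IsChain (· ≠ ·) := by
  rw [List.isChain_map]
  exact List.IsChain.imp (fun _ _ hab => fun e => hab (hf e)) h

/-- The shift of the letters by `c`, as a map. -/
theorem FF_map_cons (c s : Z9) (b : FF) (h1 : (b.w.map (· + c)).IsChain (· ≠ ·))
    (h2 : ((cons s b).w.map (· + c)).IsChain (· ≠ ·)) :
    (⟨(cons s b).w.map (· + c), h2⟩ : FF) = cons (s + c) ⟨b.w.map (· + c), h1⟩ := by
  obtain ⟨l, h⟩ := b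
  cases l with
  | nil => rfl
  | cons t l =>
    by_cases e : s = t
    · subst e
      apply FF.ext
      have h3 : cons (s + c) ⟨(s :: l).map (· + c), h1⟩
          = ⟨l.map (· + c), by exact h1.tail⟩ := by
        exact FF_cons_same (s + c) (l.map (· + c)) h1
      rw [h3]
      simp only [FF_cons_same]
    · have e' : s + c ≠ t + c := fun h => e (add_right_cancel h)
      apply FF.ext
      have h3 := FF_cons_ne (s + c) (t + c) (l.map (· + c)) h1 e'
      have h4 : cons (s + c) ⟨(t :: l).map (· + c), h1⟩
          = ⟨(s + c) :: (t + c) :: l.map (· + c), List.IsChain.cons_cons e' h1⟩ := h3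
      rw [h4]
      simp only [FF_cons_ne s t l h e, List.map_cons]

/-- The shift of the letters by `c`. -/
def sh (c : Z9) : FF ≃* FF where
  toFun a := ⟨a.w.map (· + c), by
    exact FF_chain_map _ (add_left_injective c) _ a.red⟩
  invFun a := ⟨a.w.map (· - c), by
    exact FF_chain_map _ (sub_left_injective) _ a.red⟩
  left_inv a := by
    apply FF.ext
    simp [List.map_map, Function.comp_def]
  right_inv a := by
    apply FF.ext
    simp [List.map_map, Function.comp_def]
  map_mul' a b := by
    obtain ⟨l, h⟩ := a
    have key : ∀ (l : List Z9) (b : FF),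
        (⟨(l.foldr cons b).w.map (· + c),
          FF_chain_map _ (add_left_injective c) _ (l.foldr cons b).red⟩ : FF)
        = (l.map (· + c)).foldr cons
          ⟨b.w.map (· + c), FF_chain_map _ (add_left_injective c) _ b.red⟩ := by
      intro l b
      induction l with
      | nil => rfl
      | cons t l ih =>
        refine Eq.trans (FF_map_cons c t (l.foldr cons b)
          (FF_chain_map _ (add_left_injective c) _ (l.foldr cons b).red) _) ?_
        exact congrArg (cons (t + c)) ih
    exact key l b

theorem sh_w (c : Z9) (a : FF) : (sh c a).w = a.w.map (· + c) := rfl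
theorem sh_zero (a : FF) : sh 0 a = a := by
  apply FF.ext
  rw [sh_w]
  simp
theorem sh_add (c d : Z9) (a : FF) : sh (c + d) a = sh c (sh d a) := by
  apply FF.ext
  rw [sh_w, sh_w, sh_w, List.map_map]
  apply List.map_congr_left
  intro x _
  simp only [Function.comp_apply]
  ring
theorem sh_s (c i : Z9) : sh c (s i) = s (i + c) := rfl
theorem len_sh (c : Z9) (a : FF) : len (sh c a) = len a := by
  rw [len, sh_w, List.length_map, len]

end FF

end Pool.Agent.H.MP_e11395_an
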