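import Pool.Agent.H.MP_e11395_an.A.FF

/-!
# Combinatorics of reduced words
-/

set_option autoImplicit false
set_option linter.unusedSectionVars false

namespace Pool.Agent.H.MP_e11395_an

namespace FF

/-! ### auxiliary lemmas on words -/

theorem FFb_cons_of_ne {i : Z9} {a : FF} (h : a.w.head? ≠ some i) : (cons i a).w = i :: a.w := by
  obtain ⟨l, hl⟩ := a
  cases l with
  | nil => rfl
  | cons t l =>
    have e : i ≠ t := fun e => h (by simp [e])
    simp only [cons, dif_neg e]

theorem FFb_cons_of_eq {i : Z9} {a : FF} {l : List Z9} (h : a.w = i :: l) :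
    (cons i a).w = l := by
  obtain ⟨l', hl⟩ := a
  dsimp only at h
  subst h
  simp [cons]

theorem FFb_foldr {b : FF} : ∀ l : List Z9, l.IsChain (· ≠ ·) →
    (∀ x ∈ l.getLast?, ∀ y ∈ b.w.head?, x ≠ y) → (l.foldr cons b).w = l ++ b.w
  | [], _, _ => rfl
  | [x], _, h => by
    change (cons x b).w = x :: b.w
    refine FFb_cons_of_ne fun e => ?_
    exact h x (by simp) x (by simp [e]) rfl
  | x :: y :: l, hc, h => by
    have ih := FFb_foldr (b := b) (y :: l) hc.tail (fun z hz => h z (by
      rw [List.getLast?_cons_cons]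
      exact hz))
    change (cons x ((y :: l).foldr cons b)).w = x :: ((y :: l) ++ b.w)
    rw [FFb_cons_of_ne, ih]
    rw [ih]
    intro e
    have e' : y = x := by simpa using e
    exact (List.isChain_cons_cons.1 hc).1 e'.symm

theorem FFb_mul_w {a b : FF} (h : ∀ x ∈ a.w.getLast?, ∀ y ∈ b.w.head?, x ≠ y) :
    (a * b).w = a.w ++ b.w := FFb_foldr a.w a.red h

theorem FFb_s_mul_w {i : Z9} {a : FF} (h : a.w.head? ≠ some i) : (s i * a).w = i :: a.w :=
  FFb_cons_of_ne h

theorem FFb_mul_s_of_ne {a : FF} {j : Z9} (h : a.w.getLast? ≠ some j) :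
    (a * s j).w = a.w ++ [j] := by
  refine FFb_mul_w fun x hx y hy => ?_
  have hy' : y = j := by
    have : (s j).w.head? = some j := rfl
    rw [this] at hy
    simpa using hy.symm
  subst hy'
  rintro rfl
  exact h hx

theorem FFb_mul_s_of_eq {a : FF} {j : Z9} {l : List Z9} (h : a.w = l ++ [j]) :
    (a * s j).w = l := by
  have hr := a.red
  rw [h, List.isChain_append] at hr
  have hb : (⟨l, hr.1⟩ : FF) * s j = a := by
    apply FF.ext
    rw [FFb_mul_s_of_ne, h]
    intro e
    exact hr.2.2 j e j (by simp) rfl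
  rw [← hb, mul_assoc, s_mul_s, mul_one]

theorem FFb_eq_one {a : FF} (h : a.w = []) : a = 1 := FF.ext h

/-- The words starting with the letter `i`. -/
def E (i : Z9) : Set FF := {a | a.w.head? = some i}

theorem E_disjoint {i j : Z9} (h : i ≠ j) : Disjoint (E i) (E j) := by
  rw [Set.disjoint_left]
  intro a ha hb
  have h1 : a.w.head? = some i := ha
  have h2 : a.w.head? = some j := hb
  rw [h1] at h2
  exact h (Option.some.inj h2)

/-- (F1) -/
theorem s_mul_mul_s_mem {i j : Z9} {a : FF} (ha : a ∉ E i) (h : a ≠ 1 ∨ j ≠ i) :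
    s i * a * s j ∈ E i := by
  have h1 : (s i * a).w = i :: a.w := FFb_s_mul_w ha
  by_cases h2 : (s i * a).w.getLast? = some j
  · obtain ⟨l, hl⟩ := List.getLast?_eq_some_iff.1 h2
    have h3 := FFb_mul_s_of_eq hl
    change (s i * a * s j).w.head? = some i
    rw [h3]
    rw [h1] at hl
    cases l with
    | nil =>
      exfalso
      have h4 : i :: a.w = [j] := hl
      have h5 : i = j ∧ a.w = [] := by simpa using h4
      rcases h with h | h
      · exact h (FFb_eq_one h5.2)
      · exact h h5.1.symm
    | cons t l =>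
      have h4 : i :: a.w = t :: (l ++ [j]) := hl
      have h5 : i = t := (List.cons.inj h4).1
      rw [h5]
      rfl
  · change (s i * a * s j).w.head? = some i
    rw [FFb_mul_s_of_ne h2, h1]
    rfl

theorem FFb_exists_letter : ∀ x y : Z9, ∃ i : Z9, i ≠ x ∧ i ≠ y := by decide

/-- (F2), first half: for `(f, a) ≠ (1, 0)` there are `c` and a letter `i` such that
`c f (a.c)⁻¹` starts with `i` and ends with `i + a`. -/
theorem exists_conj (f : FF) (a : Z9) (h : f ≠ 1 ∨ a ≠ 0) :
    ∃ (c : FF) (i : Z9), (c * f * (sh a c)⁻¹).w.head? = some i ∧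
      (c * f * (sh a c)⁻¹).w.getLast? = some (i + a) := by
  obtain ⟨i, hi1, hi2⟩ := FFb_exists_letter (f.w.head?.getD 0) (f.w.getLast?.getD 0 - a)
  refine ⟨s i, i, ?_⟩
  have e : (sh a (s i))⁻¹ = s (i + a) := by
    rw [sh_s, s_inv]
  rw [e]
  have h1 : (s i * f).w = i :: f.w := by
    apply FFb_s_mul_w
    intro h2
    rw [h2] at hi1
    exact hi1 rfl
  have h2 : (s i * f).w.getLast? ≠ some (i + a) := by
    rw [h1]
    by_cases h3 : f.w = []
    · rw [h3]
      have ha : a ≠ 0 := by
        rcases h with h | h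
        · exact absurd (FFb_eq_one h3) h
        · exact h
      intro h4
      have h5 : i = i + a := by simpa using h4
      exact ha (by simpa using h5)
    · intro h4
      rw [List.getLast?_cons] at h4
      obtain ⟨y, hy⟩ : ∃ y, f.w.getLast? = some y := by
        cases h5 : f.w.getLast? with
        | none => exact absurd (List.getLast?_eq_none_iff.1 h5) h3
        | some y => exact ⟨y, rfl⟩
      rw [hy] at h4 hi2
      have h5 : y = i + a := by simpa using h4
      apply hi2
      rw [Option.getD_some, h5]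
      ring
  rw [FFb_mul_s_of_ne h2, h1]
  refine ⟨rfl, ?_⟩
  rw [List.getLast?_append]
  rfl

/-- (F2), second half: if `f₁` starts with `i` and ends with `i + a` then `f₁ (a.D)` is contained
in `E i`, where `D` is the complement of `E i`. -/
theorem mul_sh_mem {f₁ : FF} {a i : Z9} (h1 : f₁.w.head? = some i)
    (h2 : f₁.w.getLast? = some (i + a)) {x : FF} (hx : x ∉ E i) : f₁ * sh a x ∈ E i := by
  have h3 : (f₁ * sh a x).w = f₁.w ++ (sh a x).w := by
    refine FFb_mul_w fun y hy z hz => ?_
    rw [h2] at hy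
    have hy' : y = i + a := by simpa using hy.symm
    rw [sh_w, List.head?_map] at hz
    rintro rfl
    apply hx
    change x.w.head? = some i
    cases h4 : x.w.head? with
    | none => rw [h4] at hz; simp at hz
    | some t =>
      rw [h4] at hz
      have h5 : t + a = y := by simpa using hz
      rw [hy'] at h5
      rw [add_right_cancel h5]
  change (f₁ * sh a x).w.head? = some i
  rw [h3, List.head?_append, h1]
  rfl

theorem FFb_pow {u v i : Z9} (huv : u ≠ v) (hv : v ≠ i) {y : FF} (hy : y ∈ E i) (m : ℕ) :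
    ((s u * s v) ^ (m + 1) * y).w.head? = some u := by
  have key : ∀ m : ℕ, ((s u * s v) ^ m * y).w.head? = some i ∨
      ((s u * s v) ^ m * y).w.head? = some u := by
    intro m
    induction m with
    | zero =>
      left
      rw [pow_zero, one_mul]
      exact hy
    | succ m ih =>
      right
      rw [pow_succ', mul_assoc, mul_assoc]
      have h1 : (s v * ((s u * s v) ^ m * y)).w = v :: ((s u * s v) ^ m * y).w := by
        apply FFb_s_mul_w
        intro h
        rcases ih with h2 | h2
        · rw [h2] at h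
          exact hv (Option.some.inj h).symm
        · rw [h2] at h
          exact huv (Option.some.inj h)
      rw [FFb_s_mul_w]
      · rfl
      · rw [h1]
        intro h
        exact huv (Option.some.inj h).symm
  rw [pow_succ', mul_assoc, mul_assoc]
  have h1 : (s v * ((s u * s v) ^ m * y)).w = v :: ((s u * s v) ^ m * y).w := by
    apply FFb_s_mul_w
    intro h
    rcases key m with h2 | h2
    · rw [h2] at h
      exact hv (Option.some.inj h).symm
    · rw [h2] at h
      exact huv (Option.some.inj h)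
  rw [FFb_s_mul_w]
  · rfl
  · rw [h1]
    intro h
    exact huv (Option.some.inj h).symm

theorem FFb_pow_lt {u v i : Z9} (huv : u ≠ v) (hu : u ≠ i) (hv : v ≠ i) {j k : ℕ}
    (hjk : j < k) {x y : FF} (hx : x ∈ E i) (hy : y ∈ E i) :
    (s u * s v) ^ j * x ≠ (s u * s v) ^ k * y := by
  intro h
  obtain ⟨m, rfl⟩ : ∃ m, k = j + (m + 1) := ⟨k - j - 1, by omega⟩
  rw [pow_add, mul_assoc] at h
  have h1 : x = (s u * s v) ^ (m + 1) * y := mul_left_cancel h
  have h2 := FFb_pow huv hv hy m
  rw [← h1] at h2
  have h3 : x.w.head? = some i := hx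
  rw [h3] at h2
  exact hu (Option.some.inj h2).symm

/-- (F2), third half: for distinct letters `u, v, i` the sets `(s_u s_v)^j E_i` are disjoint. -/
theorem pow_disjoint {u v i : Z9} (huv : u ≠ v) (hu : u ≠ i) (hv : v ≠ i) {j k : ℕ}
    (hjk : j ≠ k) {x y : FF} (hx : x ∈ E i) (hy : y ∈ E i) :
    (s u * s v) ^ j * x ≠ (s u * s v) ^ k * y := by
  rcases lt_or_gt_of_ne hjk with h | h
  · exact FFb_pow_lt huv hu hv h hx hy
  · exact fun e => FFb_pow_lt huv hu hv h hy hx e.symm

/-- `x` with the first `j` letters dropped. -/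
def dr (j : ℕ) (a : FF) : FF := ⟨a.w.drop j, by
  have h := a.red
  rw [← List.take_append_drop j a.w, List.isChain_append] at h
  exact h.2.1⟩

/-- (F3): `x z_j(x)⁻¹` has length at most `j`. -/
theorem len_mul_dr_inv (j : ℕ) (a : FF) : len (a * (dr j a)⁻¹) ≤ j := by
  have h := a.red
  rw [← List.take_append_drop j a.w, List.isChain_append] at h
  have h1 : (⟨a.w.take j, h.1⟩ : FF) * dr j a = a := by
    apply FF.ext
    rw [FFb_mul_w]
    · exact List.take_append_drop j a.w
    · exact h.2.2
  have h2 : a * (dr j a)⁻¹ = ⟨a.w.take j, h.1⟩ := by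
    rw [mul_inv_eq_iff_eq_mul, h1]
  rw [h2]
  exact List.length_take_le j a.w

theorem dr_sh (j : ℕ) (c : Z9) (a : FF) : dr j (sh c a) = sh c (dr j a) := by
  apply FF.ext
  rw [sh_w]
  change (sh c a).w.drop j = (a.w.drop j).map (· + c)
  rw [sh_w, List.map_drop]

/-- Multiplication by a letter moves the dropped words by one step. -/
theorem dr_s_mul (i : Z9) (a : FF) : (∀ j, dr (j + 1) (s i * a) = dr j a) ∨
    (∀ j, dr j (s i * a) = dr (j + 1) a) := by
  by_cases h : a.w.head? = some i
  · right
    intro j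
    obtain ⟨l, hl⟩ : ∃ l, a.w = i :: l := by
      cases h1 : a.w with
      | nil => rw [h1] at h; simp at h
      | cons t l =>
        rw [h1] at h
        exact ⟨l, by rw [Option.some.inj h]⟩
    apply FF.ext
    change (s i * a).w.drop j = a.w.drop (j + 1)
    rw [s_mul, FFb_cons_of_eq hl, hl]
    rfl
  · left
    intro j
    apply FF.ext
    change (s i * a).w.drop (j + 1) = a.w.drop j
    rw [FFb_s_mul_w h]
    rfl

end FF

end Pool.Agent.H.MP_e11395_an
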