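import Pool.Agent.H.MP_e11395_an.A.MulOp
import Pool.Agent.H.MP_e11395_an.A.Iface
import Pool.Agent.H.MP_e11395_an.A.CPg

/-!
# Part A1: kernels with almost invariance give nuclearity of the twisted group algebra
-/

set_option autoImplicit false
set_option linter.unusedSectionVars false

namespace Pool.Agent.H.MP_e11395_an

open Classical

variable {G : Type} [Group G]

/-- Almost invariant finitely supported probability kernels. -/
def TwG.KerData (_W : TwG G) : Prop :=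
  ∀ (S : Finset G) (ε : ℝ), 0 < ε → ∃ (E : Finset G) (b : G → G → ℝ),
    (∀ x e, 0 ≤ b x e) ∧ (∀ x e, e ∉ E → b x e = 0) ∧ (∀ x, ∑ e ∈ E, b x e = 1) ∧
    ∀ s ∈ S, ∀ x, ∑ e ∈ E, |b (s * x) (s * e) - b x e| ≤ ε

/-- The compression to `ℓ²(E)`. -/
noncomputable def compE (E : Finset G) : LL G →ₗ[ℂ] Matrix E E ℂ where
  toFun T := Matrix.of fun e f => inner ℂ (dl (e : G)) (T (dl (f : G)))
  map_add' S T := by ext e f; simp [inner_add_right]
  map_smul' c T := by ext e f; simp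

/-- `V_e = (lam e)* · mop (sqrt b(., e))`, that is
`V_e δ_x = sqrt (b x e) conj (ω(e, e⁻¹ x)) δ_{e⁻¹ x}`. -/
noncomputable def TwG.Vop (W : TwG G) (b : G → G → ℝ) (e : G) : LL G :=
  star (W.lam e) * mop (fun x => (Real.sqrt (b x e) : ℂ))

/-- `ψ(X) = ∑_{e,f} X_{ef} V_e* V_f`. -/
noncomputable def TwG.psi (W : TwG G) (b : G → G → ℝ) (E : Finset G) :
    Matrix E E ℂ →ₗ[ℂ] LL G where
  toFun X := ∑ e : E, ∑ f : E, X e f • (star (W.Vop b e) * W.Vop b f)
  map_add' X Y := by simp [add_smul, Finset.sum_add_distrib]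
  map_smul' c X := by simp [Finset.smul_sum, smul_smul]

/-- `ψ` is completely positive: `isCP_gram` with `Z_g X = ∑_e X_{ge} V_e`. -/
theorem TwG.psi_isCP (W : TwG G) (b : G → G → ℝ) (E : Finset G) : IsCP (W.psi b E) := by
  refine isCP_gram (W.psi b E) (κ := E)
    (fun g => { toFun := fun X => ∑ e : E, X g e • W.Vop b e
                map_add' := fun X Y => by simp [add_smul, Finset.sum_add_distrib]
                map_smul' := fun c X => by simp [Finset.smul_sum, smul_smul] }) ?_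
  intro X Y
  have h1 : ∀ e f : E, (star X * Y) e f = ∑ g : E, star (X g e) * Y g f := fun e f => by
    rw [Matrix.star_eq_conjTranspose, Matrix.mul_apply]
    rfl
  change ∑ e : E, ∑ f : E, (star X * Y) e f • (star (W.Vop b e) * W.Vop b f) =
    ∑ g : E, star (∑ e : E, X g e • W.Vop b e) * ∑ f : E, Y g f • W.Vop b f
  have h2 : ∀ g : E, star (∑ e : E, X g e • W.Vop b e) * ∑ f : E, Y g f • W.Vop b f =
      ∑ e : E, ∑ f : E, (star (X g e) * Y g f) • (star (W.Vop b e) * W.Vop b f) := by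
    intro g
    rw [star_sum, Finset.sum_mul_sum]
    refine Finset.sum_congr rfl fun e _ => Finset.sum_congr rfl fun f _ => ?_
    rw [star_smul, smul_mul_smul_comm]
  simp only [h2, h1, Finset.sum_smul]
  rw [Finset.sum_comm_cycle]

theorem KerG_le_one {b : G → G → ℝ} {E : Finset G} (h0 : ∀ x e, 0 ≤ b x e)
    (h1 : ∀ x e, e ∉ E → b x e = 0) (h2 : ∀ x, ∑ e ∈ E, b x e = 1) (x e : G) : b x e ≤ 1 := by
  by_cases he : e ∈ E
  · rw [← h2 x]
    exact Finset.single_le_sum (f := fun e => b x e) (fun e _ => h0 x e) he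
  · rw [h1 x e he]
    exact zero_le_one

theorem KerG_norm_sqrt {b : G → G → ℝ} {E : Finset G} (h0 : ∀ x e, 0 ≤ b x e)
    (h1 : ∀ x e, e ∉ E → b x e = 0) (h2 : ∀ x, ∑ e ∈ E, b x e = 1) (x e : G) :
    ‖(Real.sqrt (b x e) : ℂ)‖ ≤ 1 := by
  rw [Complex.norm_real, Real.norm_of_nonneg (Real.sqrt_nonneg _)]
  exact Real.sqrt_le_one.2 (KerG_le_one h0 h1 h2 x e)

theorem KerG_sum_le {b : G → G → ℝ} {E : Finset G} (h0 : ∀ x e, 0 ≤ b x e)
    (h1 : ∀ x e, e ∉ E → b x e = 0) (h2 : ∀ x, ∑ e ∈ E, b x e = 1) (s x : G) :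
    ∑ f ∈ E, b (s * x) (s * f) ≤ 1 := by
  have e1 : ∑ f ∈ E, b (s * x) (s * f) = ∑ e ∈ E.image (fun f => s * f), b (s * x) e :=
    (Finset.sum_image fun a _ c _ h => mul_left_cancel h).symm
  have e2 : ∑ e ∈ E.image (fun f => s * f), b (s * x) e =
      ∑ e ∈ (E.image (fun f => s * f)).filter (fun e => e ∈ E), b (s * x) e := by
    refine (Finset.sum_filter_of_ne fun e _ he => ?_).symm
    by_contra hne
    exact he (h1 _ _ hne)
  rw [e1, e2, ← h2 (s * x)]
  refine Finset.sum_le_sum_of_subset_of_nonneg (fun e he => (Finset.mem_filter.1 he).2)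
    fun e _ _ => h0 _ _

theorem KerG_mult_nonneg (b : G → G → ℝ) (E : Finset G) (s x : G) :
    0 ≤ ∑ f ∈ E, Real.sqrt (b (s * x) (s * f)) * Real.sqrt (b x f) :=
  Finset.sum_nonneg fun _ _ => mul_nonneg (Real.sqrt_nonneg _) (Real.sqrt_nonneg _)

theorem KerG_mult_le {b : G → G → ℝ} {E : Finset G} (h0 : ∀ x e, 0 ≤ b x e)
    (h1 : ∀ x e, e ∉ E → b x e = 0) (h2 : ∀ x, ∑ e ∈ E, b x e = 1) (s x : G) :
    ∑ f ∈ E, Real.sqrt (b (s * x) (s * f)) * Real.sqrt (b x f) ≤ 1 := by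
  have i1 : ∑ f ∈ E, Real.sqrt (b (s * x) (s * f)) * Real.sqrt (b x f) ≤
      ∑ f ∈ E, (b (s * x) (s * f) / 2 + b x f / 2) := by
    refine Finset.sum_le_sum fun f _ => ?_
    have a1 := Real.sq_sqrt (h0 (s * x) (s * f))
    have a2 := Real.sq_sqrt (h0 x f)
    nlinarith [sq_nonneg (Real.sqrt (b (s * x) (s * f)) - Real.sqrt (b x f))]
  rw [Finset.sum_add_distrib, ← Finset.sum_div, ← Finset.sum_div, h2 x] at i1
  have i2 := KerG_sum_le h0 h1 h2 s x
  linarith

theorem KerG_term_le {b : G → G → ℝ} {E : Finset G} (h0 : ∀ x e, 0 ≤ b x e)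
    (h1 : ∀ x e, e ∉ E → b x e = 0) (h2 : ∀ x, ∑ e ∈ E, b x e = 1) (s f x : G) :
    ‖((Real.sqrt (b (s * x) (s * f)) * Real.sqrt (b x f) : ℝ) : ℂ)‖ ≤ 1 := by
  rw [Complex.ofReal_mul, norm_mul]
  exact mul_le_one₀ (KerG_norm_sqrt h0 h1 h2 _ _) (norm_nonneg _) (KerG_norm_sqrt h0 h1 h2 _ _)

theorem KerG_Vop_star (W : TwG G) {b : G → G → ℝ} {E : Finset G} (h0 : ∀ x e, 0 ≤ b x e)
    (h1 : ∀ x e, e ∉ E → b x e = 0) (h2 : ∀ x, ∑ e ∈ E, b x e = 1) (e : G) :
    star (W.Vop b e) = mop (fun x => (Real.sqrt (b x e) : ℂ)) * W.lam e := by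
  rw [TwG.Vop, star_mul, star_star, mop_star fun x => KerG_norm_sqrt h0 h1 h2 x e]
  simp only [Complex.conj_ofReal]

/-- `ψ(1) = ∑_e V_e* V_e = mop (∑_e b(., e)) = 1` (`lam e` is unitary, `mop_mul`, `mop_star`). -/
theorem TwG.psi_one (W : TwG G) {b : G → G → ℝ} {E : Finset G} (h0 : ∀ x e, 0 ≤ b x e)
    (h1 : ∀ x e, e ∉ E → b x e = 0) (h2 : ∀ x, ∑ e ∈ E, b x e = 1) : W.psi b E 1 = 1 := by
  have hterm : ∀ e : E, star (W.Vop b e) * W.Vop b e =
      mop (fun x => ((b x e : ℝ) : ℂ)) := by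
    intro e
    rw [KerG_Vop_star W h0 h1 h2, TwG.Vop, mul_assoc, ← mul_assoc (W.lam (e : G)),
      Unitary.mul_star_self_of_mem (W.lam_unitary _), one_mul,
      mop_mul (fun x => KerG_norm_sqrt h0 h1 h2 x e) (fun x => KerG_norm_sqrt h0 h1 h2 x e)]
    congr 1
    funext x
    rw [← Complex.ofReal_mul, Real.mul_self_sqrt (h0 x e)]
  have hpsi : W.psi b E 1 = ∑ e : E, star (W.Vop b e) * W.Vop b e := by
    change ∑ e : E, ∑ f : E, (1 : Matrix E E ℂ) e f • (star (W.Vop b e) * W.Vop b f) = _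
    refine Finset.sum_congr rfl fun e _ => ?_
    rw [Finset.sum_eq_single e]
    · rw [Matrix.one_apply_eq, one_smul]
    · intro f _ hf
      rw [Matrix.one_apply_ne (Ne.symm hf), zero_smul]
    · intro h
      exact absurd (Finset.mem_univ e) h
  rw [hpsi, Finset.sum_congr rfl fun e _ => hterm e]
  refine ext_of_dl fun y => ?_
  rw [_root_.sum_apply]
  have hb : ∀ e : E, (mop (fun x => ((b x e : ℝ) : ℂ))) (dl y) = ((b y e : ℝ) : ℂ) • dl y := by
    intro e
    refine mop_dl (fun x => ?_) y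
    rw [Complex.norm_real, Real.norm_of_nonneg (h0 x e)]
    exact KerG_le_one h0 h1 h2 x e
  rw [Finset.sum_congr rfl fun e _ => hb e, ← Finset.sum_smul, ← Complex.ofReal_sum,
    Finset.sum_coe_sort E (fun e => b y e), h2 y, Complex.ofReal_one, one_smul]
  rfl

/-- `ψ(compE (lam s)) = lam s · mop m` with
`m x = ∑_{f ∈ E} sqrt (b(s x, s f)) sqrt (b(x, f))`. Proof: `⟨δ_e, lam_s δ_f⟩ = ω(s, f)` if `e = s f`
and `0` otherwise; so `ψ(..) = ∑_{f ∈ E, s f ∈ E} ω(s, f) star V_{s f} V_f`, and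
`star V_{sf} V_f = mop(sqrt b(., s f)) lam_{sf} (lam_f)* mop (sqrt b(., f))`,
`lam_s lam_f = ω(s,f) lam_{sf}`, so `ω(s, f) lam_{sf} (lam_f)* = lam_s`; then `TwG.mop_lam`. The terms
with `s f ∉ E` vanish because `b(s x, s f) = 0`. -/
theorem TwG.psi_lam (W : TwG G) {b : G → G → ℝ} {E : Finset G} (h0 : ∀ x e, 0 ≤ b x e)
    (h1 : ∀ x e, e ∉ E → b x e = 0) (h2 : ∀ x, ∑ e ∈ E, b x e = 1) (s : G) :
    W.psi b E (compE E (W.lam s)) = W.lam s *
      mop (fun x => ((∑ f ∈ E, Real.sqrt (b (s * x) (s * f)) * Real.sqrt (b x f) : ℝ) : ℂ)) := by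
  have hkey : ∀ f : G, W.ω s f • (star (W.Vop b (s * f)) * W.Vop b f) = W.lam s *
      mop (fun x => ((Real.sqrt (b (s * x) (s * f)) * Real.sqrt (b x f) : ℝ) : ℂ)) := by
    intro f
    have e1 : W.ω s f • (W.lam (s * f) * star (W.lam f)) = W.lam s := by
      rw [← smul_mul_assoc, ← W.lam_mul, mul_assoc,
        Unitary.mul_star_self_of_mem (W.lam_unitary _), mul_one]
    have e2 : star (W.Vop b (s * f)) * W.Vop b f =
        mop (fun x => (Real.sqrt (b x (s * f)) : ℂ)) * (W.lam (s * f) * star (W.lam f)) *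
          mop (fun x => (Real.sqrt (b x f) : ℂ)) := by
      rw [KerG_Vop_star W h0 h1 h2, TwG.Vop]
      simp only [mul_assoc]
    rw [e2, ← smul_mul_assoc, ← mul_smul_comm, e1,
      W.mop_lam (fun x => KerG_norm_sqrt h0 h1 h2 x (s * f)) s, mul_assoc,
      mop_mul (fun x => KerG_norm_sqrt h0 h1 h2 (s * x) (s * f))
        (fun x => KerG_norm_sqrt h0 h1 h2 x f)]
    congr 2
    funext x
    rw [Complex.ofReal_mul]
  have hent : ∀ e f : E, (compE E (W.lam s)) e f =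
      if (e : G) = s * f then W.ω s f else 0 := by
    intro e f
    change inner ℂ (dl (e : G)) (W.lam s (dl (f : G))) = _
    rw [W.lam_dl, inner_smul_right, inner_dl_left, dl_apply]
    split_ifs <;> simp
  have hsum : W.psi b E (compE E (W.lam s)) = ∑ f : E, W.lam s *
      mop (fun x => ((Real.sqrt (b (s * x) (s * f)) * Real.sqrt (b x f) : ℝ) : ℂ)) := by
    change ∑ e : E, ∑ f : E, (compE E (W.lam s)) e f • (star (W.Vop b e) * W.Vop b f) = _
    rw [Finset.sum_comm]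
    refine Finset.sum_congr rfl fun f _ => ?_
    by_cases hf : s * (f : G) ∈ E
    · rw [Finset.sum_eq_single (⟨s * f, hf⟩ : E)]
      · rw [hent, if_pos rfl]
        exact hkey f
      · intro e _ he
        rw [hent, if_neg fun h => he (Subtype.ext h), zero_smul]
      · intro h
        exact absurd (Finset.mem_univ _) h
    · rw [Finset.sum_eq_zero]
      · have hz : (fun x => ((Real.sqrt (b (s * x) (s * f)) * Real.sqrt (b x f) : ℝ) : ℂ)) =
            fun _ => 0 := by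
          funext x
          rw [h1 _ _ hf, Real.sqrt_zero, zero_mul, Complex.ofReal_zero]
        rw [hz]
        have hz2 : mop (fun _ : G => (0 : ℂ)) = 0 := by
          refine ext_of_dl fun y => ?_
          rw [mop_dl (fun _ => by simp), zero_smul]
          rfl
        rw [hz2, mul_zero]
      · intro e _
        rw [hent, if_neg, zero_smul]
        intro h
        exact hf (h ▸ e.2)
  rw [hsum, ← Finset.mul_sum]
  congr 1
  refine ext_of_dl fun y => ?_
  rw [_root_.sum_apply]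
  have hb : ∀ f : E, (mop (fun x => ((Real.sqrt (b (s * x) (s * f)) *
      Real.sqrt (b x f) : ℝ) : ℂ))) (dl y) =
      ((Real.sqrt (b (s * y) (s * f)) * Real.sqrt (b y f) : ℝ) : ℂ) • dl y := fun f =>
    mop_dl (fun x => KerG_term_le h0 h1 h2 s f x) y
  rw [Finset.sum_congr rfl fun f _ => hb f, ← Finset.sum_smul, ← Complex.ofReal_sum,
    Finset.sum_coe_sort E (fun f => Real.sqrt (b (s * y) (s * f)) * Real.sqrt (b y f)),
    mop_dl (fun x => ?_) y]
  rw [Complex.norm_real, Real.norm_of_nonneg (KerG_mult_nonneg b E s x)]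
  exact KerG_mult_le h0 h1 h2 s x

/-- `1 - ε ≤ m x ≤ 1` if `∑_{f ∈ E} |b(s x, s f) - b(x, f)| ≤ ε`: the lower bound by
`sqrt u sqrt v ≥ min u v ≥ v - |u - v|`, the upper bound by Cauchy-Schwarz and
`∑_{f ∈ E} b(s x, s f) ≤ ∑_{e ∈ E} b(s x, e) = 1`. -/
theorem TwG.abs_one_sub_mult_le (W : TwG G) {b : G → G → ℝ} {E : Finset G}
    (h0 : ∀ x e, 0 ≤ b x e)
    (h1 : ∀ x e, e ∉ E → b x e = 0) (h2 : ∀ x, ∑ e ∈ E, b x e = 1) {s : G} {ε : ℝ} {x : G}
    (h : ∑ f ∈ E, |b (s * x) (s * f) - b x f| ≤ ε) :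
    |∑ f ∈ E, Real.sqrt (b (s * x) (s * f)) * Real.sqrt (b x f) - 1| ≤ ε := by
  have hε : 0 ≤ ε := (Finset.sum_nonneg fun _ _ => abs_nonneg _).trans h
  have up := KerG_mult_le h0 h1 h2 s x
  have lo : ∑ f ∈ E, (b x f - |b (s * x) (s * f) - b x f|) ≤
      ∑ f ∈ E, Real.sqrt (b (s * x) (s * f)) * Real.sqrt (b x f) := by
    refine Finset.sum_le_sum fun f _ => ?_
    set u := b (s * x) (s * f) with hu
    set v := b x f with hv
    have hu0 : 0 ≤ u := h0 _ _
    have hv0 : 0 ≤ v := h0 _ _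
    rcases le_total u v with huv | huv
    · have a1 : Real.sqrt u ≤ Real.sqrt v := Real.sqrt_le_sqrt huv
      have a2 : Real.sqrt u * Real.sqrt u = u := Real.mul_self_sqrt hu0
      have a3 : Real.sqrt u * Real.sqrt u ≤ Real.sqrt u * Real.sqrt v :=
        mul_le_mul_of_nonneg_left a1 (Real.sqrt_nonneg _)
      have a4 : |u - v| = v - u := by rw [abs_of_nonpos (by linarith)]; ring
      rw [a4]
      linarith
    · have a1 : Real.sqrt v ≤ Real.sqrt u := Real.sqrt_le_sqrt huv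
      have a2 : Real.sqrt v * Real.sqrt v = v := Real.mul_self_sqrt hv0
      have a3 : Real.sqrt v * Real.sqrt v ≤ Real.sqrt u * Real.sqrt v :=
        mul_le_mul_of_nonneg_right a1 (Real.sqrt_nonneg _)
      have a4 := abs_nonneg (u - v)
      linarith
  rw [Finset.sum_sub_distrib, h2 x] at lo
  rw [abs_le]
  constructor <;> linarith

end Pool.Agent.H.MP_e11395_an
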