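import Pool.Agent.H.MP_e11395_an.A.KerG

/-!
# Part A1: kernels with almost invariance give nuclearity, second part
-/

set_option autoImplicit false
set_option linter.unusedSectionVars false

namespace Pool.Agent.H.MP_e11395_an

open Classical

variable {G : Type} [Group G]

theorem inner_dl_dl (x y : G) : inner ℂ (dl x : H2 G) (dl y) = if x = y then (1 : ℂ) else 0 := by
  rw [inner_dl_left, dl_apply]

/-- An operator with `|⟨η, A ξ⟩| ≤ C (‖η‖² + ‖ξ‖²) / 2` has norm at most `C`. -/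
theorem norm_le_of_inner_le {H : Type} [NormedAddCommGroup H] [InnerProductSpace ℂ H]
    (A : H →L[ℂ] H) {C : ℝ} (hC : 0 ≤ C)
    (h : ∀ ξ η : H, ‖inner ℂ η (A ξ)‖ ≤ C * (‖η‖ ^ 2 + ‖ξ‖ ^ 2) / 2) : ‖A‖ ≤ C := by
  refine ContinuousLinearMap.opNorm_le_bound _ hC fun ξ => ?_
  by_cases hA : A ξ = 0
  · rw [hA, norm_zero]; positivity
  have hξ : ξ ≠ 0 := fun h0 => hA (by rw [h0, map_zero])
  have hx : 0 < ‖ξ‖ := norm_pos_iff.2 hξ
  have hAx : 0 < ‖A ξ‖ := norm_pos_iff.2 hA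
  have h1 := h ξ (((‖ξ‖ / ‖A ξ‖ : ℝ) : ℂ) • A ξ)
  have h2 : ‖(((‖ξ‖ / ‖A ξ‖ : ℝ) : ℂ) • A ξ)‖ = ‖ξ‖ := by
    rw [norm_smul, Complex.norm_real, Real.norm_of_nonneg (by positivity)]
    field_simp
  have h3 : ‖inner ℂ (((‖ξ‖ / ‖A ξ‖ : ℝ) : ℂ) • A ξ) (A ξ)‖ = ‖ξ‖ * ‖A ξ‖ := by
    rw [inner_smul_left, norm_mul, inner_self_eq_norm_sq_to_K]
    rw [Complex.conj_ofReal, Complex.norm_real, Real.norm_of_nonneg (by positivity)]
    have : ‖((‖A ξ‖ : ℂ)) ^ 2‖ = ‖A ξ‖ ^ 2 := by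
      rw [norm_pow, Complex.norm_real, norm_norm]
    rw [show ((‖A ξ‖ : ℝ) : ℂ) = ((‖A ξ‖ : ℝ) : ℂ) from rfl] at this
    erw [this]
    field_simp
  rw [h2, h3] at h1
  have h4 : ‖ξ‖ * ‖A ξ‖ ≤ ‖ξ‖ * (C * ‖ξ‖) := by nlinarith
  exact le_of_mul_le_mul_left h4 hx

theorem sum_norm_Vop_sq (W : TwG G) {b : G → G → ℝ} {E : Finset G} (h0 : ∀ x e, 0 ≤ b x e)
    (h1 : ∀ x e, e ∉ E → b x e = 0) (h2 : ∀ x, ∑ e ∈ E, b x e = 1) (ξ : H2 G) :
    ∑ f : E, ‖W.Vop b f ξ‖ ^ 2 = ‖ξ‖ ^ 2 := by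
  have h3 := W.psi_one h0 h1 h2
  have h4 : inner ℂ ξ ((W.psi b E 1) ξ) = inner ℂ ξ ξ := by rw [h3]; rfl
  have h5 : (W.psi b E 1) ξ = ∑ f : E, star (W.Vop b f) (W.Vop b f ξ) := by
    change (∑ e : E, ∑ f : E, (1 : Matrix E E ℂ) e f • (star (W.Vop b e) * W.Vop b f)) ξ = _
    have : ∀ e : E, ∑ f : E, (1 : Matrix E E ℂ) e f • (star (W.Vop b e) * W.Vop b f) =
        star (W.Vop b e) * W.Vop b e := by
      intro e
      rw [Finset.sum_eq_single e]
      · simp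
      · intro f _ hf
        rw [Matrix.one_apply_ne (Ne.symm hf), zero_smul]
      · intro h; exact absurd (Finset.mem_univ e) h
    rw [Finset.sum_congr rfl fun e _ => this e, sum_apply]
    rfl
  rw [h5, inner_sum] at h4
  have h6 : ∀ f : E, inner ℂ ξ (star (W.Vop b f) (W.Vop b f ξ)) = ((‖W.Vop b f ξ‖ ^ 2 : ℝ) : ℂ) := by
    intro f
    rw [ContinuousLinearMap.star_eq_adjoint, ContinuousLinearMap.adjoint_inner_right,
      inner_self_eq_norm_sq_to_K]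
    push_cast; rfl
  rw [Finset.sum_congr rfl fun f _ => h6 f, inner_self_eq_norm_sq_to_K] at h4
  have h7 : ((∑ f : E, ‖W.Vop b f ξ‖ ^ 2 : ℝ) : ℂ) = ((‖ξ‖ ^ 2 : ℝ) : ℂ) := by
    push_cast at h4 ⊢
    exact h4
  exact_mod_cast h7

/-- `v_y = ∑_{f ∈ E} (V_f ξ)(y) δ_f`. -/
noncomputable def vv (W : TwG G) (b : G → G → ℝ) (E : Finset G) (ξ : H2 G) (y : G) : H2 G :=
  ∑ f : E, (W.Vop b f ξ : H2 G) y • dl (f : G)

theorem norm_vv_sq (W : TwG G) (b : G → G → ℝ) (E : Finset G) (ξ : H2 G) (y : G) :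
    ‖vv W b E ξ y‖ ^ 2 = ∑ f : E, ‖(W.Vop b f ξ : H2 G) y‖ ^ 2 := by
  have h1 : inner ℂ (vv W b E ξ y) (vv W b E ξ y) =
      ∑ f : E, ((‖(W.Vop b f ξ : H2 G) y‖ ^ 2 : ℝ) : ℂ) := by
    rw [vv, sum_inner]
    refine Finset.sum_congr rfl fun e _ => ?_
    rw [inner_sum, Finset.sum_eq_single e]
    · rw [inner_smul_left, inner_smul_right, inner_dl_dl, if_pos rfl, mul_one, Complex.conj_mul']
      push_cast; rfl
    · intro f _ hf
      rw [inner_smul_left, inner_smul_right, inner_dl_dl,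
        if_neg (fun h => hf (Subtype.ext h.symm))]
      simp
    · intro h; exact absurd (Finset.mem_univ e) h
  rw [inner_self_eq_norm_sq_to_K] at h1
  have h2 : ((‖vv W b E ξ y‖ ^ 2 : ℝ) : ℂ) = ((∑ f : E, ‖(W.Vop b f ξ : H2 G) y‖ ^ 2 : ℝ) : ℂ) := by
    push_cast
    rw [← Complex.ofReal_pow] at *
    push_cast at h1 ⊢
    exact h1
  exact_mod_cast h2

theorem hasSum_norm_sq (ζ : H2 G) : HasSum (fun y => ‖ζ y‖ ^ 2) (‖ζ‖ ^ 2) := by
  have h1 := lp.hasSum_norm (p := 2) (by simp) ζ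
  simpa using h1

theorem hasSum_norm_vv (W : TwG G) {b : G → G → ℝ} {E : Finset G} (h0 : ∀ x e, 0 ≤ b x e)
    (h1 : ∀ x e, e ∉ E → b x e = 0) (h2 : ∀ x, ∑ e ∈ E, b x e = 1) (ξ : H2 G) :
    HasSum (fun y => ‖vv W b E ξ y‖ ^ 2) (‖ξ‖ ^ 2) := by
  rw [← sum_norm_Vop_sq W h0 h1 h2 ξ]
  simp only [norm_vv_sq]
  exact hasSum_sum fun f _ => hasSum_norm_sq _

theorem hasSum_inner_vv (W : TwG G) (b : G → G → ℝ) (E : Finset G) (T : LL G) (ξ η : H2 G) :
    HasSum (fun y => inner ℂ (vv W b E η y) (T (vv W b E ξ y)))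
      (inner ℂ η (W.psi b E (compE E T) ξ)) := by
  have h1 : inner ℂ η (W.psi b E (compE E T) ξ) =
      ∑ e : E, ∑ f : E, inner ℂ (dl (e : G) : H2 G) (T (dl (f : G))) *
        inner ℂ (W.Vop b e η) (W.Vop b f ξ) := by
    change inner ℂ η ((∑ e : E, ∑ f : E, (compE E T) e f • (star (W.Vop b e) * W.Vop b f)) ξ) = _
    rw [sum_apply, inner_sum]
    refine Finset.sum_congr rfl fun e _ => ?_
    rw [sum_apply, inner_sum]
    refine Finset.sum_congr rfl fun f _ => ?_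
    change inner ℂ η ((compE E T) e f • (star (W.Vop b e) (W.Vop b f ξ))) = _
    rw [inner_smul_right, ContinuousLinearMap.star_eq_adjoint,
      ContinuousLinearMap.adjoint_inner_right]
    rfl
  rw [h1]
  have h2 : (fun y => inner ℂ (vv W b E η y) (T (vv W b E ξ y))) = fun y =>
      ∑ e : E, ∑ f : E, inner ℂ (dl (e : G) : H2 G) (T (dl (f : G))) *
        inner ℂ ((W.Vop b e η : H2 G) y) ((W.Vop b f ξ : H2 G) y) := by
    funext y
    rw [vv, vv, sum_inner]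
    refine Finset.sum_congr rfl fun e _ => ?_
    rw [map_sum, inner_sum]
    refine Finset.sum_congr rfl fun f _ => ?_
    rw [map_smul, inner_smul_left, inner_smul_right, RCLike.inner_apply]
    ring
  rw [h2]
  refine hasSum_sum fun e _ => hasSum_sum fun f _ => HasSum.mul_left _ ?_
  exact lp.hasSum_inner _ _

/-- The composition `ψ ∘ compE` is contractive. -/
theorem TwG.norm_psi_compE_le' (W : TwG G) {b : G → G → ℝ} {E : Finset G}
    (h0 : ∀ x e, 0 ≤ b x e) (h1 : ∀ x e, e ∉ E → b x e = 0) (h2 : ∀ x, ∑ e ∈ E, b x e = 1)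
    (T : LL G) : ‖W.psi b E (compE E T)‖ ≤ ‖T‖ := by
  refine norm_le_of_inner_le _ (norm_nonneg T) fun ξ η => ?_
  have hη := hasSum_norm_vv W h0 h1 h2 η
  have hξ := hasSum_norm_vv W h0 h1 h2 ξ
  have hs := hasSum_inner_vv W b E T ξ η
  have hle : ∀ y, ‖inner ℂ (vv W b E η y) (T (vv W b E ξ y))‖ ≤
      ‖T‖ / 2 * (‖vv W b E η y‖ ^ 2 + ‖vv W b E ξ y‖ ^ 2) := by
    intro y
    have h3 : ‖inner ℂ (vv W b E η y) (T (vv W b E ξ y))‖ ≤
        ‖vv W b E η y‖ * (‖T‖ * ‖vv W b E ξ y‖) :=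
      (norm_inner_le_norm _ _).trans (mul_le_mul_of_nonneg_left (T.le_opNorm _) (norm_nonneg _))
    have h4 : ‖T‖ * (‖vv W b E η y‖ * ‖vv W b E ξ y‖) ≤
        ‖T‖ * ((‖vv W b E η y‖ ^ 2 + ‖vv W b E ξ y‖ ^ 2) / 2) :=
      mul_le_mul_of_nonneg_left (by nlinarith [sq_nonneg (‖vv W b E η y‖ - ‖vv W b E ξ y‖)])
        (norm_nonneg T)
    calc _ ≤ _ := h3
      _ = ‖T‖ * (‖vv W b E η y‖ * ‖vv W b E ξ y‖) := by ring
      _ ≤ _ := h4
      _ = _ := by ring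
  have hsum : HasSum (fun y => ‖T‖ / 2 * (‖vv W b E η y‖ ^ 2 + ‖vv W b E ξ y‖ ^ 2))
      (‖T‖ / 2 * (‖η‖ ^ 2 + ‖ξ‖ ^ 2)) := (hη.add hξ).mul_left _
  have h5 : ‖inner ℂ η (W.psi b E (compE E T) ξ)‖ ≤ ‖T‖ / 2 * (‖η‖ ^ 2 + ‖ξ‖ ^ 2) := by
    rw [← hs.tsum_eq]
    exact tsum_of_norm_bounded hsum hle
  calc _ ≤ _ := h5
    _ = _ := by ring

/-- `‖ψ(comp (lam s)) - lam s‖ ≤ ε`. -/
theorem TwG.norm_psi_lam_sub (W : TwG G) {b : G → G → ℝ} {E : Finset G}
    (h0 : ∀ x e, 0 ≤ b x e) (h1 : ∀ x e, e ∉ E → b x e = 0) (h2 : ∀ x, ∑ e ∈ E, b x e = 1)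
    {s : G} {ε : ℝ} (hε : 0 ≤ ε) (h : ∀ x, ∑ f ∈ E, |b (s * x) (s * f) - b x f| ≤ ε) :
    ‖W.psi b E (compE E (W.lam s)) - W.lam s‖ ≤ ε := by
  set m : G → ℝ := fun x => ∑ f ∈ E, Real.sqrt (b (s * x) (s * f)) * Real.sqrt (b x f) with hm
  have hm1 : ∀ x, |m x - 1| ≤ ε := fun x => W.abs_one_sub_mult_le h0 h1 h2 (h x)
  have hm0 : ∀ x, 0 ≤ m x := fun x => Finset.sum_nonneg fun f _ => by positivity
  have hb1 : ∀ x, ∀ f ∈ E, b x f ≤ 1 := fun x f hf => by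
    rw [← h2 x]; exact Finset.single_le_sum (fun e _ => h0 x e) hf
  have hmle : ∀ x, m x ≤ 1 := by
    intro x
    have h4 : m x ≤ ∑ f ∈ E, (b (s * x) (s * f) + b x f) / 2 := by
      refine Finset.sum_le_sum fun f _ => ?_
      have h5 := Real.sq_sqrt (h0 (s * x) (s * f))
      have h6 := Real.sq_sqrt (h0 x f)
      nlinarith [sq_nonneg (Real.sqrt (b (s * x) (s * f)) - Real.sqrt (b x f))]
    have h5 : ∑ f ∈ E, b (s * x) (s * f) ≤ 1 := by
      have h6 : ∑ f ∈ E, b (s * x) (s * f) = ∑ e ∈ E.image (s * ·), b (s * x) e := by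
        rw [Finset.sum_image fun a _ c _ hac => mul_left_cancel hac]
      have h7 : ∑ e ∈ E.image (s * ·), b (s * x) e ≤ ∑ e ∈ E ∪ E.image (s * ·), b (s * x) e :=
        Finset.sum_le_sum_of_subset_of_nonneg Finset.subset_union_right fun e _ _ => h0 _ _
      have h8 : ∑ e ∈ E ∪ E.image (s * ·), b (s * x) e = ∑ e ∈ E, b (s * x) e :=
        (Finset.sum_subset Finset.subset_union_left fun e _ he => h1 _ e he).symm
      rw [h6]
      exact h7.trans (by rw [h8, h2])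
    rw [← Finset.sum_div, Finset.sum_add_distrib, h2] at h4
    linarith
  have hmn : ∀ x, ‖((m x : ℝ) : ℂ)‖ ≤ 1 := fun x => by
    rw [Complex.norm_real, Real.norm_of_nonneg (hm0 x)]; exact hmle x
  have hmn' : ∀ x, ‖((m x - 1 : ℝ) : ℂ)‖ ≤ 1 := fun x => by
    rw [Complex.norm_real, Real.norm_eq_abs, abs_le]
    constructor <;> linarith [hm0 x, hmle x]
  have h3 : W.psi b E (compE E (W.lam s)) - W.lam s =
      W.lam s * mop (fun x => ((m x - 1 : ℝ) : ℂ)) := by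
    rw [W.psi_lam h0 h1 h2]
    have h4 : (mop (fun x => ((m x - 1 : ℝ) : ℂ)) : LL G) = mop (fun x => ((m x : ℝ) : ℂ)) - 1 := by
      refine ext_of_dl fun y => ?_
      rw [mop_dl hmn', sub_apply, mop_dl hmn]
      push_cast
      rw [sub_smul, one_smul]
      rfl
    rw [h4, mul_sub, mul_one]
  rw [h3]
  calc _ ≤ ‖W.lam s‖ * ‖mop (fun x => ((m x - 1 : ℝ) : ℂ))‖ := norm_mul_le _ _
    _ ≤ 1 * ε := by
        refine mul_le_mul ?_ (norm_mop_le hmn' hε fun x => ?_) (norm_nonneg _) zero_le_one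
        · exact (W.lamI s).norm_toContinuousLinearMap_le
        · rw [Complex.norm_real, Real.norm_eq_abs]; exact hm1 x
    _ = ε := one_mul ε

/-- Kernels give nuclearity. -/
theorem TwG.KerData.ker' {W : TwG G} (h : W.KerData) : W.Ker := by
  intro S ε hε
  choose c hc using fun T : W.DT => W.D_dense T (ε / 4) (by positivity)
  -- the finite set of group elements and the total mass of the coefficients
  set F : Finset G := S.biUnion fun T => (c T).support with hF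
  set K : ℝ := 1 + ∑ T ∈ S, ∑ x ∈ (c T).support, ‖c T x‖ with hK
  have hKpos : 0 < K := by
    have : 0 ≤ ∑ T ∈ S, ∑ x ∈ (c T).support, ‖c T x‖ :=
      Finset.sum_nonneg fun T _ => Finset.sum_nonneg fun x _ => norm_nonneg _
    linarith
  set δ : ℝ := ε / (4 * K) with hδ
  have hδpos : 0 < δ := by positivity
  obtain ⟨E, b, h0, h1, h2, h3⟩ := h F δ hδpos
  refine ⟨E, W.psi b E, W.psi_isCP b E, W.psi_one h0 h1 h2, fun T hT => ?_⟩
  change ‖W.psi b E (compE E T.val) - T.val‖ < ε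
  -- the finite combination
  set T' : LL G := (c T).sum fun x a => a • W.lam x with hT'
  have hTT' : ‖T.val - T'‖ < ε / 4 := by
    have h5 := hc T
    rw [← DT.norm_val, DT.val_sub] at h5
    have h6 : ((c T).sum fun x a => a • W.lamD x : W.DT).val = T' := by
      have h7 := map_finsuppSum (DT.valHom : W.DT →⋆ₐ[ℂ] LL G) (c T) fun x a => a • W.lamD x
      rw [DT.valHom_apply] at h7
      rw [h7, hT']
      rfl
    rw [h6] at h5
    exact h5
  have hT'2 : ‖W.psi b E (compE E T') - T'‖ ≤ ε / 4 := by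
    have h5 : W.psi b E (compE E T') - T' =
        ∑ x ∈ (c T).support, c T x • (W.psi b E (compE E (W.lam x)) - W.lam x) := by
      rw [hT', Finsupp.sum, map_sum, map_sum, ← Finset.sum_sub_distrib]
      refine Finset.sum_congr rfl fun x _ => ?_
      rw [map_smul, map_smul, smul_sub]
    rw [h5]
    calc ‖∑ x ∈ (c T).support, c T x • (W.psi b E (compE E (W.lam x)) - W.lam x)‖
        ≤ ∑ x ∈ (c T).support, ‖c T x • (W.psi b E (compE E (W.lam x)) - W.lam x)‖ :=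
          norm_sum_le _ _
      _ ≤ ∑ x ∈ (c T).support, ‖c T x‖ * δ := by
          refine Finset.sum_le_sum fun x hx => ?_
          rw [norm_smul]
          refine mul_le_mul_of_nonneg_left ?_ (norm_nonneg _)
          exact W.norm_psi_lam_sub h0 h1 h2 hδpos.le fun y =>
            h3 x (Finset.mem_biUnion.2 ⟨T, hT, hx⟩) y
      _ = (∑ x ∈ (c T).support, ‖c T x‖) * δ := by rw [Finset.sum_mul]
      _ ≤ K * δ := by
          refine mul_le_mul_of_nonneg_right ?_ hδpos.le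
          have h6 : ∑ x ∈ (c T).support, ‖c T x‖ ≤ ∑ T ∈ S, ∑ x ∈ (c T).support, ‖c T x‖ :=
            Finset.single_le_sum (f := fun T => ∑ x ∈ (c T).support, ‖c T x‖)
              (fun T _ => Finset.sum_nonneg fun x _ => norm_nonneg _) hT
          linarith
      _ = ε / 4 := by rw [hδ]; field_simp
  have h7 : ‖W.psi b E (compE E T.val) - W.psi b E (compE E T')‖ ≤ ‖T.val - T'‖ := by
    rw [← map_sub, ← map_sub]
    exact W.norm_psi_compE_le' h0 h1 h2 _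
  have h8 : W.psi b E (compE E T.val) - T.val = (W.psi b E (compE E T.val) -
      W.psi b E (compE E T')) + (W.psi b E (compE E T') - T') + (T' - T.val) := by abel
  rw [h8]
  have h9 : ‖T' - T.val‖ < ε / 4 := by rw [norm_sub_rev]; exact hTT'
  calc _ ≤ ‖W.psi b E (compE E T.val) - W.psi b E (compE E T')‖ +
        ‖W.psi b E (compE E T') - T'‖ + ‖T' - T.val‖ := norm_add₃_le
    _ < ε := by linarith

end Pool.Agent.H.MP_e11395_an
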