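import Pool.Agent.H.MP_e11395_an.A.Nu
import Pool.Agent.H.MP_e11395_an.A.GG
import Pool.Agent.H.MP_e11395_an.A.KerG2

/-!
# Part A1: almost invariant kernels on the group `GG`
-/

set_option autoImplicit false
set_option linter.unusedSectionVars false

namespace Pool.Agent.H.MP_e11395_an

open Classical in
/-- The finite sets of elements of `GG` with both coordinates in given finite sets. -/
noncomputable def KerGG_prod (A : Finset FF) (B : Finset QQ) : Finset GG :=
  (A ×ˢ B).image fun p => GG.mk p.1 p.2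

theorem KerGG_mem {A : Finset FF} {B : Finset QQ} {e : GG} :
    e ∈ KerGG_prod A B ↔ e.f ∈ A ∧ e.q ∈ B := by
  classical
  unfold KerGG_prod
  rw [Finset.mem_image]
  constructor
  · rintro ⟨p, hp, rfl⟩
    exact Finset.mem_product.1 hp
  · rintro ⟨h1, h2⟩
    exact ⟨(e.f, e.q), Finset.mem_product.2 ⟨h1, h2⟩, rfl⟩

theorem KerGG_sum {A : Finset FF} {B : Finset QQ} (F : GG → ℝ) :
    ∑ e ∈ KerGG_prod A B, F e = ∑ q ∈ B, ∑ f ∈ A, F (GG.mk f q) := by
  classical
  unfold KerGG_prod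
  rw [Finset.sum_image, Finset.sum_product_right]
  intro p _ p' _ h
  have h' : GG.mk p.1 p.2 = GG.mk p'.1 p'.2 := h
  rw [GG.mk.injEq] at h'
  exact Prod.ext h'.1 h'.2

theorem KerGG_inv_sh {g : FF} {C : ℝ} {n : ℕ} (c : Z9) (x : FF) (A : Finset FF)
    (h : ∀ E : Finset FF,
      ∑ e ∈ E, |FF.nu n (g * FF.sh c x) (g * e) - FF.nu n (FF.sh c x) e| ≤ C) :
    ∑ e ∈ A, |FF.nu n (g * FF.sh c x) (g * FF.sh c e) - FF.nu n x e| ≤ C := by
  classical
  have h1 := h (A.image (FF.sh c))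
  rw [Finset.sum_image fun a _ b _ hab => (FF.sh c).injective hab] at h1
  simpa only [FF.nu_sh] using h1

/-- The kernels on `GG`. Given `S` and `ε`: let `m` be the maximum of `lenQ s.q`, `s ∈ S`, and
`Qm := {q | lenQ q ≤ m}`, a finite subgroup (`lenQ_add`, `lenQ_neg`, `lenQ_fin`); let `C` be the
maximum of the constants of `FF.nu_inv` for `s.f`, `s ∈ S`, and `n > C / ε`. Let
`E := {e | FF.len e.f ≤ n ∧ e.q ∈ Qm}` and
`b x e := if e.q ∈ Qm then nu n x.f e.f / card Qm else 0`. Sum one: `FF.sum_nu`.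
Almost invariance for `s = (g, r)`: `r ∈ Qm`, so `(s e).q = r + e.q ∈ Qm` iff `e.q ∈ Qm`;
`(s x).f = g · sh (aQ r) x.f`, `(s e).f = g · sh (aQ r) e.f`, and
`nu n x.f e.f = nu n (sh (aQ r) x.f) (sh (aQ r) e.f)` (`FF.nu_sh`); so for fixed `e.q ∈ Qm` the sum
over `e.f` is at most `(C / n) / card Qm` by `FF.nu_inv`; sum over `Qm`. -/
theorem kerData_tw : tw.KerData := by
  classical
  intro S ε hε
  choose Cf hCf0 hCf using FF.nu_inv
  have hCle : ∀ s ∈ S, Cf s.f ≤ ∑ s ∈ S, Cf s.f := fun s hs =>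
    Finset.single_le_sum (f := fun s : GG => Cf s.f) (fun i _ => hCf0 i.f) hs
  have hC0 : 0 ≤ ∑ s ∈ S, Cf s.f := Finset.sum_nonneg fun i _ => hCf0 i.f
  obtain ⟨n, hn, hnC⟩ : ∃ n : ℕ, 0 < n ∧ (∑ s ∈ S, Cf s.f) / n ≤ ε := by
    obtain ⟨k, hk⟩ := exists_nat_gt ((∑ s ∈ S, Cf s.f) / ε)
    refine ⟨k + 1, Nat.succ_pos k, ?_⟩
    have hpos : (0 : ℝ) < ((k + 1 : ℕ) : ℝ) := by positivity
    rw [div_le_iff₀ hpos]
    rw [div_lt_iff₀ hε] at hk
    push_cast
    nlinarith
  have hQmem : ∀ q, q ∈ (lenQ_fin (S.sup fun s => lenQ s.q)).toFinset ↔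
      lenQ q ≤ S.sup fun s => lenQ s.q := fun q => by
    rw [Set.Finite.mem_toFinset]; exact Iff.rfl
  generalize (lenQ_fin (S.sup fun s => lenQ s.q)).toFinset = Qm at hQmem
  have hEmem : ∀ a, a ∈ (FF.len_fin n).toFinset ↔ FF.len a ≤ n := fun a => by
    rw [Set.Finite.mem_toFinset]; exact Iff.rfl
  generalize (FF.len_fin n).toFinset = EF at hEmem
  have hQ0 : (0 : QQ) ∈ Qm := by
    rw [hQmem, lenQ_zero]; exact Nat.zero_le _
  have hN : (0 : ℝ) < (Qm.card : ℝ) := by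
    exact_mod_cast Finset.card_pos.2 ⟨0, hQ0⟩
  refine ⟨KerGG_prod EF Qm, fun x e => if e.q ∈ Qm then FF.nu n x.f e.f / Qm.card else 0,
    ?_, ?_, ?_, ?_⟩
  · intro x e
    by_cases h : e.q ∈ Qm
    · simp only [h, if_true]
      exact div_nonneg (FF.nu_nonneg _ _ _) hN.le
    · simp only [h, if_false]
      exact le_refl _
  · intro x e he
    by_cases h : e.q ∈ Qm
    · simp only [h, if_true]
      have h1 : e.f ∉ EF := fun h2 => he (KerGG_mem.2 ⟨h2, h⟩)
      rw [hEmem, not_le] at h1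
      rw [FF.nu_eq_zero h1, zero_div]
    · simp only [h, if_false]
  · intro x
    rw [KerGG_sum]
    have h1 : ∀ q ∈ Qm, ∑ f ∈ EF, (if (GG.mk f q).q ∈ Qm then
        FF.nu n x.f (GG.mk f q).f / Qm.card else 0) = 1 / Qm.card := by
      intro q hq
      simp only [hq, if_true]
      rw [← Finset.sum_div, FF.sum_nu hn x.f fun e he => (hEmem e).2 he]
    rw [Finset.sum_congr rfl h1, Finset.sum_const, nsmul_eq_mul]
    field_simp
  · intro s hs x
    rw [KerGG_sum]
    have hsq : lenQ s.q ≤ S.sup fun s => lenQ s.q :=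
      Finset.le_sup (f := fun s : GG => lenQ s.q) hs
    have h1 : ∀ q ∈ Qm, ∑ f ∈ EF, |(if (s * GG.mk f q).q ∈ Qm then
        FF.nu n (s * x).f (s * GG.mk f q).f / Qm.card else 0) -
        (if (GG.mk f q).q ∈ Qm then FF.nu n x.f (GG.mk f q).f / Qm.card else 0)| ≤
        ε / Qm.card := by
      intro q hq
      have hsum : s.q + q ∈ Qm := by
        rw [hQmem]
        exact (lenQ_add _ _).trans (max_le hsq ((hQmem q).1 hq))
      simp only [GG.mul_q, GG.mul_f, hsum, hq, if_true, ← sub_div, abs_div, abs_of_pos hN]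
      rw [← Finset.sum_div]
      refine div_le_div_of_nonneg_right ?_ hN.le
      refine (KerGG_inv_sh (C := Cf s.f / n) (aQ s.q) x.f EF fun E => ?_).trans ?_
      · exact hCf s.f n hn _ E
      · refine le_trans ?_ hnC
        exact div_le_div_of_nonneg_right (hCle s hs) (Nat.cast_nonneg n)
    refine (Finset.sum_le_sum h1).trans ?_
    rw [Finset.sum_const, nsmul_eq_mul]
    exact le_of_eq (by field_simp)

theorem ker_tw' : tw.Ker := kerData_tw.ker'

end Pool.Agent.H.MP_e11395_an
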