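import Pool.Agent.H.MP_e11395_an.A.Tw

/-!
# Part A1: multiplication operators on `ℓ²(G)`
-/

set_option autoImplicit false
set_option linter.unusedSectionVars false

open Filter Topology
open scoped ENNReal

namespace Pool.Agent.H.MP_e11395_an

/-- The multiplication operator by the function `c`, if `c` is bounded by `1` (and `0` otherwise). -/
noncomputable def mop {G : Type} (c : G → ℂ) : LL G := by
  classical
  exact if h : ∀ x, ‖c x‖ ≤ 1 then
    LinearMap.mkContinuous
      { toFun := fun ξ => ⟨fun y => c y * ξ y, by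
          have h1 := lp.memℓp ξ
          exact (memℓp_gen (by
            refine ((lp.memℓp ξ).summable (by simp)).of_nonneg_of_le (fun y => by positivity)
              fun y => ?_
            rw [norm_mul]
            exact Real.rpow_le_rpow (by positivity)
              (mul_le_of_le_one_left (norm_nonneg _) (h y)) (by simp)) :
            Memℓp (fun y => c y * ξ y) 2)⟩
        map_add' := fun ξ η => by ext y; exact mul_add _ _ _
        map_smul' := fun a ξ => by ext y; exact mul_left_comm _ _ _ } 1 (fun ξ => by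
          rw [one_mul]
          have h2 : (0 : ℝ) < (2 : ℝ≥0∞).toReal := by simp
          have h1 := (lp.memℓp ξ).summable h2
          refine lp.norm_le_of_tsum_le h2 (norm_nonneg ξ) ?_
          rw [lp.norm_rpow_eq_tsum h2]
          have hle : ∀ y, ‖c y * ξ y‖ ^ (2 : ℝ≥0∞).toReal ≤ ‖ξ y‖ ^ (2 : ℝ≥0∞).toReal := fun y => by
            rw [norm_mul]
            exact Real.rpow_le_rpow (by positivity)
              (mul_le_of_le_one_left (norm_nonneg _) (h y)) (by simp)
          exact Summable.tsum_le_tsum hle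
            (h1.of_nonneg_of_le (fun y => by positivity) hle) h1)
  else 0

theorem mop_apply {G : Type} {c : G → ℂ} (h : ∀ x, ‖c x‖ ≤ 1) (ξ : H2 G) (y : G) :
    (mop c ξ : H2 G) y = c y * ξ y := by
  rw [mop, dif_pos h]; rfl

theorem mop_dl {G : Type} {c : G → ℂ} (h : ∀ x, ‖c x‖ ≤ 1) (y : G) :
    mop c (dl y) = c y • dl y := by
  ext z
  rw [mop_apply h, lp.coeFn_smul, Pi.smul_apply, smul_eq_mul]
  by_cases hz : z = y
  · subst hz; rfl
  · rw [dl_ne hz, mul_zero, mul_zero]

/-- `‖mop c‖ ≤ C` if `|c| ≤ C` (and `|c| ≤ 1`). -/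
theorem norm_mop_le {G : Type} {c : G → ℂ} (h : ∀ x, ‖c x‖ ≤ 1) {C : ℝ} (hC : 0 ≤ C)
    (h' : ∀ x, ‖c x‖ ≤ C) : ‖mop c‖ ≤ C := by
  refine ContinuousLinearMap.opNorm_le_bound _ hC fun ξ => ?_
  have h2 : (0 : ℝ) < (2 : ℝ≥0∞).toReal := by simp
  have h1 := (lp.memℓp ξ).summable h2
  refine lp.norm_le_of_tsum_le h2 (by positivity) ?_
  rw [Real.mul_rpow hC (norm_nonneg _), lp.norm_rpow_eq_tsum h2, ← tsum_mul_left]
  have hle : ∀ y, ‖(mop c ξ : H2 G) y‖ ^ (2 : ℝ≥0∞).toReal ≤
      C ^ (2 : ℝ≥0∞).toReal * ‖ξ y‖ ^ (2 : ℝ≥0∞).toReal := fun y => by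
    rw [mop_apply h, norm_mul, ← Real.mul_rpow hC (norm_nonneg _)]
    exact Real.rpow_le_rpow (by positivity) (mul_le_mul_of_nonneg_right (h' y) (norm_nonneg _))
      (by simp)
  exact Summable.tsum_le_tsum hle
    ((h1.mul_left _).of_nonneg_of_le (fun y => by positivity) hle) (h1.mul_left _)

/-- Two operators which agree on the basis vectors are equal. (Same as `TwG.ext_dl`.) -/
theorem ext_of_dl {G : Type} {S T : LL G} (h : ∀ y, S (dl y) = T (dl y)) : S = T := by
  classical
  ext1 ξ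
  have h1 : HasSum (fun y => lp.single 2 y (ξ y) : G → H2 G) ξ := lp.hasSum_single (by simp) ξ
  have h0 : ∀ y, (lp.single 2 y (ξ y) : H2 G) = ξ y • dl y := fun y => by
    rw [dl, ← lp.single_smul]
    simp
  have h2 := h1.mapL S
  have h3 := h1.mapL T
  have h4 : (fun y => S (lp.single 2 y (ξ y) : H2 G)) = fun y => T (lp.single 2 y (ξ y)) := by
    funext y
    rw [h0, map_smul, map_smul, h y]
  rw [h4] at h2
  exact h2.unique h3

theorem mop_mul {G : Type} {c d : G → ℂ} (hc : ∀ x, ‖c x‖ ≤ 1) (hd : ∀ x, ‖d x‖ ≤ 1) :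
    mop c * mop d = mop (fun x => c x * d x) := by
  have hcd : ∀ x, ‖c x * d x‖ ≤ 1 := fun x => by
    rw [norm_mul]; exact mul_le_one₀ (hc x) (norm_nonneg _) (hd x)
  ext ξ y
  change (mop c (mop d ξ) : H2 G) y = _
  rw [mop_apply hc, mop_apply hd, mop_apply hcd, mul_assoc]

theorem mop_star {G : Type} {c : G → ℂ} (hc : ∀ x, ‖c x‖ ≤ 1) :
    star (mop c) = mop (fun x => (starRingEnd ℂ) (c x)) := by
  have hc' : ∀ x, ‖(starRingEnd ℂ) (c x)‖ ≤ 1 := fun x => by
    rw [RCLike.norm_conj]; exact hc x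
  rw [ContinuousLinearMap.star_eq_adjoint, eq_comm, ContinuousLinearMap.eq_adjoint_iff]
  intro ξ η
  rw [lp.inner_eq_tsum, lp.inner_eq_tsum]
  refine tsum_congr fun y => ?_
  rw [mop_apply hc, mop_apply hc']
  simp only [RCLike.inner_apply, map_mul, RingHomCompTriple.comp_apply, RingHom.id_apply]
  ring

theorem mop_one {G : Type} : mop (fun _ : G => (1 : ℂ)) = 1 := by
  ext ξ y
  rw [mop_apply (by simp)]
  simp

/-- Commutation with the twisted translations. -/
theorem TwG.mop_lam {G : Type} [Group G] (W : TwG G) {c : G → ℂ} (hc : ∀ x, ‖c x‖ ≤ 1) (x : G) :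
    mop c * W.lam x = W.lam x * mop (fun y => c (x * y)) := by
  ext ξ y
  change (mop c (W.lam x ξ) : H2 G) y = (W.lam x (mop _ ξ) : H2 G) y
  rw [mop_apply hc, W.lam_apply, W.lam_apply, mop_apply (fun y => hc _), mul_inv_cancel_left]
  ring

end Pool.Agent.H.MP_e11395_an
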