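import Pool.Agent.H.MP_e11395_an.A.FFb

/-!
# Part A1: almost invariant kernels on the free product
-/

set_option autoImplicit false
set_option linter.unusedSectionVars false

namespace Pool.Agent.H.MP_e11395_an

namespace FF

/-- `μ_x = (1/n) ∑_{j<n} δ_{z_j(x)}`, where `z_j(x)` is `x` with the first `j` letters dropped. -/
noncomputable def mu (n : ℕ) (x y : FF) : ℝ :=
  ((Finset.range n).filter fun j => dr j x = y).card / n

/-- `ν_x(e) = μ_x(e⁻¹ x)`. -/
noncomputable def nu (n : ℕ) (x e : FF) : ℝ := mu n x (e⁻¹ * x)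

theorem nu_nonneg (n : ℕ) (x e : FF) : 0 ≤ nu n x e := by
  unfold nu mu
  positivity

theorem Nu_iff (x e : FF) (j : ℕ) : dr j x = e⁻¹ * x ↔ x * (dr j x)⁻¹ = e := by
  rw [mul_inv_eq_iff_eq_mul, eq_inv_mul_iff_mul_eq, eq_comm]

/-- The support of `ν_x` is in the ball of radius `n`: if `dr j x = e⁻¹ x` then
`e = x (dr j x)⁻¹` (`len_mul_dr_inv`). -/
theorem nu_eq_zero {n : ℕ} {x e : FF} (h : n < len e) : nu n x e = 0 := by
  unfold nu mu
  have h1 : ((Finset.range n).filter fun j => dr j x = e⁻¹ * x) = ∅ := by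
    rw [Finset.filter_eq_empty_iff]
    intro j hj h2
    rw [Nu_iff] at h2
    have h3 := len_mul_dr_inv j x
    rw [h2] at h3
    have h4 := Finset.mem_range.1 hj
    omega
  rw [h1]
  simp

/-- Any finite set `E` which contains the ball of radius `n` has `ν_x`-mass one: the map
`j ↦ x (dr j x)⁻¹` maps `range n` to `E`, and `∑_{e ∈ E} card {j | x (dr j x)⁻¹ = e} = n`
(`Finset.card_eq_sum_card_fiberwise`). -/
theorem sum_nu {n : ℕ} (hn : 0 < n) (x : FF) {E : Finset FF} (hE : ∀ e, len e ≤ n → e ∈ E) :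
    ∑ e ∈ E, nu n x e = 1 := by
  have h1 : (Finset.range n).card =
      ∑ e ∈ E, ((Finset.range n).filter fun j => x * (dr j x)⁻¹ = e).card :=
    Finset.card_eq_sum_card_fiberwise fun j hj => hE _
      ((len_mul_dr_inv j x).trans (Finset.mem_range.1 hj).le)
  have h2 : ∑ e ∈ E, nu n x e =
      (∑ e ∈ E, (((Finset.range n).filter fun j => x * (dr j x)⁻¹ = e).card : ℝ)) / n := by
    rw [Finset.sum_div]
    refine Finset.sum_congr rfl fun e _ => ?_
    unfold nu mu
    simp only [Nu_iff]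
  rw [h2, ← Nat.cast_sum, ← h1, Finset.card_range]
  exact div_self (by exact_mod_cast hn.ne')

/-- Equivariance under the shifts (`dr_sh`). -/
theorem nu_sh (n : ℕ) (c : Z9) (x e : FF) : nu n (sh c x) (sh c e) = nu n x e := by
  unfold nu mu
  have h1 : ∀ j, (dr j (sh c x) = (sh c e)⁻¹ * sh c x) ↔ (dr j x = e⁻¹ * x) := by
    intro j
    rw [dr_sh, ← map_inv, ← map_mul]
    exact (sh c).injective.eq_iff
  simp only [h1]

theorem Nu_shift (a : ℕ → FF) (n : ℕ) (F : Finset FF) :
    ∑ y ∈ F, |(((Finset.range n).filter fun j => a j = y).card : ℝ) / n -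
      (((Finset.range n).filter fun j => a (j + 1) = y).card : ℝ) / n| ≤ 2 / n := by
  have h1 : ∀ y, |(((Finset.range n).filter fun j => a j = y).card : ℝ) / n -
      (((Finset.range n).filter fun j => a (j + 1) = y).card : ℝ) / n| ≤
      ((if a n = y then (1 : ℝ) else 0) + (if a 0 = y then (1 : ℝ) else 0)) / n := by
    intro y
    have e1 : (((Finset.range n).filter fun j => a j = y).card : ℝ) =
        ∑ j ∈ Finset.range n, if a j = y then (1 : ℝ) else 0 := by
      rw [Finset.sum_boole]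
    have e2 : (((Finset.range n).filter fun j => a (j + 1) = y).card : ℝ) =
        ∑ j ∈ Finset.range n, if a (j + 1) = y then (1 : ℝ) else 0 := by
      rw [Finset.sum_boole]
    have e3 := Finset.sum_range_succ (fun j => if a j = y then (1 : ℝ) else 0) n
    have e4 := Finset.sum_range_succ' (fun j => if a j = y then (1 : ℝ) else 0) n
    rw [← sub_div, abs_div, Nat.abs_cast]
    refine div_le_div_of_nonneg_right ?_ (Nat.cast_nonneg n)
    rw [e1, e2]
    have e5 : (∑ j ∈ Finset.range n, if a j = y then (1 : ℝ) else 0) -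
        (∑ j ∈ Finset.range n, if a (j + 1) = y then (1 : ℝ) else 0) =
        (if a 0 = y then (1 : ℝ) else 0) - (if a n = y then (1 : ℝ) else 0) := by
      linarith
    rw [e5]
    have e6 : (0 : ℝ) ≤ if a 0 = y then (1 : ℝ) else 0 := by split_ifs <;> norm_num
    have e7 : (0 : ℝ) ≤ if a n = y then (1 : ℝ) else 0 := by split_ifs <;> norm_num
    rw [abs_le]
    constructor <;> linarith
  refine (Finset.sum_le_sum fun y _ => h1 y).trans ?_
  rw [← Finset.sum_div, Finset.sum_add_distrib, Finset.sum_ite_eq, Finset.sum_ite_eq]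
  refine div_le_div_of_nonneg_right ?_ (Nat.cast_nonneg n)
  split_ifs <;> norm_num

theorem Nu_s (i : Z9) (n : ℕ) (x : FF) (F : Finset FF) :
    ∑ y ∈ F, |mu n (s i * x) y - mu n x y| ≤ 2 / n := by
  rcases dr_s_mul i x with h | h
  · have h1 := Nu_shift (fun j => dr j (s i * x)) n F
    simp only [h] at h1
    exact h1
  · have h1 := Nu_shift (fun j => dr j x) n F
    simp only [← h] at h1
    refine le_trans (le_of_eq ?_) h1
    refine Finset.sum_congr rfl fun y _ => ?_
    rw [abs_sub_comm]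
    rfl

/-- Almost invariance: for `g ∈ FF` there is a constant `C` such that
`∑_{y ∈ F} |μ_{g x}(y) - μ_x(y)| ≤ C / n` for all `n > 0`, `x` and finite sets `F`. Proof by
`FF.induct`: `C_1 = 0`; `C_{s g} = C_g + 2`, because for a letter `s` and `x' = g x`
the functions `n μ_{s x'}` and `n μ_{x'}` differ by the difference of two delta functions
(`dr_s_mul`: the sequences `(dr j (s x'))_{j < n}` and `(dr j x')_{j < n}` are shifts by one of each
other). -/
theorem mu_inv (g : FF) : ∃ C : ℝ, 0 ≤ C ∧ ∀ (n : ℕ), 0 < n → ∀ (x : FF) (F : Finset FF),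
    ∑ y ∈ F, |mu n (g * x) y - mu n x y| ≤ C / n := by
  refine induct (P := fun g => ∃ C : ℝ, 0 ≤ C ∧ ∀ (n : ℕ), 0 < n → ∀ (x : FF) (F : Finset FF),
    ∑ y ∈ F, |mu n (g * x) y - mu n x y| ≤ C / n) ?_ ?_ g
  · refine ⟨0, le_rfl, fun n _ x F => ?_⟩
    simp
  · rintro i a ⟨C, hC, h⟩
    refine ⟨C + 2, by linarith, fun n hn x F => ?_⟩
    have h1 := h n hn x F
    have h2 := Nu_s i n (a * x) F
    have h3 : ∀ y, |mu n (s i * a * x) y - mu n x y| ≤
        |mu n (s i * (a * x)) y - mu n (a * x) y| + |mu n (a * x) y - mu n x y| := by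
      intro y
      rw [mul_assoc]
      exact abs_sub_le _ _ _
    refine (Finset.sum_le_sum fun y _ => h3 y).trans ?_
    rw [Finset.sum_add_distrib, add_div]
    linarith

/-- `∑_{e ∈ E} |ν_{g x}(g e) - ν_x(e)| ≤ C / n`: substitute `y = e⁻¹ x` in `mu_inv`
(`(g e)⁻¹ (g x) = e⁻¹ x`). -/
theorem nu_inv (g : FF) : ∃ C : ℝ, 0 ≤ C ∧ ∀ (n : ℕ), 0 < n → ∀ (x : FF) (E : Finset FF),
    ∑ e ∈ E, |nu n (g * x) (g * e) - nu n x e| ≤ C / n := by
  obtain ⟨C, hC, h⟩ := mu_inv g
  refine ⟨C, hC, fun n hn x E => ?_⟩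
  have h1 := h n hn x (E.image fun e => e⁻¹ * x)
  rw [Finset.sum_image (fun e _ e' _ he => inv_injective (mul_right_cancel he))] at h1
  refine le_trans (le_of_eq ?_) h1
  refine Finset.sum_congr rfl fun e _ => ?_
  unfold nu
  have h2 : (g * e)⁻¹ * (g * x) = e⁻¹ * x := by group
  rw [h2]

end FF

end Pool.Agent.H.MP_e11395_an
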